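import Mathlib

set_option autoImplicit false

namespace Pool.MP_d56194_co

open Finset

/-- partial sums of the block sizes (blocks are numbered from `1`) -/
def cs (g : ℕ → ℕ) (a : ℕ) : ℕ := ∑ i ∈ range a, g (i + 1)

/-- number of cells in row blocks behind `a` and column blocks behind `b`; the row block `i`
has length `cs h (s + 1 - i)` -/
def Fb (s : ℕ) (g h : ℕ → ℕ) (a b : ℕ) : ℕ :=
  ∑ i ∈ Ioc a s, g i * (cs h (s + 1 - i) - cs h b)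

/-- the value of the block cut `(a, b)` at the time `k` -/
def cutb (s : ℕ) (g h : ℕ → ℕ) (k a b : ℕ) : ℕ := k * (cs g a + cs h b) + Fb s g h a b

/-- `al` is the minimal cut value -/
def IsAl (s : ℕ) (g h al : ℕ → ℕ) : Prop :=
  (∀ k a b, a ≤ s → b ≤ s → al k ≤ cutb s g h k a b) ∧
    ∀ k, ∃ a b, a ≤ s ∧ b ≤ s ∧ al k = cutb s g h k a b

/-- the defect of the cut `(a, b)` at the time `k` -/
noncomputable def Db (s : ℕ) (g h al : ℕ → ℕ) (k a b : ℕ) : ℝ :=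
  (cutb s g h k a b : ℝ) - al k

/-- block sizes between `N` and `R * N` -/
def Comp (s R N : ℕ) (g : ℕ → ℕ) : Prop := ∀ i, 1 ≤ i → i ≤ s → N ≤ g i ∧ g i ≤ R * N

/-- entries of the extended table with row blocks and column blocks `0 .. s` (`0` is the slack
block) and times `0 .. p - 1` -/
def LE (s p : ℕ) (v : ℕ × ℕ × ℕ) : Prop :=
  v.1 ≤ s ∧ v.2.1 ≤ s ∧ v.2.2 < p ∧ ¬ (v.1 = 0 ∧ v.2.1 = 0) ∧
    (v.1 = 0 ∨ v.2.1 = 0 ∨ v.1 + v.2.1 ≤ s + 1)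

instance (s p : ℕ) (v : ℕ × ℕ × ℕ) : Decidable (LE s p v) := by
  unfold LE
  infer_instance

/-- the entry `v` is an exception for the cut `c` -/
def Oct (c v : ℕ × ℕ × ℕ) : Prop :=
  (v.1 ≤ c.1 ∧ v.2.1 ≤ c.2.1 ∧ v.2.2 ≤ c.2.2) ∨
    (c.1 < v.1 ∧ c.2.1 < v.2.1 ∧ c.2.2 < v.2.2)

instance (c v : ℕ × ℕ × ℕ) : Decidable (Oct c v) := by
  unfold Oct
  infer_instance

/-- all entries -/
def LBox (s p : ℕ) : Finset (ℕ × ℕ × ℕ) := range (s + 1) ×ˢ range (s + 1) ×ˢ range p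

/-- the structure of the set of the nearly tight cuts -/
structure ZP (s p : ℕ) (Z : Finset (ℕ × ℕ × ℕ)) : Prop where
  spos : 0 < s
  ppos : 0 < p
  box : ∀ c ∈ Z, c.1 ≤ s ∧ c.2.1 ≤ s ∧ c.2.2 < p
  z1 : ∀ c ∈ Z, ∀ c' ∈ Z, c.1 ≤ c'.1 → c.2.1 ≤ c'.2.1 → c.2.2 ≤ c'.2.2 →
    (c.1 = c'.1 ∧ c.2.1 = c'.2.1) ∨ (c.1 = c'.1 ∧ c.2.2 = c'.2.2) ∨
      (c.2.1 = c'.2.1 ∧ c.2.2 = c'.2.2)
  z2 : ∀ a b j k l, (a, b, j) ∈ Z → (a, b, l) ∈ Z → j ≤ k → k ≤ l → (a, b, k) ∈ Z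
  z3 : ∀ a b j, (a, b, j) ∈ Z → s ≤ a + b → a + b = s ∧ ∀ k, k ≤ j → (a, b, k) ∈ Z
  z4 : (0, 0, p - 1) ∈ Z
  z4' : ∀ j, (0, 0, j) ∈ Z → j + 1 = p
  z5 : ∀ a a' b j, (a, b, j) ∈ Z → (a', b, j) ∈ Z → a < a' → a' = a + 1
  z5' : ∀ a b b' j, (a, b, j) ∈ Z → (a, b', j) ∈ Z → b < b' → b' = b + 1
  z6 : ∀ a b, (a, b, p - 1) ∈ Z → (a + 1, b, p - 1) ∈ Z → a = 0 ∧ b = 0
  z6' : ∀ a b, (a, b, p - 1) ∈ Z → (a, b + 1, p - 1) ∈ Z → a = 0 ∧ b = 0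

/-- the entries which are no exception for a cut in `Z` -/
def LS (s p : ℕ) (Z : Finset (ℕ × ℕ × ℕ)) (v : ℕ × ℕ × ℕ) : Prop :=
  LE s p v ∧ ∀ c ∈ Z, ¬ Oct c v

instance (s p : ℕ) (Z : Finset (ℕ × ℕ × ℕ)) (v : ℕ × ℕ × ℕ) : Decidable (LS s p Z v) := by
  unfold LS
  infer_instance

/-- the same line sums in all three directions -/
def SameLines (s p : ℕ) (X Y : ℕ × ℕ × ℕ → ℝ) : Prop :=
  (∀ a b, ∑ t ∈ range p, X (a, b, t) = ∑ t ∈ range p, Y (a, b, t)) ∧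
    (∀ a t, ∑ b ∈ range (s + 1), X (a, b, t) = ∑ b ∈ range (s + 1), Y (a, b, t)) ∧
    (∀ b t, ∑ a ∈ range (s + 1), X (a, b, t) = ∑ a ∈ range (s + 1), Y (a, b, t))

/-- thick intervals `(lo j, hi j]` of times, everything else is thin -/
structure TD (s : ℕ) (g h al : ℕ → ℕ) (N : ℕ) (η ψ : ℝ) (K0 p : ℕ) (lo hi sig : ℕ → ℕ) :
    Prop where
  ppos : 0 < p
  lohi : ∀ j, j < p → lo j < hi j
  thick : ∀ j, j < p → η * N + lo j ≤ hi j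
  ord : ∀ j, j + 1 < p → hi j ≤ lo (j + 1)
  last : hi (p - 1) ≤ K0
  lin : ∀ j, j < p → ∀ k, lo j ≤ k → k ≤ hi j → al k = al (lo j) + sig j * (k - lo j)
  sigdec : ∀ j, j + 1 < p → sig (j + 1) < sig j
  siglow : ∀ j, j < p → N ≤ sig j
  thin : (((Icc 1 K0).filter (fun k => ∀ j, j < p → ¬ (lo j < k ∧ k ≤ hi j))).card : ℝ) ≤ ψ * N
  dich : ∀ a b j, a ≤ s → b ≤ s → j < p →
    Db s g h al (hi j) a b ≤ ψ * (N : ℝ) ^ 2 ∨ η * (N : ℝ) ^ 2 ≤ Db s g h al (hi j) a b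

/-- the nearly tight cuts -/
noncomputable def ZD (s : ℕ) (g h al : ℕ → ℕ) (N : ℕ) (ψ : ℝ) (p : ℕ) (hi : ℕ → ℕ) :
    Finset (ℕ × ℕ × ℕ) := by
  classical
  exact (LBox s p).filter (fun c => Db s g h al (hi c.2.2) c.1 c.2.1 ≤ ψ * (N : ℝ) ^ 2)

/-- the thin times -/
noncomputable def Thin (K0 p : ℕ) (lo hi : ℕ → ℕ) : Finset ℕ :=
  (Icc 1 K0).filter (fun k => ∀ j, j < p → ¬ (lo j < k ∧ k ≤ hi j))

/-- real solutions: a table for every thick interval and one table for all thin times -/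
structure TS (s : ℕ) (g h al : ℕ → ℕ) (K0 p : ℕ) (lo hi sig : ℕ → ℕ)
    (X : ℕ × ℕ × ℕ → ℝ) (Y : ℕ → ℕ → ℝ) : Prop where
  nonneg : ∀ v, 0 ≤ X v
  supp : ∀ v, ¬ LE s p v → X v = 0
  tnonneg : ∀ i x, 0 ≤ Y i x
  tsupp : ∀ i x, ¬ LE s 1 (i, x, 0) → Y i x = 0
  cell : ∀ i x, 1 ≤ i → 1 ≤ x → i + x ≤ s + 1 →
    ∑ j ∈ range p, X (i, x, j) + Y i x = (g i : ℝ) * h x
  row : ∀ i j, 1 ≤ i → i ≤ s → j < p →
    ∑ x ∈ range (s + 1), X (i, x, j) = (g i : ℝ) * ((hi j : ℝ) - lo j)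
  col : ∀ x j, 1 ≤ x → x ≤ s → j < p →
    ∑ i ∈ range (s + 1), X (i, x, j) = (h x : ℝ) * ((hi j : ℝ) - lo j)
  tot : ∀ j, j < p → ∑ i ∈ Icc 1 s, ∑ x ∈ Icc 1 s, X (i, x, j) =
    (sig j : ℝ) * ((hi j : ℝ) - lo j)
  trow : ∀ i, 1 ≤ i → i ≤ s → ∑ x ∈ range (s + 1), Y i x = (g i : ℝ) * (Thin K0 p lo hi).card
  tcol : ∀ x, 1 ≤ x → x ≤ s → ∑ i ∈ range (s + 1), Y i x = (h x : ℝ) * (Thin K0 p lo hi).card
  ttot : ∑ i ∈ Icc 1 s, ∑ x ∈ Icc 1 s, Y i x =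
    ∑ k ∈ Thin K0 p lo hi, ((al k : ℝ) - al (k - 1))

end Pool.MP_d56194_co
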