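import Mathlib
import Pool.Agent.Lib.MP_d56194_co.F.F4

set_option autoImplicit false

namespace Pool.MP_d56194_co

open Finset Real

/-- the boundaries of a partition of `[0, M)` in `K` intervals `[e k, e (k + 1))` -/
structure Bnd (M : ℕ) (e : ℕ → ℕ) (K : ℕ) : Prop where
  zero : e 0 = 0
  step : ∀ k, k < K → e k < e (k + 1)
  last : e K = M

/-- the number of the interval which contains `r` -/
def bk (e : ℕ → ℕ) (K r : ℕ) : ℕ := ((range K).filter (fun k => e (k + 1) ≤ r)).card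

/-- the volume of a block -/
noncomputable def vol (e1 e2 e3 : ℕ → ℕ) (k l m : ℕ) : ℝ :=
  ((e1 (k + 1) : ℝ) - e1 k) * ((e2 (l + 1) : ℝ) - e2 l) * ((e3 (m + 1) : ℝ) - e3 m)

/-- a block table, spread uniformly -/
noncomputable def spr (M : ℕ) (e1 e2 e3 : ℕ → ℕ) (K1 K2 K3 : ℕ) (X : ℕ → ℕ → ℕ → ℝ)
    (v : V3) : ℝ :=
  if v ∈ Box M then X (bk e1 K1 v.1) (bk e2 K2 v.2.1) (bk e3 K3 v.2.2) /
    vol e1 e2 e3 (bk e1 K1 v.1) (bk e2 K2 v.2.1) (bk e3 K3 v.2.2) else 0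

/-- the data are compatible with the blocks -/
structure Aff (M : ℕ) (d : Dat) (e1 e2 e3 : ℕ → ℕ) (K1 K2 K3 : ℕ) : Prop where
  b1 : Bnd M e1 K1
  b2 : Bnd M e2 K2
  b3 : Bnd M e3 K3
  s1 : ∀ k r, k < K1 → e1 k ≤ r → r < e1 (k + 1) → d.S1 r = d.S1 (e1 k)
  s2 : ∀ k r, k < K2 → e2 k ≤ r → r < e2 (k + 1) → d.S2 r = d.S2 (e2 k)
  s3 : ∀ k r, k < K3 → e3 k ≤ r → r < e3 (k + 1) → d.S3 r = d.S3 (e3 k)
  a12 : ∀ k a b, k < K1 → e1 k ≤ a → a ≤ e1 (k + 1) → b ≤ M →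
    ((e1 (k + 1) : ℝ) - e1 k) * d.U12 a b =
      ((e1 (k + 1) : ℝ) - a) * d.U12 (e1 k) b + ((a : ℝ) - e1 k) * d.U12 (e1 (k + 1)) b
  a12' : ∀ k l b, k ≤ K1 → l < K2 → e2 l ≤ b → b ≤ e2 (l + 1) →
    ((e2 (l + 1) : ℝ) - e2 l) * d.U12 (e1 k) b =
      ((e2 (l + 1) : ℝ) - b) * d.U12 (e1 k) (e2 l) +
        ((b : ℝ) - e2 l) * d.U12 (e1 k) (e2 (l + 1))

/-- the block polytope -/
structure KB (d : Dat) (e1 e2 e3 : ℕ → ℕ) (K1 K2 K3 : ℕ) (X : ℕ → ℕ → ℕ → ℝ) : Prop where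
  nonneg : ∀ k l m, 0 ≤ X k l m
  m1 : ∀ k, k < K1 → ∑ l ∈ range K2, ∑ m ∈ range K3, X k l m =
    ((e1 (k + 1) : ℝ) - e1 k) * d.S1 (e1 k)
  m2 : ∀ l, l < K2 → ∑ k ∈ range K1, ∑ m ∈ range K3, X k l m =
    ((e2 (l + 1) : ℝ) - e2 l) * d.S2 (e2 l)
  m3 : ∀ m, m < K3 → ∑ k ∈ range K1, ∑ l ∈ range K2, X k l m =
    ((e3 (m + 1) : ℝ) - e3 m) * d.S3 (e3 m)
  u12 : ∀ a b, a ≤ K1 → b ≤ K2 → ∑ k ∈ range a, ∑ l ∈ range b, ∑ m ∈ range K3, X k l m ≤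
    d.U12 (e1 a) (e2 b)
  u13 : ∀ a c, a ≤ K1 → c ≤ K3 → ∑ k ∈ range a, ∑ l ∈ range K2, ∑ m ∈ range c, X k l m ≤
    d.U13 (e1 a) (e3 c)
  u23 : ∀ b c, b ≤ K2 → c ≤ K3 → ∑ k ∈ range K1, ∑ l ∈ range b, ∑ m ∈ range c, X k l m ≤
    d.U23 (e2 b) (e3 c)

end Pool.MP_d56194_co
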