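import Mathlib
import Pool.Agent.Lib.MP_d56194_co.F.F7
import Pool.Agent.Lib.MP_d56194_co.I.I1

set_option autoImplicit false

namespace Pool.MP_d56194_co

open Finset

/-- the data of the diagram with the row lengths `lam` and the level differences `S` -/
noncomputable def dd (q M : ℕ) (lam : ℕ → ℕ) (S : ℕ → ℕ) : Dat where
  S1 := fun i => (q : ℝ) * lam i
  S2 := fun x => (q : ℝ) * ∑ i ∈ range M, if x < lam i then (1 : ℝ) else 0
  S3 := fun t => ((S t : ℕ) : ℝ)
  U12 := fun a b => (q : ℝ) * ∑ i ∈ range a, ∑ x ∈ range b,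
    if x < lam i then (1 : ℝ) else 0
  U13 := fun a b => (a : ℝ) * b
  U23 := fun a b => (a : ℝ) * b

/-- The maximisers of the entropy for an arbitrary shape, with their structure. -/
theorem fine_max (m N : ℕ) (lam : ℕ → ℕ) (hanti : Antitone lam) (hm : ∀ i, m ≤ i → lam i = 0)
    (hN : ∀ i, lam i ≤ N) : ∃ (q M : ℕ) (A B : ℕ → ℕ), 0 < q ∧ M = q * (m + N + 1) ∧
      (∀ t, A t ≤ m) ∧ (∀ t, B t ≤ N) ∧
      (∀ c, ∑ t ∈ range c, (A t + B t) = ct m lam q c (A c) (B c)) ∧
      (∀ c a b, a ≤ m → b ≤ N → ct m lam q c (A c) (B c) ≤ ct m lam q c a b) ∧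
      (∀ c a b, a ≤ m → b ≤ N → ct m lam q (c + 1) (A c) (B c) ≤ ct m lam q (c + 1) a b) ∧
      Good M (dd q M lam (fun t => A t + B t)) ∧
      (∃ L, IsMaxN M (dd q M lam (fun t => A t + B t)) L) ∧
      ∀ L, IsMaxN M (dd q M lam (fun t => A t + B t)) L →
        Sol m N M q (fun i x => x < lam i) (fun t => A t + B t) (fun i x t => L (i, x, t)) := by
  classical
  set q := (m + N).factorial with hqdef
  have hq : ∀ k, 0 < k → k ≤ m + N → k ∣ q := fun k h1 h2 => Nat.dvd_factorial h1 h2
  have hqpos : 0 < q := Nat.factorial_pos _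
  choose A B hAm hBN hcut1 hcut2 using common_cut m N lam q hq
  set al : ℕ → ℕ := fun c => ct m lam q c (A c) (B c) with hal
  have hal_succ : ∀ c, ct m lam q (c + 1) (A c) (B c) = al (c + 1) := by
    intro c
    apply le_antisymm
    · exact hcut2 c _ _ (hAm _) (hBN _)
    · exact hcut1 (c + 1) _ _ (hAm _) (hBN _)
  have hal_step : ∀ c, al (c + 1) = al c + (A c + B c) := by
    intro c
    rw [← hal_succ c]
    simp only [hal]
    unfold ct
    ring
  have hal0 : al 0 = 0 := by
    have := hcut1 0 m 0 le_rfl (Nat.zero_le _)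
    have h2 : ct m lam q 0 m 0 = 0 := by unfold ct; simp
    simp only [hal]
    omega
  have hal_sum : ∀ c, ∑ t ∈ range c, (A t + B t) = al c := by
    intro c
    induction c with
    | zero => rw [hal0]; simp
    | succ c ih => rw [Finset.sum_range_succ, ih, hal_step]
  obtain ⟨n, hn0, hnmono, hnadm, hncut⟩ := adm_chain m N lam hanti hN q
  have hntot : ∀ c, ∑ i ∈ range m, n c i = al c := by
    intro c
    apply le_antisymm
    · exact adm_le_ct m lam q c (n c) (hnadm c) (A c) (B c)
    · obtain ⟨a, b, ha, hb, hab⟩ := hncut c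
      exact (hcut1 c a b ha hb).trans hab
  have hnle : ∀ c i, n c i ≤ q * lam i := by
    intro c i
    by_cases hi : i < m
    · have h1 := (hnadm c).2.2 0
      rw [Nat.zero_mul, Nat.le_zero, Finset.sum_eq_zero_iff] at h1
      have h2 := h1 i (Finset.mem_range.mpr hi)
      rw [Nat.sub_zero] at h2
      omega
    · rw [(hnadm c).2.1 i (by omega)]
      exact Nat.zero_le _
  set M := q * (m + N + 1) with hM
  have hmM : m ≤ M := by
    have : 1 * (m + N + 1) ≤ q * (m + N + 1) := Nat.mul_le_mul_right _ hqpos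
    omega
  have hNM : N ≤ M := by
    have : 1 * (m + N + 1) ≤ q * (m + N + 1) := Nat.mul_le_mul_right _ hqpos
    omega
  have hfull_ct : ∑ i ∈ range m, q * lam i ≤ al M := by
    simp only [hal]
    have ha := hAm M
    have hb := hBN M
    set a := A M
    set b := B M
    unfold ct
    rw [← Finset.sum_range_add_sum_Ico _ ha]
    have e1 : ∑ i ∈ range a, q * lam i ≤ a * (q * N) := by
      calc ∑ i ∈ range a, q * lam i ≤ ∑ _i ∈ range a, q * N :=
            Finset.sum_le_sum (fun i _ => Nat.mul_le_mul_left q (hN i))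
        _ = a * (q * N) := by rw [Finset.sum_const, Finset.card_range, smul_eq_mul]
    have e2 : ∑ i ∈ Ico a m, q * lam i ≤ ∑ i ∈ Ico a m, q * (lam i - b) + m * (q * b) := by
      have h1 : ∑ i ∈ Ico a m, q * lam i ≤ ∑ i ∈ Ico a m, (q * (lam i - b) + q * b) := by
        apply Finset.sum_le_sum
        intro i _
        rw [← Nat.mul_add]
        exact Nat.mul_le_mul_left q (by omega)
      rw [Finset.sum_add_distrib, Finset.sum_const, Nat.card_Ico, smul_eq_mul] at h1
      have h2 : (m - a) * (q * b) ≤ m * (q * b) := Nat.mul_le_mul_right _ (by omega)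
      omega
    have e3 : a * (q * N) + m * (q * b) ≤ M * (a + b) := by
      rw [hM]
      have e4 : q * (m + N + 1) * (a + b) = a * (q * N) + m * (q * b) + (a * (q * m) +
          b * (q * N) + q * (a + b)) := by ring
      rw [e4]
      exact Nat.le_add_right _ _
    omega
  have hnM : ∀ i, n M i = q * lam i := by
    intro i
    by_cases hi : i < m
    · have h1 : ∑ i ∈ range m, n M i = ∑ i ∈ range m, q * lam i := by
        apply le_antisymm
        · exact Finset.sum_le_sum (fun i _ => hnle M i)
        · rw [hntot M]; exact hfull_ct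
      exact (Finset.sum_eq_sum_iff_of_le (fun i _ => hnle M i)).mp h1 i
        (Finset.mem_range.mpr hi)
    · rw [(hnadm M).2.1 i (by omega), hm i (by omega), Nat.mul_zero]
  have hlamM : ∀ i, lam i ≤ M := fun i => (hN i).trans hNM
  -- the data
  let d : Dat := dd q M lam (fun t => A t + B t)
  have hqR : (0 : ℝ) < q := by exact_mod_cast hqpos
  have hgood : Good M d := by
    refine ⟨fun _ _ => rfl, fun _ _ => rfl, ?_, ?_, ?_, ?_⟩
    · intro a _
      simp only [d, dd]
      have h1 : ((lam (a + 1) : ℕ) : ℝ) ≤ lam a := by exact_mod_cast hanti (Nat.le_succ a)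
      exact mul_le_mul_of_nonneg_left h1 hqR.le
    · intro a _
      simp only [d, dd]
      apply mul_le_mul_of_nonneg_left _ hqR.le
      apply Finset.sum_le_sum
      intro i _
      split_ifs <;> first | (exfalso; omega) | norm_num
    · simp only [d, dd]
      rw [← Finset.mul_sum, ← Finset.mul_sum, Finset.sum_comm]
      congr 1
      apply Finset.sum_congr rfl
      intro i _
      rw [sum_ind_lt' M (lam i) (hlamM i)]
    · intro t ht
      refine ⟨A (t + 1), B (t + 1), (hAm _).trans hmM, (hBN _).trans hNM, ?_⟩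
      have ha := hAm (t + 1)
      have hb := hBN (t + 1)
      have e0 : ∑ τ ∈ range (t + 1), d.S3 τ = ((al (t + 1) : ℕ) : ℝ) := by
        rw [← hal_sum (t + 1), Nat.cast_sum]
        rfl
      rw [e0]
      simp only [hal]
      set a := A (t + 1)
      set b := B (t + 1)
      unfold ct
      simp only [d, dd]
      rw [Nat.cast_add, Nat.cast_mul, Nat.cast_add a b, Nat.cast_sum]
      congr 1
      have haM : a ≤ M := ha.trans hmM
      have e1 : ∑ i ∈ Ico a m, ((q * (lam i - b) : ℕ) : ℝ) =
          ∑ i ∈ Ico a M, ((q * (lam i - b) : ℕ) : ℝ) := by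
        apply Finset.sum_subset (Finset.Ico_subset_Ico_right hmM)
        intro i hi hi'
        rw [Finset.mem_Ico] at hi hi'
        rw [hm i (by omega)]
        simp
      have e2 : ∀ i, ((q * (lam i - b) : ℕ) : ℝ) = (q : ℝ) * lam i -
          q * ∑ x ∈ range b, if x < lam i then (1 : ℝ) else 0 := by
        intro i
        rw [← ind_sum q (lam i) b]
        have : q * (lam i - b) ≤ q * lam i := Nat.mul_le_mul_left q (Nat.sub_le _ _)
        rw [Nat.cast_sub this]
        push_cast
        ring
      have e3 : ∑ x ∈ range b, (q : ℝ) * ∑ i ∈ range M, (if x < lam i then (1 : ℝ) else 0) =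
          ∑ i ∈ range M, (q : ℝ) * ∑ x ∈ range b, if x < lam i then (1 : ℝ) else 0 := by
        rw [← Finset.mul_sum, ← Finset.mul_sum, Finset.sum_comm]
      have e4 : (q : ℝ) * ∑ i ∈ range a, ∑ x ∈ range b, (if x < lam i then (1 : ℝ) else 0) =
          ∑ i ∈ range a, (q : ℝ) * ∑ x ∈ range b, if x < lam i then (1 : ℝ) else 0 := by
        rw [Finset.mul_sum]
      rw [e1, Finset.sum_congr rfl (fun i _ => e2 i), Finset.sum_sub_distrib, e3, e4,
        ← Finset.sum_range_add_sum_Ico (fun i => (q : ℝ) * (lam i : ℝ)) haM,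
        ← Finset.sum_range_add_sum_Ico (fun i => (q : ℝ) * ∑ x ∈ range b,
          if x < lam i then (1 : ℝ) else 0) haM]
      ring
  -- the starting point
  have hHM : ∀ i b, b ≤ M → HH lam q n i b M =
      q * ∑ x ∈ range b, if x < lam i then (1 : ℝ) else 0 := by
    intro i b _
    unfold HH
    rw [hnM i]
    exact ind_sum q (lam i) b
  have hHc : ∀ i c, HH lam q n i M c = ((n c i : ℕ) : ℝ) := by
    intro i c
    unfold HH
    have : lam i - M = 0 := by have := hlamM i; omega
    rw [this, Nat.mul_zero, Nat.sub_zero]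
  have hmassL := mass_L00 M lam q n hn0 hnle
  have hne : (KN M d).Nonempty := by
    refine ⟨L00 M lam q n, ?_, ?_, ?_, ?_, ?_, ?_, ?_, ?_⟩
    · exact fun v => L00_nonneg M lam q n hnmono v
    · intro v hv
      unfold L00
      rw [if_neg hv]
    · intro p hp
      rw [mass_eq_sub M _ (fun v => v.1) p,
        mass_congr M _ (fun v : V3 => v.1 < p + 1) (fun v => v.1 < p + 1 ∧ v.2.1 < M ∧ v.2.2 < M)
          (fun v hv => by rw [mem_Box] at hv; tauto),
        mass_congr M _ (fun v : V3 => v.1 < p) (fun v => v.1 < p ∧ v.2.1 < M ∧ v.2.2 < M)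
          (fun v hv => by rw [mem_Box] at hv; tauto),
        hmassL (p + 1) M M hp le_rfl le_rfl, hmassL p M M (by omega) le_rfl le_rfl,
        Finset.sum_range_succ, hHc, hnM]
      simp only [d, dd]
      push_cast
      ring
    · intro x hx
      rw [mass_eq_sub M _ (fun v => v.2.1) x,
        mass_congr M _ (fun v : V3 => v.2.1 < x + 1) (fun v => v.1 < M ∧ v.2.1 < x + 1 ∧ v.2.2 < M)
          (fun v hv => by rw [mem_Box] at hv; tauto),
        mass_congr M _ (fun v : V3 => v.2.1 < x) (fun v => v.1 < M ∧ v.2.1 < x ∧ v.2.2 < M)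
          (fun v hv => by rw [mem_Box] at hv; tauto),
        hmassL M (x + 1) M le_rfl hx le_rfl, hmassL M x M le_rfl (by omega) le_rfl,
        ← Finset.sum_sub_distrib]
      simp only [d, dd]
      rw [Finset.mul_sum]
      apply Finset.sum_congr rfl
      intro i _
      rw [hHM i (x + 1) hx, hHM i x (by omega), Finset.sum_range_succ]
      ring
    · intro t ht
      rw [mass_eq_sub M _ (fun v => v.2.2) t,
        mass_congr M _ (fun v : V3 => v.2.2 < t + 1) (fun v => v.1 < M ∧ v.2.1 < M ∧ v.2.2 < t + 1)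
          (fun v hv => by rw [mem_Box] at hv; tauto),
        mass_congr M _ (fun v : V3 => v.2.2 < t) (fun v => v.1 < M ∧ v.2.1 < M ∧ v.2.2 < t)
          (fun v hv => by rw [mem_Box] at hv; tauto),
        hmassL M M (t + 1) le_rfl le_rfl ht, hmassL M M t le_rfl le_rfl (by omega)]
      have e1 : ∀ c, ∑ i ∈ range M, HH lam q n i M c = ((al c : ℕ) : ℝ) := by
        intro c
        rw [← hntot c, Nat.cast_sum]
        symm
        rw [Finset.sum_congr rfl (fun i _ => hHc i c)]
        apply Finset.sum_subset (Finset.range_subset_range.mpr hmM)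
        intro i _ hi
        rw [Finset.mem_range] at hi
        rw [(hnadm c).2.1 i (by omega)]
        simp
      rw [e1, e1, hal_step]
      simp only [d, dd]
      push_cast
      ring
    · intro a b ha hb
      rw [mass_congr M _ (fun v : V3 => v.1 < a ∧ v.2.1 < b)
          (fun v => v.1 < a ∧ v.2.1 < b ∧ v.2.2 < M)
          (fun v hv => by rw [mem_Box] at hv; tauto), hmassL a b M ha hb le_rfl]
      apply le_of_eq
      simp only [d, dd]
      rw [Finset.mul_sum]
      apply Finset.sum_congr rfl
      intro i _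
      exact hHM i b hb
    · intro a c ha hc
      rw [mass_congr M _ (fun v : V3 => v.1 < a ∧ v.2.2 < c)
          (fun v => v.1 < a ∧ v.2.1 < M ∧ v.2.2 < c)
          (fun v hv => by rw [mem_Box] at hv; tauto), hmassL a M c ha le_rfl hc]
      simp only [d, dd]
      have e1 : ∑ i ∈ range a, HH lam q n i M c ≤ ∑ _i ∈ range a, (c : ℝ) := by
        apply Finset.sum_le_sum
        intro i _
        rw [hHc]
        exact_mod_cast (hnadm c).1 i
      rw [Finset.sum_const, Finset.card_range, nsmul_eq_mul] at e1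
      exact e1
    · intro b c hb hc
      rw [mass_congr M _ (fun v : V3 => v.2.1 < b ∧ v.2.2 < c)
          (fun v => v.1 < M ∧ v.2.1 < b ∧ v.2.2 < c)
          (fun v hv => by rw [mem_Box] at hv; tauto), hmassL M b c le_rfl hb hc]
      simp only [d, dd]
      have e1 : ∑ i ∈ range M, HH lam q n i b c =
          ((∑ i ∈ range m, (n c i - q * (lam i - b)) : ℕ) : ℝ) := by
        rw [Nat.cast_sum]
        symm
        apply Finset.sum_subset (Finset.range_subset_range.mpr hmM)
        intro i _ hi
        rw [Finset.mem_range] at hi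
        rw [(hnadm c).2.1 i (by omega)]
        simp
      rw [e1]
      exact_mod_cast (hnadm c).2.2 b
  obtain ⟨L, hL⟩ := exists_maxN M d ((q : ℝ) * N) (by
    intro i _
    simp only [d, dd]
    have h1 : ((lam i : ℕ) : ℝ) ≤ N := by exact_mod_cast hN i
    exact mul_le_mul_of_nonneg_left h1 hqR.le) (by positivity) hne
  have hA12 : ∀ (L : V3 → ℝ), IsMaxN M d L → ∀ i x, i < M → x < M →
      marg M (fun v => L (rotN v)) i x = (q : ℝ) * if x < lam i then 1 else 0 :=
    fun L hL => margA M lam hanti hlamM (q : ℝ) hqR d (fun i _ => rfl) (fun x _ => rfl)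
      (fun a b _ _ => rfl) L hL
  have hM0 : 0 < M := Nat.mul_pos hqpos (Nat.succ_pos _)
  exact ⟨q, M, A, B, hqpos, rfl, hAm, hBN, hal_sum, hcut1, hcut2, hgood, ⟨L, hL⟩,
    fun L hL => sol_of_max m N M q lam hanti hm hN hmM hNM (fun t => A t + B t) d hgood
      (fun t _ => rfl) hA12 L hL⟩

end Pool.MP_d56194_co
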