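import Mathlib
import Pool.Agent.Lib.MP_d56194_co.L.L0
import Pool.Agent.Lib.MP_d56194_co.L.L0b
import Pool.Agent.Lib.MP_d56194_co.L.L15

set_option autoImplicit false

namespace Pool.MP_d56194_co

open Finset Real

/-- the rows have the lengths `lam`, with the row blocks `g` and the column blocks `h` -/
structure Shp (s : ℕ) (g h lam : ℕ → ℕ) : Prop where
  blk : ∀ k r, k < s → cs g k ≤ r → r < cs g (k + 1) → lam r = cs h (s - k)
  out : ∀ r, cs g s ≤ r → lam r = 0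

/-- the levels `be` with the differences `S`, for the times `c / q` -/
structure FL (s : ℕ) (g h al : ℕ → ℕ) (q : ℕ) (S be : ℕ → ℕ) : Prop where
  sum : ∀ c, ∑ t ∈ range c, S t = be c
  anti : Antitone S
  le : ∀ c a b, a ≤ s → b ≤ s → be c ≤ c * (cs g a + cs h b) + q * Fb s g h a b
  ex : ∀ c, ∃ a b, a ≤ s ∧ b ≤ s ∧ be c = c * (cs g a + cs h b) + q * Fb s g h a b
  lev : ∀ k, be (q * k) = q * al k

/-- block boundaries with one more block up to `M` -/
def eb (s M : ℕ) (g : ℕ → ℕ) (k : ℕ) : ℕ := if k ≤ s then cs g k else M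

/-- the sum over a block and the fine times in `I` -/
noncomputable def fsum (L : ℕ → ℕ → ℕ → ℝ) (g h : ℕ → ℕ) (I : Finset ℕ) (i x : ℕ) : ℝ :=
  ∑ t ∈ I, ∑ r ∈ Ico (cs g (i - 1)) (cs g i), ∑ c ∈ Ico (cs h (x - 1)) (cs h x), L r c t

/-- the extended table for the fine times in `I` -/
noncomputable def ftab (s q : ℕ) (g h : ℕ → ℕ) (L : ℕ → ℕ → ℕ → ℝ) (I : Finset ℕ)
    (i x : ℕ) : ℝ :=
  if LE s 1 (i, x, 0) then
    (if x = 0 then ((g i : ℝ) * I.card - ∑ x' ∈ Icc 1 s, fsum L g h I i x') / q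
    else if i = 0 then ((h x : ℝ) * I.card - ∑ i' ∈ Icc 1 s, fsum L g h I i' x) / q
    else fsum L g h I i x / q)
  else 0

/-- the tables of the thick intervals -/
noncomputable def XS (s q p : ℕ) (g h lo hi : ℕ → ℕ) (L : ℕ → ℕ → ℕ → ℝ)
    (v : ℕ × ℕ × ℕ) : ℝ :=
  if v.2.2 < p then ftab s q g h L (Ico (q * lo v.2.2) (q * hi v.2.2)) v.1 v.2.1 else 0

/-- the table of the thin times -/
noncomputable def YS (s q K0 p : ℕ) (g h lo hi : ℕ → ℕ) (L : ℕ → ℕ → ℕ → ℝ)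
    (i x : ℕ) : ℝ :=
  ftab s q g h L ((range (q * K0)).filter (fun t => t / q + 1 ∈ Thin K0 p lo hi)) i x

end Pool.MP_d56194_co
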