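import Mathlib
import Pool.Agent.Lib.MP_d56194_co.L.L0

set_option autoImplicit false

namespace Pool.MP_d56194_co

open Finset

/-- inverting the sums over the elements above -/
theorem upper_sums (Z : Finset (ℕ × ℕ × ℕ)) (f : ℕ × ℕ × ℕ → ℝ) :
    ∃ l : ℕ × ℕ × ℕ → ℝ, ∀ c ∈ Z, ∑ c' ∈ Z, (if c ≤ c' then l c' else 0) = f c := by
  classical
  induction Z using Finset.strongInduction with
  | H Z ih =>
    by_cases hne : Z.Nonempty
    · obtain ⟨c0, hc0⟩ := Z.exists_minimal hne
      have hc0Z : c0 ∈ Z := hc0.1
      obtain ⟨l', hl'⟩ := ih (Z.erase c0) (Finset.erase_ssubset hc0Z)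
      refine ⟨fun c => if c = c0 then f c0 - ∑ c' ∈ Z.erase c0, (if c0 ≤ c' then l' c' else 0)
        else l' c, ?_⟩
      have hsplit : ∀ c, ∑ c' ∈ Z, (if c ≤ c' then (if c' = c0 then f c0 - ∑ c' ∈ Z.erase c0,
          (if c0 ≤ c' then l' c' else 0) else l' c') else 0) =
          (if c ≤ c0 then f c0 - ∑ c' ∈ Z.erase c0, (if c0 ≤ c' then l' c' else 0) else 0) +
          ∑ c' ∈ Z.erase c0, (if c ≤ c' then l' c' else 0) := by
        intro c
        rw [← Finset.add_sum_erase Z _ hc0Z]
        congr 1
        · simp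
        · apply Finset.sum_congr rfl
          intro c' hc'
          rw [if_neg (Finset.ne_of_mem_erase hc')]
      intro c hc
      simp only
      rw [hsplit]
      by_cases hcc : c = c0
      · subst hcc
        rw [if_pos le_rfl]
        ring
      · have h1 : ¬ c ≤ c0 := by
          intro h2
          have h3 := hc0.2 hc h2
          exact hcc (le_antisymm h2 h3)
        rw [if_neg h1, zero_add]
        exact hl' c (Finset.mem_erase.mpr ⟨hcc, hc⟩)
    · refine ⟨fun _ => 0, ?_⟩
      intro c hc
      exact absurd ⟨c, hc⟩ hne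

/-- the indicator of the exceptions as a product -/
theorem oct_prod (c v : ℕ × ℕ × ℕ) : (if Oct c v then (1 : ℝ) else 0) =
    (if v.1 ≤ c.1 then 1 else 0) * ((if v.2.1 ≤ c.2.1 then 1 else 0) *
      (if v.2.2 ≤ c.2.2 then 1 else 0)) +
    (1 - (if v.1 ≤ c.1 then 1 else 0)) * ((1 - (if v.2.1 ≤ c.2.1 then 1 else 0)) *
      (1 - (if v.2.2 ≤ c.2.2 then 1 else 0))) := by
  unfold Oct
  by_cases h1 : v.1 ≤ c.1 <;> by_cases h2 : v.2.1 ≤ c.2.1 <;> by_cases h3 : v.2.2 ≤ c.2.2 <;>
    simp [h1, h2, h3, not_lt.mpr, not_le.mp]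

/-- the third difference over a unit cube -/
def cub (y : ℕ × ℕ × ℕ → ℝ) (i x t : ℕ) : ℝ :=
  y (i, x, t) - y (i + 1, x, t) - y (i, x + 1, t) - y (i, x, t + 1) + y (i + 1, x + 1, t) +
    y (i + 1, x, t + 1) + y (i, x + 1, t + 1) - y (i + 1, x + 1, t + 1)

theorem cub_oct (c : ℕ × ℕ × ℕ) (i x t : ℕ) :
    cub (fun v => if Oct c v then (1 : ℝ) else 0) i x t = 0 := by
  unfold cub
  simp only [oct_prod]
  ring

theorem cub_pot (P Q R : ℕ → ℕ → ℝ) (i x t : ℕ) :
    cub (fun v => P v.1 v.2.1 + Q v.1 v.2.2 + R v.2.1 v.2.2) i x t = 0 := by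
  unfold cub
  ring

/-- A potential which vanishes on the support is a combination of the exception indicators. -/
theorem lm_span (s p : ℕ) (Z : Finset (ℕ × ℕ × ℕ)) (hZ : ZP s p Z) (P Q R : ℕ → ℕ → ℝ)
    (h : ∀ v, LS s p Z v → P v.1 v.2.1 + Q v.1 v.2.2 + R v.2.1 v.2.2 = 0) :
    ∃ l : ℕ × ℕ × ℕ → ℝ, ∀ v, LE s p v →
      P v.1 v.2.1 + Q v.1 v.2.2 + R v.2.1 v.2.2 = ∑ c ∈ Z, if Oct c v then l c else 0 := by
  classical
  have hs := hZ.spos
  have hp := hZ.ppos
  set Q' : ℕ → ℕ → ℝ := fun i t => if t = p then - P i 0 else Q i t with hQ'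
  set R' : ℕ → ℕ → ℝ := fun x t => if t = p then P 0 0 - P 0 x else R x t with hR'
  set y : ℕ × ℕ × ℕ → ℝ := fun v => P v.1 v.2.1 + Q' v.1 v.2.2 + R' v.2.1 v.2.2 with hy
  obtain ⟨l, hl⟩ := upper_sums Z y
  set Y : ℕ × ℕ × ℕ → ℝ := fun v => y v - ∑ c ∈ Z, (if Oct c v then l c else 0) with hY
  -- the extended grid
  set Gd : ℕ × ℕ × ℕ → Prop := fun v => v.1 ≤ s ∧ v.2.1 ≤ s ∧ v.2.2 ≤ p ∧
    (v.1 = 0 ∨ v.2.1 = 0 ∨ v.1 + v.2.1 ≤ s + 1) with hGd
  have hcub : ∀ i x t, cub Y i x t = 0 := by
    intro i x t
    have h1 : cub Y i x t = cub y i x t - ∑ c ∈ Z, l c *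
        cub (fun v => if Oct c v then (1 : ℝ) else 0) i x t := by
      have h2 : ∀ v, ∑ c ∈ Z, (if Oct c v then l c else 0) =
          ∑ c ∈ Z, l c * (if Oct c v then (1 : ℝ) else 0) := by
        intro v
        apply Finset.sum_congr rfl
        intro c _
        split_ifs <;> simp
      unfold cub
      simp only [hY, h2, mul_add, mul_sub, Finset.sum_add_distrib, Finset.sum_sub_distrib]
      ring
    rw [h1]
    have h2 : cub y i x t = 0 := cub_pot P Q' R' i x t
    rw [h2]
    simp [cub_oct]
  have hz4 := hZ.z4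
  have hfar : ∀ c ∈ Z, ∀ c' ∈ Z, ¬ (c.1 < c'.1 ∧ c.2.1 < c'.2.1 ∧ c.2.2 < c'.2.2) := by
    rintro c hc c' hc' ⟨h1, h2, h3⟩
    rcases hZ.z1 c hc c' hc' h1.le h2.le h3.le with h4 | h4 | h4 <;> omega
  -- no exception
  have hnone : ∀ w, Gd w → (∀ c ∈ Z, ¬ Oct c w) → Y w = 0 := by
    rintro ⟨i, x, t⟩ ⟨g1, g2, g3, g4⟩ hno
    simp only at g1 g2 g3 g4
    have h1 : ∑ c ∈ Z, (if Oct c (i, x, t) then l c else 0) = 0 :=
      Finset.sum_eq_zero (fun c hc => if_neg (hno c hc))
    simp only [hY]
    rw [h1, sub_zero]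
    rcases g3.lt_or_eq with h2 | h2
    · have h3 : ¬ (i = 0 ∧ x = 0) := by
        rintro ⟨rfl, rfl⟩
        apply hno _ hz4
        left
        simp only
        omega
      have h4 := h (i, x, t) ⟨⟨g1, g2, h2, h3, g4⟩, hno⟩
      simp only [hy, hQ', hR']
      rw [if_neg (by omega), if_neg (by omega)]
      exact h4
    · subst h2
      have h3 : i = 0 ∨ x = 0 := by
        by_contra hcon
        push Not at hcon
        apply hno _ hz4
        right
        simp only
        omega
      rcases h3 with rfl | rfl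
      · simp only [hy, hQ', hR', if_true]
        ring
      · simp only [hy, hQ', hR', if_true]
        ring
  -- upper type
  have hup : ∀ n : ℕ, ∀ v, Gd v → (∃ c ∈ Z, v.1 ≤ c.1 ∧ v.2.1 ≤ c.2.1 ∧ v.2.2 ≤ c.2.2) →
      2 * s + p ≤ n + (v.1 + v.2.1 + v.2.2) → Y v = 0 := by
    intro n
    induction n with
    | zero =>
      rintro ⟨i, x, t⟩ ⟨g1, g2, g3, g4⟩ ⟨c, hc, h1, h2, h3⟩ h4
      exfalso
      have h5 := (hZ.box c hc).2.2
      simp only at g1 g2 g3 h1 h2 h3 h4
      omega
    | succ n ih =>
      rintro ⟨i, x, t⟩ ⟨g1, g2, g3, g4⟩ ⟨⟨a, b, j⟩, hc, h1, h2, h3⟩ h4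
      have h5 := (hZ.box _ hc).2.2
      simp only at g1 g2 g3 g4 h1 h2 h3 h4 h5
      by_cases hvZ : (i, x, t) ∈ Z
      · simp only [hY]
        rw [← hl _ hvZ, sub_eq_zero]
        apply Finset.sum_congr rfl
        intro c' hc'
        by_cases h6 : (i, x, t) ≤ c'
        · rw [if_pos h6, if_pos]
          left
          exact ⟨h6.1, h6.2.1, h6.2.2⟩
        · rw [if_neg h6, if_neg]
          rintro (h7 | h7)
          · exact h6 ⟨h7.1, h7.2.1, h7.2.2⟩
          · exact hfar c' hc' _ hvZ h7
      · have hix : i + x < s := by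
          by_contra hcon
          push Not at hcon
          obtain ⟨h6, h7⟩ := hZ.z3 a b j hc (by omega)
          have e1 : i = a := by omega
          have e2 : x = b := by omega
          subst e1
          subst e2
          exact hvZ (h7 t h3)
        have key : ∀ w : ℕ × ℕ × ℕ, i ≤ w.1 → x ≤ w.2.1 → t ≤ w.2.2 → w.1 ≤ i + 1 →
            w.2.1 ≤ x + 1 → w.2.2 ≤ t + 1 → i + x + t < w.1 + w.2.1 + w.2.2 → Y w = 0 := by
          rintro ⟨i', x', t'⟩ k1 k2 k3 k4 k5 k6 k7
          simp only at k1 k2 k3 k4 k5 k6 k7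
          have hGw : Gd (i', x', t') := ⟨by simp only; omega, by simp only; omega,
            by simp only; omega, by simp only; omega⟩
          by_cases hu : ∃ c ∈ Z, i' ≤ c.1 ∧ x' ≤ c.2.1 ∧ t' ≤ c.2.2
          · apply ih _ hGw hu
            simp only
            omega
          · apply hnone _ hGw
            rintro ⟨a', b', j'⟩ hc' (h8 | h8)
            · exact hu ⟨_, hc', h8⟩
            · simp only at h8
              have h9 := hZ.z1 _ hc' _ hc (by simp only; omega) (by simp only; omega)
                (by simp only; omega)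
              simp only at h9
              rcases h9 with ⟨e1, e2⟩ | ⟨e1, e2⟩ | ⟨e1, e2⟩
              · -- time line
                have f1 : i = a := by omega
                have f2 : x = b := by omega
                subst f1
                subst f2
                subst e1
                subst e2
                exact hvZ (hZ.z2 _ _ _ _ _ hc' hc (by omega) h3)
              · have f1 : i = a := by omega
                have f2 : t = j := by omega
                subst f1
                subst f2
                subst e1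
                subst e2
                rcases (show b' ≤ b by omega).lt_or_eq with h10 | h10
                · have h11 := hZ.z5' _ _ _ _ hc' hc h10
                  have h12 : x = b' ∨ x = b := by omega
                  rcases h12 with h12 | h12
                  · rw [h12] at hvZ; exact hvZ hc'
                  · rw [h12] at hvZ; exact hvZ hc
                · have h12 : x = b := by omega
                  rw [h12] at hvZ
                  exact hvZ hc
              · have f1 : x = b := by omega
                have f2 : t = j := by omega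
                subst f1
                subst f2
                subst e1
                subst e2
                rcases (show a' ≤ a by omega).lt_or_eq with h10 | h10
                · have h11 := hZ.z5 _ _ _ _ hc' hc h10
                  have h12 : i = a' ∨ i = a := by omega
                  rcases h12 with h12 | h12
                  · rw [h12] at hvZ; exact hvZ hc'
                  · rw [h12] at hvZ; exact hvZ hc
                · have h12 : i = a := by omega
                  rw [h12] at hvZ
                  exact hvZ hc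
        have h6 := hcub i x t
        unfold cub at h6
        rw [key (i + 1, x, t) (by simp) (by simp) (by simp) (by simp) (by simp) (by simp)
            (by simp only; omega),
          key (i, x + 1, t) (by simp) (by simp) (by simp) (by simp) (by simp) (by simp)
            (by simp only; omega),
          key (i, x, t + 1) (by simp) (by simp) (by simp) (by simp) (by simp) (by simp)
            (by simp only; omega),
          key (i + 1, x + 1, t) (by simp) (by simp) (by simp) (by simp) (by simp) (by simp)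
            (by simp only; omega),
          key (i + 1, x, t + 1) (by simp) (by simp) (by simp) (by simp) (by simp) (by simp)
            (by simp only; omega),
          key (i, x + 1, t + 1) (by simp) (by simp) (by simp) (by simp) (by simp) (by simp)
            (by simp only; omega),
          key (i + 1, x + 1, t + 1) (by simp) (by simp) (by simp) (by simp) (by simp) (by simp)
            (by simp only; omega)] at h6
        linarith
  -- lower type
  have hlow : ∀ n : ℕ, ∀ v, Gd v → (∃ c ∈ Z, c.1 < v.1 ∧ c.2.1 < v.2.1 ∧ c.2.2 < v.2.2) →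
      v.1 + v.2.1 + v.2.2 ≤ n → Y v = 0 := by
    intro n
    induction n with
    | zero =>
      rintro ⟨i, x, t⟩ ⟨g1, g2, g3, g4⟩ ⟨c, hc, h1, h2, h3⟩ h4
      exfalso
      simp only at h1 h2 h3 h4
      omega
    | succ n ih =>
      rintro ⟨i, x, t⟩ ⟨g1, g2, g3, g4⟩ ⟨c, hc, h1, h2, h3⟩ h4
      simp only at g1 g2 g3 g4 h1 h2 h3 h4
      obtain ⟨i, rfl⟩ : ∃ k, i = k + 1 := ⟨i - 1, by omega⟩
      obtain ⟨x, rfl⟩ : ∃ k, x = k + 1 := ⟨x - 1, by omega⟩
      obtain ⟨t, rfl⟩ : ∃ k, t = k + 1 := ⟨t - 1, by omega⟩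
      have key : ∀ w : ℕ × ℕ × ℕ, i ≤ w.1 → x ≤ w.2.1 → t ≤ w.2.2 → w.1 ≤ i + 1 →
          w.2.1 ≤ x + 1 → w.2.2 ≤ t + 1 → w.1 + w.2.1 + w.2.2 < i + 1 + (x + 1) + (t + 1) →
          Y w = 0 := by
        rintro ⟨i', x', t'⟩ k1 k2 k3 k4 k5 k6 k7
        simp only at k1 k2 k3 k4 k5 k6 k7
        have hGw : Gd (i', x', t') := ⟨by simp only; omega, by simp only; omega,
          by simp only; omega, by simp only; omega⟩
        by_cases hu : ∃ c ∈ Z, i' ≤ c.1 ∧ x' ≤ c.2.1 ∧ t' ≤ c.2.2
        · exact hup (2 * s + p) _ hGw hu (by omega)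
        · by_cases hl' : ∃ c ∈ Z, c.1 < i' ∧ c.2.1 < x' ∧ c.2.2 < t'
          · exact ih _ hGw hl' (by simp only; omega)
          · apply hnone _ hGw
            rintro c' hc' (h8 | h8)
            · exact hu ⟨_, hc', h8⟩
            · exact hl' ⟨_, hc', h8⟩
      have h6 := hcub i x t
      unfold cub at h6
      rw [key (i, x, t) (by simp) (by simp) (by simp) (by simp) (by simp) (by simp)
            (by simp only; omega),
        key (i + 1, x, t) (by simp) (by simp) (by simp) (by simp) (by simp) (by simp)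
            (by simp only; omega),
          key (i, x + 1, t) (by simp) (by simp) (by simp) (by simp) (by simp) (by simp)
            (by simp only; omega),
          key (i, x, t + 1) (by simp) (by simp) (by simp) (by simp) (by simp) (by simp)
            (by simp only; omega),
          key (i + 1, x + 1, t) (by simp) (by simp) (by simp) (by simp) (by simp) (by simp)
            (by simp only; omega),
          key (i + 1, x, t + 1) (by simp) (by simp) (by simp) (by simp) (by simp) (by simp)
            (by simp only; omega),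
          key (i, x + 1, t + 1) (by simp) (by simp) (by simp) (by simp) (by simp) (by simp)
            (by simp only; omega)] at h6
      linarith
  refine ⟨l, ?_⟩
  rintro ⟨i, x, t⟩ ⟨g1, g2, g3, g4, g5⟩
  simp only at g1 g2 g3 g4 g5
  have hG : Gd (i, x, t) := ⟨g1, g2, g3.le, g5⟩
  have hY0 : Y (i, x, t) = 0 := by
    by_cases hu : ∃ c ∈ Z, i ≤ c.1 ∧ x ≤ c.2.1 ∧ t ≤ c.2.2
    · exact hup (2 * s + p) _ hG hu (by omega)
    · by_cases hl' : ∃ c ∈ Z, c.1 < i ∧ c.2.1 < x ∧ c.2.2 < t
      · exact hlow (i + x + t) _ hG hl' (by simp)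
      · apply hnone _ hG
        rintro c' hc' (h8 | h8)
        · exact hu ⟨_, hc', h8⟩
        · exact hl' ⟨_, hc', h8⟩
  simp only [hY, hy, hQ', hR'] at hY0
  rw [if_neg (by omega), if_neg (by omega)] at hY0
  simp only
  linarith

end Pool.MP_d56194_co
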