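import Mathlib
import Pool.Agent.Lib.MP_d56194_co.L.L0

/-!
M11 (helper90): positive slacks by cube moves.
-/

set_option autoImplicit false

namespace Pool.MP_d56194_co

open Finset

/-- alternating signs at `a` and `a + 1` -/
noncomputable def e90 (a t : ℕ) : ℝ := if t = a then 1 else if t = a + 1 then -1 else 0

lemma e90_sum_range {a n : ℕ} (h : a + 1 < n) : ∑ t ∈ range n, e90 a t = 0 := by
  have h1 : ∑ t ∈ range n, e90 a t =
      ∑ t ∈ range n, ((if t = a then (1 : ℝ) else 0) + (if t = a + 1 then (-1 : ℝ) else 0)) := by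
    apply Finset.sum_congr rfl
    intro t _
    unfold e90
    by_cases h2 : t = a
    · have : ¬ t = a + 1 := by omega
      simp [h2]
    · simp [h2]
  rw [h1, Finset.sum_add_distrib, Finset.sum_ite_eq', Finset.sum_ite_eq',
    if_pos (mem_range.mpr (by omega)), if_pos (mem_range.mpr h)]
  norm_num

lemma e90_sum_Icc {a n : ℕ} (h1 : 1 ≤ a) (h : a + 1 ≤ n) : ∑ t ∈ Icc 1 n, e90 a t = 0 := by
  have h2 : ∑ t ∈ Icc 1 n, e90 a t =
      ∑ t ∈ Icc 1 n, ((if t = a then (1 : ℝ) else 0) + (if t = a + 1 then (-1 : ℝ) else 0)) := by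
    apply Finset.sum_congr rfl
    intro t _
    unfold e90
    by_cases h2 : t = a
    · have : ¬ t = a + 1 := by omega
      simp [h2]
    · simp [h2]
  rw [h2, Finset.sum_add_distrib, Finset.sum_ite_eq', Finset.sum_ite_eq',
    if_pos (mem_Icc.mpr (by omega)), if_pos (mem_Icc.mpr (by omega))]
  norm_num

/-- the move over a cube -/
noncomputable def mv90 (i j : ℕ) (v : ℕ × ℕ × ℕ) : ℝ := e90 i v.1 * e90 0 v.2.1 * e90 j v.2.2

lemma mv90_cases (i j : ℕ) (v : ℕ × ℕ × ℕ) :
    mv90 i j v = 0 ∨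
    (mv90 i j v = 1 ∧ (v = (i, 0, j) ∨ v = (i + 1, 1, j) ∨ v = (i + 1, 0, j + 1) ∨
      v = (i, 1, j + 1))) ∨
    (mv90 i j v = -1 ∧ (v = (i + 1, 0, j) ∨ v = (i, 1, j) ∨ v = (i, 0, j + 1) ∨
      v = (i + 1, 1, j + 1))) := by
  obtain ⟨a, b, c⟩ := v
  unfold mv90 e90
  simp only [Prod.mk.injEq]
  by_cases h1 : a = i
  · by_cases h2 : b = 0
    · by_cases h3 : c = j
      · subst h1 h2 h3
        right; left
        constructor
        · simp
        · simp
      · by_cases h3' : c = j + 1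
        · subst h1 h2 h3'
          right; right
          constructor
          · simp
          · simp
        · left
          simp [h3, h3']
    · by_cases h2' : b = 0 + 1
      · by_cases h3 : c = j
        · subst h1 h2' h3
          right; right
          constructor
          · simp
          · simp
        · by_cases h3' : c = j + 1
          · subst h1 h2' h3'
            right; left
            constructor
            · simp
            · simp
          · left
            simp [h3, h3']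
      · left
        simp [h2, h2']
  · by_cases h1' : a = i + 1
    · by_cases h2 : b = 0
      · by_cases h3 : c = j
        · subst h1' h2 h3
          right; right
          constructor
          · simp
          · simp
        · by_cases h3' : c = j + 1
          · subst h1' h2 h3'
            right; left
            constructor
            · simp
            · simp
          · left
            simp [h3, h3']
      · by_cases h2' : b = 0 + 1
        · by_cases h3 : c = j
          · subst h1' h2' h3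
            right; left
            constructor
            · simp
            · simp
          · by_cases h3' : c = j + 1
            · subst h1' h2' h3'
              right; right
              constructor
              · simp
              · simp
            · left
              simp [h3, h3']
        · left
          simp [h2, h2']
    · left
      simp [h1, h1']

/-- a cube move in the rows -/
lemma TS.move90 {s : ℕ} {g h al : ℕ → ℕ} {K0 p : ℕ} {lo hi sig : ℕ → ℕ}
    {X : ℕ × ℕ × ℕ → ℝ} {Y : ℕ → ℕ → ℝ} (hX : TS s g h al K0 p lo hi sig X Y) {i j : ℕ}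
    (hi1 : 1 ≤ i) (his : i < s) (hj : j + 1 < p) {μ : ℝ} (hμ : 0 ≤ μ)
    (m1 : μ ≤ X (i + 1, 0, j)) (m2 : μ ≤ X (i, 1, j)) (m3 : μ ≤ X (i, 0, j + 1))
    (m4 : μ ≤ X (i + 1, 1, j + 1)) :
    TS s g h al K0 p lo hi sig (fun v => X v + μ * mv90 i j v) Y where
  nonneg := by
    intro v
    rcases mv90_cases i j v with h0 | ⟨h0, -⟩ | ⟨h0, h1⟩
    · rw [h0, mul_zero, add_zero]
      exact hX.nonneg v
    · rw [h0, mul_one]
      exact add_nonneg (hX.nonneg v) hμ
    · rw [h0]
      rcases h1 with rfl | rfl | rfl | rfl <;> linarith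
  supp := by
    intro v hv
    have h0 : mv90 i j v = 0 := by
      rcases mv90_cases i j v with h0 | ⟨-, h1⟩ | ⟨-, h1⟩
      · exact h0
      · exfalso
        apply hv
        rcases h1 with rfl | rfl | rfl | rfl <;>
          (refine ⟨?_, ?_, ?_, ?_, ?_⟩ <;> simp only [] <;> omega)
      · exfalso
        apply hv
        rcases h1 with rfl | rfl | rfl | rfl <;>
          (refine ⟨?_, ?_, ?_, ?_, ?_⟩ <;> simp only [] <;> omega)
    rw [h0, mul_zero, add_zero]
    exact hX.supp v hv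
  tnonneg := hX.tnonneg
  tsupp := hX.tsupp
  cell := by
    intro a x ha hx hax
    rw [← hX.cell a x ha hx hax, Finset.sum_add_distrib]
    have h1 : ∑ t ∈ range p, μ * mv90 i j (a, x, t) = 0 := by
      simp only [mv90]
      rw [← Finset.mul_sum, ← Finset.mul_sum, e90_sum_range hj, mul_zero, mul_zero]
    rw [h1, add_zero]
  row := by
    intro a t ha has ht
    rw [← hX.row a t ha has ht, Finset.sum_add_distrib]
    have h1 : ∑ x ∈ range (s + 1), μ * mv90 i j (a, x, t) = 0 := by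
      simp only [mv90]
      rw [← Finset.mul_sum, ← Finset.sum_mul, ← Finset.mul_sum,
        e90_sum_range (show 0 + 1 < s + 1 by omega), mul_zero, zero_mul, mul_zero]
    rw [h1, add_zero]
  col := by
    intro x t hx hxs ht
    rw [← hX.col x t hx hxs ht, Finset.sum_add_distrib]
    have h1 : ∑ a ∈ range (s + 1), μ * mv90 i j (a, x, t) = 0 := by
      simp only [mv90]
      rw [← Finset.mul_sum, ← Finset.sum_mul, ← Finset.sum_mul,
        e90_sum_range (show i + 1 < s + 1 by omega), zero_mul, zero_mul, mul_zero]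
    rw [h1, add_zero]
  tot := by
    intro t ht
    rw [← hX.tot t ht]
    have h1 : ∑ a ∈ Icc 1 s, ∑ x ∈ Icc 1 s, μ * mv90 i j (a, x, t) = 0 := by
      rw [Finset.sum_comm]
      apply Finset.sum_eq_zero
      intro x _
      simp only [mv90]
      rw [← Finset.mul_sum, ← Finset.sum_mul, ← Finset.sum_mul,
        e90_sum_Icc hi1 (show i + 1 ≤ s by omega), zero_mul, zero_mul, mul_zero]
    simp only [Finset.sum_add_distrib]
    rw [h1, add_zero]
  trow := hX.trow
  tcol := hX.tcol
  ttot := hX.ttot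

/-- an entry of a row slack -/
lemma LS_row90 {s p : ℕ} {Z : Finset (ℕ × ℕ × ℕ)} {i j : ℕ} (h : LS s p Z (i, 0, j))
    (hs : i < s) (hj : j + 1 < p) (hZ : ∀ a j', a ≤ i → j' ≤ j → (a, 0, j') ∉ Z) :
    1 ≤ i ∧ LS s p Z (i + 1, 0, j) ∧ LS s p Z (i, 1, j) ∧ LS s p Z (i, 0, j + 1) ∧
      LS s p Z (i + 1, 1, j + 1) := by
  obtain ⟨⟨h1, h2, h3, h4, h5⟩, h6⟩ := h
  simp only at h1 h2 h3 h4 h5
  have hi : 1 ≤ i := by
    by_contra hcon
    exact h4 ⟨by omega, trivial⟩
  have hO : ∀ c ∈ Z, ¬ (i ≤ c.1 ∧ j ≤ c.2.2) := by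
    intro c hc hh
    exact h6 c hc (Or.inl ⟨hh.1, Nat.zero_le _, hh.2⟩)
  have hO' : ∀ c ∈ Z, ¬ (c.1 ≤ i ∧ c.2.1 < 1 ∧ c.2.2 ≤ j) := by
    rintro ⟨a, b, c⟩ hc hh
    simp only at hh
    have hb : b = 0 := by omega
    subst hb
    exact hZ a c hh.1 hh.2.2 hc
  refine ⟨hi, ⟨⟨?_, ?_, ?_, ?_, ?_⟩, ?_⟩, ⟨⟨?_, ?_, ?_, ?_, ?_⟩, ?_⟩, ⟨⟨?_, ?_, ?_, ?_, ?_⟩, ?_⟩,
    ⟨⟨?_, ?_, ?_, ?_, ?_⟩, ?_⟩⟩
  all_goals first
    | (simp only []; omega)
    | (intro c hc hoct
       have q1 := hO c hc
       have q2 := hO' c hc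
       unfold Oct at hoct
       simp only at hoct
       omega)

/-- processing the row slacks -/
theorem row_induction90 (s : ℕ) (g h al : ℕ → ℕ) (K0 p : ℕ) (lo hi sig : ℕ → ℕ)
    (Z : Finset (ℕ × ℕ × ℕ)) (X : ℕ × ℕ × ℕ → ℝ) (Y : ℕ → ℕ → ℝ) (ε : ℝ) (hε : 0 < ε)
    (hX : TS s g h al K0 p lo hi sig X Y)
    (hreg : ∀ i x j, 1 ≤ i → 1 ≤ x → LS s p Z (i, x, j) → ε ≤ X (i, x, j))
    (hrow : ∀ i j, LS s p Z (i, 0, j) →
      (i = s ∨ j + 1 = p ∨ ∃ a j', a ≤ i ∧ j' ≤ j ∧ (a, 0, j') ∈ Z) → ε ≤ X (i, 0, j)) :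
    ∃ X' : ℕ × ℕ × ℕ → ℝ, TS s g h al K0 p lo hi sig X' Y ∧
      (∀ i x j, 1 ≤ i → 1 ≤ x → LS s p Z (i, x, j) → ε / 2 ^ ((s + 1) * p) ≤ X' (i, x, j)) ∧
      (∀ i j, LS s p Z (i, 0, j) → ε / 2 ^ ((s + 1) * p) ≤ X' (i, 0, j)) ∧
      ∀ x j, X' (0, x, j) = X (0, x, j) := by
  classical
  have key : ∀ n : ℕ, ∃ X' : ℕ × ℕ × ℕ → ℝ, TS s g h al K0 p lo hi sig X' Y ∧
      (∀ i x j, 1 ≤ i → 1 ≤ x → LS s p Z (i, x, j) → ε / 2 ^ n ≤ X' (i, x, j)) ∧
      (∀ i j, LS s p Z (i, 0, j) →
        ((i = s ∨ j + 1 = p ∨ ∃ a j', a ≤ i ∧ j' ≤ j ∧ (a, 0, j') ∈ Z) ∨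
          (s - i) * p + (p - 1 - j) < n) → ε / 2 ^ n ≤ X' (i, 0, j)) ∧
      ∀ x j, X' (0, x, j) = X (0, x, j) := by
    intro n
    induction n with
    | zero =>
      refine ⟨X, hX, ?_, ?_, fun _ _ => rfl⟩
      · intro i x j hi1 hx hl
        rw [pow_zero, div_one]
        exact hreg i x j hi1 hx hl
      · intro i j hl hh
        rw [pow_zero, div_one]
        rcases hh with hh | hh
        · exact hrow i j hl hh
        · omega
    | succ n ih =>
      obtain ⟨X', hX', hr, hs', hc⟩ := ih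
      have hhalf : ε / 2 ^ n = 2 * (ε / 2 ^ (n + 1)) := by
        rw [pow_succ]
        field_simp
      have hpos : 0 < ε / 2 ^ (n + 1) := by positivity
      set μ := ε / 2 ^ (n + 1) with hμ
      by_cases hex : ∃ i j, LS s p Z (i, 0, j) ∧ (s - i) * p + (p - 1 - j) = n ∧
          ¬ (i = s ∨ j + 1 = p ∨ ∃ a j', a ≤ i ∧ j' ≤ j ∧ (a, 0, j') ∈ Z)
      · obtain ⟨i, j, hl, hn, hnd⟩ := hex
        push Not at hnd
        obtain ⟨hnd1, hnd2, hnd3⟩ := hnd
        have hle := hl.1
        obtain ⟨l1, l2, l3, l4, l5⟩ := hle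
        simp only at l1 l2 l3 l4 l5
        have his : i < s := lt_of_le_of_ne l1 hnd1
        have hjp : j + 1 < p := by omega
        obtain ⟨hi1, s1, s2, s3, s4⟩ := LS_row90 hl his hjp hnd3
        have hidx1 : (s - (i + 1)) * p + (p - 1 - j) < n := by
          have e1 : s - i = (s - (i + 1)) + 1 := by omega
          rw [e1, Nat.add_mul, one_mul] at hn
          omega
        have hidx3 : (s - i) * p + (p - 1 - (j + 1)) < n := by omega
        have b1 : ε / 2 ^ n ≤ X' (i + 1, 0, j) := hs' _ _ s1 (Or.inr hidx1)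
        have b2 : ε / 2 ^ n ≤ X' (i, 1, j) := hr _ _ _ hi1 le_rfl s2
        have b3 : ε / 2 ^ n ≤ X' (i, 0, j + 1) := hs' _ _ s3 (Or.inr hidx3)
        have b4 : ε / 2 ^ n ≤ X' (i + 1, 1, j + 1) := hr _ _ _ (by omega) le_rfl s4
        rw [hhalf] at b1 b2 b3 b4
        have hlow : ∀ v, ε / 2 ^ n ≤ X' v → μ ≤ X' v + μ * mv90 i j v := by
          intro v hv
          rw [hhalf] at hv
          rcases mv90_cases i j v with h0 | ⟨h0, -⟩ | ⟨h0, -⟩
          · rw [h0]
            linarith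
          · rw [h0]
            linarith
          · rw [h0]
            linarith
        refine ⟨fun v => X' v + μ * mv90 i j v, hX'.move90 hi1 his hjp hpos.le (by linarith)
          (by linarith) (by linarith) (by linarith), ?_, ?_, ?_⟩
        · intro a x t ha hx hl'
          exact hlow _ (hr a x t ha hx hl')
        · intro a t hl' hh
          by_cases hat : a = i ∧ t = j
          · obtain ⟨rfl, rfl⟩ := hat
            have h0 : mv90 a t (a, 0, t) = 1 := by simp [mv90, e90]
            simp only [h0, mul_one]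
            have := hX'.nonneg (a, 0, t)
            linarith
          · apply hlow
            apply hs' a t hl'
            rcases hh with hh | hh
            · exact Or.inl hh
            · right
              -- index of `(a, t)` is less than `n + 1` and not `n`
              by_contra hcon
              have heq : (s - a) * p + (p - 1 - t) = n := by omega
              apply hat
              obtain ⟨k1, k2, k3, k4, k5⟩ := hl'.1
              simp only at k1 k2 k3 k4 k5
              have e1 : (s - a) * p + (p - 1 - t) = (s - i) * p + (p - 1 - j) := by omega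
              have e2 : s - a = s - i := by
                rcases lt_trichotomy (s - a) (s - i) with hlt | heq' | hgt
                · exfalso
                  have : (s - a + 1) * p ≤ (s - i) * p := Nat.mul_le_mul_right p hlt
                  rw [Nat.add_mul, one_mul] at this
                  omega
                · exact heq'
                · exfalso
                  have : (s - i + 1) * p ≤ (s - a) * p := Nat.mul_le_mul_right p hgt
                  rw [Nat.add_mul, one_mul] at this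
                  omega
              rw [e2] at e1
              omega
        · intro x t
          have h0 : mv90 i j (0, x, t) = 0 := by
            unfold mv90 e90
            have q1 : ¬ (0 : ℕ) = i := by omega
            have q2 : ¬ (0 : ℕ) = i + 1 := by omega
            simp [q1]
          simp only [h0, mul_zero, add_zero]
          exact hc x t
      · push Not at hex
        refine ⟨X', hX', ?_, ?_, hc⟩
        · intro i x j hi1 hx hl
          have := hr i x j hi1 hx hl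
          linarith
        · intro i j hl hh
          have h1 : ε / 2 ^ n ≤ X' (i, 0, j) := by
            apply hs' i j hl
            by_cases hd : (i = s ∨ j + 1 = p ∨ ∃ a j', a ≤ i ∧ j' ≤ j ∧ (a, 0, j') ∈ Z)
            · exact Or.inl hd
            · right
              rcases hh with hh | hh
              · exact absurd hh hd
              · by_contra hcon
                exact hd (hex i j hl (by omega))
          linarith
  obtain ⟨X', h1, h2, h3, h4⟩ := key ((s + 1) * p)
  refine ⟨X', h1, h2, ?_, h4⟩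
  intro i j hl
  apply h3 i j hl
  right
  obtain ⟨k1, k2, k3, k4, k5⟩ := hl.1
  simp only at k1 k2 k3 k4 k5
  have : (s - i) * p ≤ s * p := Nat.mul_le_mul_right p (Nat.sub_le s i)
  rw [Nat.add_mul, one_mul]
  omega

/-- exchange of the first two coordinates -/
def tr90 (v : ℕ × ℕ × ℕ) : ℕ × ℕ × ℕ := (v.2.1, v.1, v.2.2)

lemma LE_tr90 {s p : ℕ} (v : ℕ × ℕ × ℕ) : LE s p (tr90 v) ↔ LE s p v := by
  unfold LE tr90
  simp only
  constructor
  · rintro ⟨h1, h2, h3, h4, h5⟩
    refine ⟨h2, h1, h3, ?_, ?_⟩ <;> omega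
  · rintro ⟨h1, h2, h3, h4, h5⟩
    refine ⟨h2, h1, h3, ?_, ?_⟩ <;> omega

lemma LS_tr90 {s p : ℕ} {Z : Finset (ℕ × ℕ × ℕ)} (v : ℕ × ℕ × ℕ) :
    LS s p (Z.image tr90) (tr90 v) ↔ LS s p Z v := by
  unfold LS
  rw [LE_tr90]
  constructor
  · rintro ⟨h1, h2⟩
    refine ⟨h1, fun c hc hoct => h2 (tr90 c) (mem_image_of_mem _ hc) ?_⟩
    unfold Oct tr90 at *
    simp only at *
    omega
  · rintro ⟨h1, h2⟩
    refine ⟨h1, fun c' hc' hoct => ?_⟩
    obtain ⟨c, hc, rfl⟩ := mem_image.mp hc'
    apply h2 c hc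
    unfold Oct tr90 at *
    simp only at *
    omega

lemma TS.tr90 {s : ℕ} {g h al : ℕ → ℕ} {K0 p : ℕ} {lo hi sig : ℕ → ℕ}
    {X : ℕ × ℕ × ℕ → ℝ} {Y : ℕ → ℕ → ℝ} (hX : TS s g h al K0 p lo hi sig X Y) :
    TS s h g al K0 p lo hi sig (fun v => X (tr90 v)) (fun i x => Y x i) where
  nonneg := fun v => hX.nonneg _
  supp := fun v hv => hX.supp _ (fun h1 => hv ((LE_tr90 v).mp h1))
  tnonneg := fun i x => hX.tnonneg x i
  tsupp := fun i x hv => hX.tsupp x i (fun h1 => hv ((LE_tr90 (i, x, 0)).mp h1))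
  cell := by
    intro i x h1 h2 h3
    rw [mul_comm]
    exact hX.cell x i h2 h1 (by omega)
  row := fun i j h1 h2 h3 => hX.col i j h1 h2 h3
  col := fun x j h1 h2 h3 => hX.row x j h1 h2 h3
  tot := by
    intro j hj
    rw [Finset.sum_comm]
    exact hX.tot j hj
  trow := fun i h1 h2 => hX.tcol i h1 h2
  tcol := fun x h1 h2 => hX.trow x h1 h2
  ttot := by
    rw [Finset.sum_comm]
    exact hX.ttot

/-- M11: positive slacks by cube moves; file L11 -/
theorem slack_induction (s : ℕ) (g h al : ℕ → ℕ) (K0 p : ℕ) (lo hi sig : ℕ → ℕ)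
    (Z : Finset (ℕ × ℕ × ℕ)) (X : ℕ × ℕ × ℕ → ℝ) (Y : ℕ → ℕ → ℝ) (ε : ℝ) (hε : 0 < ε)
    (hs : 0 < s) (hp : 0 < p) (hZb : ∀ c ∈ Z, c.1 ≤ s ∧ c.2.1 ≤ s ∧ c.2.2 < p)
    (hX : TS s g h al K0 p lo hi sig X Y)
    (hreg : ∀ i x j, 1 ≤ i → 1 ≤ x → LS s p Z (i, x, j) → ε ≤ X (i, x, j))
    (hrow : ∀ i j, LS s p Z (i, 0, j) →
      (i = s ∨ j + 1 = p ∨ ∃ a j', a ≤ i ∧ j' ≤ j ∧ (a, 0, j') ∈ Z) → ε ≤ X (i, 0, j))
    (hcol : ∀ x j, LS s p Z (0, x, j) →
      (x = s ∨ j + 1 = p ∨ ∃ b j', b ≤ x ∧ j' ≤ j ∧ (0, b, j') ∈ Z) → ε ≤ X (0, x, j)) :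
    ∃ X' : ℕ × ℕ × ℕ → ℝ, TS s g h al K0 p lo hi sig X' Y ∧
      ∀ v, LS s p Z v → ε / 2 ^ (2 * (s + 1) * p) ≤ X' v := by
  classical
  obtain ⟨X₁, hX₁, r₁, s₁, c₁⟩ := row_induction90 s g h al K0 p lo hi sig Z X Y ε hε hX hreg hrow
  have hε' : 0 < ε / 2 ^ ((s + 1) * p) := by positivity
  have hle : ε / 2 ^ ((s + 1) * p) ≤ ε := div_le_self hε.le (one_le_pow₀ (by norm_num))
  obtain ⟨X₂, hX₂, r₂, s₂, c₂⟩ := row_induction90 s h g al K0 p lo hi sig (Z.image tr90)
    (fun v => X₁ (tr90 v)) (fun i x => Y x i) (ε / 2 ^ ((s + 1) * p)) hε' hX₁.tr90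
    (by
      intro i x j hi1 hx hl
      exact r₁ x i j hx hi1 ((LS_tr90 (x, i, j)).mp hl))
    (by
      intro i j hl hd
      have hl' : LS s p Z (0, i, j) := (LS_tr90 (0, i, j)).mp hl
      have h1 : ε ≤ X (0, i, j) := by
        apply hcol i j hl'
        rcases hd with hd | hd | ⟨a, j', h1, h2, h3⟩
        · exact Or.inl hd
        · exact Or.inr (Or.inl hd)
        · right; right
          obtain ⟨⟨c1, c2, c3⟩, hc, hc'⟩ := mem_image.mp h3
          unfold tr90 at hc'
          simp only [Prod.mk.injEq] at hc'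
          obtain ⟨e1, e2, e3⟩ := hc'
          subst e1 e2 e3
          exact ⟨c2, c3, h1, h2, hc⟩
      change ε / 2 ^ ((s + 1) * p) ≤ X₁ (0, i, j)
      rw [c₁]
      exact hle.trans h1)
  have hpow : ε / 2 ^ (2 * (s + 1) * p) = ε / 2 ^ ((s + 1) * p) / 2 ^ ((s + 1) * p) := by
    rw [div_div, ← pow_add]
    congr 2
    ring
  have hle2 : ε / 2 ^ ((s + 1) * p) / 2 ^ ((s + 1) * p) ≤ ε / 2 ^ ((s + 1) * p) :=
    div_le_self hε'.le (one_le_pow₀ (by norm_num))
  refine ⟨fun v => X₂ (tr90 v), hX₂.tr90, ?_⟩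
  rintro ⟨i, x, j⟩ hl
  rw [hpow]
  have hl' := (LS_tr90 (s := s) (p := p) (Z := Z) (i, x, j)).mpr hl
  change _ ≤ X₂ (x, i, j)
  change LS s p (Z.image tr90) (x, i, j) at hl'
  obtain ⟨k1, k2, k3, k4, k5⟩ := hl.1
  simp only at k1 k2 k3 k4 k5
  rcases Nat.eq_zero_or_pos i with rfl | hi1
  · exact s₂ x j hl'
  · rcases Nat.eq_zero_or_pos x with rfl | hx
    · rw [c₂]
      exact hle2.trans (s₁ i j hl)
    · exact r₂ x i j hx hi1 hl'

end Pool.MP_d56194_co
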