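import Mathlib
import Pool.Agent.Lib.MP_d56194_co.L.L0

set_option autoImplicit false

namespace Pool.MP_d56194_co

open Finset

namespace M12

/-- times up to `K0` at which a cut of slope `σ` is tight -/
def Tt (s : ℕ) (g h al : ℕ → ℕ) (K0 σ : ℕ) : Set ℕ :=
  {k | k ≤ K0 ∧ ∃ a b, a ≤ s ∧ b ≤ s ∧ cs g a + cs h b = σ ∧ al k = cutb s g h k a b}

theorem Tt_le {s : ℕ} {g h al : ℕ → ℕ} {K0 σ k : ℕ} (hk : k ∈ Tt s g h al K0 σ) : k ≤ K0 := hk.1

theorem Tt_int {s : ℕ} {g h al : ℕ → ℕ} {K0 σ k : ℕ} (hal : IsAl s g h al)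
    (hk : k ∈ Tt s g h al K0 σ) :
    ∃ f : ℕ, al k = k * σ + f ∧ ∀ k', al k' ≤ k' * σ + f := by
  obtain ⟨-, a, b, ha, hb, hσ, hk2⟩ := hk
  refine ⟨Fb s g h a b, ?_, ?_⟩
  · rw [hk2, cutb, hσ]
  · intro k'
    have := hal.1 k' a b ha hb
    rwa [cutb, hσ] at this

theorem Tt_conv {s : ℕ} {g h al : ℕ → ℕ} {K0 σ k1 k2 k : ℕ} (hal : IsAl s g h al)
    (h1 : k1 ∈ Tt s g h al K0 σ) (h2 : k2 ∈ Tt s g h al K0 σ) (hk1 : k1 ≤ k) (hk2 : k ≤ k2) :
    k ∈ Tt s g h al K0 σ := by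
  obtain ⟨-, a, b, ha, hb, hσ, e1⟩ := h1
  obtain ⟨hK, a2, b2, ha2, hb2, hσ2, e2⟩ := h2
  refine ⟨hk2.trans hK, a, b, ha, hb, hσ, ?_⟩
  obtain ⟨a3, b3, ha3, hb3, e3⟩ := hal.2 k
  have u1 := hal.1 k a b ha hb
  have u2 := hal.1 k2 a b ha hb
  have u3 := hal.1 k1 a2 b2 ha2 hb2
  have u4 := hal.1 k1 a3 b3 ha3 hb3
  have u5 := hal.1 k2 a3 b3 ha3 hb3
  simp only [cutb] at *
  rw [hσ] at *
  rw [hσ2] at *
  generalize Fb s g h a b = f1 at *
  generalize Fb s g h a2 b2 = f2 at *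
  generalize Fb s g h a3 b3 = f3 at *
  generalize cs g a3 + cs h b3 = σ3 at *
  refine le_antisymm u1 ?_
  rw [e3]
  have q : f1 = f2 := by omega
  subst q
  rcases le_total σ σ3 with hs | hs
  · obtain ⟨d, rfl⟩ := Nat.exists_eq_add_of_le hs
    obtain ⟨t, rfl⟩ := Nat.exists_eq_add_of_le hk1
    nlinarith [Nat.zero_le (t * d)]
  · obtain ⟨d, rfl⟩ := Nat.exists_eq_add_of_le hs
    obtain ⟨t, rfl⟩ := Nat.exists_eq_add_of_le hk2
    nlinarith [Nat.zero_le (t * d)]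

theorem Tt_lin {s : ℕ} {g h al : ℕ → ℕ} {K0 σ k1 k : ℕ} (hal : IsAl s g h al)
    (h1 : k1 ∈ Tt s g h al K0 σ) (h2 : k ∈ Tt s g h al K0 σ) (hk1 : k1 ≤ k) :
    al k = al k1 + σ * (k - k1) := by
  obtain ⟨f1, e1, u1⟩ := Tt_int hal h1
  obtain ⟨f2, e2, u2⟩ := Tt_int hal h2
  have a1 := u1 k
  have a2 := u2 k1
  have q : f1 = f2 := by omega
  subst q
  obtain ⟨t, rfl⟩ := Nat.exists_eq_add_of_le hk1
  rw [e1, e2, Nat.add_sub_cancel_left]
  ring

theorem Tt_ord {s : ℕ} {g h al : ℕ → ℕ} {K0 σ σ' k k' : ℕ} (hal : IsAl s g h al)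
    (h1 : k ∈ Tt s g h al K0 σ) (h2 : k' ∈ Tt s g h al K0 σ') (hs : σ' < σ) : k ≤ k' := by
  obtain ⟨f1, e1, u1⟩ := Tt_int hal h1
  obtain ⟨f2, e2, u2⟩ := Tt_int hal h2
  have a1 := u1 k'
  have a2 := u2 k
  by_contra hc
  push Not at hc
  obtain ⟨t, rfl⟩ := Nat.exists_eq_add_of_lt hc
  obtain ⟨d, rfl⟩ := Nat.exists_eq_add_of_lt hs
  nlinarith [Nat.zero_le (t * d), Nat.zero_le t, Nat.zero_le d]

/-- the slopes -/
def Sl (s : ℕ) (g h : ℕ → ℕ) : Finset ℕ :=
  (range (s + 1) ×ˢ range (s + 1)).image (fun c => cs g c.1 + cs h c.2)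

theorem Sl_card (s : ℕ) (g h : ℕ → ℕ) : (Sl s g h).card ≤ (s + 1) * (s + 1) := by
  refine card_image_le.trans ?_
  simp

theorem Tt_cover {s : ℕ} {g h al : ℕ → ℕ} {K0 k : ℕ} (hal : IsAl s g h al) (hk : k ≤ K0) :
    ∃ σ ∈ Sl s g h, k ∈ Tt s g h al K0 σ := by
  obtain ⟨a, b, ha, hb, e⟩ := hal.2 k
  refine ⟨cs g a + cs h b, ?_, hk, a, b, ha, hb, rfl, e⟩
  refine mem_image.2 ⟨(a, b), ?_, rfl⟩
  simp only [mem_product, mem_range]
  omega

noncomputable def Lo (s : ℕ) (g h al : ℕ → ℕ) (K0 σ : ℕ) : ℕ := sInf (Tt s g h al K0 σ)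

noncomputable def Hi (s : ℕ) (g h al : ℕ → ℕ) (K0 σ : ℕ) : ℕ := sSup (Tt s g h al K0 σ)

theorem Tt_bdd (s : ℕ) (g h al : ℕ → ℕ) (K0 σ : ℕ) : BddAbove (Tt s g h al K0 σ) :=
  ⟨K0, fun _ hk => hk.1⟩

theorem Lo_mem {s : ℕ} {g h al : ℕ → ℕ} {K0 σ : ℕ} (hne : (Tt s g h al K0 σ).Nonempty) :
    Lo s g h al K0 σ ∈ Tt s g h al K0 σ := Nat.sInf_mem hne

theorem Hi_mem {s : ℕ} {g h al : ℕ → ℕ} {K0 σ : ℕ} (hne : (Tt s g h al K0 σ).Nonempty) :
    Hi s g h al K0 σ ∈ Tt s g h al K0 σ := Nat.sSup_mem hne (Tt_bdd s g h al K0 σ)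

theorem Lo_le {s : ℕ} {g h al : ℕ → ℕ} {K0 σ k : ℕ} (hk : k ∈ Tt s g h al K0 σ) :
    Lo s g h al K0 σ ≤ k := Nat.sInf_le hk

theorem le_Hi {s : ℕ} {g h al : ℕ → ℕ} {K0 σ k : ℕ} (hk : k ∈ Tt s g h al K0 σ) :
    k ≤ Hi s g h al K0 σ := le_csSup (Tt_bdd s g h al K0 σ) hk

theorem Hi_le {s : ℕ} {g h al : ℕ → ℕ} {K0 σ : ℕ} : Hi s g h al K0 σ ≤ K0 := by
  rcases Set.eq_empty_or_nonempty (Tt s g h al K0 σ) with he | hne
  · rw [Hi, he]; simp
  · exact (Hi_mem hne).1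

/-- nonempty if `Lo < Hi` -/
theorem Tt_ne {s : ℕ} {g h al : ℕ → ℕ} {K0 σ : ℕ}
    (hlt : Lo s g h al K0 σ < Hi s g h al K0 σ) : (Tt s g h al K0 σ).Nonempty := by
  by_contra hne
  rw [Set.not_nonempty_iff_eq_empty] at hne
  rw [Lo, Hi, hne] at hlt
  simp at hlt

theorem cs_one (g : ℕ → ℕ) : cs g 1 = g 1 := by simp [cs]

theorem cs_zero (g : ℕ → ℕ) : cs g 0 = 0 := by simp [cs]

theorem cs_mono (g : ℕ → ℕ) {a b : ℕ} (hab : a ≤ b) : cs g a ≤ cs g b := by
  unfold cs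
  exact sum_le_sum_of_subset (range_subset_range.2 hab)

theorem cs_Ioc (g : ℕ → ℕ) (s : ℕ) : cs g s = ∑ i ∈ Ioc 0 s, g i := by
  unfold cs
  rw [show Ioc 0 s = (range s).image (fun i => i + 1) from ?_, sum_image]
  · intro a _ b _ hab; simpa using hab
  · ext x
    simp only [mem_Ioc, mem_image, mem_range]
    constructor
    · rintro ⟨h1, h2⟩; exact ⟨x - 1, by omega, by omega⟩
    · rintro ⟨y, h1, h2⟩; omega

theorem Fb00 (s : ℕ) (g h : ℕ → ℕ) : Fb s g h 0 0 = cs g s * h 1 + Fb s g h 0 1 := by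
  rw [cs_Ioc, sum_mul]
  unfold Fb
  rw [← sum_add_distrib]
  refine sum_congr rfl fun i hi => ?_
  rw [mem_Ioc] at hi
  have h1 : cs h 1 ≤ cs h (s + 1 - i) := cs_mono h (by omega)
  rw [cs_zero, cs_one] at *
  rw [← mul_add]
  congr 1
  omega

theorem Fb00' (s : ℕ) (g h : ℕ → ℕ) (hs : 0 < s) : Fb s g h 0 0 = g 1 * cs h s + Fb s g h 1 0 := by
  unfold Fb
  rw [show Ioc 0 s = insert 1 (Ioc 1 s) from ?_, sum_insert]
  · rw [cs_zero]
    simp
  · simp
  · ext x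
    simp only [mem_Ioc, mem_insert]
    omega

theorem al_lt {s R N : ℕ} {g h al : ℕ → ℕ} (hs : 0 < s) (hN : 0 < N) (hal : IsAl s g h al)
    (hg : Comp s R N g) (hh : Comp s R N h) {k : ℕ} (hk : k < max (cs g s) (cs h s)) :
    al k < Fb s g h 0 0 := by
  have g1 := (hg 1 le_rfl hs).1
  have h1 := (hh 1 le_rfl hs).1
  rcases lt_max_iff.1 hk with hk | hk
  · refine lt_of_le_of_lt (hal.1 k 0 1 (by omega) (by omega)) ?_
    rw [Fb00 s g h, cutb, cs_zero, cs_one, zero_add]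
    have : k * h 1 < cs g s * h 1 := Nat.mul_lt_mul_of_pos_right hk (by omega)
    omega
  · refine lt_of_le_of_lt (hal.1 k 1 0 (by omega) (by omega)) ?_
    rw [Fb00' s g h hs, cutb, cs_zero, cs_one, add_zero]
    have : k * g 1 < g 1 * cs h s := by
      rw [mul_comm]; exact Nat.mul_lt_mul_of_pos_left hk (by omega)
    omega

/-- slopes of long intervals are large -/
theorem sig_low {s R N : ℕ} {g h al : ℕ → ℕ} (hs : 0 < s) (hN : 0 < N) (hal : IsAl s g h al)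
    (hg : Comp s R N g) (hh : Comp s R N h) {σ : ℕ}
    (hlt : Lo s g h al (max (cs g s) (cs h s)) σ < Hi s g h al (max (cs g s) (cs h s)) σ) :
    N ≤ σ := by
  have hne := Tt_ne hlt
  have hlo := Lo_mem hne
  have hhi : Hi s g h al (max (cs g s) (cs h s)) σ ≤ max (cs g s) (cs h s) := Hi_le
  have hl := al_lt hs hN hal hg hh (lt_of_lt_of_le hlt hhi)
  obtain ⟨-, a, b, ha, hb, hσ, e⟩ := hlo
  rcases Nat.eq_zero_or_pos a with rfl | ha'
  · rcases Nat.eq_zero_or_pos b with rfl | hb'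
    · exfalso
      rw [cutb, cs_zero, cs_zero] at e
      omega
    · have := cs_mono h (show 1 ≤ b from hb')
      rw [cs_one] at this
      have h1 := (hh 1 le_rfl hs).1
      omega
  · have := cs_mono g (show 1 ≤ a from ha')
    rw [cs_one] at this
    have h1 := (hg 1 le_rfl hs).1
    omega

/-- pigeonhole: a gap -/
theorem gap {ι : Type} (Q : Finset ι) (q : ι → ℝ) (e : ℕ → ℝ) (he : Antitone e) :
    ∃ k ≤ Q.card, ∀ i ∈ Q, q i ≤ e (k + 1) ∨ e k ≤ q i := by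
  by_contra hc
  push Not at hc
  have hne : Nonempty ι := ⟨(hc 0 (Nat.zero_le _)).choose⟩
  choose! f hf using hc
  have hmaps : ∀ k ∈ range (Q.card + 1), f k ∈ Q := by
    intro k hk
    exact (hf k (by rw [mem_range] at hk; omega)).1
  obtain ⟨k, hk, l, hl, hkl, hfe⟩ :=
    exists_ne_map_eq_of_card_lt_of_maps_to (by rw [card_range]; omega) hmaps
  rw [mem_range] at hk hl
  have h1 := (hf k (by omega)).2
  have h2 := (hf l (by omega)).2
  rw [hfe] at h1
  rcases lt_or_gt_of_ne hkl with hlt | hlt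
  · have : e l ≤ e (k + 1) := he (by omega)
    linarith
  · have : e k ≤ e (l + 1) := he (by omega)
    linarith

/-- the thin times are few -/
theorem thin_bound {s : ℕ} {g h al : ℕ → ℕ} {K0 : ℕ} (hal : IsAl s g h al) (Th : Finset ℕ)
    (x : ℝ) (hx : 0 ≤ x)
    (hTh : ∀ σ ∈ Sl s g h, σ ∉ Th → (Hi s g h al K0 σ : ℝ) - Lo s g h al K0 σ ≤ x) :
    (((Icc 1 K0).filter (fun k => ∀ σ ∈ Th,
      ¬ (Lo s g h al K0 σ < k ∧ k ≤ Hi s g h al K0 σ))).card : ℝ) ≤
      ((s + 1) * (s + 1) : ℕ) * (1 + x) := by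
  classical
  have hsub : (Icc 1 K0).filter (fun k => ∀ σ ∈ Th,
      ¬ (Lo s g h al K0 σ < k ∧ k ≤ Hi s g h al K0 σ)) ⊆
      (Sl s g h).biUnion (fun σ => if σ ∈ Th then {Lo s g h al K0 σ} else
        insert (Lo s g h al K0 σ) (Ioc (Lo s g h al K0 σ) (Hi s g h al K0 σ))) := by
    intro k hk
    rw [mem_filter, mem_Icc] at hk
    obtain ⟨⟨hk1, hk0⟩, hk2⟩ := hk
    obtain ⟨σ, hσ, hkσ⟩ := Tt_cover hal hk0
    refine mem_biUnion.2 ⟨σ, hσ, ?_⟩
    have h1 := Lo_le hkσ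
    have h2 := le_Hi hkσ
    split_ifs with hT
    · have := hk2 σ hT
      rw [mem_singleton]
      omega
    · rw [mem_insert, mem_Ioc]
      omega
  have h1 := card_le_card hsub
  have h2 := h1.trans card_biUnion_le
  have h3 : ∀ σ ∈ Sl s g h, ((if σ ∈ Th then ({Lo s g h al K0 σ} : Finset ℕ) else
        insert (Lo s g h al K0 σ) (Ioc (Lo s g h al K0 σ) (Hi s g h al K0 σ))).card : ℝ) ≤
        1 + x := by
    intro σ hσ
    split_ifs with hT
    · simp [hx]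
    · have := card_insert_le (Lo s g h al K0 σ) (Ioc (Lo s g h al K0 σ) (Hi s g h al K0 σ))
      rw [Nat.card_Ioc] at this
      have hb := hTh σ hσ hT
      rcases le_total (Hi s g h al K0 σ) (Lo s g h al K0 σ) with hle | hle
      · rw [Nat.sub_eq_zero_of_le hle] at this
        have t2 : ((insert (Lo s g h al K0 σ)
          (Ioc (Lo s g h al K0 σ) (Hi s g h al K0 σ))).card : ℝ) ≤ ((0 + 1 : ℕ) : ℝ) := by
          exact_mod_cast this
        push_cast at t2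
        linarith
      · have t2 : ((insert (Lo s g h al K0 σ)
          (Ioc (Lo s g h al K0 σ) (Hi s g h al K0 σ))).card : ℝ) ≤
            ((Hi s g h al K0 σ - Lo s g h al K0 σ + 1 : ℕ) : ℝ) := by
          exact_mod_cast this
        rw [Nat.cast_add, Nat.cast_sub hle] at t2
        push_cast at t2
        linarith
  calc (((Icc 1 K0).filter (fun k => ∀ σ ∈ Th,
      ¬ (Lo s g h al K0 σ < k ∧ k ≤ Hi s g h al K0 σ))).card : ℝ)
      ≤ ((∑ σ ∈ Sl s g h, (if σ ∈ Th then ({Lo s g h al K0 σ} : Finset ℕ) else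
        insert (Lo s g h al K0 σ) (Ioc (Lo s g h al K0 σ) (Hi s g h al K0 σ))).card : ℕ) : ℝ) := by
        exact_mod_cast h2
    _ = ∑ σ ∈ Sl s g h, ((if σ ∈ Th then ({Lo s g h al K0 σ} : Finset ℕ) else
        insert (Lo s g h al K0 σ) (Ioc (Lo s g h al K0 σ) (Hi s g h al K0 σ))).card : ℝ) := by
        push_cast; rfl
    _ ≤ ∑ σ ∈ Sl s g h, (1 + x) := sum_le_sum h3
    _ = (Sl s g h).card * (1 + x) := by rw [sum_const, nsmul_eq_mul]
    _ ≤ ((s + 1) * (s + 1) : ℕ) * (1 + x) := by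
        refine mul_le_mul_of_nonneg_right ?_ (by linarith)
        exact_mod_cast Sl_card s g h

/-- the levels -/
noncomputable def lev (m : ℝ) (Ψ : ℝ → ℝ) : ℕ → ℝ
  | 0 => 1 / (4 * m)
  | k + 1 => min (lev m Ψ k) (Ψ (lev m Ψ k) / (2 * m))

theorem lev_pos {m : ℝ} (hm : 0 < m) {Ψ : ℝ → ℝ} (hΨ : ∀ η, 0 < η → 0 < Ψ η) (k : ℕ) :
    0 < lev m Ψ k := by
  induction k with
  | zero => rw [lev]; positivity
  | succ k ih =>
    rw [lev]
    have := hΨ _ ih
    exact lt_min ih (by positivity)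

theorem lev_anti (m : ℝ) (Ψ : ℝ → ℝ) : Antitone (lev m Ψ) := by
  refine antitone_nat_of_succ_le fun k => ?_
  rw [lev]
  exact min_le_left _ _

end M12

open M12

/-- M12: the gap -/
theorem exists_TD (s R : ℕ) (hs : 0 < s) (hR : 0 < R) (Ψ : ℝ → ℝ) (hΨ : ∀ η, 0 < η → 0 < Ψ η) :
    ∃ F : Finset ℝ, (∀ η ∈ F, 0 < η ∧ η ≤ 1) ∧ ∃ N0 : ℕ, ∀ N, N0 ≤ N → ∀ g h al : ℕ → ℕ,
      Comp s R N g → Comp s R N h → IsAl s g h al → ∃ η ∈ F, ∃ (p : ℕ) (lo hi sig : ℕ → ℕ),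
        TD s g h al N η (Ψ η) (max (cs g s) (cs h s)) p lo hi sig := by
  classical
  set m : ℕ := (s + 1) * (s + 1) with hm
  have hm1 : 1 ≤ m := Nat.mul_pos (Nat.succ_pos s) (Nat.succ_pos s)
  have hmr : (1 : ℝ) ≤ m := by exact_mod_cast hm1
  have hmp : (0 : ℝ) < m := by linarith
  set M : ℕ := m + m * m with hM
  have hpos := fun k => lev_pos hmp hΨ k
  have hanti := lev_anti (m : ℝ) Ψ
  have hlev0 : lev (m : ℝ) Ψ 0 = 1 / (4 * m) := rfl
  have hle0 : ∀ k, lev (m : ℝ) Ψ k ≤ 1 / (4 * m) := fun k => by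
    rw [← hlev0]; exact hanti (Nat.zero_le k)
  have h14 : 1 / (4 * (m : ℝ)) ≤ 1 / 4 := by
    rw [div_le_div_iff₀ (by positivity) (by norm_num)]
    linarith
  refine ⟨(range (M + 1)).image (lev (m : ℝ) Ψ), ?_, ⌈1 / lev (m : ℝ) Ψ (M + 1)⌉₊ + 1, ?_⟩
  · intro η hη
    obtain ⟨k, -, rfl⟩ := mem_image.1 hη
    exact ⟨hpos k, by linarith [hle0 k]⟩
  · intro N hN g h al hg hh hal
    have hN1 : 0 < N := by omega
    have hNr : (0 : ℝ) < N := by exact_mod_cast hN1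
    have hNl : 1 / lev (m : ℝ) Ψ (M + 1) ≤ N := by
      refine (Nat.le_ceil _).trans ?_
      exact_mod_cast (by omega : ⌈1 / lev (m : ℝ) Ψ (M + 1)⌉₊ ≤ N)
    have hNl' : 1 ≤ lev (m : ℝ) Ψ (M + 1) * N := by
      rw [div_le_iff₀ (hpos _)] at hNl
      linarith
    set K0 := max (cs g s) (cs h s) with hK0
    -- the quantities
    set Lo' := Lo s g h al K0 with hLo'
    set Hi' := Hi s g h al K0 with hHi'
    set Q : Finset (ℕ ⊕ (ℕ × ℕ × ℕ)) := (Sl s g h).disjSum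
      (Sl s g h ×ˢ range (s + 1) ×ˢ range (s + 1)) with hQ
    have hQc : Q.card ≤ M := by
      rw [hQ, card_disjSum, card_product, card_product, card_range]
      have := Sl_card s g h
      rw [← hm] at this
      calc (Sl s g h).card + (Sl s g h).card * ((s + 1) * (s + 1))
          ≤ m + m * ((s + 1) * (s + 1)) :=
            Nat.add_le_add this (Nat.mul_le_mul_right _ this)
        _ = M := by rw [← hm]
    obtain ⟨k, hk, hgap⟩ := gap Q (Sum.elim (fun σ => ((Hi' σ : ℝ) - Lo' σ) / N)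
      (fun c => Db s g h al (Hi' c.1) c.2.1 c.2.2 / (N : ℝ) ^ 2)) (lev (m : ℝ) Ψ) hanti
    set η := lev (m : ℝ) Ψ k with hη
    set δ := lev (m : ℝ) Ψ (k + 1) with hδ
    have hη0 : 0 < η := hpos k
    have hδ0 : 0 < δ := hpos (k + 1)
    have hδΨ : δ ≤ Ψ η / (2 * m) := by
      rw [hδ, lev]
      exact min_le_right _ _
    have hδM : lev (m : ℝ) Ψ (M + 1) ≤ δ := hanti (by omega)
    have hΨη := hΨ η hη0
    have hmδ : m * δ ≤ Ψ η / 2 := by
      calc m * δ ≤ m * (Ψ η / (2 * m)) := mul_le_mul_of_nonneg_left hδΨ hmp.le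
        _ = Ψ η / 2 := by field_simp
    have hδ' : δ ≤ Ψ η := by nlinarith
    have hgap1 : ∀ σ ∈ Sl s g h, ((Hi' σ : ℝ) - Lo' σ) ≤ δ * N ∨ η * N ≤ (Hi' σ : ℝ) - Lo' σ := by
      intro σ hσ
      have := hgap (Sum.inl σ) (by rw [hQ, inl_mem_disjSum]; exact hσ)
      simp only [Sum.elim_inl] at this
      rcases this with h1 | h1
      · left; rwa [div_le_iff₀ hNr] at h1
      · right; rwa [le_div_iff₀ hNr] at h1
    have hgap2 : ∀ σ ∈ Sl s g h, ∀ a b, a ≤ s → b ≤ s → Db s g h al (Hi' σ) a b ≤ δ * (N : ℝ) ^ 2 ∨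
        η * (N : ℝ) ^ 2 ≤ Db s g h al (Hi' σ) a b := by
      intro σ hσ a b ha hb
      have := hgap (Sum.inr (σ, a, b)) (by
        rw [hQ, inr_mem_disjSum]
        simp only [mem_product, mem_range]
        exact ⟨hσ, by omega, by omega⟩)
      simp only [Sum.elim_inr] at this
      rcases this with h1 | h1
      · left; rwa [div_le_iff₀ (by positivity)] at h1
      · right; rwa [le_div_iff₀ (by positivity)] at h1
    -- thick slopes
    set Th := (Sl s g h).filter (fun σ => η * N ≤ (Hi' σ : ℝ) - Lo' σ) with hTh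
    have hThlt : ∀ σ ∈ Th, Lo' σ < Hi' σ := by
      intro σ hσ
      rw [hTh, mem_filter] at hσ
      have : (Lo' σ : ℝ) < Hi' σ := by nlinarith [hσ.2, mul_pos hη0 hNr]
      exact_mod_cast this
    have hthin := thin_bound (K0 := K0) hal Th (δ * N) (by positivity) (by
      intro σ hσ hn
      rw [hTh, mem_filter] at hn
      rcases hgap1 σ hσ with h1 | h1
      · exact h1
      · exact absurd ⟨hσ, h1⟩ hn)
    rw [← hm, ← hLo', ← hHi'] at hthin
    have hmN : (m : ℝ) * (1 + δ * N) ≤ Ψ η * N := by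
      have h1 : (m : ℝ) ≤ m * (δ * N) := by
        have : 1 ≤ δ * N := hNl'.trans (mul_le_mul_of_nonneg_right hδM hNr.le)
        nlinarith
      have h2 : m * δ * N ≤ Ψ η / 2 * N := mul_le_mul_of_nonneg_right hmδ hNr.le
      nlinarith
    have hThne : Th.Nonempty := by
      by_contra hne
      rw [not_nonempty_iff_eq_empty] at hne
      rw [hne] at hthin
      have hall : (Icc 1 K0).filter (fun k => ∀ σ ∈ (∅ : Finset ℕ),
        ¬ (Lo' σ < k ∧ k ≤ Hi' σ)) = Icc 1 K0 := by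
        refine filter_true_of_mem ?_
        intro x _ σ hσ
        simp at hσ
      rw [hall, Nat.card_Icc, Nat.add_sub_cancel] at hthin
      have hK : N ≤ K0 := by
        refine le_trans ?_ (le_max_left _ _)
        refine le_trans (hg 1 le_rfl hs).1 ?_
        rw [← cs_one g]
        exact cs_mono g hs
      have hKr : (N : ℝ) ≤ K0 := by exact_mod_cast hK
      have hδ4 : m * δ ≤ 1 / 4 := by
        calc (m : ℝ) * δ ≤ m * (1 / (4 * m)) := mul_le_mul_of_nonneg_left (hle0 _) hmp.le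
          _ = 1 / 4 := by field_simp
      have hm4 : (m : ℝ) ≤ N / 4 := by
        have h1 := hle0 (M + 1)
        have h2 : 1 ≤ 1 / (4 * (m : ℝ)) * N :=
          hNl'.trans (mul_le_mul_of_nonneg_right h1 hNr.le)
        have h3 : (4 * (m : ℝ)) ≤ N := by
          have h4 : 4 * (m : ℝ) * (1 / (4 * (m : ℝ)) * N) = N := by field_simp
          nlinarith
        linarith
      nlinarith
    set p := Th.card with hp
    have hp0 : 0 < p := card_pos.2 hThne
    set E := Th.orderEmbOfFin (rfl : Th.card = Th.card) with hE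
    set sig : ℕ → ℕ := fun j => if hj : j < p then E ⟨p - 1 - j, by omega⟩ else 0 with hsig
    have hsigmem : ∀ j, j < p → sig j ∈ Th := by
      intro j hj
      simp only [hsig, dif_pos hj]
      exact orderEmbOfFin_mem _ _ _
    have hsigdec : ∀ j, j + 1 < p → sig (j + 1) < sig j := by
      intro j hj
      simp only [hsig, dif_pos hj, dif_pos (show j < p by omega)]
      refine (OrderEmbedding.lt_iff_lt E).2 ?_
      rw [Fin.lt_def]
      simp only
      omega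
    have hsigsurj : ∀ σ ∈ Th, ∃ j, j < p ∧ sig j = σ := by
      intro σ hσ
      have : σ ∈ Set.range (Th.orderEmbOfFin (rfl : Th.card = Th.card)) := by
        rw [range_orderEmbOfFin]; exact hσ
      obtain ⟨i, hi⟩ := this
      refine ⟨p - 1 - i, by have := i.2; omega, ?_⟩
      have hlt : p - 1 - (i : ℕ) < p := by omega
      simp only [hsig, dif_pos hlt]
      rw [← hi, hE]
      congr 1
      ext
      simp only
      have := i.2
      omega
    refine ⟨η, mem_image.2 ⟨k, by rw [mem_range]; omega, rfl⟩, p,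
      fun j => Lo' (sig j), fun j => Hi' (sig j), sig, ?_⟩
    refine ⟨hp0, ?_, ?_, ?_, ?_, ?_, ?_, ?_, ?_, ?_⟩
    · intro j hj
      exact hThlt _ (hsigmem j hj)
    · intro j hj
      have := hsigmem j hj
      rw [hTh, mem_filter] at this
      linarith [this.2]
    · intro j hj
      have h1 := hsigmem j (by omega)
      have h2 := hsigmem (j + 1) hj
      exact Tt_ord hal (Hi_mem (Tt_ne (hThlt _ h1))) (Lo_mem (Tt_ne (hThlt _ h2)))
        (hsigdec j hj)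
    · exact Hi_le
    · intro j hj k' hk1 hk2
      have h1 := hsigmem j hj
      have hne := Tt_ne (hThlt _ h1)
      have hlo := Lo_mem hne
      exact Tt_lin hal hlo (Tt_conv hal hlo (Hi_mem hne) hk1 hk2) hk1
    · exact hsigdec
    · intro j hj
      exact sig_low hs hN1 hal hg hh (hThlt _ (hsigmem j hj))
    · refine le_trans ?_ (hthin.trans hmN)
      norm_cast
      refine card_le_card ?_
      intro x hx
      rw [mem_filter] at hx ⊢
      refine ⟨hx.1, ?_⟩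
      intro σ hσ
      obtain ⟨j, hj, rfl⟩ := hsigsurj σ hσ
      exact hx.2 j hj
    · intro a b j ha hb hj
      have h1 := hsigmem j hj
      rw [hTh, mem_filter] at h1
      rcases hgap2 (sig j) h1.1 a b ha hb with h2 | h2
      · left
        exact h2.trans (mul_le_mul_of_nonneg_right hδ' (by positivity))
      · right
        exact h2

end Pool.MP_d56194_co
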