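import Mathlib
import Pool.Agent.Lib.MP_d56194_co.L.L0

set_option autoImplicit false

namespace Pool.MP_d56194_co

open Finset

/-- The set of the admissible vectors of one step. -/
def stepSet7 (n B : ℕ) (m₀ u : Fin n → ℝ) (w : ℕ → ℝ) (r : Fin n → ℕ → ℝ) : Set (Fin n → ℝ) :=
  {x | x ∈ Set.Icc m₀ u ∧ ∀ b ≤ B, ∑ i, max (x i - r i b) 0 ≤ w b}

theorem stepSet7_compact (n B : ℕ) (m₀ u : Fin n → ℝ) (w : ℕ → ℝ) (r : Fin n → ℕ → ℝ) :
    IsCompact (stepSet7 n B m₀ u w r) := by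
  have h1 : stepSet7 n B m₀ u w r =
      Set.Icc m₀ u ∩ {x | ∀ b ≤ B, ∑ i, max (x i - r i b) 0 ≤ w b} := rfl
  rw [h1]
  refine isCompact_Icc.inter_right ?_
  have h2 : {x : Fin n → ℝ | ∀ b ≤ B, ∑ i, max (x i - r i b) 0 ≤ w b} =
      ⋂ b, ⋂ (_ : b ≤ B), {x | ∑ i, max (x i - r i b) 0 ≤ w b} := by
    ext x
    simp
  rw [h2]
  refine isClosed_iInter fun b => isClosed_iInter fun _ => ?_
  exact isClosed_le (by fun_prop) continuous_const

/-- A vector with maximal sum has a large sum. -/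
theorem step7_max (n B : ℕ) (m₀ u : Fin n → ℝ) (w : ℕ → ℝ) (r : Fin n → ℕ → ℝ) (tot : ℝ)
    (hr : ∀ i b, r i (b + 1) ≤ r i b)
    (hcut : ∀ b, b ≤ B → tot ≤ ∑ i, min (u i) (r i b) + w b) (hcut0 : tot ≤ ∑ i, u i)
    (x : Fin n → ℝ) (hx : x ∈ stepSet7 n B m₀ u w r)
    (hmax : ∀ y ∈ stepSet7 n B m₀ u w r, ∑ i, y i ≤ ∑ i, x i) : tot ≤ ∑ i, x i := by
  have hr' : ∀ i b b', b ≤ b' → r i b' ≤ r i b := fun i b b' h =>
    antitone_nat_of_succ_le (fun c => hr i c) h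
  obtain ⟨⟨hx0, hxu⟩, hxw⟩ := hx
  -- rows below the cap are blocked
  have hblock : ∀ i₀, x i₀ < u i₀ → ∃ b, b ≤ B ∧ ∑ i, max (x i - r i b) 0 = w b ∧
      r i₀ b ≤ x i₀ := by
    intro i₀ hi₀
    by_contra hcon
    push Not at hcon
    have h1 : ∀ b, ∃ c : ℝ, 0 < c ∧ (b ≤ B → ∀ ε, 0 ≤ ε → ε ≤ c →
        ∑ i, max (Function.update x i₀ (x i₀ + ε) i - r i b) 0 ≤ w b) := by
      intro b
      by_cases hb : b ≤ B
      · have h2 : ∀ ε, ∑ i, max (Function.update x i₀ (x i₀ + ε) i - r i b) 0 =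
            max (x i₀ + ε - r i₀ b) 0 + (∑ i, max (x i - r i b) 0 - max (x i₀ - r i₀ b) 0) := by
          intro ε
          rw [← Finset.add_sum_erase _ _ (Finset.mem_univ i₀),
            ← Finset.add_sum_erase (a := i₀) _ (fun i => max (x i - r i b) 0)
              (Finset.mem_univ i₀), Function.update_self, add_sub_cancel_left]
          congr 1
          refine Finset.sum_congr rfl fun i hi => ?_
          rw [Function.update_of_ne (Finset.ne_of_mem_erase hi)]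
        rcases lt_or_eq_of_le (hxw b hb) with h3 | h3
        · refine ⟨w b - ∑ i, max (x i - r i b) 0, sub_pos.2 h3, fun _ ε hε0 hε => ?_⟩
          rw [h2]
          have h4 : max (x i₀ + ε - r i₀ b) 0 ≤ max (x i₀ - r i₀ b) 0 + ε := by
            refine max_le ?_ ?_
            · linarith [le_max_left (x i₀ - r i₀ b) 0]
            · linarith [le_max_right (x i₀ - r i₀ b) 0]
          linarith
        · have h4 := hcon b hb h3
          refine ⟨r i₀ b - x i₀, sub_pos.2 h4, fun _ ε hε0 hε => ?_⟩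
          rw [h2]
          have h5 : max (x i₀ + ε - r i₀ b) 0 = 0 := max_eq_right (by linarith)
          have h6 : max (x i₀ - r i₀ b) 0 = 0 := max_eq_right (by linarith)
          rw [h5, h6]
          linarith
      · exact ⟨1, one_pos, fun h => absurd h hb⟩
    choose c hc0 hc using h1
    obtain ⟨ε, hε0, hε⟩ : ∃ ε : ℝ, 0 < ε ∧ ∀ b ∈ range (B + 1), ε ≤ c b := by
      have hne : (range (B + 1)).Nonempty := ⟨0, Finset.mem_range.2 (Nat.succ_pos B)⟩
      exact ⟨(range (B + 1)).inf' hne c, (Finset.lt_inf'_iff hne).2 fun b _ => hc0 b,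
        fun b hb => Finset.inf'_le _ hb⟩
    set ε' := min ε (u i₀ - x i₀) with hε'
    have hε'0 : 0 < ε' := lt_min hε0 (sub_pos.2 hi₀)
    have h2 := hmax (Function.update x i₀ (x i₀ + ε')) (by
      refine ⟨⟨fun i => ?_, fun i => ?_⟩, fun b hb => ?_⟩
      · by_cases hi : i = i₀
        · subst hi
          rw [Function.update_self]
          linarith [hx0 i]
        · rw [Function.update_of_ne hi]
          exact hx0 i
      · by_cases hi : i = i₀
        · subst hi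
          rw [Function.update_self]
          linarith [min_le_right ε (u i - x i)]
        · rw [Function.update_of_ne hi]
          exact hxu i
      · exact hc b hb ε' hε'0.le
          ((min_le_left _ _).trans (hε b (Finset.mem_range.2 (Nat.lt_succ_of_le hb)))))
    rw [← Finset.add_sum_erase _ _ (Finset.mem_univ i₀),
      ← Finset.add_sum_erase (a := i₀) _ x (Finset.mem_univ i₀), Function.update_self] at h2
    have h3 : ∑ i ∈ univ.erase i₀, Function.update x i₀ (x i₀ + ε') i = ∑ i ∈ univ.erase i₀, x i :=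
      Finset.sum_congr rfl fun i hi => Function.update_of_ne (Finset.ne_of_mem_erase hi) _ _
    rw [h3] at h2
    linarith
  by_cases hall : ∀ i, u i ≤ x i
  · exact hcut0.trans (Finset.sum_le_sum fun i _ => hall i)
  · push Not at hall
    obtain ⟨i₁, hi₁⟩ := hall
    obtain ⟨b₁, hb₁, hb₁w, -⟩ := hblock i₁ hi₁
    -- the largest tight `b`
    obtain ⟨b₀, hb₀, hb₀max⟩ := Finset.exists_max_image
      ((range (B + 1)).filter fun b => ∑ i, max (x i - r i b) 0 = w b) id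
      ⟨b₁, Finset.mem_filter.2 ⟨Finset.mem_range.2 (Nat.lt_succ_of_le hb₁), hb₁w⟩⟩
    obtain ⟨hb₀B, hb₀w⟩ := Finset.mem_filter.1 hb₀
    have h1 : ∀ i, min (u i) (r i b₀) ≤ min (x i) (r i b₀) := by
      intro i
      rcases lt_or_ge (x i) (u i) with h2 | h2
      · obtain ⟨b, hb, hbw, hbr⟩ := hblock i h2
        have h3 : b ≤ b₀ :=
          hb₀max b (Finset.mem_filter.2 ⟨Finset.mem_range.2 (Nat.lt_succ_of_le hb), hbw⟩)
        rw [min_eq_right ((hr' i b b₀ h3).trans hbr)]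
        exact min_le_right _ _
      · exact min_le_min_right _ h2
    have h2 : ∑ i, x i = ∑ i, min (x i) (r i b₀) + ∑ i, max (x i - r i b₀) 0 := by
      rw [← Finset.sum_add_distrib]
      refine Finset.sum_congr rfl fun i _ => ?_
      rcases le_total (x i) (r i b₀) with h3 | h3
      · rw [min_eq_left h3, max_eq_right (by linarith), add_zero]
      · rw [min_eq_right h3, max_eq_left (by linarith)]
        ring
    rw [h2, hb₀w]
    have h3 := hcut b₀ (Nat.lt_succ_iff.1 (Finset.mem_range.1 hb₀B))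
    have h4 : ∑ i, min (u i) (r i b₀) ≤ ∑ i, min (x i) (r i b₀) :=
      Finset.sum_le_sum fun i _ => h1 i
    linarith

/-- One step. -/
theorem step7 (n B : ℕ) (m₀ u : Fin n → ℝ) (w : ℕ → ℝ) (r : Fin n → ℕ → ℝ) (tot : ℝ)
    (hr : ∀ i b, r i (b + 1) ≤ r i b) (h0 : ∀ i, m₀ i ≤ u i)
    (hw : ∀ b, b ≤ B → ∑ i, max (m₀ i - r i b) 0 ≤ w b)
    (hcut : ∀ b, b ≤ B → tot ≤ ∑ i, min (u i) (r i b) + w b) (hcut0 : tot ≤ ∑ i, u i)
    (ht : ∑ i, m₀ i ≤ tot) :
    ∃ m₁ : Fin n → ℝ, (∀ i, m₀ i ≤ m₁ i ∧ m₁ i ≤ u i) ∧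
      (∀ b, b ≤ B → ∑ i, max (m₁ i - r i b) 0 ≤ w b) ∧ ∑ i, m₁ i = tot := by
  have hm₀ : m₀ ∈ stepSet7 n B m₀ u w r := ⟨⟨le_refl _, h0⟩, hw⟩
  obtain ⟨x, hx, hxmax⟩ := (stepSet7_compact n B m₀ u w r).exists_isMaxOn ⟨m₀, hm₀⟩
    (f := fun x => ∑ i, x i) (by fun_prop)
  have h1 : tot ≤ ∑ i, x i := step7_max n B m₀ u w r tot hr hcut hcut0 x hx
    fun y hy => hxmax hy
  obtain ⟨⟨hx0, hxu⟩, hxw⟩ := hx
  -- the convex combination
  obtain ⟨l, hl0, hl1, hl⟩ : ∃ l : ℝ, 0 ≤ l ∧ l ≤ 1 ∧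
      (1 - l) * ∑ i, m₀ i + l * ∑ i, x i = tot := by
    rcases eq_or_lt_of_le (ht.trans h1) with h2 | h2
    · refine ⟨0, le_refl _, zero_le_one, ?_⟩
      linarith
    · refine ⟨(tot - ∑ i, m₀ i) / (∑ i, x i - ∑ i, m₀ i), ?_, ?_, ?_⟩
      · exact div_nonneg (by linarith) (by linarith)
      · rw [div_le_one (by linarith)]
        linarith
      · have h3 : ∑ i, x i - ∑ i, m₀ i ≠ 0 := by linarith
        field_simp
        ring
  refine ⟨fun i => (1 - l) * m₀ i + l * x i, fun i => ⟨?_, ?_⟩, fun b hb => ?_, ?_⟩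
  · nlinarith [hx0 i]
  · nlinarith [hxu i, h0 i]
  · calc ∑ i, max ((1 - l) * m₀ i + l * x i - r i b) 0
        ≤ ∑ i, ((1 - l) * max (m₀ i - r i b) 0 + l * max (x i - r i b) 0) := by
          refine Finset.sum_le_sum fun i _ => max_le ?_ ?_
          · nlinarith [le_max_left (m₀ i - r i b) 0, le_max_left (x i - r i b) 0]
          · have h2 := le_max_right (m₀ i - r i b) 0
            have h3 := le_max_right (x i - r i b) 0
            have h4 : 0 ≤ 1 - l := by linarith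
            positivity
      _ = (1 - l) * ∑ i, max (m₀ i - r i b) 0 + l * ∑ i, max (x i - r i b) 0 := by
          rw [Finset.sum_add_distrib, Finset.mul_sum, Finset.mul_sum]
      _ ≤ (1 - l) * w b + l * w b := by
          refine add_le_add (mul_le_mul_of_nonneg_left (hw b hb) (by linarith))
            (mul_le_mul_of_nonneg_left (hxw b hb) hl0)
      _ = w b := by ring
  · rw [Finset.sum_add_distrib, ← Finset.mul_sum, ← Finset.mul_sum]
    exact hl

/-- M7: chains of admissible vectors -/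
theorem chain_real (n B T : ℕ) (u w : ℕ → ℕ → ℝ) (r : ℕ → ℕ → ℝ) (tot : ℕ → ℝ)
    (hu0 : ∀ i, u 0 i = 0) (hu : ∀ φ i, u φ i ≤ u (φ + 1) i)
    (hw0 : ∀ b, 0 ≤ w 0 b) (hw : ∀ φ b, w φ b ≤ w (φ + 1) b)
    (hr0 : ∀ i b, 0 ≤ r i b) (hr : ∀ i b, r i (b + 1) ≤ r i b)
    (htot0 : tot 0 = 0) (htot : ∀ φ, tot φ ≤ tot (φ + 1))
    (hcut : ∀ φ, φ ≤ T → ∀ b, b ≤ B → tot φ ≤ ∑ i ∈ range n, min (u φ i) (r i b) + w φ b)
    (hcut0 : ∀ φ, φ ≤ T → tot φ ≤ ∑ i ∈ range n, u φ i) :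
    ∃ m : ℕ → ℕ → ℝ, (∀ i, m 0 i = 0) ∧ (∀ φ i, φ < T → m φ i ≤ m (φ + 1) i) ∧
      (∀ φ i, φ ≤ T → 0 ≤ m φ i ∧ m φ i ≤ u φ i) ∧
      (∀ φ b, φ ≤ T → b ≤ B → ∑ i ∈ range n, max (m φ i - r i b) 0 ≤ w φ b) ∧
      (∀ φ, φ ≤ T → ∑ i ∈ range n, m φ i = tot φ) := by
  -- the good vectors at the time `φ`
  let P : ℕ → (ℕ → ℝ) → Prop := fun φ m => (∀ i, 0 ≤ m i ∧ m i ≤ u φ i) ∧
    (∀ b, b ≤ B → ∑ i ∈ range n, max (m i - r i b) 0 ≤ w φ b) ∧ ∑ i ∈ range n, m i = tot φ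
  have hstep : ∀ φ, φ + 1 ≤ T → ∀ m, P φ m → ∃ m', P (φ + 1) m' ∧ ∀ i, m i ≤ m' i := by
    intro φ hφ m hm
    obtain ⟨h1, h2, h3⟩ := hm
    obtain ⟨m₁, h4, h5, h6⟩ := step7 n B (fun i => m i) (fun i => u (φ + 1) i)
      (fun b => w (φ + 1) b) (fun i b => r i b) (tot (φ + 1)) (fun i b => hr i b)
      (fun i => (h1 i).2.trans (hu φ i)) (fun b hb => by
        have h7 := (h2 b hb).trans (hw φ b)
        rwa [Finset.sum_range] at h7)
      (fun b hb => by
        have h7 := hcut (φ + 1) hφ b hb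
        rwa [Finset.sum_range] at h7)
      (by
        have h7 := hcut0 (φ + 1) hφ
        rwa [Finset.sum_range] at h7)
      (by
        have h7 := htot φ
        rwa [← h3, Finset.sum_range] at h7)
    refine ⟨fun i => if hi : i < n then m₁ ⟨i, hi⟩ else m i, ⟨fun i => ?_, fun b hb => ?_, ?_⟩,
      fun i => ?_⟩
    · by_cases hi : i < n
      · simp only [dif_pos hi]
        exact ⟨(h1 i).1.trans (h4 ⟨i, hi⟩).1, (h4 ⟨i, hi⟩).2⟩
      · simp only [dif_neg hi]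
        exact ⟨(h1 i).1, (h1 i).2.trans (hu φ i)⟩
    · rw [Finset.sum_range]
      simp only [Fin.is_lt, dite_true, Fin.eta]
      exact h5 b hb
    · rw [Finset.sum_range]
      simp only [Fin.is_lt, dite_true, Fin.eta]
      exact h6
    · by_cases hi : i < n
      · simp only [dif_pos hi]
        exact (h4 ⟨i, hi⟩).1
      · simp only [dif_neg hi]
        exact le_refl _
  -- choose
  classical
  let nx : ℕ → (ℕ → ℝ) → (ℕ → ℝ) := fun φ m =>
    if h : φ + 1 ≤ T ∧ P φ m then Classical.choose (hstep φ h.1 m h.2) else m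
  have hnx : ∀ φ m, φ + 1 ≤ T → P φ m → P (φ + 1) (nx φ m) ∧ ∀ i, m i ≤ nx φ m i := by
    intro φ m hφ hm
    have h1 : nx φ m = Classical.choose (hstep φ hφ m hm) := dif_pos ⟨hφ, hm⟩
    rw [h1]
    exact Classical.choose_spec (hstep φ hφ m hm)
  let m : ℕ → ℕ → ℝ := fun φ => Nat.rec (fun _ => 0) nx φ
  have hm0 : m 0 = fun _ => 0 := rfl
  have hmS : ∀ φ, m (φ + 1) = nx φ (m φ) := fun _ => rfl
  have hP : ∀ φ, φ ≤ T → P φ (m φ) := by
    intro φ
    induction φ with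
    | zero =>
      intro _
      rw [hm0]
      refine ⟨fun i => ⟨le_refl _, (hu0 i).symm.le⟩, fun b _ => ?_, ?_⟩
      · refine le_trans (le_of_eq ?_) (hw0 b)
        refine Finset.sum_eq_zero fun i _ => ?_
        exact max_eq_right (by linarith [hr0 i b])
      · rw [htot0]
        exact Finset.sum_const_zero
    | succ φ ih =>
      intro hφ
      rw [hmS]
      exact (hnx φ (m φ) hφ (ih (Nat.le_of_succ_le hφ))).1
  refine ⟨m, fun i => rfl, fun φ i hφ => ?_, fun φ i hφ => (hP φ hφ).1 i,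
    fun φ b hφ hb => (hP φ hφ).2.1 b hb, fun φ hφ => (hP φ hφ).2.2⟩
  rw [hmS]
  exact (hnx φ (m φ) hφ (hP φ hφ.le)).2 i

end Pool.MP_d56194_co
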