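import Mathlib
import Pool.Agent.Lib.MP_d56194_co.L.L0
import Pool.Agent.Lib.MP_d56194_co.L.L7

set_option autoImplicit false

namespace Pool.MP_d56194_co

open Finset Real

namespace L13

lemma sum_ind (I : Finset ℕ) (i0 : ℕ) (Q : Prop) [Decidable Q] (δ : ℝ) :
    ∑ i ∈ I, (if i = i0 ∧ Q then δ else 0) = if i0 ∈ I ∧ Q then δ else 0 := by
  by_cases hQ : Q
  · simp [hQ]
  · simp [hQ]

/-- supermodularity of the positive part -/
lemma supermod (M M' R R' : ℝ) (hM : M ≤ M') (hR : R' ≤ R) :
    0 ≤ (max (M' - R') 0 - max (M' - R) 0) - (max (M - R') 0 - max (M - R) 0) := by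
  rcases max_cases (M' - R') 0 with ⟨h1, h1'⟩ | ⟨h1, h1'⟩ <;>
  rcases max_cases (M' - R) 0 with ⟨h2, h2'⟩ | ⟨h2, h2'⟩ <;>
  rcases max_cases (M - R') 0 with ⟨h3, h3'⟩ | ⟨h3, h3'⟩ <;>
  rcases max_cases (M - R) 0 with ⟨h4, h4'⟩ | ⟨h4, h4'⟩ <;>
  rw [h1, h2, h3, h4] <;> linarith

lemma cs_succ (g : ℕ → ℕ) (a : ℕ) : cs g (a + 1) = cs g a + g (a + 1) := by
  unfold cs
  rw [sum_range_succ]

lemma cs_mono (g : ℕ → ℕ) : Monotone (cs g) := by
  apply monotone_nat_of_le_succ
  intro a
  rw [cs_succ]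
  omega

end L13

open L13 in
/-- M13: the competitor with the mass `δ` in a given block -/
theorem competitor (s P : ℕ) (g h : ℕ → ℕ) (q : ℝ) (C al : ℕ → ℝ) (i0 x0 t0 : ℕ) (δ : ℝ)
    (hq : 0 < q) (hδ : 0 ≤ δ) (hix : i0 + x0 < s) (ht0 : t0 < P)
    (hC0 : C 0 = 0) (hC : ∀ φ, C φ ≤ C (φ + 1)) (hal0 : al 0 = 0)
    (hal : ∀ φ, al φ ≤ al (φ + 1))
    (hd1 : δ ≤ g (i0 + 1) * (C (t0 + 1) - C t0)) (hd2 : δ ≤ h (x0 + 1) * (C (t0 + 1) - C t0))
    (hd3 : δ ≤ al (t0 + 1) - al t0) (hd4 : δ ≤ q * g (i0 + 1) * h (x0 + 1))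
    (hcut : ∀ φ b, φ ≤ P → b ≤ s → ∀ I, I ⊆ range s →
      al φ + (if (i0 ∈ I ∧ x0 < b ∧ t0 < φ) ∨ (i0 ∉ I ∧ b ≤ x0 ∧ φ ≤ t0) then δ else 0) ≤
        C φ * (∑ i ∈ I, (g (i + 1) : ℝ) + cs h b) +
          ∑ i ∈ range s \ I, q * g (i + 1) * ((cs h (s - i) - cs h b : ℕ) : ℝ))
    (hend : al P = ∑ i ∈ range s, q * g (i + 1) * cs h (s - i)) :
    ∃ X : ℕ → ℕ → ℕ → ℝ, (∀ k l m, 0 ≤ X k l m) ∧
      (∀ k l m, X k l m ≠ 0 → k < s ∧ l < s ∧ m < P) ∧ δ ≤ X i0 x0 t0 ∧
      (∀ k, k < s → ∑ l ∈ range s, ∑ m ∈ range P, X k l m = q * g (k + 1) * cs h (s - k)) ∧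
      (∀ m, m < P → ∑ k ∈ range s, ∑ l ∈ range s, X k l m = al (m + 1) - al m) ∧
      (∀ a b, a ≤ s → b ≤ s → ∑ k ∈ range a, ∑ l ∈ range b, ∑ m ∈ range P, X k l m =
        ∑ k ∈ range a, q * g (k + 1) * (min (cs h (s - k)) (cs h b) : ℕ)) ∧
      (∀ a c, a ≤ s → c ≤ P → ∑ k ∈ range a, ∑ l ∈ range s, ∑ m ∈ range c, X k l m ≤
        C c * cs g a) ∧
      (∀ b c, b ≤ s → c ≤ P → ∑ k ∈ range s, ∑ l ∈ range b, ∑ m ∈ range c, X k l m ≤
        C c * cs h b) := by
  classical
  have hCmono : Monotone C := monotone_nat_of_le_succ hC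
  have hC0' : ∀ φ, 0 ≤ C φ := fun φ => by
    rw [← hC0]
    exact hCmono (Nat.zero_le φ)
  let u : ℕ → ℕ → ℝ := fun φ i => g (i + 1) * C φ - (if i = i0 ∧ t0 < φ then δ else 0)
  let r : ℕ → ℕ → ℝ := fun i b => q * g (i + 1) * ((cs h (s - i) - cs h b : ℕ) : ℝ) -
    (if i = i0 ∧ b ≤ x0 then δ else 0)
  let w : ℕ → ℕ → ℝ := fun φ b => cs h b * C φ - (if x0 < b ∧ t0 < φ then δ else 0)
  let tot : ℕ → ℝ := fun φ => al φ - (if t0 < φ then δ else 0)
  have hu0 : ∀ i, u 0 i = 0 := fun i => by simp [u, hC0]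
  have hu : ∀ φ i, u φ i ≤ u (φ + 1) i := by
    intro φ i
    simp only [u]
    have h1 : (g (i + 1) : ℝ) * C φ ≤ g (i + 1) * C (φ + 1) :=
      mul_le_mul_of_nonneg_left (hC φ) (Nat.cast_nonneg _)
    by_cases h2 : i = i0 ∧ φ = t0
    · obtain ⟨rfl, rfl⟩ := h2
      rw [if_neg (by omega), if_pos (by omega)]
      linarith
    · by_cases h3 : i = i0 ∧ t0 < φ
      · rw [if_pos h3, if_pos (by omega)]
        linarith
      · rw [if_neg h3, if_neg (by omega)]
        linarith
  have hw0 : ∀ b, 0 ≤ w 0 b := fun b => by simp [w, hC0]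
  have hw : ∀ φ b, w φ b ≤ w (φ + 1) b := by
    intro φ b
    simp only [w]
    have h1 : (cs h b : ℝ) * C φ ≤ cs h b * C (φ + 1) :=
      mul_le_mul_of_nonneg_left (hC φ) (Nat.cast_nonneg _)
    by_cases h2 : x0 < b ∧ φ = t0
    · obtain ⟨h3, rfl⟩ := h2
      rw [if_neg (by omega), if_pos (by omega)]
      have h4 : cs h (x0 + 1) ≤ cs h b := cs_mono h h3
      rw [cs_succ] at h4
      have h5 : (h (x0 + 1) : ℝ) ≤ cs h b := by
        have : h (x0 + 1) ≤ cs h b := by omega
        exact_mod_cast this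
      have h6 : (h (x0 + 1) : ℝ) * (C (φ + 1) - C φ) ≤ cs h b * (C (φ + 1) - C φ) :=
        mul_le_mul_of_nonneg_right h5 (sub_nonneg.mpr (hC φ))
      linarith
    · by_cases h3 : x0 < b ∧ t0 < φ
      · rw [if_pos h3, if_pos (by omega)]
        linarith
      · rw [if_neg h3, if_neg (by omega)]
        linarith
  have hqg : 0 ≤ q * (g (i0 + 1) : ℝ) := mul_nonneg hq.le (Nat.cast_nonneg _)
  have hr0 : ∀ i b, 0 ≤ r i b := by
    intro i b
    simp only [r]
    by_cases h1 : i = i0 ∧ b ≤ x0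
    · obtain ⟨rfl, h2⟩ := h1
      rw [if_pos ⟨rfl, h2⟩]
      have h3 : cs h (x0 + 1) ≤ cs h (s - i) := cs_mono h (by omega)
      have h4 : cs h b ≤ cs h x0 := cs_mono h h2
      rw [cs_succ] at h3
      have h5 : (h (x0 + 1) : ℝ) ≤ ((cs h (s - i) - cs h b : ℕ) : ℝ) := by
        have : h (x0 + 1) ≤ cs h (s - i) - cs h b := by omega
        exact_mod_cast this
      have h6 := mul_le_mul_of_nonneg_left h5 hqg
      linarith
    · rw [if_neg h1, sub_zero]
      positivity
  have hr : ∀ i b, r i (b + 1) ≤ r i b := by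
    intro i b
    simp only [r]
    have h0 : cs h b ≤ cs h (b + 1) := cs_mono h (by omega)
    have h1 : ((cs h (s - i) - cs h (b + 1) : ℕ) : ℝ) ≤ ((cs h (s - i) - cs h b : ℕ) : ℝ) := by
      have : cs h (s - i) - cs h (b + 1) ≤ cs h (s - i) - cs h b := by omega
      exact_mod_cast this
    have h2 : q * g (i + 1) * ((cs h (s - i) - cs h (b + 1) : ℕ) : ℝ) ≤
        q * g (i + 1) * ((cs h (s - i) - cs h b : ℕ) : ℝ) :=
      mul_le_mul_of_nonneg_left h1 (mul_nonneg hq.le (Nat.cast_nonneg _))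
    by_cases h3 : i = i0 ∧ b = x0
    · obtain ⟨rfl, rfl⟩ := h3
      rw [if_neg (by omega), if_pos (by omega)]
      have h4 : cs h (b + 1) ≤ cs h (s - i) := cs_mono h (by omega)
      have h5 := cs_succ h b
      have h6 : ((cs h (s - i) - cs h b : ℕ) : ℝ) =
          ((cs h (s - i) - cs h (b + 1) : ℕ) : ℝ) + h (b + 1) := by
        have : cs h (s - i) - cs h b = (cs h (s - i) - cs h (b + 1)) + h (b + 1) := by omega
        rw [this]
        push_cast
        ring
      rw [h6, mul_add]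
      linarith
    · by_cases h4 : i = i0 ∧ b ≤ x0
      · rw [if_pos h4, if_pos (by omega)]
        linarith
      · rw [if_neg h4, if_neg (by omega)]
        linarith
  have htot0 : tot 0 = 0 := by simp [tot, hal0]
  have htot : ∀ φ, tot φ ≤ tot (φ + 1) := by
    intro φ
    simp only [tot]
    have h1 := hal φ
    by_cases h2 : φ = t0
    · subst h2
      rw [if_neg (by omega), if_pos (by omega)]
      linarith
    · by_cases h3 : t0 < φ
      · rw [if_pos h3, if_pos (by omega)]
        linarith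
      · rw [if_neg h3, if_neg (by omega)]
        linarith
  have husum : ∀ φ (I : Finset ℕ), ∑ i ∈ I, u φ i = C φ * ∑ i ∈ I, (g (i + 1) : ℝ) -
      (if i0 ∈ I ∧ t0 < φ then δ else 0) := by
    intro φ I
    simp only [u, sum_sub_distrib]
    rw [sum_ind, mul_sum]
    congr 1
    exact sum_congr rfl fun i _ => mul_comm _ _
  have hrsum : ∀ b (I : Finset ℕ), ∑ i ∈ I, r i b =
      ∑ i ∈ I, q * g (i + 1) * ((cs h (s - i) - cs h b : ℕ) : ℝ) -
      (if i0 ∈ I ∧ b ≤ x0 then δ else 0) := by
    intro b I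
    simp only [r, sum_sub_distrib]
    rw [sum_ind]
  have hcutR : ∀ φ, φ ≤ P → ∀ b, b ≤ s →
      tot φ ≤ ∑ i ∈ range s, min (u φ i) (r i b) + w φ b := by
    intro φ hφ b hb
    set I := (range s).filter (fun i => u φ i ≤ r i b) with hI
    have hIs : I ⊆ range s := filter_subset _ _
    have h1 : ∑ i ∈ range s, min (u φ i) (r i b) =
        ∑ i ∈ I, u φ i + ∑ i ∈ range s \ I, r i b := by
      rw [← sum_sdiff hIs, add_comm]
      congr 1
      · apply sum_congr rfl
        intro i hi
        rw [hI, mem_filter] at hi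
        exact min_eq_left hi.2
      · apply sum_congr rfl
        intro i hi
        rw [mem_sdiff, hI, mem_filter] at hi
        have : r i b < u φ i := by
          by_contra hc
          exact hi.2 ⟨hi.1, not_lt.mp hc⟩
        exact min_eq_right this.le
    rw [h1, husum, hrsum]
    have h2 := hcut φ b hφ hb I hIs
    simp only [tot, w]
    have h3 : (i0 ∈ range s \ I) ↔ i0 ∉ I := by
      rw [mem_sdiff, mem_range]
      constructor
      · exact fun h => h.2
      · exact fun h => ⟨by omega, h⟩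
    simp only [h3]
    rw [mul_add] at h2
    by_cases hi : i0 ∈ I <;> by_cases hb' : x0 < b <;> by_cases ht : t0 < φ <;>
      simp only [hi, hb', ht, not_true_eq_false, not_false_eq_true, true_and, and_true,
        false_and, and_false, or_false, false_or, if_true, if_false] at h2 ⊢ <;>
      first
        | (have e1 : ¬ b ≤ x0 := by omega
           simp only [e1, false_and, if_false] at h2 ⊢
           linarith)
        | (have e1 : b ≤ x0 := by omega
           have e2 : ¬ φ ≤ t0 := by omega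
           simp only [e1, e2, true_and, if_true, if_false] at h2 ⊢
           linarith)
        | (have e1 : b ≤ x0 := by omega
           have e2 : φ ≤ t0 := by omega
           simp only [e1, e2, true_and, if_true, if_false] at h2 ⊢
           linarith)
        | linarith
  have hcut0 : ∀ φ, φ ≤ P → tot φ ≤ ∑ i ∈ range s, u φ i := by
    intro φ hφ
    rw [husum]
    have h2 := hcut φ 0 hφ (Nat.zero_le _) (range s) (Subset.refl _)
    have h3 : i0 ∈ range s := mem_range.mpr (by omega)
    have h4 : cs h 0 = 0 := by simp [cs]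
    rw [if_neg (by
      rintro (⟨_, h, _⟩ | ⟨h, _⟩)
      · omega
      · exact h h3)] at h2
    simp only [h4, Finset.sdiff_self, sum_empty, Nat.cast_zero, add_zero] at h2
    simp only [tot, h3, true_and]
    linarith
  obtain ⟨m, hm0, hmm, hmu, hmw, hmt⟩ := chain_real s s P u w r tot hu0 hu hw0 hw hr0 hr htot0
    htot hcutR hcut0
  let y : ℕ → ℕ → ℕ → ℝ := fun φ k l => max (m φ k - r k l) 0
  have hy0 : ∀ φ k, φ ≤ P → k < s → y φ k 0 = 0 := by
    intro φ k hφ hk
    have h1 := hmw φ 0 hφ (Nat.zero_le _)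
    have h2 : w φ 0 = 0 := by simp [w, cs]
    rw [h2] at h1
    have h3 := (sum_eq_zero_iff_of_nonneg (fun i _ => le_max_right _ _)).mp
      (le_antisymm h1 (sum_nonneg fun i _ => le_max_right _ _))
    exact h3 k (mem_range.mpr hk)
  have hyz : ∀ k l, y 0 k l = 0 := by
    intro k l
    simp only [y, hm0]
    have := hr0 k l
    exact max_eq_right (by linarith)
  have hcs0 : cs h 0 = 0 := by simp [cs]
  have hys : ∀ φ k, φ ≤ P → y φ k s = m φ k := by
    intro φ k hφ
    simp only [y, r]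
    have h1 : cs h (s - k) ≤ cs h s := cs_mono h (by omega)
    have h2 : cs h (s - k) - cs h s = 0 := by omega
    rw [h2, if_neg (by omega)]
    simp only [Nat.cast_zero, mul_zero, sub_zero]
    exact max_eq_left (hmu φ k hφ).1
  have hrow0 : ∀ k, k < s → r k 0 = q * g (k + 1) * cs h (s - k) - (if k = i0 then δ else 0) := by
    intro k _
    simp only [r, hcs0, Nat.sub_zero, Nat.zero_le, and_true]
  have hmP : ∀ k, k < s → m P k = r k 0 := by
    have h1 : ∀ k ∈ range s, 0 ≤ r k 0 - m P k := by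
      intro k hk
      have h2 := hy0 P k le_rfl (mem_range.mp hk)
      simp only [y] at h2
      have := le_max_left (m P k - r k 0) 0
      linarith
    have h2 : ∑ k ∈ range s, (r k 0 - m P k) = 0 := by
      rw [sum_sub_distrib, hmt P le_rfl, hrsum]
      have h3 : i0 ∈ range s := mem_range.mpr (by omega)
      simp only [tot, hcs0, Nat.sub_zero, h3, Nat.zero_le, and_true, if_true, hend, ht0]
      ring
    intro k hk
    have h3 := (sum_eq_zero_iff_of_nonneg h1).mp h2 k (mem_range.mpr hk)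
    linarith
  -- the table
  let Y : ℕ → ℕ → ℕ → ℝ := fun k l t =>
    (y (t + 1) k (l + 1) - y (t + 1) k l) - (y t k (l + 1) - y t k l) +
      (if k = i0 ∧ l = x0 ∧ t = t0 then δ else 0)
  let X : ℕ → ℕ → ℕ → ℝ := fun k l t => if k < s ∧ l < s ∧ t < P then Y k l t else 0
  have hYnn : ∀ k l t, t < P → 0 ≤ Y k l t := by
    intro k l t ht
    simp only [Y, y]
    have h1 := supermod (m t k) (m (t + 1) k) (r k l) (r k (l + 1)) (hmm t k ht) (hr k l)
    have h2 : (0 : ℝ) ≤ if k = i0 ∧ l = x0 ∧ t = t0 then δ else 0 := by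
      split_ifs
      · exact hδ
      · exact le_rfl
    linarith
  -- partial sums
  have hsum : ∀ k b c, k < s → b ≤ s → c ≤ P →
      ∑ l ∈ range b, ∑ t ∈ range c, X k l t =
        y c k b + (if k = i0 ∧ x0 < b ∧ t0 < c then δ else 0) := by
    intro k b c hk hb hc
    have h1 : ∀ l ∈ range b, ∑ t ∈ range c, X k l t =
        (y c k (l + 1) - y c k l) + (if l = x0 ∧ (k = i0 ∧ t0 < c) then δ else 0) := by
      intro l hl
      rw [mem_range] at hl
      have h2 : ∀ t ∈ range c, X k l t =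
          ((y (t + 1) k (l + 1) - y (t + 1) k l) - (y t k (l + 1) - y t k l)) +
            (if t = t0 ∧ (k = i0 ∧ l = x0) then δ else 0) := by
        intro t ht
        rw [mem_range] at ht
        simp only [X, Y]
        rw [if_pos ⟨hk, by omega, by omega⟩]
        congr 1
        by_cases h3 : k = i0 ∧ l = x0 ∧ t = t0
        · rw [if_pos h3, if_pos ⟨h3.2.2, h3.1, h3.2.1⟩]
        · rw [if_neg h3, if_neg (fun h => h3 ⟨h.2.1, h.2.2, h.1⟩)]
      rw [sum_congr rfl h2, sum_add_distrib, sum_ind,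
        sum_range_sub (fun t => y t k (l + 1) - y t k l), hyz, hyz]
      have h4 : (if t0 ∈ range c ∧ k = i0 ∧ l = x0 then δ else 0) =
          if l = x0 ∧ k = i0 ∧ t0 < c then δ else 0 := by
        apply if_congr _ rfl rfl
        rw [mem_range]
        tauto
      rw [h4]
      ring
    rw [sum_congr rfl h1, sum_add_distrib, sum_ind, sum_range_sub (fun l => y c k l),
      hy0 c k hc hk, sub_zero]
    congr 1
    apply if_congr _ rfl rfl
    rw [mem_range]
    tauto
  refine ⟨X, ?_, ?_, ?_, ?_, ?_, ?_, ?_, ?_⟩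
  · intro k l t
    simp only [X]
    split_ifs with h1
    · exact hYnn k l t h1.2.2
    · exact le_rfl
  · intro k l t h1
    by_contra h2
    exact h1 (if_neg h2)
  · simp only [X, Y]
    rw [if_pos ⟨by omega, by omega, ht0⟩, if_pos ⟨trivial, trivial, trivial⟩]
    have h1 := supermod (m t0 i0) (m (t0 + 1) i0) (r i0 x0) (r i0 (x0 + 1)) (hmm t0 i0 ht0)
      (hr i0 x0)
    simp only [y]
    linarith
  · intro k hk
    rw [hsum k s P hk le_rfl le_rfl, hys P k le_rfl, hmP k hk, hrow0 k hk]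
    have h1 : (if k = i0 ∧ x0 < s ∧ t0 < P then δ else 0) = if k = i0 then δ else 0 := by
      apply if_congr _ rfl rfl
      constructor
      · exact fun h => h.1
      · exact fun h => ⟨h, by omega, ht0⟩
    rw [h1]
    ring
  · intro t ht
    have h1 : ∀ k ∈ range s, ∑ l ∈ range s, X k l t =
        (m (t + 1) k - m t k) + (if k = i0 ∧ t = t0 then δ else 0) := by
      intro k hk
      rw [mem_range] at hk
      have h2 := hsum k s (t + 1) hk le_rfl (by omega)
      have h3 := hsum k s t hk le_rfl (by omega)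
      simp only [sum_range_succ (fun t => X k _ t), sum_add_distrib] at h2
      rw [h3, hys _ _ (by omega : t ≤ P), hys _ _ (by omega : t + 1 ≤ P)] at h2
      have h4 : ∑ l ∈ range s, X k l t = m (t + 1) k - m t k +
          ((if k = i0 ∧ x0 < s ∧ t0 < t + 1 then δ else 0) -
            (if k = i0 ∧ x0 < s ∧ t0 < t then δ else 0)) := by linarith
      rw [h4]
      congr 1
      by_cases h5 : k = i0
      · by_cases h6 : t = t0
        · rw [if_pos ⟨h5, by omega, by omega⟩, if_neg (by omega), if_pos ⟨h5, h6⟩, sub_zero]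
        · by_cases h7 : t0 < t
          · rw [if_pos ⟨h5, by omega, by omega⟩, if_pos ⟨h5, by omega, h7⟩, if_neg (by omega),
              sub_self]
          · rw [if_neg (by omega), if_neg (by omega), if_neg (by omega), sub_self]
      · rw [if_neg (fun h => h5 h.1), if_neg (fun h => h5 h.1), if_neg (fun h => h5 h.1),
          sub_self]
    rw [sum_congr rfl h1, sum_add_distrib, sum_ind, sum_sub_distrib, hmt _ (by omega : t + 1 ≤ P),
      hmt _ (by omega : t ≤ P)]
    have h3 : i0 ∈ range s := mem_range.mpr (by omega)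
    simp only [tot, h3, true_and]
    by_cases h6 : t = t0
    · rw [if_pos (by omega), if_neg (by omega), if_pos h6]
      ring
    · by_cases h7 : t0 < t
      · rw [if_pos (by omega), if_pos h7, if_neg h6]
        ring
      · rw [if_neg (by omega), if_neg h7, if_neg h6]
        ring
  · intro a b ha hb
    apply sum_congr rfl
    intro k hk
    rw [mem_range] at hk
    have hks : k < s := by omega
    rw [hsum k b P hks hb le_rfl]
    simp only [y]
    rw [hmP k hks]
    have h1 : r k b ≤ r k 0 := antitone_nat_of_succ_le (fun b => hr k b) (Nat.zero_le b)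
    rw [max_eq_left (by linarith)]
    rw [hrow0 k hks]
    simp only [r]
    have h2 : ((min (cs h (s - k)) (cs h b) : ℕ) : ℝ) =
        (cs h (s - k) : ℝ) - ((cs h (s - k) - cs h b : ℕ) : ℝ) := by
      have : cs h (s - k) = min (cs h (s - k)) (cs h b) + (cs h (s - k) - cs h b) := by omega
      have h3 : (cs h (s - k) : ℝ) = ((min (cs h (s - k)) (cs h b) : ℕ) : ℝ) +
          ((cs h (s - k) - cs h b : ℕ) : ℝ) := by exact_mod_cast this
      linarith
    rw [h2]
    by_cases h5 : k = i0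
    · by_cases h6 : x0 < b
      · rw [if_pos h5, if_neg (by omega), if_pos ⟨h5, h6, ht0⟩]
        ring
      · rw [if_pos h5, if_pos (by omega), if_neg (by omega)]
        ring
    · rw [if_neg h5, if_neg (fun h => h5 h.1), if_neg (fun h => h5 h.1)]
      ring
  · intro a c ha hc
    have h1 : ∀ k ∈ range a, ∑ l ∈ range s, ∑ t ∈ range c, X k l t ≤ (g (k + 1) : ℝ) * C c := by
      intro k hk
      rw [mem_range] at hk
      rw [hsum k s c (by omega) le_rfl hc, hys c k hc]
      have h2 := (hmu c k hc).2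
      simp only [u] at h2
      have h3 : (if k = i0 ∧ x0 < s ∧ t0 < c then δ else 0) = if k = i0 ∧ t0 < c then δ else 0 := by
        apply if_congr _ rfl rfl
        constructor
        · exact fun h => ⟨h.1, h.2.2⟩
        · exact fun h => ⟨h.1, by omega, h.2⟩
      rw [h3]
      linarith
    calc _ ≤ ∑ k ∈ range a, (g (k + 1) : ℝ) * C c := sum_le_sum h1
      _ = C c * cs g a := by
          unfold cs
          push_cast
          rw [mul_sum]
          exact sum_congr rfl fun i _ => mul_comm _ _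
  · intro b c hb hc
    have h1 : ∀ k ∈ range s, ∑ l ∈ range b, ∑ t ∈ range c, X k l t =
        max (m c k - r k b) 0 + (if k = i0 ∧ (x0 < b ∧ t0 < c) then δ else 0) := by
      intro k hk
      rw [mem_range] at hk
      exact hsum k b c hk hb hc
    rw [sum_congr rfl h1, sum_add_distrib, sum_ind]
    have h2 := hmw c b hc hb
    have h3 : i0 ∈ range s := mem_range.mpr (by omega)
    simp only [w] at h2
    simp only [h3, true_and]
    linarith

end Pool.MP_d56194_co
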