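import Mathlib

set_option autoImplicit false

namespace Pool.MP_d56194_co

open Finset Real

/-- M14: arbitrary sets of rows instead of prefixes -/
theorem set_cut (s : ℕ) (G l : ℕ → ℝ) (z al η κ : ℝ) (i0 : ℕ) (hi0 : i0 < s)
    (hG : ∀ i, i < s → 0 < G i) (hκ : ∑ i ∈ range s, G i ≤ κ * G i0) (hκ1 : 1 ≤ κ)
    (hl : ∀ i, i + 1 < s → l (i + 1) ≤ l i) (hη : 0 ≤ η)
    (hP : ∀ a, a ≤ s → al ≤ ∑ i ∈ range a, G i * z + ∑ i ∈ Ico a s, G i * l i) :
    (∀ I, I ⊆ range s → al ≤ ∑ i ∈ I, G i * z + ∑ i ∈ range s \ I, G i * l i) ∧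
    ((∀ a, i0 < a → a ≤ s → al + η ≤ ∑ i ∈ range a, G i * z + ∑ i ∈ Ico a s, G i * l i) →
      ∀ I, I ⊆ range s → i0 ∈ I →
        al + η / κ ≤ ∑ i ∈ I, G i * z + ∑ i ∈ range s \ I, G i * l i) ∧
    ((∀ a, a ≤ i0 → al + η ≤ ∑ i ∈ range a, G i * z + ∑ i ∈ Ico a s, G i * l i) →
      ∀ I, I ⊆ range s → i0 ∉ I →
        al + η / κ ≤ ∑ i ∈ I, G i * z + ∑ i ∈ range s \ I, G i * l i) := by
  classical
  have hanti : ∀ i j, i ≤ j → j < s → l j ≤ l i := by
    intro i j hij
    induction j, hij using Nat.le_induction with
    | base => intro _; exact le_rfl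
    | succ j hij ih =>
      intro hj
      exact (hl j hj).trans (ih (by omega))
  set mn : ℕ → ℝ := fun i => min z (l i) with hmn
  have hmz : ∀ i, mn i ≤ z := fun i => min_le_left _ _
  have hml : ∀ i, mn i ≤ l i := fun i => min_le_right _ _
  set Fm : ℝ := ∑ i ∈ range s, G i * mn i with hFm
  -- the general formula
  have hF : ∀ I, I ⊆ range s → ∑ i ∈ I, G i * z + ∑ i ∈ range s \ I, G i * l i =
      Fm + ∑ i ∈ I, G i * (z - mn i) + ∑ i ∈ range s \ I, G i * (l i - mn i) := by
    intro I hI
    rw [hFm, ← sum_sdiff hI]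
    simp only [mul_sub, sum_sub_distrib]
    ring
  have hIco : ∀ a, a ≤ s → Ico a s = range s \ range a := by
    intro a _
    ext i
    simp only [mem_Ico, mem_sdiff, mem_range]
    omega
  have hsub : ∀ a, a ≤ s → range a ⊆ range s := fun a ha => range_subset_range.mpr ha
  have hz0 : ∀ I, I ⊆ range s → 0 ≤ ∑ i ∈ I, G i * (z - mn i) := fun I hI =>
    sum_nonneg fun i hi => mul_nonneg (hG i (mem_range.mp (hI hi))).le (sub_nonneg.mpr (hmz i))
  have hl0 : ∀ I, 0 ≤ ∑ i ∈ range s \ I, G i * (l i - mn i) := fun I =>
    sum_nonneg fun i hi => mul_nonneg (hG i (mem_range.mp (mem_sdiff.mp hi).1)).le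
      (sub_nonneg.mpr (hml i))
  -- the optimal prefix
  obtain ⟨a, has, ha1, ha2⟩ : ∃ a, a ≤ s ∧ (∀ i, i < a → z < l i) ∧
      (∀ i, a ≤ i → i < s → l i ≤ z) := by
    by_cases hex : ∃ i, i < s ∧ l i ≤ z
    · refine ⟨Nat.find hex, (Nat.find_spec hex).1.le, ?_, ?_⟩
      · intro i hi
        have h1 := Nat.find_min hex hi
        have h2 := (Nat.find_spec hex).1
        by_contra hc
        exact h1 ⟨by omega, not_lt.mp hc⟩
      · intro i hi his
        exact (hanti _ i hi his).trans (Nat.find_spec hex).2
    · refine ⟨s, le_rfl, ?_, fun i hi his => by omega⟩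
      intro i hi
      by_contra hc
      exact hex ⟨i, hi, not_lt.mp hc⟩
  have hFa : ∑ i ∈ range a, G i * z + ∑ i ∈ Ico a s, G i * l i = Fm := by
    rw [hIco a has, hF _ (hsub a has)]
    have h1 : ∑ i ∈ range a, G i * (z - mn i) = 0 := by
      apply sum_eq_zero
      intro i hi
      have : mn i = z := min_eq_left (ha1 i (mem_range.mp hi)).le
      rw [this, sub_self, mul_zero]
    have h2 : ∑ i ∈ range s \ range a, G i * (l i - mn i) = 0 := by
      apply sum_eq_zero
      intro i hi
      rw [mem_sdiff, mem_range, mem_range] at hi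
      have : mn i = l i := min_eq_right (ha2 i (by omega) hi.1)
      rw [this, sub_self, mul_zero]
    rw [h1, h2]
    ring
  have halF : al ≤ Fm := by
    rw [← hFa]
    exact hP a has
  have hκ0 : 0 < κ := by linarith
  have hG0 := hG i0 hi0
  have hηκ : η / κ ≤ η := div_le_self hη hκ1
  have hpart : ∀ I, I ⊆ range s → ∑ i ∈ I, G i ≤ κ * G i0 := by
    intro I hI
    refine le_trans ?_ hκ
    exact sum_le_sum_of_subset_of_nonneg hI (fun i hi _ => (hG i (mem_range.mp hi)).le)
  -- the final computation
  have hfin : ∀ D : ℝ, al + η ≤ Fm + κ * D → al + η / κ ≤ Fm + D := by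
    intro D hD
    have h1 : (al + η - Fm) / κ ≤ D := by
      rw [div_le_iff₀ hκ0]
      linarith
    have h2 : (Fm - al) / κ ≤ Fm - al := div_le_self (by linarith) hκ1
    have h3 : (al + η - Fm) / κ = η / κ - (Fm - al) / κ := by
      rw [← sub_div]
      congr 1
      ring
    linarith
  refine ⟨?_, ?_, ?_⟩
  · intro I hI
    rw [hF I hI]
    have := hz0 I hI
    have := hl0 I
    linarith
  · intro hyp I hI hiI
    rw [hF I hI]
    by_cases hz : z < l i0
    · have h1 : i0 < a := by
        by_contra hc
        have := ha2 i0 (by omega) hi0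
        linarith
      have h2 := hyp a h1 has
      rw [hFa] at h2
      have := hz0 I hI
      have := hl0 I
      linarith
    · push Not at hz
      have h1 : G i0 * (z - l i0) ≤ ∑ i ∈ I, G i * (z - mn i) := by
        have h2 := single_le_sum (f := fun i => G i * (z - mn i))
          (fun i hi => mul_nonneg (hG i (mem_range.mp (hI hi))).le (sub_nonneg.mpr (hmz i))) hiI
        have h3 : mn i0 = l i0 := min_eq_right hz
        simp only [h3] at h2
        exact h2
      have h2 := hyp (i0 + 1) (by omega) (by omega)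
      rw [hIco _ (by omega), hF _ (hsub _ (by omega))] at h2
      have h3 : ∑ i ∈ range s \ range (i0 + 1), G i * (l i - mn i) = 0 := by
        apply sum_eq_zero
        intro i hi
        rw [mem_sdiff, mem_range, mem_range] at hi
        have h4 := hanti i0 i (by omega) hi.1
        have : mn i = l i := min_eq_right (h4.trans hz)
        rw [this, sub_self, mul_zero]
      have h4 : ∑ i ∈ range (i0 + 1), G i * (z - mn i) ≤ κ * (G i0 * (z - l i0)) := by
        calc ∑ i ∈ range (i0 + 1), G i * (z - mn i) ≤
              ∑ i ∈ range (i0 + 1), G i * (z - l i0) := by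
              apply sum_le_sum
              intro i hi
              rw [mem_range] at hi
              apply mul_le_mul_of_nonneg_left _ (hG i (by omega)).le
              have h5 : l i0 ≤ mn i := le_min hz (hanti i i0 (by omega) hi0)
              linarith
          _ = (∑ i ∈ range (i0 + 1), G i) * (z - l i0) := by rw [sum_mul]
          _ ≤ (κ * G i0) * (z - l i0) :=
              mul_le_mul_of_nonneg_right (hpart _ (hsub _ (by omega))) (by linarith)
          _ = _ := by ring
      have h5 := hfin (G i0 * (z - l i0)) (by linarith)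
      have := hl0 I
      linarith
  · intro hyp I hI hiI
    rw [hF I hI]
    by_cases hz : z < l i0
    · have h1 : G i0 * (l i0 - z) ≤ ∑ i ∈ range s \ I, G i * (l i - mn i) := by
        have h2 := single_le_sum (f := fun i => G i * (l i - mn i))
          (fun i hi => mul_nonneg (hG i (mem_range.mp (mem_sdiff.mp hi).1)).le
            (sub_nonneg.mpr (hml i))) (mem_sdiff.mpr ⟨mem_range.mpr hi0, hiI⟩)
        have h3 : mn i0 = z := min_eq_left hz.le
        simp only [h3] at h2
        exact h2
      have h2 := hyp i0 le_rfl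
      rw [hIco _ hi0.le, hF _ (hsub _ hi0.le)] at h2
      have h3 : ∑ i ∈ range i0, G i * (z - mn i) = 0 := by
        apply sum_eq_zero
        intro i hi
        rw [mem_range] at hi
        have h4 := hanti i i0 hi.le hi0
        have : mn i = z := min_eq_left (hz.le.trans h4)
        rw [this, sub_self, mul_zero]
      have h4 : ∑ i ∈ range s \ range i0, G i * (l i - mn i) ≤ κ * (G i0 * (l i0 - z)) := by
        calc ∑ i ∈ range s \ range i0, G i * (l i - mn i) ≤
              ∑ i ∈ range s \ range i0, G i * (l i0 - z) := by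
              apply sum_le_sum
              intro i hi
              rw [mem_sdiff, mem_range, mem_range] at hi
              apply mul_le_mul_of_nonneg_left _ (hG i hi.1).le
              have h5 := hanti i0 i (by omega) hi.1
              have h6 : l i - (l i0 - z) ≤ mn i := le_min (by linarith) (by linarith)
              linarith
          _ = (∑ i ∈ range s \ range i0, G i) * (l i0 - z) := by rw [sum_mul]
          _ ≤ (κ * G i0) * (l i0 - z) :=
              mul_le_mul_of_nonneg_right (hpart _ sdiff_subset) (by linarith)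
          _ = _ := by ring
      have h5 := hfin (G i0 * (l i0 - z)) (by linarith)
      have := hz0 I hI
      linarith
    · have h1 : a ≤ i0 := by
        by_contra hc
        have := ha1 i0 (by omega)
        exact hz this
      have h2 := hyp a h1
      rw [hFa] at h2
      have := hz0 I hI
      have := hl0 I
      linarith

end Pool.MP_d56194_co
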