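import Mathlib
import Pool.Agent.Lib.MP_d56194_co.L.L0

set_option autoImplicit false

namespace Pool.MP_d56194_co

open Finset

namespace L5

lemma cs_succ (g : ℕ → ℕ) (a : ℕ) : cs g (a + 1) = cs g a + g (a + 1) := by
  unfold cs
  rw [sum_range_succ]

lemma cs_mono (g : ℕ → ℕ) : Monotone (cs g) := by
  apply monotone_nat_of_le_succ
  intro a
  rw [cs_succ]
  omega

lemma cs_zero (g : ℕ → ℕ) : cs g 0 = 0 := by simp [cs]

lemma cs_sub (h : ℕ → ℕ) (b c : ℕ) : cs h c - cs h b = ∑ x ∈ Ioc b c, h x := by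
  by_cases hbc : b ≤ c
  · induction c, hbc using Nat.le_induction with
    | base => simp
    | succ c hbc ih =>
      rw [sum_Ioc_succ_top hbc, ← ih, cs_succ]
      have := cs_mono h hbc
      omega
  · have h1 := cs_mono h (show c ≤ b by omega)
    rw [Ioc_eq_empty (by omega), sum_empty]
    omega

/-- `Fb` counts the cells. -/
lemma Fb_eq (s : ℕ) (g h : ℕ → ℕ) (a b : ℕ) :
    Fb s g h a b = ∑ i ∈ Ioc a s, ∑ x ∈ Ioc b s, if i + x ≤ s + 1 then g i * h x else 0 := by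
  unfold Fb
  apply sum_congr rfl
  intro i hi
  rw [mem_Ioc] at hi
  rw [cs_sub, mul_sum, ← sum_filter]
  congr 1
  ext x
  simp only [mem_Ioc, mem_filter]
  omega

lemma Fb_symm (s : ℕ) (g h : ℕ → ℕ) (a b : ℕ) : Fb s g h a b = Fb s h g b a := by
  rw [Fb_eq, Fb_eq, sum_comm]
  apply sum_congr rfl
  intro x _
  apply sum_congr rfl
  intro i _
  rw [add_comm i x, mul_comm]

lemma cutb_symm (s : ℕ) (g h : ℕ → ℕ) (k a b : ℕ) : cutb s g h k a b = cutb s h g k b a := by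
  unfold cutb
  rw [Fb_symm, add_comm (cs g a)]

lemma Db_symm (s : ℕ) (g h al : ℕ → ℕ) (k a b : ℕ) : Db s g h al k a b = Db s h g al k b a := by
  unfold Db
  rw [cutb_symm]

lemma Fb_row (s : ℕ) (g h : ℕ → ℕ) (a b : ℕ) (ha : a < s) :
    Fb s g h a b = g (a + 1) * (cs h (s - a) - cs h b) + Fb s g h (a + 1) b := by
  unfold Fb
  rw [← Finset.insert_Ioc_add_one_left_eq_Ioc ha, sum_insert (by simp)]
  congr 3
  congr 1
  omega

lemma Fb_zero (s : ℕ) (g h : ℕ → ℕ) (a b : ℕ) (hab : s ≤ a + b) : Fb s g h a b = 0 := by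
  rw [Fb_eq]
  apply sum_eq_zero
  intro i hi
  apply sum_eq_zero
  intro x hx
  rw [mem_Ioc] at hi hx
  rw [if_neg (by omega)]

/-- the difference in the direction of the rows -/
lemma Db_row (s : ℕ) (g h al : ℕ → ℕ) (k a b : ℕ) (ha : a < s) :
    Db s g h al k (a + 1) b = Db s g h al k a b +
      (g (a + 1) : ℝ) * ((k : ℝ) - ((cs h (s - a) - cs h b : ℕ) : ℝ)) := by
  unfold Db cutb
  rw [Fb_row s g h a b ha, cs_succ]
  push_cast
  ring

/-- the mixed difference of the number of cells -/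
lemma Fb_mix (s : ℕ) (g h : ℕ → ℕ) (a a' b b' : ℕ) (ha : a ≤ a') (ha' : a' ≤ s) (hb : b ≤ b') :
    Fb s g h a b' + Fb s g h a' b ≤ Fb s g h a' b' + Fb s g h a b ∧
    (a < a' → b < b' → a + b + 1 ≤ s →
      Fb s g h a b' + Fb s g h a' b + g (a + 1) * h (b + 1) ≤ Fb s g h a' b' + Fb s g h a b) := by
  have hspl : ∀ b, Fb s g h a b = ∑ i ∈ Ioc a a', g i * (cs h (s + 1 - i) - cs h b) +
      Fb s g h a' b := by
    intro b
    unfold Fb
    rw [← sum_union]
    · rw [Ioc_union_Ioc_eq_Ioc ha ha']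
    · rw [disjoint_left]
      intro i h1 h2
      rw [mem_Ioc] at h1 h2
      omega
  have hmono := cs_mono h hb
  have hle : ∀ i, g i * (cs h (s + 1 - i) - cs h b') ≤ g i * (cs h (s + 1 - i) - cs h b) :=
    fun i => Nat.mul_le_mul_left _ (by omega)
  constructor
  · rw [hspl b', hspl b]
    have : ∑ i ∈ Ioc a a', g i * (cs h (s + 1 - i) - cs h b') ≤
        ∑ i ∈ Ioc a a', g i * (cs h (s + 1 - i) - cs h b) := sum_le_sum (fun i _ => hle i)
    omega
  · intro haa hbb hab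
    rw [hspl b', hspl b]
    have : ∑ i ∈ Ioc a a', g i * (cs h (s + 1 - i) - cs h b') + g (a + 1) * h (b + 1) ≤
        ∑ i ∈ Ioc a a', g i * (cs h (s + 1 - i) - cs h b) := by
      rw [← Finset.insert_Ioc_add_one_left_eq_Ioc haa, sum_insert (by simp), sum_insert (by simp)]
      have h1 : ∑ i ∈ Ioc (a + 1) a', g i * (cs h (s + 1 - i) - cs h b') ≤
          ∑ i ∈ Ioc (a + 1) a', g i * (cs h (s + 1 - i) - cs h b) := sum_le_sum (fun i _ => hle i)
      have h2 : g (a + 1) * (cs h (s + 1 - (a + 1)) - cs h b') + g (a + 1) * h (b + 1) ≤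
          g (a + 1) * (cs h (s + 1 - (a + 1)) - cs h b) := by
        rw [← mul_add]
        apply Nat.mul_le_mul_left
        have h3 := cs_succ h b
        have h4 := cs_mono h (show b + 1 ≤ b' by omega)
        have h5 := cs_mono h (show b + 1 ≤ s + 1 - (a + 1) by omega)
        omega
      omega
    omega

variable {s R N : ℕ} {g h al : ℕ → ℕ} {η ψ : ℝ} {K0 p : ℕ} {lo hi sig : ℕ → ℕ}

lemma Db_nonneg (hal : IsAl s g h al) (k a b : ℕ) (ha : a ≤ s) (hb : b ≤ s) :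
    0 ≤ Db s g h al k a b := by
  unfold Db
  have := hal.1 k a b ha hb
  have h1 : (al k : ℝ) ≤ cutb s g h k a b := by exact_mod_cast this
  linarith

lemma al_mono (hal : IsAl s g h al) : Monotone al := by
  intro k k' hkk
  obtain ⟨a, b, ha, hb, hab⟩ := hal.2 k'
  rw [hab]
  refine (hal.1 k a b ha hb).trans ?_
  unfold cutb
  have := Nat.mul_le_mul_right (cs g a + cs h b) hkk
  omega

/-- convexity in time -/
lemma Db_convex (hal : IsAl s g h al) (k1 k2 k3 a b : ℕ) (h12 : k1 ≤ k2) (h23 : k2 ≤ k3) (M : ℝ)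
    (h1 : Db s g h al k1 a b ≤ M) (h3 : Db s g h al k3 a b ≤ M) :
    Db s g h al k2 a b ≤ M := by
  obtain ⟨a0, b0, ha0, hb0, hal0⟩ := hal.2 k2
  have e1 : (al k1 : ℝ) ≤ cutb s g h k1 a0 b0 := by exact_mod_cast hal.1 k1 a0 b0 ha0 hb0
  have e3 : (al k3 : ℝ) ≤ cutb s g h k3 a0 b0 := by exact_mod_cast hal.1 k3 a0 b0 ha0 hb0
  have e2 : (al k2 : ℝ) = cutb s g h k2 a0 b0 := by exact_mod_cast hal0
  unfold Db at h1 h3 ⊢
  rw [e2]
  unfold cutb at *
  push_cast at *
  set c : ℝ := (cs g a : ℝ) + cs h b with hc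
  set c0 : ℝ := (cs g a0 : ℝ) + cs h b0 with hc0
  have h12' : (k1 : ℝ) ≤ k2 := by exact_mod_cast h12
  have h23' : (k2 : ℝ) ≤ k3 := by exact_mod_cast h23
  by_cases hcc : c0 ≤ c
  · have : (k2 : ℝ) * (c - c0) ≤ k3 * (c - c0) :=
      mul_le_mul_of_nonneg_right h23' (by linarith)
    nlinarith
  · push Not at hcc
    have : (k2 : ℝ) * (c0 - c) ≥ k1 * (c0 - c) :=
      mul_le_mul_of_nonneg_right h12' (by linarith)
    nlinarith

/-- the general mixed inequality -/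
lemma Db_mix (k k' a a' b b' : ℕ) (ha : a ≤ a') (ha' : a' ≤ s) (hb : b ≤ b') (hk : k ≤ k') :
    Db s g h al k' a b' + Db s g h al k a' b + ((k' : ℝ) - k) * ((cs g a' : ℝ) - cs g a) ≤
      Db s g h al k' a' b' + Db s g h al k a b ∧
    (a < a' → b < b' → a + b + 1 ≤ s →
      Db s g h al k' a b' + Db s g h al k a' b + (g (a + 1) : ℝ) * h (b + 1) ≤
        Db s g h al k' a' b' + Db s g h al k a b) := by
  obtain ⟨h1, h2⟩ := Fb_mix s g h a a' b b' ha ha' hb
  have hk' : (k : ℝ) ≤ k' := by exact_mod_cast hk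
  have hG : (cs g a : ℝ) ≤ cs g a' := by exact_mod_cast cs_mono g ha
  constructor
  · have h1' : (Fb s g h a b' : ℝ) + Fb s g h a' b ≤ Fb s g h a' b' + Fb s g h a b := by
      exact_mod_cast h1
    unfold Db cutb
    push_cast
    nlinarith
  · intro haa hbb hab
    have h2' : (Fb s g h a b' : ℝ) + Fb s g h a' b + (g (a + 1) : ℝ) * h (b + 1) ≤
        Fb s g h a' b' + Fb s g h a b := by
      exact_mod_cast h2 haa hbb hab
    have h3 : 0 ≤ ((k' : ℝ) - k) * ((cs g a' : ℝ) - cs g a) :=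
      mul_nonneg (by linarith) (by linarith)
    unfold Db cutb
    push_cast
    nlinarith

lemma Comp.low (hg : Comp s R N g) {i : ℕ} (h1 : 1 ≤ i) (h2 : i ≤ s) : (N : ℝ) ≤ g i := by
  exact_mod_cast (hg i h1 h2).1

lemma cs_gap (hg : Comp s R N g) {a a' : ℕ} (haa : a < a') (ha' : a' ≤ s) :
    (cs g a : ℝ) + N ≤ cs g a' := by
  have h1 : cs g (a + 1) ≤ cs g a' := cs_mono g haa
  rw [cs_succ] at h1
  have h2 := (hg (a + 1) (by omega) (by omega)).1
  have : cs g a + N ≤ cs g a' := by omega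
  exact_mod_cast this

lemma cs_top (hg : Comp s R N g) {a : ℕ} (ha : a ≤ s) : (cs g a : ℝ) ≤ (s : ℝ) * R * N := by
  have h1 : ∀ a, a ≤ s → cs g a ≤ a * (R * N) := by
    intro a
    induction a with
    | zero => intro _; simp [cs_zero]
    | succ a ih =>
      intro ha
      rw [cs_succ]
      have := (hg (a + 1) (by omega) ha).2
      have := ih (by omega)
      calc cs g a + g (a + 1) ≤ a * (R * N) + R * N := by omega
        _ = (a + 1) * (R * N) := by ring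
  have h2 : cs g a ≤ s * R * N := by
    calc cs g a ≤ a * (R * N) := h1 a ha
      _ ≤ s * (R * N) := Nat.mul_le_mul_right _ ha
      _ = s * R * N := by ring
  exact_mod_cast h2


lemma isAl_symm (hal : IsAl s g h al) : IsAl s h g al := by
  refine ⟨fun k a b ha hb => ?_, fun k => ?_⟩
  · rw [← cutb_symm]
    exact hal.1 k b a hb ha
  · obtain ⟨a, b, ha, hb, hab⟩ := hal.2 k
    exact ⟨b, a, hb, ha, by rw [← cutb_symm]; exact hab⟩

lemma td_symm (hTD : TD s g h al N η ψ K0 p lo hi sig) : TD s h g al N η ψ K0 p lo hi sig where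
  ppos := hTD.ppos
  lohi := hTD.lohi
  thick := hTD.thick
  ord := hTD.ord
  last := hTD.last
  lin := hTD.lin
  sigdec := hTD.sigdec
  siglow := hTD.siglow
  thin := hTD.thin
  dich := fun a b j ha hb hj => by
    rw [← Db_symm]
    exact hTD.dich b a j hb ha hj

lemma hi_mono (hTD : TD s g h al N η ψ K0 p lo hi sig) {j l : ℕ} (hjl : j ≤ l) (hl : l < p) :
    hi j ≤ hi l := by
  induction l, hjl using Nat.le_induction with
  | base => exact le_rfl
  | succ l hjl ih =>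
    have h1 := ih (by omega)
    have h2 := hTD.ord l hl
    have h3 := hTD.lohi (l + 1) hl
    omega

lemma hi_low (hTD : TD s g h al N η ψ K0 p lo hi sig) {j : ℕ} (hj : j < p) :
    η * N ≤ hi j := by
  have h1 := hTD.thick j hj
  have h2 : (0 : ℝ) ≤ lo j := Nat.cast_nonneg _
  linarith

lemma hi_gap (hTD : TD s g h al N η ψ K0 p lo hi sig) {j l : ℕ} (hjl : j < l) (hl : l < p) :
    (hi j : ℝ) + η * N ≤ hi l := by
  obtain ⟨l', rfl⟩ : ∃ l', l = l' + 1 := ⟨l - 1, by omega⟩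
  have h1 := hi_mono hTD (show j ≤ l' by omega) (by omega)
  have h2 := hTD.ord l' hl
  have h3 := hTD.thick (l' + 1) hl
  have h4 : (hi j : ℝ) ≤ lo (l' + 1) := by exact_mod_cast h1.trans h2
  linarith

/-- the basic numerical facts -/
lemma num (hη1 : η ≤ 1) (hψ : 0 ≤ ψ) (hψη : 4 * ((s : ℝ) * R + 1) * ψ < η) :
    4 * ψ < η ∧ 4 * ψ < 1 ∧ 2 * ((s : ℝ) * R) * ψ < η := by
  have h1 : 0 ≤ (s : ℝ) * R := by positivity
  have h2 : 0 ≤ (s : ℝ) * R * ψ := mul_nonneg h1 hψ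
  refine ⟨by nlinarith, by nlinarith, by nlinarith⟩

lemma z1h (hg : Comp s R N g) (hh : Comp s R N h) (hal : IsAl s g h al) (hN : 0 < N)
    (h4 : 4 * ψ < η) (h41 : 4 * ψ < 1)
    (hTD : TD s g h al N η ψ K0 p lo hi sig) {a a' b b' j j' : ℕ} (haa : a < a') (ha' : a' ≤ s)
    (hb : b ≤ b') (hb' : b' ≤ s) (hj : j ≤ j') (hj' : j' < p)
    (h1 : Db s g h al (hi j) a b ≤ ψ * (N : ℝ) ^ 2)
    (h2 : Db s g h al (hi j') a' b' ≤ ψ * (N : ℝ) ^ 2) (hη : 0 < η) :
    ¬ (j < j') ∧ ¬ (b < b' ∧ a + b + 1 ≤ s) := by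
  have hN' : (0 : ℝ) < N := by exact_mod_cast hN
  have hN2 : (0 : ℝ) < (N : ℝ) ^ 2 := by positivity
  have hm := Db_mix (s := s) (g := g) (h := h) (al := al) (hi j) (hi j') a a' b b' haa.le ha' hb
    (hi_mono hTD hj hj')
  have hn1 := Db_nonneg hal (hi j') a b' (by omega) hb'
  have hn2 := Db_nonneg hal (hi j) a' b ha' (by omega)
  constructor
  · intro hjj
    have h3 := hi_gap hTD hjj hj'
    have h5 := cs_gap hg haa ha'
    have h6 : η * N * N ≤ ((hi j' : ℝ) - hi j) * ((cs g a' : ℝ) - cs g a) := by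
      apply mul_le_mul (by linarith) (by linarith) hN'.le
      have : 0 ≤ η * N := by positivity
      linarith
    have h7 := hm.1
    nlinarith
  · rintro ⟨hbb, hab⟩
    have h5 := hm.2 haa hbb hab
    have h6 := Comp.low hg (show 1 ≤ a + 1 by omega) (show a + 1 ≤ s by omega)
    have h7 := Comp.low hh (show 1 ≤ b + 1 by omega) (show b + 1 ≤ s by omega)
    have h8 : (N : ℝ) * N ≤ (g (a + 1) : ℝ) * h (b + 1) :=
      mul_le_mul h6 h7 hN'.le (by linarith)
    nlinarith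

lemma z3h (hg : Comp s R N g) (hal : IsAl s g h al) (hN : 0 < N) (h4 : 4 * ψ < η)
    (hTD : TD s g h al N η ψ K0 p lo hi sig) {a b j : ℕ} (ha : a ≤ s) (hb : b ≤ s) (hj : j < p)
    (h1 : Db s g h al (hi j) a b ≤ ψ * (N : ℝ) ^ 2) (hη : 0 < η) (hψ : 0 ≤ ψ)
    (hab : s ≤ a + b) : a + b = s := by
  by_contra hcon
  have hN' : (0 : ℝ) < N := by exact_mod_cast hN
  have hN2 : (0 : ℝ) < (N : ℝ) ^ 2 := by positivity
  obtain ⟨a', rfl⟩ : ∃ a', a = a' + 1 := ⟨a - 1, by omega⟩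
  have h2 := Db_row s g h al (hi j) a' b (by omega)
  have h3 : cs h (s - a') - cs h b = 0 := by
    have := cs_mono h (show s - a' ≤ b by omega)
    omega
  rw [h3] at h2
  have h5 := Db_nonneg hal (hi j) a' b (by omega) hb
  have h6 := Comp.low hg (show 1 ≤ a' + 1 by omega) ha
  have h7 := hi_low hTD hj
  have h8 : (N : ℝ) * (η * N) ≤ (g (a' + 1) : ℝ) * ((hi j : ℝ) - ((0 : ℕ) : ℝ)) := by
    apply mul_le_mul h6 _ (by positivity) (by linarith)
    simpa using h7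
  nlinarith

lemma z5h (hg : Comp s R N g) (hh : Comp s R N h) (hal : IsAl s g h al) (hN : 0 < N)
    (h4 : 4 * ψ < η) (h41 : 4 * ψ < 1)
    (hTD : TD s g h al N η ψ K0 p lo hi sig) {a a' b j : ℕ} (haa : a < a') (ha' : a' ≤ s)
    (hb : b ≤ s) (hj : j < p)
    (h1 : Db s g h al (hi j) a b ≤ ψ * (N : ℝ) ^ 2)
    (h2 : Db s g h al (hi j) a' b ≤ ψ * (N : ℝ) ^ 2) (hη : 0 < η) (hψ : 0 ≤ ψ) :
    a' = a + 1 := by
  by_contra hcon
  have hN' : (0 : ℝ) < N := by exact_mod_cast hN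
  have hN2 : (0 : ℝ) < (N : ℝ) ^ 2 := by positivity
  have hab : a' + b ≤ s := by
    by_contra hc
    have := z3h hg hal hN h4 hTD ha' hb hj h2 hη hψ (by omega)
    omega
  set k : ℝ := (hi j : ℝ) with hk
  set φ : ℕ → ℝ := fun i => k - ((cs h (s - i) - cs h b : ℕ) : ℝ) with hφ
  have hrow : ∀ i, i < s → Db s g h al (hi j) (i + 1) b =
      Db s g h al (hi j) i b + (g (i + 1) : ℝ) * φ i := fun i hi' => Db_row s g h al _ i b hi'
  have hφmono : ∀ i i', i ≤ i' → φ i ≤ φ i' := by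
    intro i i' hii
    simp only [hφ]
    have h5 := cs_mono h (show s - i' ≤ s - i by omega)
    have h6 : cs h (s - i') - cs h b ≤ cs h (s - i) - cs h b := by omega
    have h7 : ((cs h (s - i') - cs h b : ℕ) : ℝ) ≤ ((cs h (s - i) - cs h b : ℕ) : ℝ) := by
      exact_mod_cast h6
    linarith
  have hg1 := Comp.low hg (show 1 ≤ a + 1 by omega) (show a + 1 ≤ s by omega)
  have hφa : -(ψ * N) ≤ φ a := by
    by_contra hc
    push Not at hc
    have h5 := hrow a (by omega)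
    have h6 := Db_nonneg hal (hi j) (a + 1) b (by omega) hb
    have h7 : (g (a + 1) : ℝ) * φ a ≤ N * φ a := by
      apply mul_le_mul_of_nonpos_right hg1
      have : 0 ≤ ψ * N := by positivity
      linarith
    nlinarith
  have hφa1 : (1 - ψ) * N ≤ φ (a + 1) := by
    have h5 : cs h (s - a) - cs h b = (cs h (s - (a + 1)) - cs h b) + h (s - a) := by
      have h6 := cs_succ h (s - (a + 1))
      have h7 : s - (a + 1) + 1 = s - a := by omega
      rw [h7] at h6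
      have h8 := cs_mono h (show b ≤ s - (a + 1) by omega)
      omega
    have h6 : ((cs h (s - a) - cs h b : ℕ) : ℝ) =
        ((cs h (s - (a + 1)) - cs h b : ℕ) : ℝ) + h (s - a) := by
      rw [h5]
      push_cast
      ring
    have h7 := Comp.low hh (show 1 ≤ s - a by omega) (show s - a ≤ s by omega)
    have h8 : φ (a + 1) = φ a + h (s - a) := by
      simp only [hφ]
      rw [h6]
      ring
    nlinarith
  have hbig : ∀ n, a + 2 + n ≤ s → (1 - ψ) * (N : ℝ) ^ 2 ≤ Db s g h al (hi j) (a + 2 + n) b := by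
    intro n
    induction n with
    | zero =>
      intro _
      have h5 := hrow (a + 1) (by omega)
      have h6 := Db_nonneg hal (hi j) (a + 1) b (by omega) hb
      have h7 := Comp.low hg (show 1 ≤ a + 1 + 1 by omega) (show a + 1 + 1 ≤ s by omega)
      have h8 : (N : ℝ) * ((1 - ψ) * N) ≤ (g (a + 1 + 1) : ℝ) * φ (a + 1) := by
        apply mul_le_mul h7 hφa1 _ (by linarith)
        have : 0 ≤ 1 - ψ := by linarith
        positivity
      have h9 : a + 2 + 0 = a + 1 + 1 := by omega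
      rw [h9, h5]
      nlinarith
    | succ n ih =>
      intro hn
      have h5 := hrow (a + 2 + n) (by omega)
      have h6 := ih (by omega)
      have h7 : 0 ≤ φ (a + 2 + n) := by
        have h8 := hφmono (a + 1) (a + 2 + n) (by omega)
        have : 0 ≤ 1 - ψ := by linarith
        have : 0 ≤ (1 - ψ) * N := by positivity
        linarith
      have h8 : 0 ≤ (g (a + 2 + n + 1) : ℝ) * φ (a + 2 + n) :=
        mul_nonneg (Nat.cast_nonneg _) h7
      have h9 : a + 2 + (n + 1) = a + 2 + n + 1 := by omega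
      rw [h9, h5]
      linarith
  have h5 := hbig (a' - (a + 2)) (by omega)
  have h6 : a + 2 + (a' - (a + 2)) = a' := by omega
  rw [h6] at h5
  nlinarith

lemma K0_near (hTD : TD s g h al N η ψ K0 p lo hi sig) :
    (K0 : ℝ) ≤ hi (p - 1) + ψ * N := by
  have hp := hTD.ppos
  have h1 : (Ioc (hi (p - 1)) K0).card ≤
      ((Icc 1 K0).filter (fun k => ∀ j, j < p → ¬ (lo j < k ∧ k ≤ hi j))).card := by
    apply card_le_card
    intro k hk
    rw [mem_Ioc] at hk
    rw [mem_filter, mem_Icc]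
    refine ⟨⟨by omega, hk.2⟩, ?_⟩
    rintro j hj ⟨_, h3⟩
    have := hi_mono hTD (show j ≤ p - 1 by omega) (by omega)
    omega
  rw [Nat.card_Ioc] at h1
  have h2 := hTD.thin
  have h3 : ((K0 - hi (p - 1) : ℕ) : ℝ) ≤ ψ * N := le_trans (by exact_mod_cast h1) h2
  have h4 := hTD.last
  rw [Nat.cast_sub h4] at h3
  linarith

lemma z6h (hs : 0 < s) (hg : Comp s R N g) (hh : Comp s R N h) (hal : IsAl s g h al) (hN : 0 < N)
    (h41 : 4 * ψ < 1) (hK : cs h s ≤ K0)
    (hTD : TD s g h al N η ψ K0 p lo hi sig) {a b : ℕ} (ha : a + 1 ≤ s) (hb : b ≤ s)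
    (h2 : Db s g h al (hi (p - 1)) (a + 1) b ≤ ψ * (N : ℝ) ^ 2) (hψ : 0 ≤ ψ) :
    a = 0 ∧ b = 0 := by
  by_contra hcon
  have hN' : (0 : ℝ) < N := by exact_mod_cast hN
  have hN2 : (0 : ℝ) < (N : ℝ) ^ 2 := by positivity
  have hrow := Db_row s g h al (hi (p - 1)) a b (by omega)
  have h0 := Db_nonneg hal (hi (p - 1)) a b (by omega) hb
  have hK0 := K0_near hTD
  have hK' : (cs h s : ℝ) ≤ K0 := by exact_mod_cast hK
  have hsub : ((cs h (s - a) - cs h b : ℕ) : ℝ) + N ≤ cs h s := by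
    by_cases ha0 : a = 0
    · have hb0 : 0 < b := by
        rcases Nat.eq_zero_or_pos b with h | h
        · exact absurd ⟨ha0, h⟩ hcon
        · exact h
      have h5 := cs_gap hh hb0 hb
      rw [cs_zero] at h5
      have h6 := cs_mono h hb
      rw [ha0, Nat.sub_zero, Nat.cast_sub h6]
      push_cast at h5
      linarith
    · have h5 := cs_gap hh (show s - a < s by omega) le_rfl
      have h6 : ((cs h (s - a) - cs h b : ℕ) : ℝ) ≤ cs h (s - a) := by
        exact_mod_cast Nat.sub_le _ _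
      linarith
  have hg1 := Comp.low hg (show 1 ≤ a + 1 by omega) ha
  have h7 : (1 - ψ) * N ≤ (hi (p - 1) : ℝ) - ((cs h (s - a) - cs h b : ℕ) : ℝ) := by linarith
  have h8 : (N : ℝ) * ((1 - ψ) * N) ≤
      (g (a + 1) : ℝ) * ((hi (p - 1) : ℝ) - ((cs h (s - a) - cs h b : ℕ) : ℝ)) := by
    apply mul_le_mul hg1 h7 _ (by linarith)
    have : 0 ≤ 1 - ψ := by linarith
    positivity
  nlinarith

lemma Fb_le (s : ℕ) (g h : ℕ → ℕ) (a c : ℕ) (ha : a ≤ s) :
    Fb s g h 0 c ≤ cs g a * cs h s + Fb s g h a c := by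
  have h1 : Fb s g h 0 c = ∑ i ∈ Ioc 0 a, g i * (cs h (s + 1 - i) - cs h c) + Fb s g h a c := by
    unfold Fb
    rw [← sum_union]
    · rw [Ioc_union_Ioc_eq_Ioc (Nat.zero_le a) ha]
    · rw [disjoint_left]
      intro i h1 h2
      rw [mem_Ioc] at h1 h2
      omega
  rw [h1]
  apply Nat.add_le_add_right
  have h2 : cs g a = ∑ i ∈ Ioc 0 a, g i := by
    rw [← cs_sub, cs_zero, Nat.sub_zero]
  rw [h2, sum_mul]
  apply sum_le_sum
  intro i hi
  rw [mem_Ioc] at hi
  apply Nat.mul_le_mul_left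
  have := cs_mono h (show s + 1 - i ≤ s by omega)
  omega

lemma al_top (hal : IsAl s g h al) (hK0 : K0 = max (cs g s) (cs h s)) :
    Fb s g h 0 0 ≤ al K0 := by
  obtain ⟨a, b, ha, hb, hab⟩ := hal.2 K0
  rw [hab]
  have h1 := Fb_le s g h a 0 ha
  have h2 := Fb_le s h g b a hb
  have e1 := Fb_symm s g h a 0
  have e2 := Fb_symm s g h a b
  unfold cutb
  have h3 : cs g a * cs h s ≤ K0 * cs g a := by
    rw [mul_comm]
    apply Nat.mul_le_mul_right
    rw [hK0]
    exact le_max_right _ _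
  have h4 : cs h b * cs g s ≤ K0 * cs h b := by
    rw [mul_comm]
    apply Nat.mul_le_mul_right
    rw [hK0]
    exact le_max_left _ _
  rw [mul_add]
  omega

lemma al_lip (hg : Comp s R N g) (hh : Comp s R N h) (hal : IsAl s g h al) {k k' : ℕ}
    (hk : k ≤ k') : (al k' : ℝ) ≤ al k + ((k' : ℝ) - k) * (2 * ((s : ℝ) * R) * N) := by
  obtain ⟨a, b, ha, hb, hab⟩ := hal.2 k
  have h1 : (al k' : ℝ) ≤ cutb s g h k' a b := by exact_mod_cast hal.1 k' a b ha hb
  have h2 : (al k : ℝ) = cutb s g h k a b := by exact_mod_cast hab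
  have h3 := cs_top hg ha
  have h4 := cs_top hh hb
  have hk' : (k : ℝ) ≤ k' := by exact_mod_cast hk
  rw [h2]
  refine h1.trans ?_
  unfold cutb
  push_cast
  have h5 : ((k' : ℝ) - k) * ((cs g a : ℝ) + cs h b) ≤
      ((k' : ℝ) - k) * (2 * ((s : ℝ) * R) * N) := by
    apply mul_le_mul_of_nonneg_left _ (by linarith)
    linarith
  nlinarith

end L5

open L5 in
/-- M5: structure of the nearly tight cuts -/
theorem zp_of_td (s R : ℕ) (hs : 0 < s) (g h al : ℕ → ℕ) (N : ℕ) (η ψ : ℝ) (K0 p : ℕ)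
    (lo hi sig : ℕ → ℕ) (hN : 0 < N) (hg : Comp s R N g) (hh : Comp s R N h)
    (hal : IsAl s g h al) (hK0 : K0 = max (cs g s) (cs h s)) (hη : 0 < η) (hη1 : η ≤ 1)
    (hψ : 0 ≤ ψ) (hψη : 4 * ((s : ℝ) * R + 1) * ψ < η)
    (hTD : TD s g h al N η ψ K0 p lo hi sig) : ZP s p (ZD s g h al N ψ p hi) := by
  classical
  obtain ⟨h4, h41, h42⟩ := num hη1 hψ hψη
  have hN' : (0 : ℝ) < N := by exact_mod_cast hN
  have hN2 : (0 : ℝ) < (N : ℝ) ^ 2 := by positivity
  have hal' := isAl_symm hal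
  have hTD' := td_symm hTD
  have hp := hTD.ppos
  have hmem : ∀ a b j, (a, b, j) ∈ ZD s g h al N ψ p hi ↔
      (a ≤ s ∧ b ≤ s ∧ j < p) ∧ Db s g h al (hi j) a b ≤ ψ * (N : ℝ) ^ 2 := by
    intro a b j
    unfold ZD LBox
    simp only [mem_filter, mem_product, mem_range]
    constructor
    · rintro ⟨⟨h1, h2, h3⟩, h5⟩
      exact ⟨⟨by omega, by omega, h3⟩, h5⟩
    · rintro ⟨⟨h1, h2, h3⟩, h5⟩
      exact ⟨⟨by omega, by omega, h3⟩, h5⟩
  refine ⟨hs, hp, ?_, ?_, ?_, ?_, ?_, ?_, ?_, ?_, ?_, ?_⟩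
  · rintro ⟨a, b, j⟩ hc
    exact ((hmem a b j).mp hc).1
  · rintro ⟨a, b, j⟩ hc ⟨a', b', j'⟩ hc' ha hb hj
    obtain ⟨⟨h1, h2, h3⟩, h5⟩ := (hmem a b j).mp hc
    obtain ⟨⟨h1', h2', h3'⟩, h5'⟩ := (hmem a' b' j').mp hc'
    simp only at ha hb hj ⊢
    rcases Nat.lt_or_ge a a' with haa | haa
    · obtain ⟨e1, e2⟩ := z1h hg hh hal hN h4 h41 hTD haa h1' hb h2' hj h3' h5 h5' hη
      have hjj : j = j' := by omega
      have hbb : b = b' := by
        by_contra hc1
        have h6 : ¬ (a + b + 1 ≤ s) := fun h => e2 ⟨by omega, h⟩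
        have h7 := z3h hg hal hN h4 hTD h1' h2' h3' h5' hη hψ (by omega)
        omega
      exact Or.inr (Or.inr ⟨hbb, hjj⟩)
    · have haeq : a = a' := by omega
      subst haeq
      rcases Nat.lt_or_ge b b' with hbb | hbb
      · obtain ⟨e1, _⟩ := z1h hh hg hal' hN h4 h41 hTD' hbb h2' ha h1' hj h3'
          (by rw [← Db_symm]; exact h5) (by rw [← Db_symm]; exact h5') hη
        exact Or.inr (Or.inl ⟨rfl, by omega⟩)
      · exact Or.inl ⟨rfl, by omega⟩
  · intro a b j k l hj hl hjk hkl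
    obtain ⟨⟨h1, h2, h3⟩, h5⟩ := (hmem a b j).mp hj
    obtain ⟨⟨_, _, h3'⟩, h5'⟩ := (hmem a b l).mp hl
    rw [hmem]
    refine ⟨⟨h1, h2, by omega⟩, ?_⟩
    exact Db_convex hal (hi j) (hi k) (hi l) a b (hi_mono hTD hjk (by omega))
      (hi_mono hTD hkl h3') _ h5 h5'
  · intro a b j hj hab
    obtain ⟨⟨h1, h2, h3⟩, h5⟩ := (hmem a b j).mp hj
    refine ⟨z3h hg hal hN h4 hTD h1 h2 h3 h5 hη hψ hab, ?_⟩
    intro k hk
    rw [hmem]
    refine ⟨⟨h1, h2, by omega⟩, ?_⟩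
    refine Db_convex hal 0 (hi k) (hi j) a b (Nat.zero_le _) (hi_mono hTD hk h3) _ ?_ h5
    have h6 : Db s g h al 0 a b ≤ 0 := by
      unfold Db cutb
      rw [Fb_zero s g h a b hab]
      have : (0 : ℝ) ≤ al 0 := Nat.cast_nonneg _
      simp
    have : 0 ≤ ψ * (N : ℝ) ^ 2 := by positivity
    linarith
  · rw [hmem]
    refine ⟨⟨Nat.zero_le _, Nat.zero_le _, by omega⟩, ?_⟩
    rcases hTD.dich 0 0 (p - 1) (Nat.zero_le _) (Nat.zero_le _) (by omega) with hd | hd
    · exact hd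
    · exfalso
      have h6 : (Fb s g h 0 0 : ℝ) ≤ al K0 := by exact_mod_cast al_top hal hK0
      have h7 := al_lip hg hh hal hTD.last
      have h8 := K0_near hTD
      have h9 : Db s g h al (hi (p - 1)) 0 0 = (Fb s g h 0 0 : ℝ) - al (hi (p - 1)) := by
        unfold Db cutb
        rw [cs_zero, cs_zero]
        simp
      rw [h9] at hd
      have h10 : ((K0 : ℝ) - hi (p - 1)) * (2 * ((s : ℝ) * R) * N) ≤
          ψ * N * (2 * ((s : ℝ) * R) * N) := by
        apply mul_le_mul_of_nonneg_right (by linarith)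
        positivity
      have h11 : 2 * ((s : ℝ) * R) * ψ * (N : ℝ) ^ 2 < η * (N : ℝ) ^ 2 :=
        mul_lt_mul_of_pos_right h42 hN2
      nlinarith
  · intro j hj
    obtain ⟨⟨_, _, h3⟩, h5⟩ := (hmem 0 0 j).mp hj
    by_contra hcon
    have hj1 : j + 1 < p := by omega
    have h6 := hTD.lin (j + 1) hj1 (hi (j + 1)) (hTD.lohi (j + 1) hj1).le le_rfl
    have h7 := hTD.siglow (j + 1) hj1
    have h8 := hTD.thick (j + 1) hj1
    have h9 := al_mono hal (hTD.ord j hj1)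
    have h10 := hal.1 (hi (j + 1)) 0 0 (Nat.zero_le _) (Nat.zero_le _)
    have h11 : cutb s g h (hi (j + 1)) 0 0 = Fb s g h 0 0 := by
      unfold cutb
      rw [cs_zero, cs_zero]
      simp
    rw [h11] at h10
    have h12 : Db s g h al (hi j) 0 0 = (Fb s g h 0 0 : ℝ) - al (hi j) := by
      unfold Db cutb
      rw [cs_zero, cs_zero]
      simp
    rw [h12] at h5
    have h6' : (al (hi (j + 1)) : ℝ) = al (lo (j + 1)) +
        sig (j + 1) * ((hi (j + 1) : ℝ) - lo (j + 1)) := by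
      rw [h6]
      push_cast
      rw [Nat.cast_sub (hTD.lohi (j + 1) hj1).le]
    have h7' : (N : ℝ) ≤ sig (j + 1) := by exact_mod_cast h7
    have h9' : (al (hi j) : ℝ) ≤ al (lo (j + 1)) := by exact_mod_cast h9
    have h10' : (al (hi (j + 1)) : ℝ) ≤ Fb s g h 0 0 := by exact_mod_cast h10
    have h13 : (N : ℝ) * (η * N) ≤ sig (j + 1) * ((hi (j + 1) : ℝ) - lo (j + 1)) := by
      apply mul_le_mul h7' (by linarith) (by positivity) (by linarith)
    nlinarith
  · intro a a' b j hj hj' haa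
    obtain ⟨⟨h1, h2, h3⟩, h5⟩ := (hmem a b j).mp hj
    obtain ⟨⟨h1', _, _⟩, h5'⟩ := (hmem a' b j).mp hj'
    exact z5h hg hh hal hN h4 h41 hTD haa h1' h2 h3 h5 h5' hη hψ
  · intro a b b' j hj hj' hbb
    obtain ⟨⟨h1, h2, h3⟩, h5⟩ := (hmem a b j).mp hj
    obtain ⟨⟨_, h2', _⟩, h5'⟩ := (hmem a b' j).mp hj'
    exact z5h hh hg hal' hN h4 h41 hTD' hbb h2' h1 h3 (by rw [← Db_symm]; exact h5)
      (by rw [← Db_symm]; exact h5') hη hψ
  · intro a b hj hj'
    obtain ⟨⟨h1, h2, h3⟩, h5⟩ := (hmem a b (p - 1)).mp hj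
    obtain ⟨⟨h1', _, _⟩, h5'⟩ := (hmem (a + 1) b (p - 1)).mp hj'
    exact z6h hs hg hh hal hN h41 (by rw [hK0]; exact le_max_right _ _) hTD h1' h2 h5' hψ
  · intro a b hj hj'
    obtain ⟨⟨h1, h2, h3⟩, h5⟩ := (hmem a b (p - 1)).mp hj
    obtain ⟨⟨_, h2', _⟩, h5'⟩ := (hmem a (b + 1) (p - 1)).mp hj'
    have := z6h hs hh hg hal' hN h41 (by rw [hK0]; exact le_max_left _ _) hTD' h2' h1
      (by rw [← Db_symm]; exact h5') hψ
    exact ⟨this.2, this.1⟩

end Pool.MP_d56194_co
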