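import Mathlib
import Pool.Agent.Lib.MP_d56194_co.L.L0c
import Pool.Agent.Lib.MP_d56194_co.L.L5

set_option autoImplicit false

namespace Pool.MP_d56194_co

open Finset Real

/-- M16a: maximal intervals on which `S` is constant -/
theorem pieces (M : ℕ) (hM : 0 < M) (S : ℕ → ℕ) : ∃ (P : ℕ) (T : ℕ → ℕ), Bnd M T P ∧
    (∀ φ, P ≤ φ → T φ = M) ∧ (∀ φ t, φ < P → T φ ≤ t → t < T (φ + 1) → S t = S (T φ)) ∧
    ∀ φ, 0 < φ → φ < P → S (T φ - 1) ≠ S (T φ) := by
  induction M, hM using Nat.le_induction with
  | base =>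
    refine ⟨1, fun φ => if φ = 0 then 0 else 1, ⟨by simp, ?_, by simp⟩, ?_, ?_, ?_⟩
    · intro k hk
      have : k = 0 := by omega
      subst this
      simp
    · intro φ hφ
      have : φ ≠ 0 := by omega
      simp [this]
    · intro φ t hφ h1 h2
      have : φ = 0 := by omega
      subst this
      have h3 : t = 0 := by
        simp at h2
        omega
      subst h3
      simp
    · intro φ h1 h2
      omega
  | succ M hM ih =>
    have hM' : 1 ≤ M := hM
    obtain ⟨P, T, hB, h1, h2, h3⟩ := ih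
    have hP : 0 < P := by
      rcases Nat.eq_zero_or_pos P with h | h
      · have := hB.last
        rw [h, hB.zero] at this
        omega
      · exact h
    have hTlt : ∀ φ, φ < P → T φ < M := by
      intro φ hφ
      have hmono : ∀ d, φ + d < P → T φ ≤ T (φ + d) := by
        intro d
        induction d with
        | zero => intro _; exact le_rfl
        | succ d ihd =>
          intro hd
          exact (ihd (by omega)).trans (hB.step (φ + d) (by omega)).le
      have h4 := hmono (P - 1 - φ) (by omega)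
      have h5 := hB.step (P - 1) (by omega)
      have h6 : φ + (P - 1 - φ) = P - 1 := by omega
      have h7 : P - 1 + 1 = P := by omega
      rw [h6] at h4
      rw [h7, hB.last] at h5
      omega
    by_cases hS : S M = S (M - 1)
    · refine ⟨P, fun φ => if φ < P then T φ else M + 1, ⟨?_, ?_, ?_⟩, ?_, ?_, ?_⟩
      · simp only [if_pos hP, hB.zero]
      · intro k hk
        simp only [if_pos hk]
        by_cases hk1 : k + 1 < P
        · simp only [if_pos hk1]
          exact hB.step k hk
        · simp only [if_neg hk1]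
          have := hTlt k hk
          omega
      · simp
      · intro φ hφ
        simp only [if_neg (show ¬ φ < P by omega)]
      · intro φ t hφ ha hb
        simp only [if_pos hφ] at ha ⊢
        by_cases hφ1 : φ + 1 < P
        · simp only [if_pos hφ1] at hb
          exact h2 φ t hφ ha hb
        · simp only [if_neg hφ1] at hb
          have hTM : T (φ + 1) = M := h1 _ (by omega)
          by_cases htM : t < M
          · exact h2 φ t hφ ha (by rw [hTM]; exact htM)
          · have e1 : t = M := by omega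
            rw [e1, hS]
            have := hTlt φ hφ
            exact h2 φ (M - 1) hφ (by omega) (by rw [hTM]; omega)
      · intro φ ha hb
        simp only [if_pos hb]
        exact h3 φ ha hb
    · refine ⟨P + 1, fun φ => if φ ≤ P then T φ else M + 1, ⟨?_, ?_, ?_⟩, ?_, ?_, ?_⟩
      · simp only [if_pos (Nat.zero_le P), hB.zero]
      · intro k hk
        simp only [if_pos (show k ≤ P by omega)]
        by_cases hk1 : k + 1 ≤ P
        · simp only [if_pos hk1]
          exact hB.step k (by omega)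
        · simp only [if_neg hk1]
          have e1 : k = P := by omega
          rw [e1, hB.last]
          omega
      · simp
      · intro φ hφ
        simp only [if_neg (show ¬ φ ≤ P by omega)]
      · intro φ t hφ ha hb
        simp only [if_pos (show φ ≤ P by omega)] at ha ⊢
        by_cases hφ1 : φ + 1 ≤ P
        · simp only [if_pos hφ1] at hb
          exact h2 φ t (by omega) ha hb
        · simp only [if_neg hφ1] at hb
          have e1 : φ = P := by omega
          rw [e1, hB.last] at ha ⊢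
          have e2 : t = M := by omega
          rw [e2]
      · intro φ ha hb
        simp only [if_pos (show φ ≤ P by omega)]
        by_cases hφ : φ < P
        · exact h3 φ ha hφ
        · have e1 : φ = P := by omega
          rw [e1, hB.last]
          exact fun h => hS h.symm

namespace L16

theorem aff_end (f : ℕ → ℤ) (D : ℤ) (e1 e2 x : ℕ)
    (h : ∀ y, e1 ≤ y → y < e2 → f (y + 1) = f y + D) (h1 : e1 ≤ x) (h2 : x ≤ e2) :
    f e1 ≤ f x ∨ f e2 ≤ f x := by
  have key : ∀ n, e1 + n ≤ e2 → f (e1 + n) = f e1 + n * D := by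
    intro n
    induction n with
    | zero => intro _; simp
    | succ n ih =>
      intro hn
      rw [← add_assoc, h (e1 + n) (by omega) (by omega), ih (by omega)]
      push_cast
      ring
  obtain ⟨n, rfl⟩ := Nat.exists_eq_add_of_le h1
  obtain ⟨k, hk⟩ := Nat.exists_eq_add_of_le h2
  have a1 := key n h2
  have a2 := key (n + k) (by omega)
  have e3 : e2 = e1 + (n + k) := by omega
  rw [e3, a1, a2]
  rcases le_total 0 D with hD | hD
  · left
    have : 0 ≤ (n : ℤ) * D := by positivity
    linarith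
  · right
    have : (k : ℤ) * D ≤ 0 := mul_nonpos_of_nonneg_of_nonpos (by positivity) hD
    push_cast
    nlinarith

/-- the block which contains a number -/
theorem block (g : ℕ → ℕ) (s x : ℕ) (hs : 0 < s) (hx : x ≤ cs g s) :
    ∃ k, k < s ∧ cs g k ≤ x ∧ x ≤ cs g (k + 1) := by
  induction s with
  | zero => omega
  | succ s ih =>
    rcases Nat.eq_zero_or_pos s with rfl | hs'
    · exact ⟨0, by omega, by rw [L5.cs_zero]; omega, hx⟩
    · by_cases h : x ≤ cs g s
      · obtain ⟨k, h1, h2, h3⟩ := ih hs' h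
        exact ⟨k, by omega, h2, h3⟩
      · exact ⟨s, by omega, by omega, hx⟩

/-- the sum over the rows behind the block `a`, as a sum over the blocks -/
theorem sum_rows {s : ℕ} {g h lam : ℕ → ℕ} (hS : Shp s g h lam) (F : ℕ → ℕ) (a : ℕ)
    (ha : a ≤ s) : ∑ r ∈ Ico (cs g a) (cs g s), F (lam r) =
      ∑ i ∈ Ioc a s, g i * F (cs h (s + 1 - i)) := by
  have key : ∀ n, a + n ≤ s → ∑ r ∈ Ico (cs g a) (cs g (a + n)), F (lam r) =
      ∑ i ∈ Ioc a (a + n), g i * F (cs h (s + 1 - i)) := by
    intro n
    induction n with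
    | zero => intro _; simp
    | succ n ih =>
      intro hn
      rw [← sum_Ico_consecutive _ (L5.cs_mono g (show a ≤ a + n by omega))
        (L5.cs_mono g (show a + n ≤ a + (n + 1) by omega)), ih (by omega), ← add_assoc,
        sum_Ioc_succ_top (by omega)]
      congr 1
      have h1 : ∀ r ∈ Ico (cs g (a + n)) (cs g (a + n + 1)), F (lam r) =
          F (cs h (s + 1 - (a + n + 1))) := by
        intro r hr
        rw [mem_Ico] at hr
        rw [hS.blk (a + n) r (by omega) hr.1 hr.2]
        congr 2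
        omega
      rw [sum_congr rfl h1, sum_const, Nat.card_Ico, L5.cs_succ, Nat.add_sub_cancel_left,
        smul_eq_mul]
  have := key (s - a) (by omega)
  rw [show a + (s - a) = s by omega] at this
  exact this

theorem ct_corner {s : ℕ} {g h lam : ℕ → ℕ} (hS : Shp s g h lam) (q c a β : ℕ) (ha : a ≤ s) :
    ct (cs g s) lam q c (cs g a) β =
      c * (cs g a + β) + q * ∑ i ∈ Ioc a s, g i * (cs h (s + 1 - i) - β) := by
  unfold ct
  rw [← mul_sum, sum_rows hS (fun x => x - β) a ha]

theorem ct_block {s : ℕ} {g h lam : ℕ → ℕ} (hS : Shp s g h lam) (q c a b : ℕ) (ha : a ≤ s) :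
    ct (cs g s) lam q c (cs g a) (cs h b) = c * (cs g a + cs h b) + q * Fb s g h a b := by
  rw [ct_corner hS q c a _ ha]
  rfl

/-- the minimum is attained at a block corner -/
theorem corner_le {s : ℕ} {g h lam : ℕ → ℕ} (hS : Shp s g h lam) (q c α β : ℕ)
    (hα : α ≤ cs g s) (hβ : β ≤ cs h s) : ∃ a b, a ≤ s ∧ b ≤ s ∧
      ct (cs g s) lam q c (cs g a) (cs h b) ≤ ct (cs g s) lam q c α β := by
  rcases Nat.eq_zero_or_pos s with rfl | hs
  · refine ⟨0, 0, le_rfl, le_rfl, ?_⟩
    rw [L5.cs_zero] at hα hβ ⊢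
    rw [L5.cs_zero]
    have e1 : α = 0 := by omega
    have e2 : β = 0 := by omega
    rw [e1, e2]
  -- rows
  have hrow : ∃ a, a ≤ s ∧ ct (cs g s) lam q c (cs g a) β ≤ ct (cs g s) lam q c α β := by
    obtain ⟨k, h1, h2, h3⟩ := block g s α hs hα
    have hks : cs g (k + 1) ≤ cs g s := L5.cs_mono g h1
    have := aff_end (fun x => (ct (cs g s) lam q c x β : ℤ))
      ((c : ℤ) - ((q * (cs h (s - k) - β) : ℕ) : ℤ)) (cs g k) (cs g (k + 1)) α (by
        intro y hy1 hy2
        have e1 : ∑ i ∈ Ico y (cs g s), q * (lam i - β) =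
            q * (lam y - β) + ∑ i ∈ Ico (y + 1) (cs g s), q * (lam i - β) := by
          rw [sum_eq_sum_Ico_succ_bot (by omega)]
        have e2 : lam y = cs h (s - k) := hS.blk k y h1 hy1 hy2
        simp only [ct]
        rw [e1, e2]
        push_cast
        ring) h2 h3
    rcases this with h4 | h4
    · exact ⟨k, by omega, by exact_mod_cast h4⟩
    · exact ⟨k + 1, h1, by exact_mod_cast h4⟩
  obtain ⟨a, ha, hle⟩ := hrow
  obtain ⟨l, h1, h2, h3⟩ := block h s β hs hβ
  have := aff_end (fun x => (ct (cs g s) lam q c (cs g a) x : ℤ))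
    ((c : ℤ) - ((q * ∑ i ∈ Ioc a s, g i * (if l + 1 ≤ s + 1 - i then 1 else 0) : ℕ) : ℤ))
    (cs h l) (cs h (l + 1)) β (by
      intro y hy1 hy2
      rw [ct_corner hS q c a _ ha, ct_corner hS q c a _ ha]
      have e1 : ∑ i ∈ Ioc a s, g i * (cs h (s + 1 - i) - y) =
          ∑ i ∈ Ioc a s, g i * (cs h (s + 1 - i) - (y + 1)) +
            ∑ i ∈ Ioc a s, g i * (if l + 1 ≤ s + 1 - i then 1 else 0) := by
        rw [← sum_add_distrib]
        refine sum_congr rfl fun i _ => ?_
        rw [← mul_add]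
        congr 1
        by_cases hl : l + 1 ≤ s + 1 - i
        · have := L5.cs_mono h hl
          rw [if_pos hl]
          omega
        · have := L5.cs_mono h (show s + 1 - i ≤ l by omega)
          rw [if_neg hl]
          omega
      rw [e1]
      push_cast
      ring) h2 h3
  rcases this with h4 | h4
  · refine ⟨a, l, ha, by omega, ?_⟩
    have : ct (cs g s) lam q c (cs g a) (cs h l) ≤ ct (cs g s) lam q c (cs g a) β := by
      exact_mod_cast h4
    exact this.trans hle
  · refine ⟨a, l + 1, ha, h1, ?_⟩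
    have : ct (cs g s) lam q c (cs g a) (cs h (l + 1)) ≤ ct (cs g s) lam q c (cs g a) β := by
      exact_mod_cast h4
    exact this.trans hle

end L16

/-- M16b: the fine levels -/
theorem fl_of_cut (s : ℕ) (g h lam al : ℕ → ℕ) (hS : Shp s g h lam) (hal : IsAl s g h al)
    (q : ℕ) (hq : 0 < q) (A B : ℕ → ℕ) (hA : ∀ t, A t ≤ cs g s) (hB : ∀ t, B t ≤ cs h s)
    (h1 : ∀ c, ∑ t ∈ range c, (A t + B t) = ct (cs g s) lam q c (A c) (B c))
    (h2 : ∀ c a b, a ≤ cs g s → b ≤ cs h s → ct (cs g s) lam q c (A c) (B c) ≤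
      ct (cs g s) lam q c a b)
    (h3 : ∀ c a b, a ≤ cs g s → b ≤ cs h s → ct (cs g s) lam q (c + 1) (A c) (B c) ≤
      ct (cs g s) lam q (c + 1) a b) :
    FL s g h al q (fun t => A t + B t) (fun c => ct (cs g s) lam q c (A c) (B c)) := by
  have hle : ∀ c a b, a ≤ s → b ≤ s → ct (cs g s) lam q c (A c) (B c) ≤
      c * (cs g a + cs h b) + q * Fb s g h a b := by
    intro c a b ha hb
    rw [← L16.ct_block hS q c a b ha]
    exact h2 c _ _ (L5.cs_mono g ha) (L5.cs_mono h hb)
  have hex : ∀ c, ∃ a b, a ≤ s ∧ b ≤ s ∧ ct (cs g s) lam q c (A c) (B c) =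
      c * (cs g a + cs h b) + q * Fb s g h a b := by
    intro c
    obtain ⟨a, b, ha, hb, hab⟩ := L16.corner_le hS q c (A c) (B c) (hA c) (hB c)
    refine ⟨a, b, ha, hb, le_antisymm (hle c a b ha hb) ?_⟩
    rw [← L16.ct_block hS q c a b ha]
    exact hab
  have hsucc : ∀ c a b, ct (cs g s) lam q (c + 1) a b = ct (cs g s) lam q c a b + (a + b) := by
    intro c a b
    unfold ct
    ring
  have hstep : ∀ c, ct (cs g s) lam q (c + 1) (A (c + 1)) (B (c + 1)) =
      ct (cs g s) lam q c (A c) (B c) + (A c + B c) := by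
    intro c
    rw [← hsucc]
    exact le_antisymm (h2 (c + 1) _ _ (hA c) (hB c)) (h3 c _ _ (hA _) (hB _))
  refine ⟨h1, ?_, hle, hex, ?_⟩
  · refine antitone_nat_of_succ_le fun c => ?_
    have a1 := hstep c
    have a2 := h2 c (A (c + 1)) (B (c + 1)) (hA _) (hB _)
    have a3 := hsucc c (A (c + 1)) (B (c + 1))
    omega
  · intro k
    apply le_antisymm
    · obtain ⟨a, b, ha, hb, e⟩ := hal.2 k
      refine (hle (q * k) a b ha hb).trans (le_of_eq ?_)
      rw [e, cutb]
      ring
    · obtain ⟨a, b, ha, hb, e⟩ := hex (q * k)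
      rw [e]
      calc q * al k ≤ q * cutb s g h k a b := Nat.mul_le_mul_left q (hal.1 k a b ha hb)
        _ = q * k * (cs g a + cs h b) + q * Fb s g h a b := by rw [cutb]; ring

/-- M16c -/
theorem fine_slope (s : ℕ) (g h al : ℕ → ℕ) (q : ℕ) (hq : 0 < q) (S be : ℕ → ℕ)
    (hF : FL s g h al q S be) (lo hi sig : ℕ) (hlin : ∀ k, lo ≤ k → k ≤ hi →
      al k = al lo + sig * (k - lo)) (h2 : lo + 2 ≤ hi) :
    ∀ t, q * lo ≤ t → t < q * hi → S t = sig := by
  have hblk : ∀ k, lo ≤ k → k < hi → ∑ t ∈ Ico (q * k) (q * (k + 1)), S t = q * sig := by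
    intro k hk1 hk2
    have e1 := hF.sum (q * k)
    have e2 := hF.sum (q * (k + 1))
    rw [hF.lev] at e1 e2
    have e3 := sum_range_add_sum_Ico S (Nat.mul_le_mul_left q (show k ≤ k + 1 by omega))
    rw [e1, e2, hlin k hk1 hk2.le, hlin (k + 1) (by omega) (by omega)] at e3
    obtain ⟨d, rfl⟩ := Nat.exists_eq_add_of_le hk1
    rw [Nat.add_sub_cancel_left, show lo + d + 1 - lo = d + 1 by omega] at e3
    have e4 : q * (al lo + sig * (d + 1)) = q * (al lo + sig * d) + q * sig := by ring
    omega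
  have hcard : ∀ k, (Ico (q * k) (q * (k + 1))).card = q := by
    intro k
    rw [Nat.card_Ico]
    have : q * (k + 1) = q * k + q := by ring
    omega
  -- lower and upper bounds at the ends of a block
  have hlow : ∀ k, lo ≤ k → k < hi → sig ≤ S (q * k) := by
    intro k hk1 hk2
    have e1 := hblk k hk1 hk2
    have e2 : ∑ t ∈ Ico (q * k) (q * (k + 1)), S t ≤ ∑ _t ∈ Ico (q * k) (q * (k + 1)),
        S (q * k) := by
      refine sum_le_sum fun t ht => hF.anti ?_
      rw [mem_Ico] at ht
      exact ht.1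
    rw [sum_const, hcard, smul_eq_mul, e1] at e2
    exact Nat.le_of_mul_le_mul_left e2 hq
  have hup : ∀ k, lo ≤ k → k < hi → ∀ t, q * (k + 1) ≤ t → S t ≤ sig := by
    intro k hk1 hk2 t ht
    have e1 := hblk k hk1 hk2
    have e2 : ∑ _t ∈ Ico (q * k) (q * (k + 1)), S t ≤ ∑ t ∈ Ico (q * k) (q * (k + 1)),
        S t := by
      refine sum_le_sum fun t' ht' => hF.anti ?_
      rw [mem_Ico] at ht'
      omega
    rw [sum_const, hcard, smul_eq_mul, e1] at e2
    exact Nat.le_of_mul_le_mul_left e2 hq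
  intro t ht1 ht2
  obtain ⟨k, hk⟩ : ∃ k, k = t / q := ⟨_, rfl⟩
  have hkt : q * k ≤ t := by rw [hk]; exact Nat.mul_div_le t q
  have htk : t < q * (k + 1) := by rw [hk]; exact Nat.lt_mul_div_succ t hq
  have hlok : lo ≤ k := by
    rw [hk]; exact (Nat.le_div_iff_mul_le hq).2 (by rw [mul_comm]; exact ht1)
  have hkhi : k < hi := by
    rw [hk]; exact (Nat.div_lt_iff_lt_mul hq).2 (by rw [mul_comm]; exact ht2)
  clear hk
  have htm : t ∈ Ico (q * k) (q * (k + 1)) := mem_Ico.2 ⟨hkt, htk⟩
  have hsum := hblk k hlok hkhi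
  by_cases hk1 : k + 1 < hi
  · -- all values are at least sig
    have hge : ∀ t' ∈ Ico (q * k) (q * (k + 1)), sig ≤ S t' := by
      intro t' ht'
      rw [mem_Ico] at ht'
      exact (hlow (k + 1) (by omega) hk1).trans (hF.anti ht'.2.le)
    have hs : ∑ _t ∈ Ico (q * k) (q * (k + 1)), sig = ∑ t ∈ Ico (q * k) (q * (k + 1)), S t := by
      rw [hsum, sum_const, hcard, smul_eq_mul]
    exact ((sum_eq_sum_iff_of_le hge).1 hs t htm).symm
  · obtain ⟨k', rfl⟩ : ∃ k', k = k' + 1 := ⟨k - 1, by omega⟩
    have hle : ∀ t' ∈ Ico (q * (k' + 1)) (q * (k' + 1 + 1)), S t' ≤ sig := by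
      intro t' ht'
      rw [mem_Ico] at ht'
      exact hup k' (by omega) (by omega) t' ht'.1
    have hs : ∑ t ∈ Ico (q * (k' + 1)) (q * (k' + 1 + 1)), S t =
        ∑ _t ∈ Ico (q * (k' + 1)) (q * (k' + 1 + 1)), sig := by
      rw [hsum, sum_const, hcard, smul_eq_mul]
    exact (sum_eq_sum_iff_of_le hle).1 hs t htm

end Pool.MP_d56194_co
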