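import Mathlib
import Pool.Agent.Lib.MP_d56194_co.L.L0c
import Pool.Agent.Lib.MP_d56194_co.L.L5

set_option autoImplicit false

namespace Pool.MP_d56194_co

open Finset Real

namespace L16d

open L5

lemma mem_ZD {s : ℕ} {g h al : ℕ → ℕ} {N : ℕ} {ψ : ℝ} {p : ℕ} {hi : ℕ → ℕ} (a b j : ℕ) :
    (a, b, j) ∈ ZD s g h al N ψ p hi ↔
      (a ≤ s ∧ b ≤ s ∧ j < p) ∧ Db s g h al (hi j) a b ≤ ψ * (N : ℝ) ^ 2 := by
  unfold ZD LBox
  simp only [mem_filter, mem_product, mem_range]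
  constructor
  · rintro ⟨⟨h1, h2, h3⟩, h5⟩
    exact ⟨⟨by omega, by omega, h3⟩, h5⟩
  · rintro ⟨⟨h1, h2, h3⟩, h5⟩
    exact ⟨⟨by omega, by omega, h3⟩, h5⟩

variable {s R : ℕ} {g h al : ℕ → ℕ} {N : ℕ} {η ψ : ℝ} {K0 p : ℕ}
    {lo hi sig : ℕ → ℕ} {q : ℕ} {S be : ℕ → ℕ}

/-- the fine levels are Lipschitz -/
lemma be_lip (hg : Comp s R N g) (hh : Comp s R N h) (hF : FL s g h al q S be) {c c' : ℕ}
    (hc : c ≤ c') : (be c' : ℝ) ≤ be c + ((c' : ℝ) - c) * (2 * ((s : ℝ) * R) * N) := by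
  obtain ⟨a, b, ha, hb, hab⟩ := hF.ex c
  have h1 : (be c' : ℝ) ≤ ((c' * (cs g a + cs h b) + q * Fb s g h a b : ℕ) : ℝ) := by
    exact_mod_cast hF.le c' a b ha hb
  have h2 : (be c : ℝ) = ((c * (cs g a + cs h b) + q * Fb s g h a b : ℕ) : ℝ) := by
    exact_mod_cast hab
  have h3 := cs_top hg ha
  have h4 := cs_top hh hb
  have hc' : (c : ℝ) ≤ c' := by exact_mod_cast hc
  rw [h2]
  refine h1.trans ?_
  push_cast
  have h5 : ((c' : ℝ) - c) * ((cs g a : ℝ) + cs h b) ≤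
      ((c' : ℝ) - c) * (2 * ((s : ℝ) * R) * N) := by
    apply mul_le_mul_of_nonneg_left _ (by linarith)
    linarith
  nlinarith

/-- the fine levels are constant after `q * K0` -/
lemma be_const (hal : IsAl s g h al) (hK0 : K0 = max (cs g s) (cs h s))
    (hF : FL s g h al q S be) (c : ℕ) : be c ≤ be (q * K0) := by
  have h1 := hF.le c 0 0 (Nat.zero_le _) (Nat.zero_le _)
  rw [cs_zero, cs_zero] at h1
  have h2 := al_top hal hK0
  rw [hF.lev]
  have h3 := Nat.mul_le_mul_left q h2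
  omega

/-- a long gap without thick intervals is impossible -/
lemma gap (hTD : TD s g h al N η ψ K0 p lo hi sig) (hq : 0 < q) (k0 c : ℕ)
    (h1 : c ≤ q * K0)
    (h2 : ∀ k, k0 < k → q * (k - 1) < c → ∀ j, j < p → ¬ (lo j < k ∧ k ≤ hi j))
    (hψ : 0 ≤ ψ) :
    (c : ℝ) ≤ q * k0 + q * (ψ * N) := by
  have hqR : (0 : ℝ) < q := by exact_mod_cast hq
  set k1 := (c + q - 1) / q with hk1
  have hc1 : c ≤ q * k1 := by
    have h3 := Nat.div_add_mod (c + q - 1) q
    have h4 := Nat.mod_lt (c + q - 1) hq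
    rw [← hk1] at h3
    omega
  have hc2 : ∀ k, 1 ≤ k → k ≤ k1 → q * (k - 1) < c := by
    intro k hk hkk
    have h3 := Nat.div_mul_le_self (c + q - 1) q
    rw [← hk1] at h3
    have h4 : q * (k - 1) + q ≤ k1 * q := by
      obtain ⟨k', rfl⟩ : ∃ k', k = k' + 1 := ⟨k - 1, by omega⟩
      have : (k' + 1) * q ≤ k1 * q := Nat.mul_le_mul_right _ hkk
      rw [Nat.add_sub_cancel]
      linarith
    omega
  by_cases hkk : k1 ≤ k0
  · have h3 : (c : ℝ) ≤ q * k1 := by exact_mod_cast hc1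
    have h4 : (q : ℝ) * k1 ≤ q * k0 := by
      apply mul_le_mul_of_nonneg_left _ hqR.le
      exact_mod_cast hkk
    have h5 : 0 ≤ (q : ℝ) * (ψ * N) := by positivity
    linarith
  · push Not at hkk
    have hk1K : k1 ≤ K0 := by
      have h3 := hc2 k1 (by omega) le_rfl
      have h4 : q * (k1 - 1) < q * K0 := by omega
      have h5 := Nat.lt_of_mul_lt_mul_left h4
      omega
    have hcard : (Ioc k0 k1).card ≤
        ((Icc 1 K0).filter (fun k => ∀ j, j < p → ¬ (lo j < k ∧ k ≤ hi j))).card := by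
      apply card_le_card
      intro k hk
      rw [mem_Ioc] at hk
      rw [mem_filter, mem_Icc]
      exact ⟨⟨by omega, by omega⟩, h2 k hk.1 (hc2 k (by omega) hk.2)⟩
    rw [Nat.card_Ioc] at hcard
    have h3 : ((k1 - k0 : ℕ) : ℝ) ≤ ψ * N := le_trans (by exact_mod_cast hcard) hTD.thin
    rw [Nat.cast_sub hkk.le] at h3
    have h4 : (c : ℝ) ≤ q * k1 := by exact_mod_cast hc1
    have h5 : (q : ℝ) * k1 ≤ q * (k0 + ψ * N) := by
      apply mul_le_mul_of_nonneg_left _ hqR.le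
      linarith
    linarith

lemma core (hN : 0 < N) (hg : Comp s R N g) (hh : Comp s R N h) (hψ : 0 ≤ ψ)
    (h42 : 4 * ((s : ℝ) * R) * ψ ≤ η)
    (hTD : TD s g h al N η ψ K0 p lo hi sig) (hq : 0 < q)
    (hF : FL s g h al q S be) (c j a b : ℕ) (hcK : c ≤ q * K0) (hj : j < p) (hjc : q * hi j ≤ c)
    (hnext : ∀ j', j < j' → j' < p → c ≤ q * lo j') (ha : a ≤ s) (hb : b ≤ s)
    (hZ : (a, b, j) ∉ ZD s g h al N ψ p hi) :
    (be c : ℝ) + q * (η / 2) * (N : ℝ) ^ 2 ≤ c * ((cs g a : ℝ) + cs h b) +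
      q * (Fb s g h a b : ℝ) := by
  have hqR : (0 : ℝ) < q := by exact_mod_cast hq
  have hD : η * (N : ℝ) ^ 2 ≤ Db s g h al (hi j) a b := by
    rcases hTD.dich a b j ha hb hj with h1 | h1
    · exact absurd ((mem_ZD a b j).mpr ⟨⟨ha, hb, hj⟩, h1⟩) hZ
    · exact h1
  have hgap := gap hTD hq (hi j) c hcK (by
    intro k hk hkc j' hj'
    rintro ⟨e1, e2⟩
    rcases Nat.lt_or_ge j j' with hjj | hjj
    · have h3 := hnext j' hjj hj'
      have h4 : q * (k - 1) < q * lo j' := by omega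
      have h5 := Nat.lt_of_mul_lt_mul_left h4
      omega
    · have h3 := hi_mono hTD hjj hj
      omega) hψ
  have hlip := be_lip hg hh hF hjc
  have hlev : (be (q * hi j) : ℝ) = q * al (hi j) := by exact_mod_cast hF.lev (hi j)
  rw [hlev] at hlip
  have hjc' : (q : ℝ) * hi j ≤ c := by exact_mod_cast hjc
  have hcast : ((q * hi j : ℕ) : ℝ) = (q : ℝ) * hi j := by push_cast; ring
  rw [hcast] at hlip
  have h6 : ((c : ℝ) - q * hi j) * (2 * ((s : ℝ) * R) * N) ≤
      q * (ψ * N) * (2 * ((s : ℝ) * R) * N) := by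
    apply mul_le_mul_of_nonneg_right (by linarith)
    positivity
  have h7 : q * (ψ * N) * (2 * ((s : ℝ) * R) * N) ≤ q * (η / 2) * (N : ℝ) ^ 2 := by
    have h8 : (q : ℝ) * (N : ℝ) ^ 2 * (4 * ((s : ℝ) * R) * ψ) ≤ (q : ℝ) * (N : ℝ) ^ 2 * η :=
      mul_le_mul_of_nonneg_left h42 (by positivity)
    nlinarith
  have h9 : (q : ℝ) * hi j * ((cs g a : ℝ) + cs h b) ≤ c * ((cs g a : ℝ) + cs h b) :=
    mul_le_mul_of_nonneg_right hjc' (by positivity)
  have h10 : (q : ℝ) * (η * (N : ℝ) ^ 2) ≤ q * Db s g h al (hi j) a b :=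
    mul_le_mul_of_nonneg_left hD hqR.le
  have h11 : (q : ℝ) * Db s g h al (hi j) a b = (q : ℝ) * hi j * ((cs g a : ℝ) + cs h b) +
      q * (Fb s g h a b : ℝ) - q * al (hi j) := by
    unfold Db cutb
    push_cast
    ring
  linarith

/-- the last thick interval before `c` -/
lemma exists_last (p : ℕ) (Q : ℕ → Prop) (j1 : ℕ) (hj1 : j1 < p) (hQ : Q j1) :
    ∃ j, j1 ≤ j ∧ j < p ∧ Q j ∧ ∀ j', j < j' → j' < p → ¬ Q j' := by
  classical
  have hne : ((range p).filter Q).Nonempty := ⟨j1, mem_filter.mpr ⟨mem_range.mpr hj1, hQ⟩⟩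
  have hm := Finset.max'_mem _ hne
  rw [mem_filter, mem_range] at hm
  refine ⟨((range p).filter Q).max' hne, ?_, hm.1, hm.2, ?_⟩
  · exact Finset.le_max' _ _ (mem_filter.mpr ⟨mem_range.mpr hj1, hQ⟩)
  · intro j' hj' hjp hQj
    have := Finset.le_max' _ _ (mem_filter.mpr ⟨mem_range.mpr hjp, hQj⟩)
    omega

end L16d

open L5 L16d in
/-- M16d: the defects of the cuts which have `(i0, x0, j0)` as an exception, at the
times which are not inside a thick interval -/
theorem fine_defect (s R : ℕ) (hs : 0 < s) (g h al : ℕ → ℕ) (N : ℕ) (η ψ : ℝ) (K0 p : ℕ)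
    (lo hi sig : ℕ → ℕ) (hN : 0 < N) (hg : Comp s R N g) (hh : Comp s R N h)
    (hal : IsAl s g h al) (hK0 : K0 = max (cs g s) (cs h s)) (hη : 0 < η) (hη1 : η ≤ 1)
    (hψ : 0 ≤ ψ) (hψη : 4 * ((s : ℝ) * R + 1) * ψ < η)
    (hTD : TD s g h al N η ψ K0 p lo hi sig) (q : ℕ) (hq : 0 < q) (S be : ℕ → ℕ)
    (hF : FL s g h al q S be) (i0 x0 j0 : ℕ) (hi0 : 1 ≤ i0) (hx0 : 1 ≤ x0)
    (hv : LS s p (ZD s g h al N ψ p hi) (i0, x0, j0)) (c : ℕ)
    (hc : ∀ j, j < p → ¬ (q * lo j < c ∧ c < q * hi j)) :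
    (q * hi j0 ≤ c → ∀ a b, i0 ≤ a → a ≤ s → x0 ≤ b → b ≤ s →
      (be c : ℝ) + q * (η / 2) * (N : ℝ) ^ 2 ≤ c * ((cs g a : ℝ) + cs h b) +
        q * (Fb s g h a b : ℝ)) ∧
    (c ≤ q * lo j0 → ∀ a b, a < i0 → b < x0 →
      (be c : ℝ) + q * (η / 2) * (N : ℝ) ^ 2 ≤ c * ((cs g a : ℝ) + cs h b) +
        q * (Fb s g h a b : ℝ)) := by
  classical
  have h42 : 4 * ((s : ℝ) * R) * ψ ≤ η := by
    have : 0 ≤ (s : ℝ) * R := by positivity
    nlinarith
  have hqR : (0 : ℝ) < q := by exact_mod_cast hq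
  obtain ⟨⟨hi0s, hx0s, hj0p, _, hor⟩, hoct⟩ := hv
  simp only at hi0s hx0s hj0p hor
  have hix : i0 + x0 ≤ s + 1 := by
    rcases hor with h1 | h1 | h1
    · omega
    · omega
    · exact h1
  constructor
  · -- near
    have hmain : ∀ c, c ≤ q * K0 → (∀ j, j < p → ¬ (q * lo j < c ∧ c < q * hi j)) →
        q * hi j0 ≤ c → ∀ a b, i0 ≤ a → a ≤ s → x0 ≤ b → b ≤ s →
        (be c : ℝ) + q * (η / 2) * (N : ℝ) ^ 2 ≤ c * ((cs g a : ℝ) + cs h b) +
          q * (Fb s g h a b : ℝ) := by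
      intro c hcK hc hjc a b ha has hb hbs
      obtain ⟨j, hj1, hjp, hjq, hjn⟩ := exists_last p (fun j => q * hi j ≤ c) j0 hj0p hjc
      refine core hN hg hh hψ h42 hTD hq hF c j a b hcK hjp hjq ?_ has hbs ?_
      · intro j' hj' hjp'
        have h1 := hjn j' hj' hjp'
        have h2 := hc j' hjp'
        by_contra h3
        exact h2 ⟨by omega, by omega⟩
      · intro hZ
        exact hoct _ hZ (Or.inl ⟨ha, hb, hj1⟩)
    intro hjc a b ha has hb hbs
    by_cases hcK : c ≤ q * K0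
    · exact hmain c hcK hc hjc a b ha has hb hbs
    · push Not at hcK
      have hhi : ∀ j, j < p → hi j ≤ K0 := fun j hj =>
        (hi_mono hTD (show j ≤ p - 1 by omega) (by omega)).trans hTD.last
      have h1 := hmain (q * K0) le_rfl (fun j hj h2 => by
        have h3 := Nat.mul_le_mul_left q (hhi j hj)
        omega) (Nat.mul_le_mul_left q (hhi j0 hj0p)) a b ha has hb hbs
      have h2 : (be c : ℝ) ≤ be (q * K0) := by exact_mod_cast be_const hal hK0 hF c
      have h3 : ((q * K0 : ℕ) : ℝ) * ((cs g a : ℝ) + cs h b) ≤ c * ((cs g a : ℝ) + cs h b) := by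
        apply mul_le_mul_of_nonneg_right _ (by positivity)
        exact_mod_cast hcK.le
      linarith
  · -- far
    intro hclo a b ha hb
    have hloK : lo j0 ≤ K0 := by
      have h1 := hTD.lohi j0 hj0p
      have h2 := (hi_mono hTD (show j0 ≤ p - 1 by omega) (by omega)).trans hTD.last
      omega
    have hcK : c ≤ q * K0 := hclo.trans (Nat.mul_le_mul_left q hloK)
    by_cases hex : ∃ j1, j1 < p ∧ q * hi j1 ≤ c
    · obtain ⟨j1, hj1p, hj1c⟩ := hex
      obtain ⟨j, hj1, hjp, hjq, hjn⟩ := exists_last p (fun j => q * hi j ≤ c) j1 hj1p hj1c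
      have hjj0 : j < j0 := by
        by_contra hcon
        have h1 := hi_mono hTD (show j0 ≤ j by omega) hjp
        have h2 := hTD.lohi j0 hj0p
        have h3 := Nat.mul_le_mul_left q h1
        have h4 : q * lo j0 < q * hi j0 := Nat.mul_lt_mul_of_pos_left h2 hq
        omega
      refine core hN hg hh hψ h42 hTD hq hF c j a b hcK hjp hjq ?_ (by omega) (by omega) ?_
      · intro j' hj' hjp'
        have h1 := hjn j' hj' hjp'
        have h2 := hc j' hjp'
        by_contra h3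
        exact h2 ⟨by omega, by omega⟩
      · intro hZ
        exact hoct _ hZ (Or.inr ⟨ha, hb, hjj0⟩)
    · push Not at hex
      have hgap := gap hTD hq 0 c hcK (by
        intro k _ hkc j' hj'
        rintro ⟨e1, e2⟩
        have h1 := hex j' hj'
        have h2 := hc j' hj'
        have h3 : c ≤ q * lo j' := by
          by_contra h3
          exact h2 ⟨by omega, h1⟩
        have h4 : q * (k - 1) < q * lo j' := by omega
        have h5 := Nat.lt_of_mul_lt_mul_left h4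
        omega) hψ
      have hlip := be_lip hg hh hF (Nat.zero_le c)
      have hbe0 : be 0 = 0 := by
        rw [← hF.sum 0]
        simp
      rw [hbe0] at hlip
      simp only [Nat.cast_zero, mul_zero, zero_add, sub_zero] at hgap hlip
      have hFb : (N : ℝ) ^ 2 ≤ Fb s g h a b := by
        have h1 := (Fb_mix s g h a s b s (by omega) le_rfl (by omega)).2 (by omega) (by omega)
          (by omega)
        rw [Fb_zero s g h a s (by omega), Fb_zero s g h s b (by omega),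
          Fb_zero s g h s s (by omega)] at h1
        have h2 := Comp.low hg (show 1 ≤ a + 1 by omega) (show a + 1 ≤ s by omega)
        have h3 := Comp.low hh (show 1 ≤ b + 1 by omega) (show b + 1 ≤ s by omega)
        have h4 : (N : ℝ) * N ≤ (g (a + 1) : ℝ) * h (b + 1) :=
          mul_le_mul h2 h3 (Nat.cast_nonneg _) (Nat.cast_nonneg _)
        have h5 : (g (a + 1) : ℝ) * h (b + 1) ≤ Fb s g h a b := by
          have : g (a + 1) * h (b + 1) ≤ Fb s g h a b := by omega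
          exact_mod_cast this
        nlinarith
      have h6 : (c : ℝ) * (2 * ((s : ℝ) * R) * N) ≤ q * (ψ * N) * (2 * ((s : ℝ) * R) * N) := by
        apply mul_le_mul_of_nonneg_right hgap
        positivity
      have h7 : q * (ψ * N) * (2 * ((s : ℝ) * R) * N) ≤ q * (η / 2) * (N : ℝ) ^ 2 := by
        have h8 : (q : ℝ) * (N : ℝ) ^ 2 * (4 * ((s : ℝ) * R) * ψ) ≤ (q : ℝ) * (N : ℝ) ^ 2 * η :=
          mul_le_mul_of_nonneg_left h42 (by positivity)
        nlinarith
      have h8 : (q : ℝ) * (N : ℝ) ^ 2 ≤ q * Fb s g h a b := mul_le_mul_of_nonneg_left hFb hqR.le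
      have h9 : (q : ℝ) * η * (N : ℝ) ^ 2 ≤ (q : ℝ) * (N : ℝ) ^ 2 := by
        have : (q : ℝ) * (N : ℝ) ^ 2 * η ≤ (q : ℝ) * (N : ℝ) ^ 2 * 1 :=
          mul_le_mul_of_nonneg_left hη1 (by positivity)
        nlinarith
      have h10 : 0 ≤ (c : ℝ) * ((cs g a : ℝ) + cs h b) := by positivity
      linarith

end Pool.MP_d56194_co
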