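import Mathlib
import Pool.Agent.Lib.MP_d56194_co.L.L0c

set_option autoImplicit false

namespace Pool.MP_d56194_co

open Finset Real

namespace L17

theorem cs_mono' (h : ℕ → ℕ) {a b : ℕ} (hab : a ≤ b) : cs h a ≤ cs h b := by
  unfold cs
  exact Finset.sum_le_sum_of_subset (Finset.range_mono hab)

theorem cs_lt (s : ℕ) (h : ℕ → ℕ) (hh : ∀ i, 1 ≤ i → i ≤ s → 0 < h i) {k : ℕ} (hk : k < s) :
    cs h k < cs h (k + 1) := by
  have h1 : cs h (k + 1) = cs h k + h (k + 1) := by
    unfold cs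
    rw [Finset.sum_range_succ]
  have h2 := hh (k + 1) (by omega) (by omega)
  omega

theorem bnd (s M : ℕ) (g : ℕ → ℕ) (hg : ∀ i, 1 ≤ i → i ≤ s → 0 < g i) (hM : cs g s < M) :
    Bnd M (eb s M g) (s + 1) := by
  refine ⟨?_, ?_, ?_⟩
  · unfold eb
    rw [if_pos (Nat.zero_le s)]
    rfl
  · intro k hk
    unfold eb
    by_cases h1 : k < s
    · rw [if_pos h1.le, if_pos (by omega)]
      exact cs_lt s g hg h1
    · have h2 : k = s := by omega
      rw [h2, if_pos le_rfl, if_neg (by omega)]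
      exact hM
  · unfold eb
    rw [if_neg (by omega)]

theorem lam_mem (s : ℕ) (g h lam : ℕ → ℕ) (hS : Shp s g h lam) (i : ℕ) :
    ∃ j, j ≤ s ∧ lam i = cs h j := by
  by_cases hi : i < cs g s
  · have hex : ∃ k, k ≤ s ∧ i < cs g k := ⟨s, le_rfl, hi⟩
    classical
    have h1 := Nat.find_spec hex
    have h2 : Nat.find hex ≠ 0 := by
      intro h0
      rw [h0] at h1
      have : cs g 0 = 0 := rfl
      omega
    obtain ⟨k, hk⟩ := Nat.exists_eq_succ_of_ne_zero h2
    rw [hk] at h1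
    have h3 := Nat.find_min hex (m := k) (by omega)
    have h4 : cs g k ≤ i := by
      by_contra hcon
      exact h3 ⟨by omega, by omega⟩
    exact ⟨s - k, by omega, hS.blk k i (by omega) h4 h1.2⟩
  · exact ⟨0, Nat.zero_le _, hS.out i (by omega)⟩

theorem lt_cs_iff (s M : ℕ) (h : ℕ → ℕ) {l x j : ℕ} (hl : l < s + 1) (hx1 : eb s M h l ≤ x)
    (hx2 : x < eb s M h (l + 1)) (hj : j ≤ s) : x < cs h j ↔ l < j := by
  unfold eb at hx1 hx2
  rw [if_pos (by omega)] at hx1
  constructor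
  · intro h1
    by_contra hcon
    have := cs_mono' h (show j ≤ l by omega)
    omega
  · intro h1
    rw [if_pos (by omega)] at hx2
    have := cs_mono' h (show l + 1 ≤ j by omega)
    omega

theorem lam_blk (s M : ℕ) (g h lam : ℕ → ℕ) (hS : Shp s g h lam) {k r : ℕ} (hk : k < s + 1)
    (h1 : eb s M g k ≤ r) (h2 : r < eb s M g (k + 1)) : lam r = lam (eb s M g k) := by
  by_cases hks : k < s
  · unfold eb at h1 h2 ⊢
    rw [if_pos hks.le] at h1 ⊢
    rw [if_pos (by omega)] at h2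
    rw [hS.blk k r hks h1 h2, hS.blk k (cs g k) hks le_rfl (by omega)]
  · have h3 : k = s := by omega
    subst h3
    unfold eb at h1 ⊢
    rw [if_pos le_rfl] at h1 ⊢
    rw [hS.out r h1, hS.out _ le_rfl]

theorem interp (e E a : ℕ) (f : ℕ → ℝ) (hf : ∀ r, e ≤ r → r < E → f r = f e) (h1 : e ≤ a)
    (h2 : a ≤ E) : ((E : ℝ) - e) * ∑ r ∈ range a, f r =
      ((E : ℝ) - a) * ∑ r ∈ range e, f r + ((a : ℝ) - e) * ∑ r ∈ range E, f r := by
  have key : ∀ a, e ≤ a → a ≤ E → ∑ r ∈ range a, f r =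
      ∑ r ∈ range e, f r + ((a : ℝ) - e) * f e := by
    intro a h1 h2
    rw [range_eq_Ico, ← Finset.sum_Ico_consecutive _ (Nat.zero_le _) h1, ← range_eq_Ico]
    congr 1
    have h3 : ∀ r ∈ Ico e a, f r = f e := by
      intro r hr
      rw [mem_Ico] at hr
      exact hf r hr.1 (by omega)
    rw [sum_congr rfl h3, sum_const, Nat.card_Ico, nsmul_eq_mul, Nat.cast_sub h1]
  rw [key a h1 h2, key E (h1.trans h2) le_rfl]
  ring

end L17

/-- M17 -/
theorem aff_dd (s M P q : ℕ) (g h lam S T : ℕ → ℕ) (hS : Shp s g h lam)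
    (hg : ∀ i, 1 ≤ i → i ≤ s → 0 < g i) (hh : ∀ i, 1 ≤ i → i ≤ s → 0 < h i)
    (hM1 : cs g s < M) (hM2 : cs h s < M) (hT : Bnd M T P)
    (hTS : ∀ φ t, φ < P → T φ ≤ t → t < T (φ + 1) → S t = S (T φ)) :
    Aff M (dd q M lam S) (eb s M g) (eb s M h) T (s + 1) (s + 1) P := by
  have hind : ∀ l x i, l < s + 1 → eb s M h l ≤ x → x < eb s M h (l + 1) →
      (if x < lam i then (1 : ℝ) else 0) = (if eb s M h l < lam i then (1 : ℝ) else 0) := by
    intro l x i hl h1 h2
    obtain ⟨j, hj, hj'⟩ := L17.lam_mem s g h lam hS i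
    have e1 := L17.lt_cs_iff s M h hl h1 h2 hj
    have e2 := L17.lt_cs_iff s M h hl le_rfl (lt_of_le_of_lt h1 h2) hj
    rw [hj']
    by_cases h3 : l < j
    · rw [if_pos (e1.mpr h3), if_pos (e2.mpr h3)]
    · rw [if_neg (fun h4 => h3 (e1.mp h4)), if_neg (fun h4 => h3 (e2.mp h4))]
  refine ⟨L17.bnd s M g hg hM1, L17.bnd s M h hh hM2, hT, ?_, ?_, ?_, ?_, ?_⟩
  · intro k r hk h1 h2
    simp only [dd]
    rw [L17.lam_blk s M g h lam hS hk h1 h2]
  · intro k r hk h1 h2
    simp only [dd]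
    congr 1
    apply sum_congr rfl
    intro i _
    exact hind k r i hk h1 h2
  · intro k r hk h1 h2
    simp only [dd]
    rw [hTS k r hk h1 h2]
  · intro k a b hk h1 h2 _
    simp only [dd]
    have key := L17.interp (eb s M g k) (eb s M g (k + 1)) a
      (fun i => ∑ x ∈ range b, if x < lam i then (1 : ℝ) else 0)
      (fun r hr1 hr2 => by rw [L17.lam_blk s M g h lam hS hk hr1 hr2]) h1 h2
    linear_combination (q : ℝ) * key
  · intro k l b _ hl h1 h2
    simp only [dd]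
    have key : ∀ i, ((eb s M h (l + 1) : ℝ) - eb s M h l) *
        ∑ x ∈ range b, (if x < lam i then (1 : ℝ) else 0) =
        ((eb s M h (l + 1) : ℝ) - b) * ∑ x ∈ range (eb s M h l),
          (if x < lam i then (1 : ℝ) else 0) +
        ((b : ℝ) - eb s M h l) * ∑ x ∈ range (eb s M h (l + 1)),
          (if x < lam i then (1 : ℝ) else 0) := fun i =>
      L17.interp (eb s M h l) (eb s M h (l + 1)) b (fun x => if x < lam i then (1 : ℝ) else 0)
        (fun r hr1 hr2 => hind l r i hl hr1 hr2) h1 h2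
    have key2 : ((eb s M h (l + 1) : ℝ) - eb s M h l) * ∑ i ∈ range (eb s M g k),
        ∑ x ∈ range b, (if x < lam i then (1 : ℝ) else 0) =
        ((eb s M h (l + 1) : ℝ) - b) * ∑ i ∈ range (eb s M g k), ∑ x ∈ range (eb s M h l),
          (if x < lam i then (1 : ℝ) else 0) +
        ((b : ℝ) - eb s M h l) * ∑ i ∈ range (eb s M g k), ∑ x ∈ range (eb s M h (l + 1)),
          (if x < lam i then (1 : ℝ) else 0) := by
      rw [mul_sum, mul_sum, mul_sum, ← sum_add_distrib]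
      exact sum_congr rfl (fun i _ => key i)
    linear_combination (q : ℝ) * key2

end Pool.MP_d56194_co
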