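import Mathlib
import Pool.Agent.Lib.MP_d56194_co.L.L0c
import Pool.Agent.Lib.MP_d56194_co.L.L5

set_option autoImplicit false

namespace Pool.MP_d56194_co

open Finset Real

namespace L18

lemma sum_Icc_shift (F : ℕ → ℝ) (s : ℕ) : ∑ i ∈ Icc 1 s, F i = ∑ k ∈ range s, F (k + 1) := by
  induction s with
  | zero => simp
  | succ s ih => rw [Finset.sum_Icc_succ_top (by omega), ih, Finset.sum_range_succ]

lemma sum_range_head (F : ℕ → ℝ) (s : ℕ) :
    ∑ x ∈ range (s + 1), F x = F 0 + ∑ x ∈ Icc 1 s, F x := by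
  rw [sum_Icc_shift, Finset.sum_range_succ', add_comm]

lemma sum_blocks (g : ℕ → ℕ) (s : ℕ) (f : ℕ → ℝ) :
    ∑ i ∈ Icc 1 s, ∑ r ∈ Ico (cs g (i - 1)) (cs g i), f r = ∑ r ∈ range (cs g s), f r := by
  rw [sum_Icc_shift]
  induction s with
  | zero => simp [cs]
  | succ s ih =>
    rw [Finset.sum_range_succ, ih, Nat.add_sub_cancel]
    exact Finset.sum_range_add_sum_Ico _ (L5.cs_mono g (Nat.le_succ s))

lemma card_block (g : ℕ → ℕ) {i : ℕ} (hi : 1 ≤ i) :
    ((Ico (cs g (i - 1)) (cs g i)).card : ℝ) = g i := by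
  obtain ⟨k, rfl⟩ : ∃ k, i = k + 1 := ⟨i - 1, by omega⟩
  rw [Nat.add_sub_cancel, Nat.card_Ico, L5.cs_succ]
  congr 1
  omega

variable {s q M : ℕ} {g h lam S : ℕ → ℕ} {L : ℕ → ℕ → ℕ → ℝ}

lemma L_zero (hL : Sol (cs g s) (cs h s) M q (fun i x => x < lam i) S L) {r c t : ℕ}
    (hr : lam r ≤ c) : L r c t = 0 := by
  by_contra hne
  have h1 := (hL.supp r c t (lt_of_le_of_ne (hL.nonneg _ _ _) (Ne.symm hne))).1
  omega

lemma block_lam (hS : Shp s g h lam) {i r : ℕ} (hi : 1 ≤ i) (his : i ≤ s)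
    (hr : r ∈ Ico (cs g (i - 1)) (cs g i)) : lam r = cs h (s + 1 - i) := by
  rw [Finset.mem_Ico] at hr
  obtain ⟨k, rfl⟩ : ∃ k, i = k + 1 := ⟨i - 1, by omega⟩
  rw [Nat.add_sub_cancel] at hr
  rw [hS.blk k r (by omega) hr.1 hr.2]
  congr 1
  omega

lemma fsum_out (hS : Shp s g h lam)
    (hL : Sol (cs g s) (cs h s) M q (fun i x => x < lam i) S L) (I : Finset ℕ) {i x : ℕ}
    (hi : 1 ≤ i) (his : i ≤ s) (hx : s + 1 < i + x) : fsum L g h I i x = 0 := by
  unfold fsum
  apply Finset.sum_eq_zero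
  intro t _
  apply Finset.sum_eq_zero
  intro r hr
  apply Finset.sum_eq_zero
  intro c hc
  apply L_zero hL
  rw [block_lam hS hi his hr]
  rw [Finset.mem_Ico] at hc
  exact (L5.cs_mono h (by omega)).trans hc.1

lemma fsum_nonneg (hL : Sol (cs g s) (cs h s) M q (fun i x => x < lam i) S L)
    (I : Finset ℕ) (i x : ℕ) : 0 ≤ fsum L g h I i x :=
  Finset.sum_nonneg fun _ _ => Finset.sum_nonneg fun _ _ => Finset.sum_nonneg fun _ _ =>
    hL.nonneg _ _ _

lemma fsum_row (I : Finset ℕ) (i : ℕ) : ∑ x ∈ Icc 1 s, fsum L g h I i x =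
    ∑ t ∈ I, ∑ r ∈ Ico (cs g (i - 1)) (cs g i), ∑ c ∈ range (cs h s), L r c t := by
  unfold fsum
  rw [Finset.sum_comm]
  apply Finset.sum_congr rfl
  intro t _
  rw [Finset.sum_comm]
  apply Finset.sum_congr rfl
  intro r _
  exact sum_blocks h s (fun c => L r c t)

lemma fsum_col (I : Finset ℕ) (x : ℕ) : ∑ i ∈ Icc 1 s, fsum L g h I i x =
    ∑ t ∈ I, ∑ c ∈ Ico (cs h (x - 1)) (cs h x), ∑ r ∈ range (cs g s), L r c t := by
  unfold fsum
  rw [Finset.sum_comm]
  apply Finset.sum_congr rfl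
  intro t _
  rw [sum_blocks g s (fun r => ∑ c ∈ Ico (cs h (x - 1)) (cs h x), L r c t), Finset.sum_comm]

lemma row_slack (hL : Sol (cs g s) (cs h s) M q (fun i x => x < lam i) S L) (I : Finset ℕ)
    {i : ℕ} (hi : 1 ≤ i) : ∑ x ∈ Icc 1 s, fsum L g h I i x ≤ (g i : ℝ) * I.card := by
  rw [fsum_row]
  calc ∑ t ∈ I, ∑ r ∈ Ico (cs g (i - 1)) (cs g i), ∑ c ∈ range (cs h s), L r c t
      ≤ ∑ t ∈ I, ∑ r ∈ Ico (cs g (i - 1)) (cs g i), (1 : ℝ) :=
        Finset.sum_le_sum fun t _ => Finset.sum_le_sum fun r _ => hL.row_le r t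
    _ = (g i : ℝ) * I.card := by
        rw [Finset.sum_const, Finset.sum_const, nsmul_eq_mul, nsmul_eq_mul, mul_one,
          card_block g hi, mul_comm]

lemma col_slack (hL : Sol (cs g s) (cs h s) M q (fun i x => x < lam i) S L) (I : Finset ℕ)
    {x : ℕ} (hx : 1 ≤ x) : ∑ i ∈ Icc 1 s, fsum L g h I i x ≤ (h x : ℝ) * I.card := by
  rw [fsum_col]
  calc ∑ t ∈ I, ∑ c ∈ Ico (cs h (x - 1)) (cs h x), ∑ r ∈ range (cs g s), L r c t
      ≤ ∑ t ∈ I, ∑ c ∈ Ico (cs h (x - 1)) (cs h x), (1 : ℝ) :=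
        Finset.sum_le_sum fun t _ => Finset.sum_le_sum fun r _ => hL.col_le r t
    _ = (h x : ℝ) * I.card := by
        rw [Finset.sum_const, Finset.sum_const, nsmul_eq_mul, nsmul_eq_mul, mul_one,
          card_block h hx, mul_comm]

lemma ftab_nonneg (hL : Sol (cs g s) (cs h s) M q (fun i x => x < lam i) S L) (I : Finset ℕ)
    (i x : ℕ) : 0 ≤ ftab s q g h L I i x := by
  unfold ftab
  split_ifs with h1 h2 h3
  · apply div_nonneg _ (Nat.cast_nonneg q)
    have hi : 1 ≤ i := by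
      unfold LE at h1
      simp only at h1
      omega
    linarith [row_slack hL I hi]
  · apply div_nonneg _ (Nat.cast_nonneg q)
    have hx : 1 ≤ x := by omega
    linarith [col_slack hL I hx]
  · exact div_nonneg (fsum_nonneg hL I i x) (Nat.cast_nonneg q)
  · exact le_rfl

lemma ftab_cell (hS : Shp s g h lam)
    (hL : Sol (cs g s) (cs h s) M q (fun i x => x < lam i) S L) (I : Finset ℕ) {i x : ℕ}
    (hi : 1 ≤ i) (his : i ≤ s) (hx : 1 ≤ x) (hxs : x ≤ s) :
    ftab s q g h L I i x = fsum L g h I i x / q := by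
  unfold ftab
  by_cases h1 : LE s 1 (i, x, 0)
  · rw [if_pos h1, if_neg (by omega), if_neg (by omega)]
  · rw [if_neg h1]
    have h2 : s + 1 < i + x := by
      unfold LE at h1
      simp only at h1
      omega
    rw [fsum_out hS hL I hi his h2, zero_div]

lemma ftab_row (hS : Shp s g h lam)
    (hL : Sol (cs g s) (cs h s) M q (fun i x => x < lam i) S L) (I : Finset ℕ) {i : ℕ}
    (hi : 1 ≤ i) (his : i ≤ s) :
    ∑ x ∈ range (s + 1), ftab s q g h L I i x = (g i : ℝ) * I.card / q := by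
  rw [sum_range_head]
  have h0 : ftab s q g h L I i 0 =
      ((g i : ℝ) * I.card - ∑ x' ∈ Icc 1 s, fsum L g h I i x') / q := by
    unfold ftab
    rw [if_pos (by unfold LE; simp only; omega), if_pos rfl]
  have h1 : ∑ x ∈ Icc 1 s, ftab s q g h L I i x = (∑ x ∈ Icc 1 s, fsum L g h I i x) / q := by
    rw [Finset.sum_div]
    apply Finset.sum_congr rfl
    intro x hx
    rw [Finset.mem_Icc] at hx
    exact ftab_cell hS hL I hi his hx.1 hx.2
  rw [h0, h1, ← add_div]
  congr 1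
  ring

lemma ftab_col (hS : Shp s g h lam)
    (hL : Sol (cs g s) (cs h s) M q (fun i x => x < lam i) S L) (I : Finset ℕ) {x : ℕ}
    (hx : 1 ≤ x) (hxs : x ≤ s) :
    ∑ i ∈ range (s + 1), ftab s q g h L I i x = (h x : ℝ) * I.card / q := by
  rw [sum_range_head]
  have h0 : ftab s q g h L I 0 x =
      ((h x : ℝ) * I.card - ∑ i' ∈ Icc 1 s, fsum L g h I i' x) / q := by
    unfold ftab
    rw [if_pos (by unfold LE; simp only; omega), if_neg (by omega), if_pos rfl]
  have h1 : ∑ i ∈ Icc 1 s, ftab s q g h L I i x = (∑ i ∈ Icc 1 s, fsum L g h I i x) / q := by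
    rw [Finset.sum_div]
    apply Finset.sum_congr rfl
    intro i hi
    rw [Finset.mem_Icc] at hi
    exact ftab_cell hS hL I hi.1 hi.2 hx hxs
  rw [h0, h1, ← add_div]
  congr 1
  ring

lemma ftab_tot (hS : Shp s g h lam)
    (hL : Sol (cs g s) (cs h s) M q (fun i x => x < lam i) S L) (I : Finset ℕ)
    (hI : ∀ t ∈ I, t < M) :
    ∑ i ∈ Icc 1 s, ∑ x ∈ Icc 1 s, ftab s q g h L I i x = (∑ t ∈ I, (S t : ℝ)) / q := by
  have h1 : ∀ i ∈ Icc 1 s, ∑ x ∈ Icc 1 s, ftab s q g h L I i x =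
      (∑ x ∈ Icc 1 s, fsum L g h I i x) / q := by
    intro i hi
    rw [Finset.mem_Icc] at hi
    rw [Finset.sum_div]
    apply Finset.sum_congr rfl
    intro x hx
    rw [Finset.mem_Icc] at hx
    exact ftab_cell hS hL I hi.1 hi.2 hx.1 hx.2
  rw [Finset.sum_congr rfl h1, ← Finset.sum_div]
  congr 1
  rw [Finset.sum_congr rfl (fun i _ => fsum_row (s := s) (L := L) (g := g) (h := h) I i),
    Finset.sum_comm]
  apply Finset.sum_congr rfl
  intro t ht
  rw [sum_blocks g s (fun r => ∑ c ∈ range (cs h s), L r c t)]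
  exact hL.tot t (hI t ht)

/-- fine times and coarse times -/
lemma sum_fine (f : ℕ → ℝ) (q K : ℕ) :
    ∑ t ∈ range (q * K), f t = ∑ k ∈ range K, ∑ i ∈ range q, f (q * k + i) := by
  induction K with
  | zero => simp
  | succ K ih => rw [Nat.mul_succ, Finset.sum_range_add, ih, Finset.sum_range_succ]

lemma sum_thin (f : ℕ → ℝ) (hq : 0 < q) (K : ℕ) (T : Finset ℕ) (hT : T ⊆ Icc 1 K) :
    ∑ t ∈ (range (q * K)).filter (fun t => t / q + 1 ∈ T), f t =
      ∑ k ∈ T, ∑ i ∈ range q, f (q * (k - 1) + i) := by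
  rw [Finset.sum_filter, sum_fine]
  have h1 : ∀ k ∈ range K, ∑ i ∈ range q,
      (if (q * k + i) / q + 1 ∈ T then f (q * k + i) else 0) =
      if k + 1 ∈ T then ∑ i ∈ range q, f (q * (k + 1 - 1) + i) else 0 := by
    intro k _
    have h2 : ∀ i ∈ range q, (q * k + i) / q = k := by
      intro i hi
      rw [Finset.mem_range] at hi
      rw [Nat.mul_add_div hq, Nat.div_eq_of_lt hi, add_zero]
    split_ifs with h3
    · apply Finset.sum_congr rfl
      intro i hi
      rw [h2 i hi, if_pos h3, Nat.add_sub_cancel]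
    · apply Finset.sum_eq_zero
      intro i hi
      rw [h2 i hi, if_neg h3]
  rw [Finset.sum_congr rfl h1,
    ← sum_Icc_shift (fun k => if k ∈ T then ∑ i ∈ range q, f (q * (k - 1) + i) else 0) K,
    ← Finset.sum_filter]
  congr 1
  ext k
  rw [Finset.mem_filter]
  exact ⟨fun h => h.2, fun h => ⟨hT h, h⟩⟩

lemma Thin_sub (K0 p : ℕ) (lo hi : ℕ → ℕ) : Thin K0 p lo hi ⊆ Icc 1 K0 :=
  Finset.filter_subset _ _

lemma split_times {al : ℕ → ℕ} {N : ℕ} {η ψ : ℝ} {K0 p : ℕ} {lo hi sig : ℕ → ℕ}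
    (hTD : TD s g h al N η ψ K0 p lo hi sig) (hq : 0 < q) (f : ℕ → ℝ) :
    ∑ j ∈ range p, ∑ t ∈ Ico (q * lo j) (q * hi j), f t +
      ∑ t ∈ (range (q * K0)).filter (fun t => t / q + 1 ∈ Thin K0 p lo hi), f t =
      ∑ t ∈ range (q * K0), f t := by
  have hK : ∀ j, j < p → hi j ≤ K0 := by
    intro j hj
    exact (L5.hi_mono hTD (show j ≤ p - 1 by omega) (by omega)).trans hTD.last
  have h1 : ∀ j ∈ range p, ∑ t ∈ Ico (q * lo j) (q * hi j), f t =
      ∑ t ∈ range (q * K0), if lo j < t / q + 1 ∧ t / q + 1 ≤ hi j then f t else 0 := by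
    intro j hj
    rw [Finset.mem_range] at hj
    rw [← Finset.sum_filter]
    congr 1
    ext t
    rw [Finset.mem_Ico, Finset.mem_filter, Finset.mem_range]
    have e1 : q * lo j ≤ t ↔ lo j < t / q + 1 := by
      rw [Nat.lt_succ_iff, Nat.le_div_iff_mul_le hq, mul_comm]
    have e2 : t < q * hi j ↔ t / q + 1 ≤ hi j := by
      rw [Nat.succ_le_iff, Nat.div_lt_iff_lt_mul hq, mul_comm]
    rw [e1, e2]
    constructor
    · rintro ⟨h3, h4⟩
      refine ⟨?_, h3, h4⟩
      exact lt_of_lt_of_le (e2.2 h4) (Nat.mul_le_mul_left q (hK j hj))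
    · rintro ⟨_, h3, h4⟩
      exact ⟨h3, h4⟩
  rw [Finset.sum_congr rfl h1, Finset.sum_comm, Finset.sum_filter, ← Finset.sum_add_distrib]
  apply Finset.sum_congr rfl
  intro t ht
  rw [Finset.mem_range] at ht
  set k := t / q + 1 with hk
  have hkK : k ≤ K0 := by
    rw [hk, Nat.succ_le_iff, Nat.div_lt_iff_lt_mul hq, mul_comm]
    exact ht
  have hk1 : 1 ≤ k := Nat.succ_le_succ (Nat.zero_le _)
  by_cases hex : ∃ j, j < p ∧ lo j < k ∧ k ≤ hi j
  · obtain ⟨j, hj, hj1, hj2⟩ := hex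
    have h2 : k ∉ Thin K0 p lo hi := by
      unfold Thin
      rw [Finset.mem_filter]
      rintro ⟨_, h3⟩
      exact h3 j hj ⟨hj1, hj2⟩
    rw [if_neg h2, add_zero, Finset.sum_eq_single j, if_pos ⟨hj1, hj2⟩]
    · intro l hl hlj
      rw [Finset.mem_range] at hl
      rw [if_neg]
      rintro ⟨h3, h4⟩
      rcases lt_or_gt_of_ne hlj with h5 | h5
      · obtain ⟨j', rfl⟩ : ∃ j', j = j' + 1 := ⟨j - 1, by omega⟩
        have h6 := L5.hi_mono hTD (show l ≤ j' by omega) (by omega)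
        have h7 := hTD.ord j' hj
        omega
      · obtain ⟨l', rfl⟩ : ∃ l', l = l' + 1 := ⟨l - 1, by omega⟩
        have h6 := L5.hi_mono hTD (show j ≤ l' by omega) (by omega)
        have h7 := hTD.ord l' hl
        omega
    · intro h3
      exact absurd (Finset.mem_range.2 hj) h3
  · have h2 : k ∈ Thin K0 p lo hi := by
      unfold Thin
      rw [Finset.mem_filter, Finset.mem_Icc]
      exact ⟨⟨hk1, hkK⟩, fun j hj hh => hex ⟨j, hj, hh⟩⟩
    rw [if_pos h2, Finset.sum_eq_zero, zero_add]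
    intro j hj
    rw [if_neg]
    intro hh
    exact hex ⟨j, Finset.mem_range.1 hj, hh⟩

lemma al_const {K0 : ℕ} {al : ℕ → ℕ} (hal : IsAl s g h al) (hK0 : K0 = max (cs g s) (cs h s))
    {k : ℕ} (hk : K0 ≤ k) : al k = Fb s g h 0 0 := by
  apply le_antisymm
  · have h1 := hal.1 k 0 0 (Nat.zero_le _) (Nat.zero_le _)
    unfold cutb at h1
    rw [L5.cs_zero, L5.cs_zero, add_zero, mul_zero, zero_add] at h1
    exact h1
  · exact (L5.al_top hal hK0).trans (L5.al_mono hal hk)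

lemma S_zero {K0 : ℕ} {al be : ℕ → ℕ} (hal : IsAl s g h al)
    (hK0 : K0 = max (cs g s) (cs h s)) (hq : 0 < q) (hF : FL s g h al q S be) {t : ℕ}
    (ht : q * K0 ≤ t) : S t = 0 := by
  have h1 : S (q * K0) = 0 := by
    have h2 := hF.sum (q * K0)
    have h3 := hF.sum (q * (K0 + 1))
    rw [hF.lev] at h2 h3
    rw [al_const hal hK0 le_rfl] at h2
    rw [al_const hal hK0 (Nat.le_succ _)] at h3
    have h4 : ∑ t ∈ range (q * K0 + 1), S t ≤ ∑ t ∈ range (q * (K0 + 1)), S t := by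
      apply Finset.sum_le_sum_of_subset
      apply Finset.range_subset_range.2
      rw [Nat.mul_succ]
      omega
    rw [Finset.sum_range_succ] at h4
    omega
  have h2 := hF.anti ht
  omega

lemma L_late {K0 : ℕ} {al be : ℕ → ℕ} (hal : IsAl s g h al)
    (hK0 : K0 = max (cs g s) (cs h s)) (hq : 0 < q) (hF : FL s g h al q S be)
    (hL : Sol (cs g s) (cs h s) M q (fun i x => x < lam i) S L) {r c t : ℕ}
    (ht : q * K0 ≤ t) : L r c t = 0 := by
  by_contra hne
  have h1 := hL.supp r c t (lt_of_le_of_ne (hL.nonneg _ _ _) (Ne.symm hne))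
  have h2 := hL.inside r c h1.1
  have h3 := hL.tot t h1.2
  rw [S_zero hal hK0 hq hF ht, Nat.cast_zero] at h3
  have h4 := (Finset.sum_eq_zero_iff_of_nonneg
    (fun i _ => Finset.sum_nonneg fun x _ => hL.nonneg i x t)).1 h3 r (Finset.mem_range.2 h2.1)
  have h5 := (Finset.sum_eq_zero_iff_of_nonneg
    (fun x _ => hL.nonneg r x t)).1 h4 c (Finset.mem_range.2 h2.2)
  exact hne h5

lemma cell_all {K0 : ℕ} {al be : ℕ → ℕ} (hal : IsAl s g h al)
    (hK0 : K0 = max (cs g s) (cs h s)) (hq : 0 < q) (hM : q * K0 ≤ M)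
    (hF : FL s g h al q S be)
    (hL : Sol (cs g s) (cs h s) M q (fun i x => x < lam i) S L) {r c : ℕ} (hc : c < lam r) :
    ∑ t ∈ range (q * K0), L r c t = q := by
  rw [← hL.cell r c hc]
  apply Finset.sum_subset (Finset.range_subset_range.2 hM)
  intro t _ ht
  rw [Finset.mem_range, not_lt] at ht
  exact L_late hal hK0 hq hF hL ht

lemma sum_S {al be : ℕ → ℕ} (hF : FL s g h al q S be) {a b : ℕ} (hab : a ≤ b) :
    ∑ t ∈ Ico (q * a) (q * b), (S t : ℝ) = (q : ℝ) * ((al b : ℝ) - al a) := by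
  have h1 := Finset.sum_range_add_sum_Ico S (Nat.mul_le_mul_left q hab)
  rw [hF.sum, hF.sum, hF.lev, hF.lev] at h1
  have h2 : ((q * al a + ∑ t ∈ Ico (q * a) (q * b), S t : ℕ) : ℝ) = ((q * al b : ℕ) : ℝ) := by
    rw [h1]
  push_cast at h2
  linarith

end L18

open L18 in
/-- M18 (file L18): from a real solution to the thick and thin tables -/
theorem ts_of_sol (s R : ℕ) (hs : 0 < s) (g h al lam : ℕ → ℕ) (N : ℕ) (η ψ : ℝ) (K0 p : ℕ)
    (lo hi sig : ℕ → ℕ) (hN : 0 < N) (hg : Comp s R N g) (hh : Comp s R N h)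
    (hal : IsAl s g h al) (hK0 : K0 = max (cs g s) (cs h s)) (hS : Shp s g h lam)
    (hTD : TD s g h al N η ψ K0 p lo hi sig) (q M : ℕ) (hq : 0 < q) (hM : q * K0 ≤ M)
    (S be : ℕ → ℕ) (hF : FL s g h al q S be) (L : ℕ → ℕ → ℕ → ℝ)
    (hL : Sol (cs g s) (cs h s) M q (fun i x => x < lam i) S L) :
    TS s g h al K0 p lo hi sig (XS s q p g h lo hi L) (YS s q K0 p g h lo hi L) := by
  have hqr : (q : ℝ) ≠ 0 := by
    have : (0 : ℝ) < q := by exact_mod_cast hq
    exact this.ne'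
  have hlohi : ∀ j, j < p → lo j ≤ hi j := fun j hj => (hTD.lohi j hj).le
  have hK : ∀ j, j < p → hi j ≤ K0 := by
    intro j hj
    exact (L5.hi_mono hTD (show j ≤ p - 1 by omega) (by omega)).trans hTD.last
  have hcard : ∀ j, j < p → ((Ico (q * lo j) (q * hi j)).card : ℝ) =
      (q : ℝ) * ((hi j : ℝ) - lo j) := by
    intro j hj
    rw [Nat.card_Ico, Nat.cast_sub (Nat.mul_le_mul_left q (hlohi j hj))]
    push_cast
    ring
  have hcardT : (((range (q * K0)).filter (fun t => t / q + 1 ∈ Thin K0 p lo hi)).card : ℝ) =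
      (q : ℝ) * (Thin K0 p lo hi).card := by
    have h1 := sum_thin (fun _ => (1 : ℝ)) hq K0 (Thin K0 p lo hi) (Thin_sub K0 p lo hi)
    rw [Finset.sum_const, nsmul_eq_mul, mul_one] at h1
    rw [h1, Finset.sum_const, Finset.sum_const, Finset.card_range, nsmul_eq_mul, nsmul_eq_mul,
      mul_one, mul_comm]
  have hX : ∀ i x j, j < p → XS s q p g h lo hi L (i, x, j) =
      ftab s q g h L (Ico (q * lo j) (q * hi j)) i x := by
    intro i x j hj
    unfold XS
    rw [if_pos (show (i, x, j).2.2 < p from hj)]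
  refine ⟨?_, ?_, ?_, ?_, ?_, ?_, ?_, ?_, ?_, ?_, ?_⟩
  · rintro ⟨i, x, j⟩
    unfold XS
    split_ifs with h1
    · exact ftab_nonneg hL _ _ _
    · exact le_rfl
  · rintro ⟨i, x, j⟩ hv
    unfold XS
    split_ifs with h1
    · unfold ftab
      rw [if_neg]
      intro h2
      apply hv
      unfold LE at h2 ⊢
      simp only at h1 h2 ⊢
      omega
    · rfl
  · intro i x
    exact ftab_nonneg hL _ _ _
  · intro i x hv
    unfold YS ftab
    rw [if_neg hv]
  · intro i x hi1 hx1 hix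
    have his : i ≤ s := by omega
    have hxs : x ≤ s := by omega
    have h1 : ∑ j ∈ range p, XS s q p g h lo hi L (i, x, j) =
        ∑ j ∈ range p, fsum L g h (Ico (q * lo j) (q * hi j)) i x / q := by
      apply Finset.sum_congr rfl
      intro j hj
      rw [hX i x j (Finset.mem_range.1 hj), ftab_cell hS hL _ hi1 his hx1 hxs]
    rw [h1]
    unfold YS
    rw [ftab_cell hS hL _ hi1 his hx1 hxs, ← Finset.sum_div, ← add_div]
    have h2 := split_times hTD hq (fun t => ∑ r ∈ Ico (cs g (i - 1)) (cs g i),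
      ∑ c ∈ Ico (cs h (x - 1)) (cs h x), L r c t)
    unfold fsum
    rw [h2, Finset.sum_comm]
    have h3 : ∀ r ∈ Ico (cs g (i - 1)) (cs g i), ∑ t ∈ range (q * K0),
        ∑ c ∈ Ico (cs h (x - 1)) (cs h x), L r c t = (q : ℝ) * h x := by
      intro r hr
      rw [Finset.sum_comm]
      have h4 : ∀ c ∈ Ico (cs h (x - 1)) (cs h x), ∑ t ∈ range (q * K0), L r c t = (q : ℝ) := by
        intro c hc
        apply cell_all hal hK0 hq hM hF hL
        rw [block_lam hS hi1 his hr]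
        rw [Finset.mem_Ico] at hc
        exact lt_of_lt_of_le hc.2 (L5.cs_mono h (by omega))
      rw [Finset.sum_congr rfl h4, Finset.sum_const, nsmul_eq_mul, card_block h hx1, mul_comm]
    rw [Finset.sum_congr rfl h3, Finset.sum_const, nsmul_eq_mul, card_block g hi1]
    field_simp
  · intro i j hi1 his hj
    rw [Finset.sum_congr rfl (fun x _ => hX i x j hj), ftab_row hS hL _ hi1 his, hcard j hj]
    field_simp
  · intro x j hx1 hxs hj
    rw [Finset.sum_congr rfl (fun i _ => hX i x j hj), ftab_col hS hL _ hx1 hxs, hcard j hj]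
    field_simp
  · intro j hj
    rw [Finset.sum_congr rfl (fun i _ => Finset.sum_congr rfl (fun x _ => hX i x j hj)),
      ftab_tot hS hL, sum_S hF (hlohi j hj), hTD.lin j hj (hi j) (hlohi j hj) le_rfl]
    · rw [Nat.cast_add, Nat.cast_mul, Nat.cast_sub (hlohi j hj)]
      field_simp
      ring
    · intro t ht
      rw [Finset.mem_Ico] at ht
      exact lt_of_lt_of_le ht.2 ((Nat.mul_le_mul_left q (hK j hj)).trans hM)
  · intro i hi1 his
    unfold YS
    rw [ftab_row hS hL _ hi1 his, hcardT]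
    field_simp
  · intro x hx1 hxs
    unfold YS
    rw [ftab_col hS hL _ hx1 hxs, hcardT]
    field_simp
  · unfold YS
    rw [ftab_tot hS hL]
    · rw [sum_thin (fun t => (S t : ℝ)) hq K0 (Thin K0 p lo hi) (Thin_sub K0 p lo hi),
        Finset.sum_div]
      apply Finset.sum_congr rfl
      intro k hk
      have hk1 := (Finset.mem_Icc.1 (Thin_sub K0 p lo hi hk)).1
      obtain ⟨l, rfl⟩ : ∃ l, k = l + 1 := ⟨k - 1, by omega⟩
      rw [Nat.add_sub_cancel]
      have h1 := sum_S hF (Nat.le_succ l)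
      rw [Finset.sum_Ico_eq_sum_range, ← Nat.mul_sub,
        show l.succ - l = 1 by omega, mul_one] at h1
      rw [h1, mul_div_cancel_left₀ _ hqr]
    · intro t ht
      rw [Finset.mem_filter, Finset.mem_range] at ht
      exact lt_of_lt_of_le ht.1 hM

end Pool.MP_d56194_co
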