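import Mathlib
import Pool.Agent.Lib.MP_d56194_co.L.L0c
import Pool.Agent.Lib.MP_d56194_co.L.L5
import Pool.Agent.Lib.MP_d56194_co.I.I3

set_option autoImplicit false

namespace Pool.MP_d56194_co

open Finset Real

namespace L19

open L5

/-- for a monotone function the average over the last part is at least the average -/
lemma avg_late (f : ℕ → ℝ) (hf : Monotone f) (a b : ℕ) (hab : a ≤ b) :
    ((b : ℝ) - a) * ∑ t ∈ range b, f t ≤ b * ∑ t ∈ Ico a b, f t := by
  have hsp : ∑ t ∈ range b, f t = ∑ t ∈ range a, f t + ∑ t ∈ Ico a b, f t := by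
    rw [Finset.range_eq_Ico, Finset.range_eq_Ico, Finset.sum_Ico_consecutive f (Nat.zero_le _) hab]
  have h1 : ∑ t ∈ range a, f t ≤ a * f a := by
    have : ∑ t ∈ range a, f t ≤ ∑ _t ∈ range a, f a := by
      apply Finset.sum_le_sum
      intro t ht
      rw [Finset.mem_range] at ht
      exact hf ht.le
    rwa [Finset.sum_const, Finset.card_range, nsmul_eq_mul] at this
  have h2 : ((b : ℝ) - a) * f a ≤ ∑ t ∈ Ico a b, f t := by
    have : ∑ _t ∈ Ico a b, f a ≤ ∑ t ∈ Ico a b, f t := by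
      apply Finset.sum_le_sum
      intro t ht
      rw [Finset.mem_Ico] at ht
      exact hf ht.1
    rwa [Finset.sum_const, Nat.card_Ico, nsmul_eq_mul, Nat.cast_sub hab] at this
  have h3 : (0 : ℝ) ≤ (b : ℝ) - a := by
    have : (a : ℝ) ≤ b := by exact_mod_cast hab
    linarith
  have h4 : (0 : ℝ) ≤ a := Nat.cast_nonneg _
  rw [hsp]
  have h5 : ((b : ℝ) - a) * ∑ t ∈ range a, f t ≤ ((b : ℝ) - a) * (a * f a) :=
    mul_le_mul_of_nonneg_left h1 h3
  have h6 : (a : ℝ) * (((b : ℝ) - a) * f a) ≤ a * ∑ t ∈ Ico a b, f t :=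
    mul_le_mul_of_nonneg_left h2 h4
  nlinarith

/-- the blocks fill the interval -/
lemma blk_sum (g : ℕ → ℕ) (f : ℕ → ℝ) (s a : ℕ) (ha : a ≤ s) :
    ∑ i ∈ Ioc a s, ∑ r ∈ Ico (cs g (i - 1)) (cs g i), f r =
      ∑ r ∈ Ico (cs g a) (cs g s), f r := by
  induction s, ha using Nat.le_induction with
  | base => simp
  | succ s hs ih =>
    rw [← Finset.insert_Ioc_right_eq_Ioc_add_one (by omega), Finset.sum_insert (by simp), ih,
      Nat.add_sub_cancel, add_comm]
    exact Finset.sum_Ico_consecutive f (cs_mono g hs) (cs_mono g (Nat.le_succ s))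

variable {s R N : ℕ} {g h al : ℕ → ℕ} {η ψ : ℝ} {K0 p : ℕ} {lo hi sig : ℕ → ℕ}
  {q M : ℕ} {D : ℕ → ℕ → Prop} {S : ℕ → ℕ} {L : ℕ → ℕ → ℕ → ℝ}

lemma mem_zd (a b j : ℕ) : (a, b, j) ∈ ZD s g h al N ψ p hi ↔
    (a ≤ s ∧ b ≤ s ∧ j < p) ∧ Db s g h al (hi j) a b ≤ ψ * (N : ℝ) ^ 2 := by
  unfold ZD LBox
  simp only [mem_filter, mem_product, mem_range]
  constructor
  · rintro ⟨⟨h1, h2, h3⟩, h5⟩
    exact ⟨⟨by omega, by omega, h3⟩, h5⟩
  · rintro ⟨⟨h1, h2, h3⟩, h5⟩
    exact ⟨⟨by omega, by omega, h3⟩, h5⟩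

/-- the row slack entry of the table -/
lemma ftab_row (I : Finset ℕ) (i : ℕ) (h1 : 1 ≤ i) (h2 : i ≤ s) :
    ftab s q g h L I i 0 = (∑ t ∈ I, ∑ r ∈ Ico (cs g (i - 1)) (cs g i),
      (1 - ∑ c ∈ range (cs h s), L r c t)) / q := by
  unfold ftab
  rw [if_pos (by unfold LE; simp only; omega), if_pos rfl]
  congr 1
  have e1 : ∑ x' ∈ Icc 1 s, fsum L g h I i x' =
      ∑ t ∈ I, ∑ r ∈ Ico (cs g (i - 1)) (cs g i), ∑ c ∈ range (cs h s), L r c t := by
    unfold fsum
    rw [Finset.sum_comm]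
    apply Finset.sum_congr rfl
    intro t _
    rw [Finset.sum_comm]
    apply Finset.sum_congr rfl
    intro r _
    have h3 := blk_sum h (fun c => L r c t) s 0 (Nat.zero_le _)
    rw [cs_zero] at h3
    rw [Finset.range_eq_Ico]
    exact h3
  rw [e1]
  simp only [Finset.sum_sub_distrib, Finset.sum_const, Nat.card_Ico, nsmul_eq_mul, mul_one]
  obtain ⟨k, rfl⟩ : ∃ k, i = k + 1 := ⟨i - 1, by omega⟩
  rw [Nat.add_sub_cancel, cs_succ, Nat.add_sub_cancel_left]
  ring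

/-- the defect of the cut `(i, 0)` -/
lemma defect (hD : ∀ k r c, k < s → cs g k ≤ r → r < cs g (k + 1) → (D r c ↔ c < cs h (s - k)))
    (hL : Sol (cs g s) (cs h s) M q D S L) (hS : ∀ k, (∑ t ∈ range (q * k), S t) = q * al k)
    (k i : ℕ) (hk : q * k ≤ M) (hi : i ≤ s) :
    (q : ℝ) * Db s g h al k i 0 =
      ∑ r ∈ range (cs g i), ∑ t ∈ range (q * k), (1 - ∑ c ∈ range (cs h s), L r c t) +
      ∑ r ∈ Ico (cs g i) (cs g s), ∑ t ∈ Ico (q * k) M, ∑ c ∈ range (cs h s), L r c t := by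
  have hLz : ∀ r c t, ¬ D r c → L r c t = 0 := by
    intro r c t hd
    by_contra hne
    have := lt_of_le_of_ne (hL.nonneg r c t) (Ne.symm hne)
    exact hd (hL.supp r c t this).1
  -- the mass of the rows behind
  have e1 : (q : ℝ) * (Fb s g h i 0 : ℝ) =
      ∑ r ∈ Ico (cs g i) (cs g s), ∑ t ∈ range M, ∑ c ∈ range (cs h s), L r c t := by
    rw [← blk_sum g _ s i hi]
    unfold Fb
    rw [Nat.cast_sum, Finset.mul_sum]
    apply Finset.sum_congr rfl
    intro k' hk'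
    rw [Finset.mem_Ioc] at hk'
    obtain ⟨l, rfl⟩ : ∃ l, k' = l + 1 := ⟨k' - 1, by omega⟩
    have e2 : ∀ r ∈ Ico (cs g (l + 1 - 1)) (cs g (l + 1)),
        ∑ t ∈ range M, ∑ c ∈ range (cs h s), L r c t = (q : ℝ) * cs h (s - l) := by
      intro r hr
      rw [Nat.add_sub_cancel, Finset.mem_Ico] at hr
      rw [Finset.sum_comm]
      have e3 : ∀ c ∈ range (cs h s), ∑ t ∈ range M, L r c t =
          if c < cs h (s - l) then (q : ℝ) else 0 := by
        intro c _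
        have h3 := hD l r c (by omega) hr.1 hr.2
        split_ifs with h4
        · exact hL.cell r c (h3.mpr h4)
        · apply Finset.sum_eq_zero
          intro t _
          exact hLz r c t (fun h5 => h4 (h3.mp h5))
      rw [Finset.sum_congr rfl e3, ← Finset.sum_filter, Finset.sum_const, nsmul_eq_mul, mul_comm]
      congr 2
      have h6 : (range (cs h s)).filter (fun c => c < cs h (s - l)) = range (cs h (s - l)) := by
        ext c
        rw [Finset.mem_filter, Finset.mem_range, Finset.mem_range]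
        have h7 := cs_mono h (show s - l ≤ s by omega)
        constructor
        · exact fun h8 => h8.2
        · exact fun h8 => ⟨lt_of_lt_of_le h8 h7, h8⟩
      rw [h6, Finset.card_range]
    rw [Finset.sum_congr rfl e2, Finset.sum_const, Nat.card_Ico, nsmul_eq_mul, Nat.add_sub_cancel,
      cs_succ, Nat.add_sub_cancel_left, cs_zero, Nat.sub_zero,
      show s + 1 - (l + 1) = s - l by omega]
    push_cast
    ring
  -- the level
  have e4 : (q : ℝ) * (al k : ℝ) =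
      ∑ r ∈ range (cs g s), ∑ t ∈ range (q * k), ∑ c ∈ range (cs h s), L r c t := by
    have h3 : ((∑ t ∈ range (q * k), S t : ℕ) : ℝ) = q * al k := by
      rw [hS k]
      push_cast
      ring
    rw [← h3, Nat.cast_sum, Finset.sum_comm]
    apply Finset.sum_congr rfl
    intro t ht
    rw [Finset.mem_range] at ht
    exact (hL.tot t (by omega)).symm
  have e5 : ∑ r ∈ range (cs g s), ∑ t ∈ range (q * k), ∑ c ∈ range (cs h s), L r c t =
      ∑ r ∈ range (cs g i), ∑ t ∈ range (q * k), ∑ c ∈ range (cs h s), L r c t +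
      ∑ r ∈ Ico (cs g i) (cs g s), ∑ t ∈ range (q * k), ∑ c ∈ range (cs h s), L r c t := by
    rw [Finset.range_eq_Ico (a := cs g s), Finset.range_eq_Ico (a := cs g i)]
    exact (Finset.sum_Ico_consecutive _ (Nat.zero_le _) (cs_mono g hi)).symm
  have e6 : ∑ r ∈ Ico (cs g i) (cs g s), ∑ t ∈ range M, ∑ c ∈ range (cs h s), L r c t =
      ∑ r ∈ Ico (cs g i) (cs g s), ∑ t ∈ range (q * k), ∑ c ∈ range (cs h s), L r c t +
      ∑ r ∈ Ico (cs g i) (cs g s), ∑ t ∈ Ico (q * k) M, ∑ c ∈ range (cs h s), L r c t := by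
    rw [← Finset.sum_add_distrib]
    apply Finset.sum_congr rfl
    intro r _
    rw [Finset.range_eq_Ico (a := M), Finset.range_eq_Ico (a := q * k)]
    exact (Finset.sum_Ico_consecutive _ (Nat.zero_le _) hk).symm
  have e7 : ∑ r ∈ range (cs g i), ∑ t ∈ range (q * k), (1 - ∑ c ∈ range (cs h s), L r c t) =
      (cs g i : ℝ) * (q * k) -
        ∑ r ∈ range (cs g i), ∑ t ∈ range (q * k), ∑ c ∈ range (cs h s), L r c t := by
    simp only [Finset.sum_sub_distrib, Finset.sum_const, Finset.card_range, nsmul_eq_mul, mul_one]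
    push_cast
    ring
  rw [e7]
  unfold Db cutb
  rw [cs_zero]
  push_cast
  linarith [e1, e4, e5, e6]

/-- the rows -/
theorem core (hs : 0 < s) (hN : 0 < N) (hg : Comp s R N g) (hh : Comp s R N h)
    (hal : IsAl s g h al) (hK0 : K0 = max (cs g s) (cs h s))
    (hD : ∀ k r c, k < s → cs g k ≤ r → r < cs g (k + 1) → (D r c ↔ c < cs h (s - k)))
    (hη : 0 < η) (hη1 : η ≤ 1) (hψ : 0 ≤ ψ) (hψη : 4 * ((s : ℝ) * R + 1) * ψ < η)
    (hTD : TD s g h al N η ψ K0 p lo hi sig) (hq : 0 < q) (hM : q * K0 ≤ M)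
    (hS : ∀ k, (∑ t ∈ range (q * k), S t) = q * al k)
    (hL : Sol (cs g s) (cs h s) M q D S L) (i j : ℕ)
    (hv : LS s p (ZD s g h al N ψ p hi) (i, 0, j))
    (hc : i = s ∨ j + 1 = p ∨ ∃ a j', a ≤ i ∧ j' ≤ j ∧ (a, 0, j') ∈ ZD s g h al N ψ p hi) :
    η ^ 2 / (4 * ((s : ℝ) * R) ^ 2) * (N : ℝ) ^ 2 ≤ XS s q p g h lo hi L (i, 0, j) := by
  obtain ⟨hLE, hno⟩ := hv
  have hLE' : i ≤ s ∧ 0 ≤ s ∧ j < p ∧ ¬ (i = 0 ∧ (0 : ℕ) = 0) := ⟨hLE.1, hLE.2.1, hLE.2.2.1,
    hLE.2.2.2.1⟩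
  obtain ⟨his, _, hjp, hi0⟩ := hLE'
  have hi1 : 1 ≤ i := by omega
  have hN' : (0 : ℝ) < N := by exact_mod_cast hN
  have hq' : (0 : ℝ) < q := by exact_mod_cast hq
  obtain ⟨h4, h41, h42⟩ := num hη1 hψ hψη
  have hhiK : ∀ j, j < p → hi j ≤ K0 := fun j hj =>
    (hi_mono hTD (show j ≤ p - 1 by omega) (by omega)).trans hTD.last
  have hqM : ∀ j, j < p → q * hi j ≤ M := fun j hj =>
    (Nat.mul_le_mul_left q (hhiK j hj)).trans hM
  -- lower bound for the defect
  have hDb : η * (N : ℝ) ^ 2 ≤ Db s g h al (hi j) i 0 := by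
    rcases hTD.dich i 0 j his (Nat.zero_le _) hjp with hd | hd
    · exfalso
      refine hno (i, 0, j) ((mem_zd i 0 j).mpr ⟨⟨his, Nat.zero_le _, hjp⟩, hd⟩) ?_
      unfold Oct
      left
      simp
    · exact hd
  set f : ℕ → ℕ → ℝ := fun r t => 1 - ∑ c ∈ range (cs h s), L r c t with hf
  have hf0 : ∀ r t, 0 ≤ f r t := fun r t => by
    have := hL.row_le r t
    simp only [hf]
    linarith
  have hfm : ∀ r, Monotone (f r) := fun r t t' htt => by
    have := hL.row_anti r t t' htt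
    simp only [hf]
    linarith
  have hrs0 : ∀ r t, 0 ≤ ∑ c ∈ range (cs h s), L r c t := fun r t =>
    Finset.sum_nonneg (fun c _ => hL.nonneg r c t)
  -- the late mass
  have hlate : ∑ r ∈ Ico (cs g i) (cs g s), ∑ t ∈ Ico (q * hi j) M,
      ∑ c ∈ range (cs h s), L r c t ≤ q * (ψ * (N : ℝ) ^ 2) := by
    have hcase : i = s ∨ ∃ a j', a ≤ i ∧ j' ≤ j ∧ (a, 0, j') ∈ ZD s g h al N ψ p hi := by
      rcases hc with h1 | h1 | h1
      · exact Or.inl h1
      · right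
        refine ⟨0, p - 1, Nat.zero_le _, by omega, ?_⟩
        exact (zp_of_td s R hs g h al N η ψ K0 p lo hi sig hN hg hh hal hK0 hη hη1 hψ hψη hTD).z4
      · exact Or.inr h1
    rcases hcase with h1 | ⟨a, j', ha, hj', hZ⟩
    · rw [h1, Finset.Ico_self, Finset.sum_empty]
      positivity
    · obtain ⟨⟨_, _, hj'p⟩, hZ2⟩ := (mem_zd a 0 j').mp hZ
      have e1 := defect hD hL hS (hi j') a (hqM j' hj'p) (by omega)
      have e2 : 0 ≤ ∑ r ∈ range (cs g a), ∑ t ∈ range (q * hi j'),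
          (1 - ∑ c ∈ range (cs h s), L r c t) :=
        Finset.sum_nonneg (fun r _ => Finset.sum_nonneg (fun t _ => hf0 r t))
      have e3 : ∑ r ∈ Ico (cs g i) (cs g s), ∑ t ∈ Ico (q * hi j) M,
          ∑ c ∈ range (cs h s), L r c t ≤ ∑ r ∈ Ico (cs g a) (cs g s),
            ∑ t ∈ Ico (q * hi j') M, ∑ c ∈ range (cs h s), L r c t := by
        refine (Finset.sum_le_sum (fun r _ => ?_)).trans
          (Finset.sum_le_sum_of_subset_of_nonneg
            (Finset.Ico_subset_Ico_left (cs_mono g ha)) (fun r _ _ =>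
              Finset.sum_nonneg (fun t _ => hrs0 r t)))
        exact Finset.sum_le_sum_of_subset_of_nonneg (Finset.Ico_subset_Ico_left
          (Nat.mul_le_mul_left q (hi_mono hTD hj' hjp))) (fun t _ _ => hrs0 r t)
      have e4 : (q : ℝ) * Db s g h al (hi j') a 0 ≤ q * (ψ * (N : ℝ) ^ 2) :=
        mul_le_mul_of_nonneg_left hZ2 hq'.le
      linarith
  have hdef := defect hD hL hS (hi j) i (hqM j hjp) his
  set V := ∑ r ∈ range (cs g i), ∑ t ∈ range (q * hi j), f r t with hV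
  have hVlow : (q : ℝ) * (3 / 4 * η * (N : ℝ) ^ 2) ≤ V := by
    have e1 : (q : ℝ) * (η * (N : ℝ) ^ 2) ≤ q * Db s g h al (hi j) i 0 :=
      mul_le_mul_of_nonneg_left hDb hq'.le
    have e2 : ψ * (N : ℝ) ^ 2 ≤ η / 4 * (N : ℝ) ^ 2 := by
      apply mul_le_mul_of_nonneg_right _ (by positivity)
      linarith
    have e3 : (q : ℝ) * (ψ * (N : ℝ) ^ 2) ≤ q * (η / 4 * (N : ℝ) ^ 2) :=
      mul_le_mul_of_nonneg_left e2 hq'.le
    have e4 : (q : ℝ) * Db s g h al (hi j) i 0 = V + ∑ r ∈ Ico (cs g i) (cs g s),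
      ∑ t ∈ Ico (q * hi j) M, ∑ c ∈ range (cs h s), L r c t := hdef
    nlinarith
  -- the entry
  have hX : XS s q p g h lo hi L (i, 0, j) = (∑ t ∈ Ico (q * lo j) (q * hi j),
      ∑ r ∈ Ico (cs g (i - 1)) (cs g i), f r t) / q := by
    unfold XS
    simp only
    rw [if_pos hjp, ftab_row _ i hi1 his]
  set W := ∑ r ∈ Ico (cs g (i - 1)) (cs g i), ∑ t ∈ Ico (q * lo j) (q * hi j), f r t with hW
  have hX' : (q : ℝ) * XS s q p g h lo hi L (i, 0, j) = W := by
    rw [hX, Finset.sum_comm, mul_div_cancel₀ _ hq'.ne']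
  have hlohi := hTD.lohi j hjp
  -- time
  have t1 : ∀ r, ((hi j : ℝ) - lo j) * ∑ t ∈ range (q * hi j), f r t ≤
      hi j * ∑ t ∈ Ico (q * lo j) (q * hi j), f r t := by
    intro r
    have e1 := avg_late (f r) (hfm r) (q * lo j) (q * hi j) (Nat.mul_le_mul_left q hlohi.le)
    push_cast at e1
    have e2 : (q : ℝ) * (((hi j : ℝ) - lo j) * ∑ t ∈ range (q * hi j), f r t) ≤
        q * (hi j * ∑ t ∈ Ico (q * lo j) (q * hi j), f r t) := by
      calc (q : ℝ) * (((hi j : ℝ) - lo j) * ∑ t ∈ range (q * hi j), f r t)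
          = ((q : ℝ) * hi j - q * lo j) * ∑ t ∈ range (q * hi j), f r t := by ring
        _ ≤ (q : ℝ) * hi j * ∑ t ∈ Ico (q * lo j) (q * hi j), f r t := e1
        _ = q * (hi j * ∑ t ∈ Ico (q * lo j) (q * hi j), f r t) := by ring
    exact le_of_mul_le_mul_left e2 hq'
  -- rows
  have r1 : (g i : ℝ) * V ≤ cs g i * ∑ r ∈ Ico (cs g (i - 1)) (cs g i),
      ∑ t ∈ range (q * hi j), f r t := by
    have e1 := avg_late (fun r => ∑ t ∈ range (q * hi j), f r t) (by
      intro r r' hrr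
      have e2 := hL.row_pref r r' (q * hi j) hrr
      simp only [hf, Finset.sum_sub_distrib]
      linarith) (cs g (i - 1)) (cs g i) (cs_mono g (Nat.sub_le _ _))
    have e3 : (cs g i : ℝ) - cs g (i - 1) = g i := by
      obtain ⟨k, rfl⟩ : ∃ k, i = k + 1 := ⟨i - 1, by omega⟩
      rw [Nat.add_sub_cancel, cs_succ]
      push_cast
      ring
    rw [e3] at e1
    exact e1
  have hhl : (0 : ℝ) ≤ (hi j : ℝ) - lo j := by
    have : (lo j : ℝ) ≤ hi j := by exact_mod_cast hlohi.le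
    linarith
  have r2 : ((hi j : ℝ) - lo j) * ∑ r ∈ Ico (cs g (i - 1)) (cs g i),
      ∑ t ∈ range (q * hi j), f r t ≤ hi j * W := by
    rw [hW, Finset.mul_sum, Finset.mul_sum]
    exact Finset.sum_le_sum (fun r _ => t1 r)
  have hW0 : 0 ≤ W := Finset.sum_nonneg (fun r _ => Finset.sum_nonneg (fun t _ => hf0 r t))
  have hcs := cs_top hg his
  have hcs0 : (0 : ℝ) ≤ cs g i := Nat.cast_nonneg _
  have hgi : (N : ℝ) ≤ g i := Comp.low hg hi1 his
  have hthick : η * N ≤ (hi j : ℝ) - lo j := by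
    have := hTD.thick j hjp
    linarith
  have hKtop : (hi j : ℝ) ≤ (s : ℝ) * R * N := by
    have e1 : (hi j : ℝ) ≤ K0 := by exact_mod_cast hhiK j hjp
    have e2 := cs_top hg (le_refl s)
    have e3 := cs_top hh (le_refl s)
    rw [hK0] at e1
    push_cast at e1
    exact e1.trans (max_le e2 e3)
  have hhi0 : (0 : ℝ) ≤ hi j := Nat.cast_nonneg _
  -- combine
  have m1 : ((hi j : ℝ) - lo j) * (g i * V) ≤ cs g i * (hi j * W) := by
    calc ((hi j : ℝ) - lo j) * (g i * V)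
        ≤ ((hi j : ℝ) - lo j) * (cs g i * ∑ r ∈ Ico (cs g (i - 1)) (cs g i),
          ∑ t ∈ range (q * hi j), f r t) := mul_le_mul_of_nonneg_left r1 hhl
      _ = cs g i * (((hi j : ℝ) - lo j) * ∑ r ∈ Ico (cs g (i - 1)) (cs g i),
          ∑ t ∈ range (q * hi j), f r t) := by ring
      _ ≤ cs g i * (hi j * W) := mul_le_mul_of_nonneg_left r2 hcs0
  have m2 : (η * N) * (N * (q * (3 / 4 * η * (N : ℝ) ^ 2))) ≤ ((hi j : ℝ) - lo j) * (g i * V) := by
    apply mul_le_mul hthick _ (by positivity) hhl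
    exact mul_le_mul hgi hVlow (by positivity) (by positivity)
  have m3 : (cs g i : ℝ) * (hi j * W) ≤ ((s : ℝ) * R * N) * (((s : ℝ) * R * N) * W) := by
    apply mul_le_mul hcs _ (mul_nonneg hhi0 hW0) (by positivity)
    exact mul_le_mul_of_nonneg_right hKtop hW0
  have hR : (0 : ℝ) < (s : ℝ) * R := by
    have e1 : (0 : ℝ) < cs g i := by
      have h5 := (hg i hi1 his).1
      obtain ⟨k, rfl⟩ : ∃ k, i = k + 1 := ⟨i - 1, by omega⟩
      have h6 := cs_succ g k
      exact_mod_cast (show 0 < cs g (k + 1) by omega)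
    by_contra hcon
    push Not at hcon
    have : (s : ℝ) * R * N ≤ 0 := mul_nonpos_of_nonpos_of_nonneg hcon hN'.le
    linarith
  set X := XS s q p g h lo hi L (i, 0, j) with hXdef
  have m4 : (q * (N : ℝ) ^ 2) * (3 / 4 * η ^ 2 * (N : ℝ) ^ 2) ≤
      (q * (N : ℝ) ^ 2) * (((s : ℝ) * R) ^ 2 * X) := by
    calc (q * (N : ℝ) ^ 2) * (3 / 4 * η ^ 2 * (N : ℝ) ^ 2)
        = (η * N) * (N * (q * (3 / 4 * η * (N : ℝ) ^ 2))) := by ring
      _ ≤ ((s : ℝ) * R * N) * (((s : ℝ) * R * N) * W) := m2.trans (m1.trans m3)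
      _ = (q * (N : ℝ) ^ 2) * (((s : ℝ) * R) ^ 2 * X) := by
          rw [← hX']
          ring
  have m5 : 3 / 4 * η ^ 2 * (N : ℝ) ^ 2 ≤ ((s : ℝ) * R) ^ 2 * X :=
    le_of_mul_le_mul_left m4 (by positivity)
  have m6 : 0 < ((s : ℝ) * R) ^ 2 := by positivity
  rw [div_mul_eq_mul_div, div_le_iff₀ (by positivity)]
  have m7 : 0 ≤ η ^ 2 * (N : ℝ) ^ 2 := by positivity
  nlinarith

/-- the transposed diagram -/
lemma shp_swap {lam : ℕ → ℕ} (hS : Shp s g h lam) : ∀ k r c, k < s → cs h k ≤ r →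
    r < cs h (k + 1) → (r < lam c ↔ c < cs g (s - k)) := by
  intro k r c hk h1 h2
  rcases Nat.lt_or_ge c (cs g s) with hc | hc
  · -- the row block of `c`
    obtain ⟨l, hl, l1, l2⟩ : ∃ l, l < s ∧ cs g l ≤ c ∧ c < cs g (l + 1) := by
      classical
      have hex : ∃ l, c < cs g (l + 1) := ⟨s, lt_of_lt_of_le hc (cs_mono g (Nat.le_succ s))⟩
      refine ⟨Nat.find hex, ?_, ?_, Nat.find_spec hex⟩
      · by_contra hcon
        push Not at hcon
        rcases Nat.eq_zero_or_pos s with h0 | h0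
        · omega
        · have h3 := Nat.find_min hex (show s - 1 < Nat.find hex by omega)
          rw [Nat.sub_add_cancel h0] at h3
          exact h3 hc
      · rcases Nat.eq_zero_or_pos (Nat.find hex) with h0 | h0
        · rw [h0, cs_zero]
          exact Nat.zero_le _
        · have h3 := Nat.find_min hex (show Nat.find hex - 1 < Nat.find hex by omega)
          rw [Nat.sub_add_cancel h0] at h3
          omega
    rw [hS.blk l c hl l1 l2]
    constructor
    · intro h3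
      have h4 : k < s - l := by
        by_contra hcon
        have := cs_mono h (show s - l ≤ k by omega)
        omega
      have := cs_mono g (show l + 1 ≤ s - k by omega)
      omega
    · intro h3
      have h4 : l < s - k := by
        by_contra hcon
        have := cs_mono g (show s - k ≤ l by omega)
        omega
      have := cs_mono h (show k + 1 ≤ s - l by omega)
      omega
  · rw [hS.out c hc]
    have := cs_mono g (show s - k ≤ s by omega)
    omega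

lemma xs_swap (x j : ℕ) (hx : 1 ≤ x) : XS s q p g h lo hi L (0, x, j) =
    XS s q p h g lo hi (fun c r t => L r c t) (x, 0, j) := by
  have e1 : ∀ (I : Finset ℕ) (i' x' : ℕ), fsum L g h I i' x' =
      fsum (fun c r t => L r c t) h g I x' i' := by
    intro I i' x'
    unfold fsum
    apply Finset.sum_congr rfl
    intro t _
    exact Finset.sum_comm
  unfold XS
  simp only
  split_ifs with h1
  · unfold ftab
    have e2 : LE s 1 (0, x, 0) ↔ LE s 1 (x, 0, 0) := by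
      unfold LE
      simp only
      omega
    by_cases h2 : LE s 1 (x, 0, 0)
    · rw [if_pos (e2.mpr h2), if_pos h2, if_neg (by omega), if_pos rfl, if_pos rfl]
      congr 2
      exact Finset.sum_congr rfl (fun i' _ => e1 _ i' x)
    · rw [if_neg (fun h3 => h2 (e2.mp h3)), if_neg h2]
  · rfl

end L19

open L5 L19 in
/-- M19: lower bounds for the slacks -/
theorem slack_dir (s R : ℕ) (hs : 0 < s) (g h al lam : ℕ → ℕ) (N : ℕ) (η ψ : ℝ) (K0 p : ℕ)
    (lo hi sig : ℕ → ℕ) (hN : 0 < N) (hg : Comp s R N g) (hh : Comp s R N h)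
    (hal : IsAl s g h al) (hK0 : K0 = max (cs g s) (cs h s)) (hS : Shp s g h lam)
    (hη : 0 < η) (hη1 : η ≤ 1) (hψ : 0 ≤ ψ) (hψη : 4 * ((s : ℝ) * R + 1) * ψ < η)
    (hTD : TD s g h al N η ψ K0 p lo hi sig) (q M : ℕ) (hq : 0 < q) (hM : q * K0 ≤ M)
    (S be : ℕ → ℕ) (hF : FL s g h al q S be) (L : ℕ → ℕ → ℕ → ℝ)
    (hL : Sol (cs g s) (cs h s) M q (fun i x => x < lam i) S L) :
    (∀ i j, LS s p (ZD s g h al N ψ p hi) (i, 0, j) →
      (i = s ∨ j + 1 = p ∨ ∃ a j', a ≤ i ∧ j' ≤ j ∧ (a, 0, j') ∈ ZD s g h al N ψ p hi) →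
      η ^ 2 / (4 * ((s : ℝ) * R) ^ 2) * (N : ℝ) ^ 2 ≤ XS s q p g h lo hi L (i, 0, j)) ∧
    (∀ x j, LS s p (ZD s g h al N ψ p hi) (0, x, j) →
      (x = s ∨ j + 1 = p ∨ ∃ b j', b ≤ x ∧ j' ≤ j ∧ (0, b, j') ∈ ZD s g h al N ψ p hi) →
      η ^ 2 / (4 * ((s : ℝ) * R) ^ 2) * (N : ℝ) ^ 2 ≤ XS s q p g h lo hi L (0, x, j)) := by
  have hSS : ∀ k, (∑ t ∈ range (q * k), S t) = q * al k := fun k => by
    rw [hF.sum, hF.lev]
  constructor
  · intro i j hv hc
    refine core hs hN hg hh hal hK0 ?_ hη hη1 hψ hψη hTD hq hM hSS hL i j hv hc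
    intro k r c hk h1 h2
    show c < lam r ↔ _
    rw [hS.blk k r hk h1 h2]
  · intro x j hv hc
    have hsw : ∀ a b j, (a, b, j) ∈ ZD s g h al N ψ p hi ↔ (b, a, j) ∈ ZD s h g al N ψ p hi := by
      intro a b j
      rw [mem_zd, mem_zd, Db_symm]
      constructor
      · rintro ⟨⟨h1, h2, h3⟩, h4⟩
        exact ⟨⟨h2, h1, h3⟩, h4⟩
      · rintro ⟨⟨h1, h2, h3⟩, h4⟩
        exact ⟨⟨h2, h1, h3⟩, h4⟩
    have hx : 1 ≤ x := by
      have h7 : ¬ ((0 : ℕ) = 0 ∧ x = 0) := hv.1.2.2.2.1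
      omega
    rw [xs_swap x j hx]
    refine core hs hN hh hg (isAl_symm hal) (by rw [hK0, max_comm]) (shp_swap hS) hη hη1 hψ hψη
      (td_symm hTD) hq hM hSS hL.swap x j ?_ ?_
    · obtain ⟨⟨h1, h2, h3, h4, h5⟩, h6⟩ := hv
      refine ⟨⟨h2, h1, h3, fun h7 => h4 ⟨h7.2, h7.1⟩, Or.inr (Or.inl rfl)⟩, ?_⟩
      rintro ⟨a, b, l⟩ hc2 hO
      refine h6 (b, a, l) ((hsw b a l).mpr hc2) ?_
      unfold Oct at hO ⊢
      simp only at hO ⊢
      omega
    · rcases hc with h1 | h1 | ⟨b, j', h1, h2, h3⟩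
      · exact Or.inl h1
      · exact Or.inr (Or.inl h1)
      · exact Or.inr (Or.inr ⟨b, j', h1, h2, (hsw 0 b j').mp h3⟩)

end Pool.MP_d56194_co
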