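import Mathlib
import Pool.Agent.Lib.MP_d56194_co.L.L0

/-!
LTC (MP_d56194_co), large multiplicities, module M2: moving a small table to the support.
-/

set_option autoImplicit false

namespace Pool.MP_d56194_co

open Finset

theorem L2.sum_line (s p : ℕ) (X : ℕ × ℕ × ℕ → ℝ) (hX : ∀ v, ¬ LE s p v → X v = 0) (a b : ℕ) :
    ∑ v : ↥(LBox s p), X v.1 * (Pi.single (v.1.1, v.1.2.1) (1 : ℝ) : ℕ × ℕ → ℝ) (a, b) =
      ∑ t ∈ range p, X (a, b, t) := by
  classical
  rw [Finset.sum_coe_sort (LBox s p)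
    (fun v => X v * (Pi.single (v.1, v.2.1) (1 : ℝ) : ℕ × ℕ → ℝ) (a, b))]
  rw [LBox, Finset.sum_product]
  by_cases h : a ≤ s ∧ b ≤ s
  · rw [Finset.sum_eq_single a, Finset.sum_product, Finset.sum_eq_single b]
    · simp
    · intro b' _ hb'
      apply Finset.sum_eq_zero
      intro t _
      rw [Pi.single_eq_of_ne (by intro h; exact hb' (Prod.ext_iff.1 h).2.symm), mul_zero]
    · intro hb
      exact absurd (mem_range.2 (by omega)) hb
    · intro a' _ ha'
      apply Finset.sum_eq_zero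
      intro q _
      rw [Pi.single_eq_of_ne (by intro h; exact ha' (Prod.ext_iff.1 h).1.symm), mul_zero]
    · intro ha
      exact absurd (mem_range.2 (by omega)) ha
  · rw [Finset.sum_eq_zero, Finset.sum_eq_zero]
    · intro t _
      apply hX
      rintro ⟨h1, h2, _⟩
      exact h ⟨h1, h2⟩
    · intro a' ha'
      apply Finset.sum_eq_zero
      intro q hq
      rw [Finset.mem_product] at hq
      rw [Pi.single_eq_of_ne, mul_zero]
      intro hh
      have h1 := (Prod.ext_iff.1 hh).1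
      have h2 := (Prod.ext_iff.1 hh).2
      simp only at h1 h2
      apply h
      have h3 := mem_range.1 ha'
      have h4 := mem_range.1 hq.1
      omega

theorem L2.sum_line2 (s p : ℕ) (X : ℕ × ℕ × ℕ → ℝ) (hX : ∀ v, ¬ LE s p v → X v = 0) (a t : ℕ) :
    ∑ v : ↥(LBox s p), X v.1 * (Pi.single (v.1.1, v.1.2.2) (1 : ℝ) : ℕ × ℕ → ℝ) (a, t) =
      ∑ b ∈ range (s + 1), X (a, b, t) := by
  classical
  rw [Finset.sum_coe_sort (LBox s p)
    (fun v => X v * (Pi.single (v.1, v.2.2) (1 : ℝ) : ℕ × ℕ → ℝ) (a, t))]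
  rw [LBox, Finset.sum_product]
  by_cases h : a ≤ s ∧ t < p
  · rw [Finset.sum_eq_single a, Finset.sum_product]
    · apply Finset.sum_congr rfl
      intro b _
      rw [Finset.sum_eq_single t]
      · simp
      · intro t' _ ht'
        rw [Pi.single_eq_of_ne (by intro h; exact ht' (Prod.ext_iff.1 h).2.symm), mul_zero]
      · intro ht
        exact absurd (mem_range.2 h.2) ht
    · intro a' _ ha'
      apply Finset.sum_eq_zero
      intro q _
      rw [Pi.single_eq_of_ne (by intro h; exact ha' (Prod.ext_iff.1 h).1.symm), mul_zero]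
    · intro ha
      exact absurd (mem_range.2 (by omega)) ha
  · rw [Finset.sum_eq_zero, Finset.sum_eq_zero]
    · intro b _
      apply hX
      rintro ⟨h1, _, h2, _⟩
      exact h ⟨h1, h2⟩
    · intro a' ha'
      apply Finset.sum_eq_zero
      intro q hq
      rw [Finset.mem_product] at hq
      rw [Pi.single_eq_of_ne, mul_zero]
      intro hh
      have h1 := (Prod.ext_iff.1 hh).1
      have h2 := (Prod.ext_iff.1 hh).2
      simp only at h1 h2
      apply h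
      have h3 := mem_range.1 ha'
      have h4 := mem_range.1 hq.2
      omega

theorem L2.sum_line3 (s p : ℕ) (X : ℕ × ℕ × ℕ → ℝ) (hX : ∀ v, ¬ LE s p v → X v = 0) (b t : ℕ) :
    ∑ v : ↥(LBox s p), X v.1 * (Pi.single (v.1.2.1, v.1.2.2) (1 : ℝ) : ℕ × ℕ → ℝ) (b, t) =
      ∑ a ∈ range (s + 1), X (a, b, t) := by
  classical
  rw [Finset.sum_coe_sort (LBox s p)
    (fun v => X v * (Pi.single (v.2.1, v.2.2) (1 : ℝ) : ℕ × ℕ → ℝ) (b, t))]
  rw [LBox, Finset.sum_product]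
  apply Finset.sum_congr rfl
  intro a _
  by_cases h : b ≤ s ∧ t < p
  · rw [Finset.sum_eq_single (b, t)]
    · simp
    · rintro ⟨b', t'⟩ _ hq
      rw [Pi.single_eq_of_ne (by intro h; exact hq h.symm), mul_zero]
    · intro hb
      exfalso
      apply hb
      rw [Finset.mem_product, mem_range, mem_range]
      simp only
      omega
  · rw [Finset.sum_eq_zero, hX]
    · rintro ⟨_, h1, h2, _⟩
      exact h ⟨h1, h2⟩
    · intro q hq
      rw [Finset.mem_product, mem_range, mem_range] at hq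
      rw [Pi.single_eq_of_ne, mul_zero]
      intro hh
      have h1 := (Prod.ext_iff.1 hh).1
      have h2 := (Prod.ext_iff.1 hh).2
      simp only at h1 h2
      apply h
      omega

theorem L2.LE_mem {s p : ℕ} {v : ℕ × ℕ × ℕ} (h : LE s p v) : v ∈ LBox s p := by
  obtain ⟨h1, h2, h3, _⟩ := h
  simp only [LBox, mem_product, mem_range]
  omega

/-- one `Z` -/
theorem L2.one (s p : ℕ) (Z : Finset (ℕ × ℕ × ℕ)) (hspan : 
      ∀ P Q R : ℕ → ℕ → ℝ,
      (∀ v, LS s p Z v → P v.1 v.2.1 + Q v.1 v.2.2 + R v.2.1 v.2.2 = 0) →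
      ∃ l : ℕ × ℕ × ℕ → ℝ, ∀ v, LE s p v →
        P v.1 v.2.1 + Q v.1 v.2.2 + R v.2.1 v.2.2 = ∑ c ∈ Z, if Oct c v then l c else 0) :
    ∃ C : ℝ, 0 ≤ C ∧ ∀ W : ℕ × ℕ × ℕ → ℝ,
      (∀ v, ¬ LE s p v → W v = 0) →
      (∀ c ∈ Z, ∑ v ∈ LBox s p, (if Oct c v then W v else 0) = 0) →
      ∀ δ : ℝ, (∀ v, |W v| ≤ δ) → ∃ W' : ℕ × ℕ × ℕ → ℝ, (∀ v, ¬ LS s p Z v → W' v = 0) ∧
        SameLines s p W' W ∧ ∀ v, |W' v| ≤ C * δ := by
  classical
  let ι := ↥(LBox s p)
  let e : ι → (ℕ × ℕ → ℝ) × (ℕ × ℕ → ℝ) × (ℕ × ℕ → ℝ) := fun v =>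
    (Pi.single (v.1.1, v.1.2.1) 1, Pi.single (v.1.1, v.1.2.2) 1, Pi.single (v.1.2.1, v.1.2.2) 1)
  let A : (ι → ℝ) →ₗ[ℝ] (ℕ × ℕ → ℝ) × (ℕ × ℕ → ℝ) × (ℕ × ℕ → ℝ) :=
    Fintype.linearCombination ℝ e
  have hA : ∀ f : ι → ℝ, A f = ∑ v, f v • e v := fun f => Fintype.linearCombination_apply ℝ e f
  let mask : (ι → ℝ) →ₗ[ℝ] (ι → ℝ) :=
    { toFun := fun f v => if LS s p Z v.1 then f v else 0
      map_add' := by
        intro f g
        funext v
        by_cases h : LS s p Z v.1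
        · simp [h]
        · simp [h]
      map_smul' := by
        intro c f
        funext v
        by_cases h : LS s p Z v.1
        · simp [h]
        · simp [h] }
  have hmask : ∀ (f : ι → ℝ) (v : ι), mask f v = if LS s p Z v.1 then f v else 0 :=
    fun _ _ => rfl
  let B : (ι → ℝ) →ₗ[ℝ] (ℕ × ℕ → ℝ) × (ℕ × ℕ → ℝ) × (ℕ × ℕ → ℝ) := A ∘ₗ mask
  let K : Submodule ℝ (ι → ℝ) :=
    { carrier := {f | (∀ v : ι, ¬ LE s p v.1 → f v = 0) ∧
        ∀ c ∈ Z, ∑ v : ι, (if Oct c v.1 then f v else 0) = 0}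
      zero_mem' := by
        constructor
        · intro v _
          rfl
        · intro c _
          simp
      add_mem' := by
        rintro f g ⟨h1, h2⟩ ⟨h3, h4⟩
        refine ⟨fun v hv => by rw [Pi.add_apply, h1 v hv, h3 v hv, add_zero], fun c hc => ?_⟩
        have h5 : ∑ v : ι, (if Oct c v.1 then (f + g) v else 0) =
            ∑ v : ι, (if Oct c v.1 then f v else 0) + ∑ v : ι, (if Oct c v.1 then g v else 0) := by
          rw [← Finset.sum_add_distrib]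
          apply Finset.sum_congr rfl
          intro v _
          split_ifs <;> simp
        rw [h5, h2 c hc, h4 c hc, add_zero]
      smul_mem' := by
        rintro r f ⟨h1, h2⟩
        refine ⟨fun v hv => by rw [Pi.smul_apply, h1 v hv, smul_zero], fun c hc => ?_⟩
        have h5 : ∑ v : ι, (if Oct c v.1 then (r • f) v else 0) =
            r * ∑ v : ι, (if Oct c v.1 then f v else 0) := by
          rw [Finset.mul_sum]
          apply Finset.sum_congr rfl
          intro v _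
          split_ifs <;> simp
        rw [h5, h2 c hc, mul_zero] }
  have hKrange : ∀ f ∈ K, A f ∈ LinearMap.range B := by
    intro f hf
    by_contra hne
    obtain ⟨φ, hφ1, hφ2⟩ := Submodule.exists_dual_map_eq_bot_of_notMem hne inferInstance
    let P : ℕ → ℕ → ℝ := fun a b => φ (Pi.single (a, b) 1, 0, 0)
    let Q : ℕ → ℕ → ℝ := fun a b => φ (0, Pi.single (a, b) 1, 0)
    let R : ℕ → ℕ → ℝ := fun a b => φ (0, 0, Pi.single (a, b) 1)
    have he : ∀ v : ι, φ (e v) = P v.1.1 v.1.2.1 + Q v.1.1 v.1.2.2 + R v.1.2.1 v.1.2.2 := by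
      intro v
      have : e v = (Pi.single (v.1.1, v.1.2.1) 1, 0, 0) + (0, Pi.single (v.1.1, v.1.2.2) 1, 0) +
          (0, 0, Pi.single (v.1.2.1, v.1.2.2) 1) := by
        simp [e]
      rw [this, map_add, map_add]
    have hvan : ∀ v, LS s p Z v → P v.1 v.2.1 + Q v.1 v.2.2 + R v.2.1 v.2.2 = 0 := by
      intro v hv
      have hm := L2.LE_mem hv.1
      have h1 : B (Pi.single (⟨v, hm⟩ : ι) 1) = e ⟨v, hm⟩ := by
        have h2 : mask (Pi.single (⟨v, hm⟩ : ι) 1) = Pi.single (⟨v, hm⟩ : ι) 1 := by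
          funext w
          rw [hmask]
          by_cases hw : w = ⟨v, hm⟩
          · rw [hw, if_pos hv]
          · rw [Pi.single_eq_of_ne hw]
            simp
        have h3 : B (Pi.single (⟨v, hm⟩ : ι) 1) = A (mask (Pi.single (⟨v, hm⟩ : ι) 1)) := rfl
        rw [h3, h2, hA, Finset.sum_eq_single (⟨v, hm⟩ : ι)]
        · simp
        · intro w _ hw
          rw [Pi.single_eq_of_ne hw, zero_smul]
        · intro h
          exact absurd (Finset.mem_univ _) h
      have h4 : φ (B (Pi.single (⟨v, hm⟩ : ι) 1)) ∈ Submodule.map φ (LinearMap.range B) :=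
        Submodule.mem_map_of_mem (LinearMap.mem_range_self _ _)
      rw [hφ2, Submodule.mem_bot, h1, he] at h4
      exact h4
    obtain ⟨l, hl⟩ := hspan P Q R hvan
    apply hφ1
    rw [hA, map_sum]
    have h5 : ∀ v : ι, φ (f v • e v) = ∑ c ∈ Z, l c * (if Oct c v.1 then f v else 0) := by
      intro v
      rw [map_smul, he, smul_eq_mul]
      by_cases hv : LE s p v.1
      · rw [hl v.1 hv, Finset.mul_sum]
        apply Finset.sum_congr rfl
        intro c _
        split_ifs <;> ring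
      · rw [hf.1 v hv, zero_mul]
        rw [Finset.sum_eq_zero]
        intro c _
        split_ifs <;> simp
    rw [Finset.sum_congr rfl (fun v _ => h5 v), Finset.sum_comm]
    apply Finset.sum_eq_zero
    intro c hc
    rw [← Finset.mul_sum, hf.2 c hc, mul_zero]
  obtain ⟨g, hg⟩ := LinearMap.exists_rightInverse_of_surjective B.rangeRestrict
    (LinearMap.range_eq_top.2 B.surjective_rangeRestrict)
  let H : K →ₗ[ℝ] (ι → ℝ) :=
    mask ∘ₗ g ∘ₗ (LinearMap.codRestrict (LinearMap.range B) (A ∘ₗ K.subtype)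
      (fun f => hKrange f.1 f.2))
  have hH : ∀ f : K, A (H f) = A f.1 := by
    intro f
    have h1 : A (H f) = B (g ⟨A f.1, hKrange f.1 f.2⟩) := rfl
    have h2 := LinearMap.congr_fun hg ⟨A f.1, hKrange f.1 f.2⟩
    have h3 := congrArg Subtype.val h2
    rw [h1]
    exact h3
  let Hc : K →L[ℝ] (ι → ℝ) := LinearMap.toContinuousLinearMap H
  refine ⟨‖Hc‖, Hc.opNorm_nonneg, ?_⟩
  intro W hW hO δ hδ
  have hδ0 : 0 ≤ δ := (abs_nonneg _).trans (hδ (0, 0, 0))
  let f : ι → ℝ := fun v => W v.1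
  have hf : f ∈ K := by
    refine ⟨fun v hv => hW v.1 hv, fun c hc => ?_⟩
    exact (Finset.sum_coe_sort (LBox s p) (fun v => if Oct c v then W v else 0)).trans (hO c hc)
  let W' : ℕ × ℕ × ℕ → ℝ := fun v => if h : v ∈ LBox s p then H ⟨f, hf⟩ ⟨v, h⟩ else 0
  have hW'ι : ∀ v : ι, W' v.1 = H ⟨f, hf⟩ v := by
    intro v
    simp only [W']
    rw [dif_pos v.2]
  have hW'0 : ∀ v, ¬ LS s p Z v → W' v = 0 := by
    intro v hv
    simp only [W']
    split_ifs with h
    · have : H ⟨f, hf⟩ ⟨v, h⟩ = mask (g ⟨A f, hKrange f hf⟩) ⟨v, h⟩ := rfl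
      rw [this, hmask, if_neg hv]
    · rfl
  have hW'LE : ∀ v, ¬ LE s p v → W' v = 0 := fun v hv => hW'0 v (fun h => hv h.1)
  have hAA : A (fun v : ι => W' v.1) = A (fun v : ι => W v.1) := by
    have h1 : (fun v : ι => W' v.1) = H ⟨f, hf⟩ := funext hW'ι
    rw [h1, hH]
  rw [hA, hA] at hAA
  refine ⟨W', hW'0, ⟨?_, ?_, ?_⟩, ?_⟩
  · intro a b
    have h1 := congrArg (fun q => q.1 (a, b)) hAA
    simp only [Prod.fst_sum, Prod.snd_sum, Finset.sum_apply, Prod.smul_fst, Prod.smul_snd,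
      Pi.smul_apply, smul_eq_mul, e] at h1
    rw [L2.sum_line s p W' hW'LE, L2.sum_line s p W hW] at h1
    exact h1
  · intro a t
    have h1 := congrArg (fun q => q.2.1 (a, t)) hAA
    simp only [Prod.fst_sum, Prod.snd_sum, Finset.sum_apply, Prod.smul_fst, Prod.smul_snd,
      Pi.smul_apply, smul_eq_mul, e] at h1
    rw [L2.sum_line2 s p W' hW'LE, L2.sum_line2 s p W hW] at h1
    exact h1
  · intro b t
    have h1 := congrArg (fun q => q.2.2 (b, t)) hAA
    simp only [Prod.fst_sum, Prod.snd_sum, Finset.sum_apply, Prod.smul_fst, Prod.smul_snd,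
      Pi.smul_apply, smul_eq_mul, e] at h1
    rw [L2.sum_line3 s p W' hW'LE, L2.sum_line3 s p W hW] at h1
    exact h1
  · intro v
    have hn : ‖(⟨f, hf⟩ : K)‖ ≤ δ := by
      have h0 : ‖f‖ ≤ δ := by
        rw [pi_norm_le_iff_of_nonneg hδ0]
        intro i
        exact hδ i.1
      exact h0
    have h2 : ‖Hc ⟨f, hf⟩‖ ≤ ‖Hc‖ * δ :=
      (Hc.le_opNorm _).trans (mul_le_mul_of_nonneg_left hn Hc.opNorm_nonneg)
    by_cases h : v ∈ LBox s p
    · have h3 := hW'ι ⟨v, h⟩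
      simp only at h3
      rw [h3]
      have h4 : ‖(Hc ⟨f, hf⟩) ⟨v, h⟩‖ ≤ ‖Hc ⟨f, hf⟩‖ := norm_le_pi_norm _ _
      exact h4.trans h2
    · have : W' v = 0 := by
        simp only [W']
        rw [dif_neg h]
      rw [this, abs_zero]
      exact mul_nonneg Hc.opNorm_nonneg hδ0

/-- M2: moving a small table to the support, with a bound; `hspan` is the theorem `lm_span`
(M1, helper56) -/
theorem move_table (s p : ℕ) (hspan : ∀ Z : Finset (ℕ × ℕ × ℕ), ZP s p Z →
      ∀ P Q R : ℕ → ℕ → ℝ,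
      (∀ v, LS s p Z v → P v.1 v.2.1 + Q v.1 v.2.2 + R v.2.1 v.2.2 = 0) →
      ∃ l : ℕ × ℕ × ℕ → ℝ, ∀ v, LE s p v →
        P v.1 v.2.1 + Q v.1 v.2.2 + R v.2.1 v.2.2 = ∑ c ∈ Z, if Oct c v then l c else 0) :
    ∃ C : ℝ, 0 ≤ C ∧ ∀ Z : Finset (ℕ × ℕ × ℕ), ZP s p Z → ∀ W : ℕ × ℕ × ℕ → ℝ,
      (∀ v, ¬ LE s p v → W v = 0) →
      (∀ c ∈ Z, ∑ v ∈ LBox s p, (if Oct c v then W v else 0) = 0) →
      ∀ δ : ℝ, (∀ v, |W v| ≤ δ) → ∃ W' : ℕ × ℕ × ℕ → ℝ, (∀ v, ¬ LS s p Z v → W' v = 0) ∧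
        SameLines s p W' W ∧ ∀ v, |W' v| ≤ C * δ := by
  classical
  have key : ∀ Z : Finset (ℕ × ℕ × ℕ), ∃ C : ℝ, 0 ≤ C ∧ (ZP s p Z → ∀ W : ℕ × ℕ × ℕ → ℝ,
      (∀ v, ¬ LE s p v → W v = 0) →
      (∀ c ∈ Z, ∑ v ∈ LBox s p, (if Oct c v then W v else 0) = 0) →
      ∀ δ : ℝ, (∀ v, |W v| ≤ δ) → ∃ W' : ℕ × ℕ × ℕ → ℝ, (∀ v, ¬ LS s p Z v → W' v = 0) ∧
        SameLines s p W' W ∧ ∀ v, |W' v| ≤ C * δ) := by
    intro Z
    by_cases hZ : ZP s p Z
    · obtain ⟨C, hC, h⟩ := L2.one s p Z (hspan Z hZ)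
      exact ⟨C, hC, fun _ => h⟩
    · exact ⟨0, le_rfl, fun h => absurd h hZ⟩
  choose C hC0 hC using key
  refine ⟨∑ Z ∈ (LBox s p).powerset, C Z, Finset.sum_nonneg (fun _ _ => hC0 _), ?_⟩
  intro Z hZ W hW hO δ hδ
  obtain ⟨W', h1, h2, h3⟩ := hC Z hZ W hW hO δ hδ
  refine ⟨W', h1, h2, fun v => (h3 v).trans ?_⟩
  have hδ0 : 0 ≤ δ := (abs_nonneg _).trans (hδ (0, 0, 0))
  apply mul_le_mul_of_nonneg_right _ hδ0
  apply Finset.single_le_sum (f := C) (fun _ _ => hC0 _)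
  rw [Finset.mem_powerset]
  intro c hc
  have := hZ.box c hc
  simp only [LBox, mem_product, mem_range]
  omega

end Pool.MP_d56194_co
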