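import Mathlib
import Pool.Agent.Lib.MP_d56194_co.L.L0
import Pool.Agent.Lib.MP_d56194_co.L.L0b

set_option autoImplicit false

namespace Pool.MP_d56194_co

open Finset Real

namespace L8

section bnd

variable {M K : ℕ} {e : ℕ → ℕ}

theorem mono (h : Bnd M e K) {a b : ℕ} (hab : a ≤ b) (hb : b ≤ K) : e a ≤ e b := by
  induction b, hab using Nat.le_induction with
  | base => exact le_rfl
  | succ b hab ih => exact (ih (by omega)).trans (h.step b (by omega)).le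

theorem bk_eq (h : Bnd M e K) {k r : ℕ} (hk : k < K) (h1 : e k ≤ r) (h2 : r < e (k + 1)) :
    bk e K r = k := by
  unfold bk
  have h3 : (range K).filter (fun j => e (j + 1) ≤ r) = range k := by
    ext j
    simp only [mem_filter, mem_range]
    constructor
    · rintro ⟨hj, hj2⟩
      by_contra hcon
      have := mono h (show k + 1 ≤ j + 1 by omega) (by omega)
      omega
    · intro hj
      refine ⟨by omega, ?_⟩
      exact (mono h (show j + 1 ≤ k by omega) (by omega)).trans h1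
  rw [h3, card_range]

theorem exists_block (h : Bnd M e K) {r : ℕ} (hr : r < M) :
    ∃ k, k < K ∧ e k ≤ r ∧ r < e (k + 1) := by
  classical
  have hex : ∃ j, r < e j := ⟨K, by rw [h.last]; exact hr⟩
  have h1 := Nat.find_spec hex
  have h2 : Nat.find hex ≤ K := Nat.find_min' hex (by rw [h.last]; exact hr)
  have h3 : Nat.find hex ≠ 0 := by
    intro h0
    rw [h0, h.zero] at h1
    omega
  obtain ⟨k, hk⟩ := Nat.exists_eq_succ_of_ne_zero h3
  rw [hk] at h1 h2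
  refine ⟨k, by omega, ?_, h1⟩
  have h4 := Nat.find_min hex (m := k) (by omega)
  omega

theorem exists_block' (h : Bnd M e K) {r : ℕ} (hr : r ≤ M) :
    r = 0 ∨ ∃ k, k < K ∧ e k ≤ r ∧ r ≤ e (k + 1) := by
  rcases Nat.eq_zero_or_pos r with h0 | h0
  · exact Or.inl h0
  · obtain ⟨k, hk, h1, h2⟩ := exists_block h (r := r - 1) (by omega)
    exact Or.inr ⟨k, hk, by omega, by omega⟩

theorem sum_part (h : Bnd M e K) {a : ℕ} (ha : a ≤ K) (f : ℕ → ℝ) :
    ∑ r ∈ range (e a), f r = ∑ k ∈ range a, ∑ r ∈ Ico (e k) (e (k + 1)), f r := by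
  induction a with
  | zero => rw [h.zero]; simp
  | succ a ih =>
    rw [sum_range_succ, ← ih (by omega), range_eq_Ico, range_eq_Ico,
      Finset.sum_Ico_consecutive f (Nat.zero_le _) (mono h (Nat.le_succ a) ha)]

theorem sum_all (h : Bnd M e K) (f : ℕ → ℝ) :
    ∑ r ∈ range M, f r = ∑ k ∈ range K, ∑ r ∈ Ico (e k) (e (k + 1)), f r := by
  rw [← sum_part h le_rfl, h.last]

theorem sum_bk (h : Bnd M e K) {a : ℕ} (ha : a ≤ K) (φ : ℕ → ℝ) :
    ∑ r ∈ range (e a), φ (bk e K r) = ∑ k ∈ range a, ((e (k + 1) : ℝ) - e k) * φ k := by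
  rw [sum_part h ha]
  apply sum_congr rfl
  intro k hk
  rw [mem_range] at hk
  have h1 : ∀ r ∈ Ico (e k) (e (k + 1)), φ (bk e K r) = φ k := by
    intro r hr
    rw [mem_Ico] at hr
    rw [bk_eq h (by omega) hr.1 hr.2]
  rw [sum_congr rfl h1, sum_const, Nat.card_Ico, nsmul_eq_mul,
    Nat.cast_sub (mono h (Nat.le_succ k) (by omega))]

theorem sum_bk_all (h : Bnd M e K) (φ : ℕ → ℝ) :
    ∑ r ∈ range M, φ (bk e K r) = ∑ k ∈ range K, ((e (k + 1) : ℝ) - e k) * φ k := by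
  rw [← sum_bk h le_rfl, h.last]

theorem sum_interp (h : Bnd M e K) {k a : ℕ} (hk : k < K) (h1 : e k ≤ a) (h2 : a ≤ e (k + 1))
    (φ : ℕ → ℝ) : ∑ r ∈ range a, φ (bk e K r) =
      ∑ r ∈ range (e k), φ (bk e K r) + ((a : ℝ) - e k) * φ k := by
  rw [range_eq_Ico, ← Finset.sum_Ico_consecutive _ (Nat.zero_le _) h1, ← range_eq_Ico]
  congr 1
  have h3 : ∀ r ∈ Ico (e k) a, φ (bk e K r) = φ k := by
    intro r hr
    rw [mem_Ico] at hr
    rw [bk_eq h hk hr.1 (by omega)]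
  rw [sum_congr rfl h3, sum_const, Nat.card_Ico, nsmul_eq_mul, Nat.cast_sub h1]

theorem interp (h : Bnd M e K) {k a : ℕ} (hk : k < K) (h1 : e k ≤ a) (h2 : a ≤ e (k + 1))
    (φ : ℕ → ℝ) : ((e (k + 1) : ℝ) - e k) * ∑ r ∈ range a, φ (bk e K r) =
      ((e (k + 1) : ℝ) - a) * ∑ r ∈ range (e k), φ (bk e K r) +
        ((a : ℝ) - e k) * ∑ r ∈ range (e (k + 1)), φ (bk e K r) := by
  rw [sum_interp h hk h1 h2, sum_interp h hk (mono h (Nat.le_succ k) (by omega)) le_rfl]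
  ring

theorem len_pos (h : Bnd M e K) {k : ℕ} (hk : k < K) : (0 : ℝ) < (e (k + 1) : ℝ) - e k := by
  have := h.step k hk
  have h2 : (e k : ℝ) < e (k + 1) := by exact_mod_cast this
  linarith

end bnd

/-- bounds at the corners of the blocks suffice -/
theorem corner {M K1 K2 : ℕ} {e1 e2 : ℕ → ℕ} (h1 : Bnd M e1 K1) (h2 : Bnd M e2 K2)
    (Y U : ℕ → ℕ → ℝ)
    (hU : ∀ k a b, k < K1 → e1 k ≤ a → a ≤ e1 (k + 1) → b ≤ M →
      ((e1 (k + 1) : ℝ) - e1 k) * U a b =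
        ((e1 (k + 1) : ℝ) - a) * U (e1 k) b + ((a : ℝ) - e1 k) * U (e1 (k + 1)) b)
    (hU' : ∀ k l b, k ≤ K1 → l < K2 → e2 l ≤ b → b ≤ e2 (l + 1) →
      ((e2 (l + 1) : ℝ) - e2 l) * U (e1 k) b =
        ((e2 (l + 1) : ℝ) - b) * U (e1 k) (e2 l) + ((b : ℝ) - e2 l) * U (e1 k) (e2 (l + 1)))
    (hc : ∀ a b, a ≤ K1 → b ≤ K2 → ∑ k ∈ range a, ∑ l ∈ range b,
      ((e1 (k + 1) : ℝ) - e1 k) * (((e2 (l + 1) : ℝ) - e2 l) * Y k l) ≤ U (e1 a) (e2 b))
    (a b : ℕ) (ha : a ≤ M) (hb : b ≤ M) :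
    ∑ r ∈ range a, ∑ s ∈ range b, Y (bk e1 K1 r) (bk e2 K2 s) ≤ U a b := by
  have hcor : ∀ a b, a ≤ K1 → b ≤ K2 → ∑ r ∈ range (e1 a), ∑ s ∈ range (e2 b),
      Y (bk e1 K1 r) (bk e2 K2 s) ≤ U (e1 a) (e2 b) := by
    intro a b ha hb
    refine le_of_eq_of_le ?_ (hc a b ha hb)
    rw [sum_bk h1 ha (fun k => ∑ s ∈ range (e2 b), Y k (bk e2 K2 s))]
    apply sum_congr rfl
    intro k _
    rw [sum_bk h2 hb (fun l => Y k l), mul_sum]
  have stepA : ∀ k b, k ≤ K1 → b ≤ M → ∑ r ∈ range (e1 k), ∑ s ∈ range b,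
      Y (bk e1 K1 r) (bk e2 K2 s) ≤ U (e1 k) b := by
    intro k b hk hb
    rcases exists_block' h2 hb with h0 | ⟨l, hl, hl1, hl2⟩
    · have h3 := hcor k 0 hk (Nat.zero_le _)
      rw [h2.zero] at h3
      rw [h0]
      exact h3
    · have hlen := len_pos h2 hl
      apply le_of_mul_le_mul_left _ hlen
      rw [hU' k l b hk hl hl1 hl2, sum_comm,
        interp h2 hl hl1 hl2 (fun l => ∑ r ∈ range (e1 k), Y (bk e1 K1 r) l)]
      have c1 := hcor k l hk hl.le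
      have c2 := hcor k (l + 1) hk hl
      rw [sum_comm] at c1 c2
      have p1 : (0 : ℝ) ≤ (e2 (l + 1) : ℝ) - b := by
        have : (b : ℝ) ≤ e2 (l + 1) := by exact_mod_cast hl2
        linarith
      have p2 : (0 : ℝ) ≤ (b : ℝ) - e2 l := by
        have : (e2 l : ℝ) ≤ b := by exact_mod_cast hl1
        linarith
      exact add_le_add (mul_le_mul_of_nonneg_left c1 p1) (mul_le_mul_of_nonneg_left c2 p2)
  rcases exists_block' h1 ha with h0 | ⟨k, hk, hk1, hk2⟩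
  · have h3 := stepA 0 b (Nat.zero_le _) hb
    rw [h1.zero] at h3
    rw [h0]
    exact h3
  · have hlen := len_pos h1 hk
    apply le_of_mul_le_mul_left _ hlen
    rw [hU k a b hk hk1 hk2 hb,
      interp h1 hk hk1 hk2 (fun k => ∑ s ∈ range b, Y k (bk e2 K2 s))]
    have c1 := stepA k b hk.le hb
    have c2 := stepA (k + 1) b hk hb
    have p1 : (0 : ℝ) ≤ (e1 (k + 1) : ℝ) - a := by
      have : (a : ℝ) ≤ e1 (k + 1) := by exact_mod_cast hk2
      linarith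
    have p2 : (0 : ℝ) ≤ (a : ℝ) - e1 k := by
      have : (e1 k : ℝ) ≤ a := by exact_mod_cast hk1
      linarith
    exact add_le_add (mul_le_mul_of_nonneg_left c1 p1) (mul_le_mul_of_nonneg_left c2 p2)

/-! masses as iterated sums -/

theorem mass12 (M : ℕ) (L : V3 → ℝ) (a b : ℕ) (ha : a ≤ M) (hb : b ≤ M) :
    mass M L (fun v => v.1 < a ∧ v.2.1 < b) =
      ∑ r ∈ range a, ∑ s ∈ range b, ∑ t ∈ range M, L (r, s, t) := by
  unfold mass
  rw [sum_Box, sum_range_ite a M ha]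
  apply sum_congr rfl
  intro r _
  by_cases h1 : r < a
  · rw [if_pos h1, sum_range_ite b M hb]
    apply sum_congr rfl
    intro s _
    by_cases h2 : s < b
    · simp [h1, h2]
    · simp [h2]
  · simp [h1]

theorem mass13 (M : ℕ) (L : V3 → ℝ) (a b : ℕ) (ha : a ≤ M) (hb : b ≤ M) :
    mass M L (fun v => v.1 < a ∧ v.2.2 < b) =
      ∑ r ∈ range a, ∑ t ∈ range b, ∑ s ∈ range M, L (r, s, t) := by
  unfold mass
  rw [sum_Box, sum_range_ite a M ha]
  apply sum_congr rfl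
  intro r _
  by_cases h1 : r < a
  · rw [if_pos h1, sum_range_ite b M hb, sum_comm]
    apply sum_congr rfl
    intro t _
    by_cases h2 : t < b
    · simp [h1, h2]
    · simp [h2]
  · simp [h1]

theorem mass23 (M : ℕ) (L : V3 → ℝ) (a b : ℕ) (ha : a ≤ M) (hb : b ≤ M) :
    mass M L (fun v => v.2.1 < a ∧ v.2.2 < b) =
      ∑ s ∈ range a, ∑ t ∈ range b, ∑ r ∈ range M, L (r, s, t) := by
  rw [mass_near M L a b ha hb]
  rfl

theorem mass1 (M : ℕ) (L : V3 → ℝ) (p : ℕ) (hp : p < M) :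
    mass M L (fun v => v.1 = p) = ∑ s ∈ range M, ∑ t ∈ range M, L (p, s, t) := by
  unfold mass
  rw [sum_Box, sum_eq_single p]
  · simp
  · intro r _ hr
    simp [hr]
  · intro h
    exact absurd (mem_range.mpr hp) h

theorem mass2 (M : ℕ) (L : V3 → ℝ) (p : ℕ) (hp : p < M) :
    mass M L (fun v => v.2.1 = p) = ∑ r ∈ range M, ∑ t ∈ range M, L (r, p, t) := by
  unfold mass
  rw [sum_Box]
  apply sum_congr rfl
  intro r _
  rw [sum_eq_single p]
  · simp
  · intro s _ hs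
    simp [hs]
  · intro h
    exact absurd (mem_range.mpr hp) h

theorem mass3 (M : ℕ) (L : V3 → ℝ) (p : ℕ) (hp : p < M) :
    mass M L (fun v => v.2.2 = p) = ∑ r ∈ range M, ∑ s ∈ range M, L (r, s, p) := by
  unfold mass
  rw [sum_Box]
  apply sum_congr rfl
  intro r _
  apply sum_congr rfl
  intro s _
  rw [sum_eq_single p]
  · simp
  · intro t _ ht
    simp [ht]
  · intro h
    exact absurd (mem_range.mpr hp) h

section spread

variable {M K1 K2 K3 : ℕ} {e1 e2 e3 : ℕ → ℕ}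

theorem spr_eq (X : ℕ → ℕ → ℕ → ℝ) {r s t : ℕ} (hr : r < M) (hs : s < M) (ht : t < M) :
    spr M e1 e2 e3 K1 K2 K3 X (r, s, t) =
      X (bk e1 K1 r) (bk e2 K2 s) (bk e3 K3 t) /
        vol e1 e2 e3 (bk e1 K1 r) (bk e2 K2 s) (bk e3 K3 t) := by
  unfold spr
  rw [if_pos ((mem_Box M _).mpr ⟨hr, hs, ht⟩)]

theorem vol_pos (h1 : Bnd M e1 K1) (h2 : Bnd M e2 K2) (h3 : Bnd M e3 K3) {k l m : ℕ}
    (hk : k < K1) (hl : l < K2) (hm : m < K3) : 0 < vol e1 e2 e3 k l m :=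
  mul_pos (mul_pos (len_pos h1 hk) (len_pos h2 hl)) (len_pos h3 hm)

theorem bk_lt {K : ℕ} {e : ℕ → ℕ} (h : Bnd M e K) {r : ℕ} (hr : r < M) : bk e K r < K := by
  obtain ⟨k, hk, hk1, hk2⟩ := exists_block h hr
  rw [bk_eq h hk hk1 hk2]
  exact hk

theorem cancel (h1 : Bnd M e1 K1) (h2 : Bnd M e2 K2) (h3 : Bnd M e3 K3) {k l m : ℕ}
    (hk : k < K1) (hl : l < K2) (hm : m < K3) (x : ℝ) :
    ((e1 (k + 1) : ℝ) - e1 k) * (((e2 (l + 1) : ℝ) - e2 l) * (((e3 (m + 1) : ℝ) - e3 m) *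
      (x / vol e1 e2 e3 k l m))) = x := by
  have hv := (vol_pos h1 h2 h3 hk hl hm).ne'
  have h4 : ((e1 (k + 1) : ℝ) - e1 k) * (((e2 (l + 1) : ℝ) - e2 l) * (((e3 (m + 1) : ℝ) - e3 m) *
      (x / vol e1 e2 e3 k l m))) = vol e1 e2 e3 k l m * (x / vol e1 e2 e3 k l m) := by
    unfold vol
    ring
  rw [h4, mul_div_cancel₀ _ hv]

/-- the entropy of a spread table -/
theorem ent_spr (h1 : Bnd M e1 K1) (h2 : Bnd M e2 K2) (h3 : Bnd M e3 K3)
    (X : ℕ → ℕ → ℕ → ℝ) :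
    ∑ v ∈ Box M, negMulLog (spr M e1 e2 e3 K1 K2 K3 X v) =
      ∑ k ∈ range K1, ∑ l ∈ range K2, ∑ m ∈ range K3, vol e1 e2 e3 k l m *
        negMulLog (X k l m / vol e1 e2 e3 k l m) := by
  rw [sum_Box]
  have e : ∀ r ∈ range M, ∑ s ∈ range M, ∑ t ∈ range M,
      negMulLog (spr M e1 e2 e3 K1 K2 K3 X (r, s, t)) =
      (fun k => ∑ l ∈ range K2, ((e2 (l + 1) : ℝ) - e2 l) * ∑ m ∈ range K3,
        ((e3 (m + 1) : ℝ) - e3 m) * negMulLog (X k l m / vol e1 e2 e3 k l m))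
          (bk e1 K1 r) := by
    intro r hr
    simp only
    rw [← sum_bk_all h2 (fun l => ∑ m ∈ range K3,
        ((e3 (m + 1) : ℝ) - e3 m) * negMulLog (X (bk e1 K1 r) l m /
          vol e1 e2 e3 (bk e1 K1 r) l m))]
    apply sum_congr rfl
    intro s hs
    rw [← sum_bk_all h3 (fun m => negMulLog (X (bk e1 K1 r) (bk e2 K2 s) m /
          vol e1 e2 e3 (bk e1 K1 r) (bk e2 K2 s) m))]
    apply sum_congr rfl
    intro t ht
    rw [spr_eq X (mem_range.mp hr) (mem_range.mp hs) (mem_range.mp ht)]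
  rw [sum_congr rfl e, sum_bk_all h1 (fun k => ∑ l ∈ range K2, ((e2 (l + 1) : ℝ) - e2 l) *
    ∑ m ∈ range K3, ((e3 (m + 1) : ℝ) - e3 m) * negMulLog (X k l m / vol e1 e2 e3 k l m))]
  apply sum_congr rfl
  intro k _
  rw [mul_sum]
  apply sum_congr rfl
  intro l _
  rw [mul_sum, mul_sum]
  apply sum_congr rfl
  intro m _
  unfold vol
  ring

/-- a spread table is in the polytope -/
theorem spr_mem (d : Dat) (hg : Good M d) (ha : Aff M d e1 e2 e3 K1 K2 K3)
    (X : ℕ → ℕ → ℕ → ℝ) (hX : KB d e1 e2 e3 K1 K2 K3 X) :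
    spr M e1 e2 e3 K1 K2 K3 X ∈ KN M d := by
  have h1 := ha.b1
  have h2 := ha.b2
  have h3 := ha.b3
  have hbil : ∀ (e : ℕ → ℕ) (k a b : ℕ), ((e (k + 1) : ℝ) - e k) * ((a : ℝ) * b) =
      ((e (k + 1) : ℝ) - a) * ((e k : ℝ) * b) + ((a : ℝ) - e k) * ((e (k + 1) : ℝ) * b) := by
    intro e k a b
    ring
  have hbil' : ∀ (e : ℕ → ℕ) (l a b : ℕ), ((e (l + 1) : ℝ) - e l) * ((a : ℝ) * b) =
      ((e (l + 1) : ℝ) - b) * ((a : ℝ) * e l) + ((b : ℝ) - e l) * ((a : ℝ) * e (l + 1)) := by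
    intro e l a b
    ring
  refine ⟨?_, ?_, ?_, ?_, ?_, ?_, ?_, ?_⟩
  · rintro ⟨r, s, t⟩
    unfold spr
    split_ifs with hv
    · obtain ⟨hr, hs, ht⟩ := (mem_Box M _).mp hv
      exact div_nonneg (hX.nonneg _ _ _)
        (vol_pos h1 h2 h3 (bk_lt h1 hr) (bk_lt h2 hs) (bk_lt h3 ht)).le
    · exact le_rfl
  · intro v hv
    unfold spr
    rw [if_neg hv]
  · intro p hp
    rw [mass1 M _ p hp]
    obtain ⟨k, hk, hk1, hk2⟩ := exists_block h1 hp
    rw [ha.s1 k p hk hk1 hk2]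
    have e : ∑ s ∈ range M, ∑ t ∈ range M, spr M e1 e2 e3 K1 K2 K3 X (p, s, t) =
        ∑ l ∈ range K2, ((e2 (l + 1) : ℝ) - e2 l) * ∑ m ∈ range K3,
          ((e3 (m + 1) : ℝ) - e3 m) * (X k l m / vol e1 e2 e3 k l m) := by
      rw [← sum_bk_all h2 (fun l => ∑ m ∈ range K3,
        ((e3 (m + 1) : ℝ) - e3 m) * (X k l m / vol e1 e2 e3 k l m))]
      apply sum_congr rfl
      intro s hs
      rw [← sum_bk_all h3 (fun m => X k (bk e2 K2 s) m / vol e1 e2 e3 k (bk e2 K2 s) m)]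
      apply sum_congr rfl
      intro t ht
      rw [spr_eq X hp (mem_range.mp hs) (mem_range.mp ht), bk_eq h1 hk hk1 hk2]
    rw [e]
    apply mul_left_cancel₀ (len_pos h1 hk).ne'
    rw [← hX.m1 k hk, mul_sum]
    apply sum_congr rfl
    intro l hl
    rw [mul_sum, mul_sum]
    apply sum_congr rfl
    intro m hm
    exact cancel h1 h2 h3 hk (mem_range.mp hl) (mem_range.mp hm) _
  · intro p hp
    rw [mass2 M _ p hp]
    obtain ⟨l, hl, hl1, hl2⟩ := exists_block h2 hp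
    rw [ha.s2 l p hl hl1 hl2]
    have e : ∑ r ∈ range M, ∑ t ∈ range M, spr M e1 e2 e3 K1 K2 K3 X (r, p, t) =
        ∑ k ∈ range K1, ((e1 (k + 1) : ℝ) - e1 k) * ∑ m ∈ range K3,
          ((e3 (m + 1) : ℝ) - e3 m) * (X k l m / vol e1 e2 e3 k l m) := by
      rw [← sum_bk_all h1 (fun k => ∑ m ∈ range K3,
        ((e3 (m + 1) : ℝ) - e3 m) * (X k l m / vol e1 e2 e3 k l m))]
      apply sum_congr rfl
      intro r hr
      rw [← sum_bk_all h3 (fun m => X (bk e1 K1 r) l m / vol e1 e2 e3 (bk e1 K1 r) l m)]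
      apply sum_congr rfl
      intro t ht
      rw [spr_eq X (mem_range.mp hr) hp (mem_range.mp ht), bk_eq h2 hl hl1 hl2]
    rw [e]
    apply mul_left_cancel₀ (len_pos h2 hl).ne'
    rw [← hX.m2 l hl, mul_sum]
    apply sum_congr rfl
    intro k hk
    rw [mul_sum, mul_sum]
    apply sum_congr rfl
    intro m hm
    refine Eq.trans ?_ (cancel h1 h2 h3 (mem_range.mp hk) hl (mem_range.mp hm) (X k l m))
    ring
  · intro p hp
    rw [mass3 M _ p hp]
    obtain ⟨m, hm, hm1, hm2⟩ := exists_block h3 hp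
    rw [ha.s3 m p hm hm1 hm2]
    have e : ∑ r ∈ range M, ∑ s ∈ range M, spr M e1 e2 e3 K1 K2 K3 X (r, s, p) =
        ∑ k ∈ range K1, ((e1 (k + 1) : ℝ) - e1 k) * ∑ l ∈ range K2,
          ((e2 (l + 1) : ℝ) - e2 l) * (X k l m / vol e1 e2 e3 k l m) := by
      rw [← sum_bk_all h1 (fun k => ∑ l ∈ range K2,
        ((e2 (l + 1) : ℝ) - e2 l) * (X k l m / vol e1 e2 e3 k l m))]
      apply sum_congr rfl
      intro r hr
      rw [← sum_bk_all h2 (fun l => X (bk e1 K1 r) l m / vol e1 e2 e3 (bk e1 K1 r) l m)]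
      apply sum_congr rfl
      intro s hs
      rw [spr_eq X (mem_range.mp hr) (mem_range.mp hs) hp, bk_eq h3 hm hm1 hm2]
    rw [e]
    apply mul_left_cancel₀ (len_pos h3 hm).ne'
    rw [← hX.m3 m hm, mul_sum]
    apply sum_congr rfl
    intro k hk
    rw [mul_sum, mul_sum]
    apply sum_congr rfl
    intro l hl
    refine Eq.trans ?_ (cancel h1 h2 h3 (mem_range.mp hk) (mem_range.mp hl) hm (X k l m))
    ring
  · intro a b haM hbM
    rw [mass12 M _ a b haM hbM]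
    have e : ∑ r ∈ range a, ∑ s ∈ range b, ∑ t ∈ range M,
        spr M e1 e2 e3 K1 K2 K3 X (r, s, t) =
        ∑ r ∈ range a, ∑ s ∈ range b, (fun k l => ∑ m ∈ range K3,
          ((e3 (m + 1) : ℝ) - e3 m) * (X k l m / vol e1 e2 e3 k l m))
            (bk e1 K1 r) (bk e2 K2 s) := by
      apply sum_congr rfl
      intro r hr
      apply sum_congr rfl
      intro s hs
      simp only
      rw [← sum_bk_all h3 (fun m => X (bk e1 K1 r) (bk e2 K2 s) m /
        vol e1 e2 e3 (bk e1 K1 r) (bk e2 K2 s) m)]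
      apply sum_congr rfl
      intro t ht
      rw [mem_range] at hr hs ht
      rw [spr_eq X (by omega) (by omega) ht]
    rw [e]
    refine corner h1 h2 (fun k l => ∑ m ∈ range K3,
      ((e3 (m + 1) : ℝ) - e3 m) * (X k l m / vol e1 e2 e3 k l m)) d.U12 ha.a12 ha.a12' ?_
      a b haM hbM
    intro a b ha' hb'
    refine le_of_eq_of_le ?_ (hX.u12 a b ha' hb')
    apply sum_congr rfl
    intro k hk
    apply sum_congr rfl
    intro l hl
    rw [mul_sum, mul_sum]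
    apply sum_congr rfl
    intro m hm
    rw [mem_range] at hk hl hm
    exact cancel h1 h2 h3 (by omega) (by omega) hm _
  · intro a c haM hcM
    rw [mass13 M _ a c haM hcM]
    have e : ∑ r ∈ range a, ∑ t ∈ range c, ∑ s ∈ range M,
        spr M e1 e2 e3 K1 K2 K3 X (r, s, t) =
        ∑ r ∈ range a, ∑ t ∈ range c, (fun k m => ∑ l ∈ range K2,
          ((e2 (l + 1) : ℝ) - e2 l) * (X k l m / vol e1 e2 e3 k l m))
            (bk e1 K1 r) (bk e3 K3 t) := by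
      apply sum_congr rfl
      intro r hr
      apply sum_congr rfl
      intro t ht
      simp only
      rw [← sum_bk_all h2 (fun l => X (bk e1 K1 r) l (bk e3 K3 t) /
        vol e1 e2 e3 (bk e1 K1 r) l (bk e3 K3 t))]
      apply sum_congr rfl
      intro s hs
      rw [mem_range] at hr hs ht
      rw [spr_eq X (by omega) hs (by omega)]
    rw [e]
    refine corner h1 h3 (fun k m => ∑ l ∈ range K2,
      ((e2 (l + 1) : ℝ) - e2 l) * (X k l m / vol e1 e2 e3 k l m)) d.U13 ?_ ?_ ?_ a c haM hcM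
    · intro k a b _ _ _ _
      rw [hg.h13, hg.h13, hg.h13]
      exact hbil e1 k a b
    · intro k l b _ _ _ _
      rw [hg.h13, hg.h13, hg.h13]
      exact hbil' e3 l (e1 k) b
    · intro a c ha' hc'
      refine le_of_eq_of_le ?_ (hX.u13 a c ha' hc')
      apply sum_congr rfl
      intro k hk
      rw [sum_comm]
      apply sum_congr rfl
      intro m hm
      rw [mul_sum, mul_sum]
      apply sum_congr rfl
      intro l hl
      rw [mem_range] at hk hl hm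
      refine Eq.trans ?_ (cancel h1 h2 h3 (k := k) (l := l) (m := m) (by omega) (by omega)
        (by omega) (X k l m))
      ring
  · intro b c hbM hcM
    rw [mass23 M _ b c hbM hcM]
    have e : ∑ s ∈ range b, ∑ t ∈ range c, ∑ r ∈ range M,
        spr M e1 e2 e3 K1 K2 K3 X (r, s, t) =
        ∑ s ∈ range b, ∑ t ∈ range c, (fun l m => ∑ k ∈ range K1,
          ((e1 (k + 1) : ℝ) - e1 k) * (X k l m / vol e1 e2 e3 k l m))
            (bk e2 K2 s) (bk e3 K3 t) := by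
      apply sum_congr rfl
      intro s hs
      apply sum_congr rfl
      intro t ht
      simp only
      rw [← sum_bk_all h1 (fun k => X k (bk e2 K2 s) (bk e3 K3 t) /
        vol e1 e2 e3 k (bk e2 K2 s) (bk e3 K3 t))]
      apply sum_congr rfl
      intro r hr
      rw [mem_range] at hr hs ht
      rw [spr_eq X hr (by omega) (by omega)]
    rw [e]
    refine corner h2 h3 (fun l m => ∑ k ∈ range K1,
      ((e1 (k + 1) : ℝ) - e1 k) * (X k l m / vol e1 e2 e3 k l m)) d.U23 ?_ ?_ ?_ b c hbM hcM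
    · intro k a b _ _ _ _
      rw [hg.h23, hg.h23, hg.h23]
      exact hbil e2 k a b
    · intro k l b _ _ _ _
      rw [hg.h23, hg.h23, hg.h23]
      exact hbil' e3 l (e2 k) b
    · intro b c hb' hc'
      refine le_of_eq_of_le ?_ (hX.u23 b c hb' hc')
      rw [sum_comm (s := range K1)]
      apply sum_congr rfl
      intro l hl
      rw [sum_comm (s := range K1)]
      apply sum_congr rfl
      intro m hm
      rw [mul_sum, mul_sum]
      apply sum_congr rfl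
      intro k hk
      rw [mem_range] at hk hl hm
      refine Eq.trans ?_ (cancel h1 h2 h3 (k := k) (l := l) (m := m) (by omega) (by omega)
        (by omega) (X k l m))
      ring

/-- block sums -/
noncomputable def bs (e1 e2 e3 : ℕ → ℕ) (L : V3 → ℝ) (k l m : ℕ) : ℝ :=
  ∑ r ∈ Ico (e1 k) (e1 (k + 1)), ∑ s ∈ Ico (e2 l) (e2 (l + 1)),
    ∑ t ∈ Ico (e3 m) (e3 (m + 1)), L (r, s, t)

theorem bs_mem (d : Dat) (ha : Aff M d e1 e2 e3 K1 K2 K3) (L : V3 → ℝ) (hL : L ∈ KN M d) :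
    KB d e1 e2 e3 K1 K2 K3 (bs e1 e2 e3 L) := by
  have h1 := ha.b1
  have h2 := ha.b2
  have h3 := ha.b3
  obtain ⟨hL0, hLz, hL1, hL2, hL3, hL12, hL13, hL23⟩ := hL
  refine ⟨?_, ?_, ?_, ?_, ?_, ?_, ?_⟩
  · intro k l m
    exact sum_nonneg fun _ _ => sum_nonneg fun _ _ => sum_nonneg fun _ _ => hL0 _
  · intro k hk
    have e : ∑ l ∈ range K2, ∑ m ∈ range K3, bs e1 e2 e3 L k l m =
        ∑ r ∈ Ico (e1 k) (e1 (k + 1)), ∑ s ∈ range M, ∑ t ∈ range M, L (r, s, t) := by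
      unfold bs
      have e' : ∀ l ∈ range K2, ∑ m ∈ range K3, ∑ r ∈ Ico (e1 k) (e1 (k + 1)),
          ∑ s ∈ Ico (e2 l) (e2 (l + 1)), ∑ t ∈ Ico (e3 m) (e3 (m + 1)), L (r, s, t) =
          ∑ r ∈ Ico (e1 k) (e1 (k + 1)), ∑ s ∈ Ico (e2 l) (e2 (l + 1)),
            ∑ t ∈ range M, L (r, s, t) := by
        intro l _
        rw [sum_comm]
        apply sum_congr rfl
        intro r _
        rw [sum_comm]
        apply sum_congr rfl
        intro s _
        rw [sum_all h3]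
      rw [sum_congr rfl e', sum_comm]
      apply sum_congr rfl
      intro r _
      rw [sum_all h2]
    rw [e]
    have e2' : ∀ r ∈ Ico (e1 k) (e1 (k + 1)), ∑ s ∈ range M, ∑ t ∈ range M, L (r, s, t) =
        d.S1 (e1 k) := by
      intro r hr
      rw [mem_Ico] at hr
      have hrM : r < M := by
        have := mono h1 (show k + 1 ≤ K1 by omega) le_rfl
        rw [h1.last] at this
        omega
      rw [← mass1 M L r hrM, hL1 r hrM, ha.s1 k r hk hr.1 hr.2]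
    rw [sum_congr rfl e2', sum_const, Nat.card_Ico, nsmul_eq_mul,
      Nat.cast_sub (mono h1 (Nat.le_succ k) (by omega))]
  · intro l hl
    have e : ∑ k ∈ range K1, ∑ m ∈ range K3, bs e1 e2 e3 L k l m =
        ∑ s ∈ Ico (e2 l) (e2 (l + 1)), ∑ r ∈ range M, ∑ t ∈ range M, L (r, s, t) := by
      unfold bs
      have e' : ∀ k ∈ range K1, ∑ m ∈ range K3, ∑ r ∈ Ico (e1 k) (e1 (k + 1)),
          ∑ s ∈ Ico (e2 l) (e2 (l + 1)), ∑ t ∈ Ico (e3 m) (e3 (m + 1)), L (r, s, t) =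
          ∑ s ∈ Ico (e2 l) (e2 (l + 1)), ∑ r ∈ Ico (e1 k) (e1 (k + 1)),
            ∑ t ∈ range M, L (r, s, t) := by
        intro k _
        rw [sum_comm, sum_comm (s := Ico (e2 l) (e2 (l + 1)))]
        apply sum_congr rfl
        intro r _
        rw [sum_comm]
        apply sum_congr rfl
        intro s _
        rw [sum_all h3]
      rw [sum_congr rfl e', sum_comm]
      apply sum_congr rfl
      intro s _
      rw [sum_all h1]
    rw [e]
    have e2' : ∀ s ∈ Ico (e2 l) (e2 (l + 1)), ∑ r ∈ range M, ∑ t ∈ range M, L (r, s, t) =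
        d.S2 (e2 l) := by
      intro s hs
      rw [mem_Ico] at hs
      have hsM : s < M := by
        have := mono h2 (show l + 1 ≤ K2 by omega) le_rfl
        rw [h2.last] at this
        omega
      rw [← mass2 M L s hsM, hL2 s hsM, ha.s2 l s hl hs.1 hs.2]
    rw [sum_congr rfl e2', sum_const, Nat.card_Ico, nsmul_eq_mul,
      Nat.cast_sub (mono h2 (Nat.le_succ l) (by omega))]
  · intro m hm
    have e : ∑ k ∈ range K1, ∑ l ∈ range K2, bs e1 e2 e3 L k l m =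
        ∑ t ∈ Ico (e3 m) (e3 (m + 1)), ∑ r ∈ range M, ∑ s ∈ range M, L (r, s, t) := by
      unfold bs
      have e' : ∀ k ∈ range K1, ∑ l ∈ range K2, ∑ r ∈ Ico (e1 k) (e1 (k + 1)),
          ∑ s ∈ Ico (e2 l) (e2 (l + 1)), ∑ t ∈ Ico (e3 m) (e3 (m + 1)), L (r, s, t) =
          ∑ t ∈ Ico (e3 m) (e3 (m + 1)), ∑ r ∈ Ico (e1 k) (e1 (k + 1)),
            ∑ s ∈ range M, L (r, s, t) := by
        intro k _
        rw [sum_comm, sum_comm (s := Ico (e3 m) (e3 (m + 1)))]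
        apply sum_congr rfl
        intro r _
        rw [← sum_all h2 (fun s => ∑ t ∈ Ico (e3 m) (e3 (m + 1)), L (r, s, t)), sum_comm]
      rw [sum_congr rfl e', sum_comm]
      apply sum_congr rfl
      intro t _
      rw [sum_all h1]
    rw [e]
    have e2' : ∀ t ∈ Ico (e3 m) (e3 (m + 1)), ∑ r ∈ range M, ∑ s ∈ range M, L (r, s, t) =
        d.S3 (e3 m) := by
      intro t ht
      rw [mem_Ico] at ht
      have htM : t < M := by
        have := mono h3 (show m + 1 ≤ K3 by omega) le_rfl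
        rw [h3.last] at this
        omega
      rw [← mass3 M L t htM, hL3 t htM, ha.s3 m t hm ht.1 ht.2]
    rw [sum_congr rfl e2', sum_const, Nat.card_Ico, nsmul_eq_mul,
      Nat.cast_sub (mono h3 (Nat.le_succ m) (by omega))]
  · intro a b ha' hb'
    have hM1 : e1 a ≤ M := by
      rw [← h1.last]
      exact mono h1 ha' le_rfl
    have hM2 : e2 b ≤ M := by
      rw [← h2.last]
      exact mono h2 hb' le_rfl
    refine le_of_eq_of_le ?_ (hL12 (e1 a) (e2 b) hM1 hM2)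
    rw [mass12 M L _ _ hM1 hM2, sum_part h1 ha']
    apply sum_congr rfl
    intro k _
    unfold bs
    have e' : ∀ l ∈ range b, ∑ m ∈ range K3, ∑ r ∈ Ico (e1 k) (e1 (k + 1)),
        ∑ s ∈ Ico (e2 l) (e2 (l + 1)), ∑ t ∈ Ico (e3 m) (e3 (m + 1)), L (r, s, t) =
        ∑ r ∈ Ico (e1 k) (e1 (k + 1)), ∑ s ∈ Ico (e2 l) (e2 (l + 1)),
          ∑ t ∈ range M, L (r, s, t) := by
      intro l _
      rw [sum_comm]
      apply sum_congr rfl
      intro r _
      rw [sum_comm]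
      apply sum_congr rfl
      intro s _
      rw [sum_all h3]
    rw [sum_congr rfl e', sum_comm]
    apply sum_congr rfl
    intro r _
    rw [sum_part h2 hb']
  · intro a c ha' hc'
    have hM1 : e1 a ≤ M := by
      rw [← h1.last]
      exact mono h1 ha' le_rfl
    have hM3 : e3 c ≤ M := by
      rw [← h3.last]
      exact mono h3 hc' le_rfl
    refine le_of_eq_of_le ?_ (hL13 (e1 a) (e3 c) hM1 hM3)
    rw [mass13 M L _ _ hM1 hM3, sum_part h1 ha']
    apply sum_congr rfl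
    intro k _
    unfold bs
    have e' : ∀ l ∈ range K2, ∑ m ∈ range c, ∑ r ∈ Ico (e1 k) (e1 (k + 1)),
        ∑ s ∈ Ico (e2 l) (e2 (l + 1)), ∑ t ∈ Ico (e3 m) (e3 (m + 1)), L (r, s, t) =
        ∑ r ∈ Ico (e1 k) (e1 (k + 1)), ∑ s ∈ Ico (e2 l) (e2 (l + 1)),
          ∑ t ∈ range (e3 c), L (r, s, t) := by
      intro l _
      rw [sum_comm]
      apply sum_congr rfl
      intro r _
      rw [sum_comm]
      apply sum_congr rfl
      intro s _
      rw [sum_part h3 hc']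
    rw [sum_congr rfl e', sum_comm]
    apply sum_congr rfl
    intro r _
    rw [← sum_all h2 (fun s => ∑ t ∈ range (e3 c), L (r, s, t)), sum_comm]
  · intro b c hb' hc'
    have hM2 : e2 b ≤ M := by
      rw [← h2.last]
      exact mono h2 hb' le_rfl
    have hM3 : e3 c ≤ M := by
      rw [← h3.last]
      exact mono h3 hc' le_rfl
    refine le_of_eq_of_le ?_ (hL23 (e2 b) (e3 c) hM2 hM3)
    rw [mass23 M L _ _ hM2 hM3]
    have e' : ∀ k ∈ range K1, ∑ l ∈ range b, ∑ m ∈ range c, bs e1 e2 e3 L k l m =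
        ∑ r ∈ Ico (e1 k) (e1 (k + 1)), ∑ s ∈ range (e2 b), ∑ t ∈ range (e3 c), L (r, s, t) := by
      intro k _
      unfold bs
      have e'' : ∀ l ∈ range b, ∑ m ∈ range c, ∑ r ∈ Ico (e1 k) (e1 (k + 1)),
          ∑ s ∈ Ico (e2 l) (e2 (l + 1)), ∑ t ∈ Ico (e3 m) (e3 (m + 1)), L (r, s, t) =
          ∑ r ∈ Ico (e1 k) (e1 (k + 1)), ∑ s ∈ Ico (e2 l) (e2 (l + 1)),
            ∑ t ∈ range (e3 c), L (r, s, t) := by
        intro l _
        rw [sum_comm]
        apply sum_congr rfl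
        intro r _
        rw [sum_comm]
        apply sum_congr rfl
        intro s _
        rw [sum_part h3 hc']
      rw [sum_congr rfl e'', sum_comm]
      apply sum_congr rfl
      intro r _
      rw [sum_part h2 hb']
    rw [sum_congr rfl e', ← sum_all h1 (fun r => ∑ s ∈ range (e2 b), ∑ t ∈ range (e3 c),
      L (r, s, t)), sum_comm]
    apply sum_congr rfl
    intro s _
    rw [sum_comm]

/-- Jensen's inequality on the blocks -/
theorem ent_le (h1 : Bnd M e1 K1) (h2 : Bnd M e2 K2) (h3 : Bnd M e3 K3) (L : V3 → ℝ)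
    (hL : ∀ v, 0 ≤ L v) :
    ∑ v ∈ Box M, negMulLog (L v) ≤
      ∑ k ∈ range K1, ∑ l ∈ range K2, ∑ m ∈ range K3, vol e1 e2 e3 k l m *
        negMulLog (bs e1 e2 e3 L k l m / vol e1 e2 e3 k l m) := by
  rw [sum_Box, sum_all h1]
  apply sum_le_sum
  intro k hk
  have e : ∑ r ∈ Ico (e1 k) (e1 (k + 1)), ∑ s ∈ range M, ∑ t ∈ range M,
      negMulLog (L (r, s, t)) =
      ∑ l ∈ range K2, ∑ m ∈ range K3, ∑ r ∈ Ico (e1 k) (e1 (k + 1)),
        ∑ s ∈ Ico (e2 l) (e2 (l + 1)), ∑ t ∈ Ico (e3 m) (e3 (m + 1)),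
          negMulLog (L (r, s, t)) := by
    have e' : ∀ l ∈ range K2, ∑ m ∈ range K3, ∑ r ∈ Ico (e1 k) (e1 (k + 1)),
        ∑ s ∈ Ico (e2 l) (e2 (l + 1)), ∑ t ∈ Ico (e3 m) (e3 (m + 1)),
          negMulLog (L (r, s, t)) =
        ∑ r ∈ Ico (e1 k) (e1 (k + 1)), ∑ s ∈ Ico (e2 l) (e2 (l + 1)),
          ∑ t ∈ range M, negMulLog (L (r, s, t)) := by
      intro l _
      rw [sum_comm]
      apply sum_congr rfl
      intro r _
      rw [sum_comm]
      apply sum_congr rfl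
      intro s _
      rw [sum_all h3]
    rw [sum_congr rfl e', sum_comm (s := range K2)]
    apply sum_congr rfl
    intro r _
    rw [sum_all h2]
  rw [e]
  apply sum_le_sum
  intro l hl
  apply sum_le_sum
  intro m hm
  rw [mem_range] at hk hl hm
  have hv := vol_pos h1 h2 h3 hk hl hm
  have hcard : (((Ico (e1 k) (e1 (k + 1))) ×ˢ (Ico (e2 l) (e2 (l + 1))) ×ˢ
      (Ico (e3 m) (e3 (m + 1)))).card : ℝ) = vol e1 e2 e3 k l m := by
    rw [card_product, card_product, Nat.card_Ico, Nat.card_Ico, Nat.card_Ico]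
    push_cast
    rw [Nat.cast_sub (mono h1 (Nat.le_succ k) (by omega)),
      Nat.cast_sub (mono h2 (Nat.le_succ l) (by omega)),
      Nat.cast_sub (mono h3 (Nat.le_succ m) (by omega))]
    unfold vol
    ring
  have hJ := Real.concaveOn_negMulLog.le_map_sum
    (t := (Ico (e1 k) (e1 (k + 1))) ×ˢ (Ico (e2 l) (e2 (l + 1))) ×ˢ (Ico (e3 m) (e3 (m + 1))))
    (w := fun _ => (vol e1 e2 e3 k l m)⁻¹) (p := L)
    (fun _ _ => (inv_pos.mpr hv).le)
    (by rw [sum_const, nsmul_eq_mul, hcard, mul_inv_cancel₀ hv.ne'])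
    (fun v _ => hL v)
  simp only [smul_eq_mul] at hJ
  rw [← mul_sum, ← mul_sum] at hJ
  have hs : ∀ f : V3 → ℝ, ∑ v ∈ (Ico (e1 k) (e1 (k + 1))) ×ˢ (Ico (e2 l) (e2 (l + 1))) ×ˢ
      (Ico (e3 m) (e3 (m + 1))), f v = ∑ r ∈ Ico (e1 k) (e1 (k + 1)),
        ∑ s ∈ Ico (e2 l) (e2 (l + 1)), ∑ t ∈ Ico (e3 m) (e3 (m + 1)), f (r, s, t) := by
    intro f
    rw [sum_product]
    apply sum_congr rfl
    intro r _
    rw [sum_product]
  rw [hs, hs] at hJ
  have h5 := mul_le_mul_of_nonneg_left hJ hv.le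
  rw [← mul_assoc, mul_inv_cancel₀ hv.ne', one_mul] at h5
  refine h5.trans (le_of_eq ?_)
  congr 2
  unfold bs
  rw [div_eq_inv_mul]

theorem KB_convex (d : Dat) (X X' : ℕ → ℕ → ℕ → ℝ) (h : KB d e1 e2 e3 K1 K2 K3 X)
    (h' : KB d e1 e2 e3 K1 K2 K3 X') (ε : ℝ) (h0 : 0 ≤ ε) (h1 : ε ≤ 1) :
    KB d e1 e2 e3 K1 K2 K3 (fun k l m => (1 - ε) * X k l m + ε * X' k l m) := by
  have e : ∀ (A B C : Finset ℕ) (f f' : ℕ → ℕ → ℕ → ℝ),
      ∑ k ∈ A, ∑ l ∈ B, ∑ m ∈ C, ((1 - ε) * f k l m + ε * f' k l m) =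
        (1 - ε) * ∑ k ∈ A, ∑ l ∈ B, ∑ m ∈ C, f k l m +
          ε * ∑ k ∈ A, ∑ l ∈ B, ∑ m ∈ C, f' k l m := by
    intro A B C f f'
    simp only [mul_sum, ← sum_add_distrib]
  have e2 : ∀ (A B : Finset ℕ) (f f' : ℕ → ℕ → ℝ),
      ∑ k ∈ A, ∑ l ∈ B, ((1 - ε) * f k l + ε * f' k l) =
        (1 - ε) * ∑ k ∈ A, ∑ l ∈ B, f k l + ε * ∑ k ∈ A, ∑ l ∈ B, f' k l := by
    intro A B f f'
    simp only [mul_sum, ← sum_add_distrib]
  have hε : 0 ≤ 1 - ε := by linarith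
  refine ⟨?_, ?_, ?_, ?_, ?_, ?_, ?_⟩
  · intro k l m
    exact add_nonneg (mul_nonneg hε (h.nonneg k l m)) (mul_nonneg h0 (h'.nonneg k l m))
  · intro k hk
    rw [e2 _ _ (fun l m => X k l m) (fun l m => X' k l m), h.m1 k hk, h'.m1 k hk]
    ring
  · intro l hl
    rw [e2 _ _ (fun k m => X k l m) (fun k m => X' k l m), h.m2 l hl, h'.m2 l hl]
    ring
  · intro m hm
    rw [e2 _ _ (fun k l => X k l m) (fun k l => X' k l m), h.m3 m hm, h'.m3 m hm]
    ring
  · intro a b ha hb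
    rw [e]
    have p := mul_le_mul_of_nonneg_left (h.u12 a b ha hb) hε
    have p' := mul_le_mul_of_nonneg_left (h'.u12 a b ha hb) h0
    linarith
  · intro a b ha hb
    rw [e]
    have p := mul_le_mul_of_nonneg_left (h.u13 a b ha hb) hε
    have p' := mul_le_mul_of_nonneg_left (h'.u13 a b ha hb) h0
    linarith
  · intro a b ha hb
    rw [e]
    have p := mul_le_mul_of_nonneg_left (h.u23 a b ha hb) hε
    have p' := mul_le_mul_of_nonneg_left (h'.u23 a b ha hb) h0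
    linarith

end spread

end L8

/-- M8: the block averages of a maximiser of the entropy -/
theorem block_max (M : ℕ) (d : Dat) (e1 e2 e3 : ℕ → ℕ) (K1 K2 K3 : ℕ) (hg : Good M d)
    (ha : Aff M d e1 e2 e3 K1 K2 K3) (L : V3 → ℝ) (hL : IsMaxN M d L) :
    ∃ X : ℕ → ℕ → ℕ → ℝ, KB d e1 e2 e3 K1 K2 K3 X ∧ IsMaxN M d (spr M e1 e2 e3 K1 K2 K3 X) ∧
      ∀ X' : ℕ → ℕ → ℕ → ℝ, KB d e1 e2 e3 K1 K2 K3 X' → ∀ ε : ℝ, 0 < ε → ε < 1 →
        ∑ k ∈ range K1, ∑ l ∈ range K2, ∑ m ∈ range K3, vol e1 e2 e3 k l m *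
            negMulLog (((1 - ε) * X k l m + ε * X' k l m) / vol e1 e2 e3 k l m) ≤
          ∑ k ∈ range K1, ∑ l ∈ range K2, ∑ m ∈ range K3, vol e1 e2 e3 k l m *
            negMulLog (X k l m / vol e1 e2 e3 k l m) := by
  have hKB := L8.bs_mem d ha L hL.1
  have hmax : IsMaxN M d (spr M e1 e2 e3 K1 K2 K3 (L8.bs e1 e2 e3 L)) := by
    refine ⟨L8.spr_mem d hg ha _ hKB, ?_⟩
    intro L' hL'
    refine (hL.2 L' hL').trans ?_
    rw [L8.ent_spr ha.b1 ha.b2 ha.b3]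
    exact L8.ent_le ha.b1 ha.b2 ha.b3 L hL.1.1
  refine ⟨L8.bs e1 e2 e3 L, hKB, hmax, ?_⟩
  intro X' hX' ε h0 h1
  have h2 := hmax.2 _ (L8.spr_mem d hg ha _ (L8.KB_convex d _ X' hKB hX' ε h0.le h1.le))
  rw [L8.ent_spr ha.b1 ha.b2 ha.b3, L8.ent_spr ha.b1 ha.b2 ha.b3] at h2
  exact h2

end Pool.MP_d56194_co
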