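import Mathlib
import Pool.Agent.Lib.MP_d56194_co.L.L0c
import Pool.Agent.Lib.MP_d56194_co.L.L8
import Pool.Agent.Lib.MP_d56194_co.L.L17

set_option autoImplicit false

namespace Pool.MP_d56194_co

open Finset Real

namespace L21

theorem cs_succ (g : ℕ → ℕ) (k : ℕ) : cs g (k + 1) = cs g k + g (k + 1) := by
  unfold cs
  rw [Finset.sum_range_succ]

theorem bnd_cs (s : ℕ) (g : ℕ → ℕ) (hg : ∀ i, 1 ≤ i → i ≤ s → 0 < g i) :
    Bnd (cs g s) (cs g) s :=
  ⟨rfl, fun _ hk => L17.cs_lt s g hg hk, rfl⟩

/-- sums of functions of the row length over the first row blocks -/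
theorem sum_rows (s : ℕ) (g h lam : ℕ → ℕ) (hS : Shp s g h lam)
    (hg : ∀ i, 1 ≤ i → i ≤ s → 0 < g i) (f : ℕ → ℝ) {a : ℕ} (ha : a ≤ s) :
    ∑ i ∈ range (cs g a), f (lam i) = ∑ k ∈ range a, (g (k + 1) : ℝ) * f (cs h (s - k)) := by
  rw [L8.sum_part (bnd_cs s g hg) ha]
  apply sum_congr rfl
  intro k hk
  rw [mem_range] at hk
  have h1 : ∀ r ∈ Ico (cs g k) (cs g (k + 1)), f (lam r) = f (cs h (s - k)) := by
    intro r hr
    rw [mem_Ico] at hr
    rw [hS.blk k r (by omega) hr.1 hr.2]
  rw [sum_congr rfl h1, sum_const, Nat.card_Ico, nsmul_eq_mul, cs_succ, Nat.add_sub_cancel_left]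

theorem sum_ind (b c : ℕ) : ∑ x ∈ range b, (if x < c then (1 : ℝ) else 0) = (min c b : ℕ) := by
  rw [Finset.sum_boole]
  congr 1
  have h1 : (range b).filter (fun x => x < c) = range (min c b) := by
    ext x
    simp only [mem_filter, mem_range, lt_min_iff]
    tauto
  rw [h1, card_range]

/-- the sum over a larger range of a function with support in the smaller one -/
theorem sum_cut (f : ℕ → ℝ) (s a : ℕ) (h : ∀ k, s ≤ k → f k = 0) :
    ∑ k ∈ range a, f k = ∑ k ∈ range (min a s), f k := by
  symm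
  apply sum_subset (range_mono (min_le_left _ _))
  intro k hk hk'
  rw [mem_range] at hk hk'
  exact h k (by omega)

end L21

open L21 in
/-- M21: a block table with exact sums is in the block polytope of `dd` -/
theorem kb_of (s M P q : ℕ) (g h lam S T be : ℕ → ℕ) (hS : Shp s g h lam)
    (hg : ∀ i, 1 ≤ i → i ≤ s → 0 < g i) (hh : ∀ i, 1 ≤ i → i ≤ s → 0 < h i)
    (hM1 : cs g s < M) (hM2 : cs h s < M) (hT : Bnd M T P)
    (hTS : ∀ φ t, φ < P → T φ ≤ t → t < T (φ + 1) → S t = S (T φ))
    (hbe : ∀ c, ∑ t ∈ range c, S t = be c) (X : ℕ → ℕ → ℕ → ℝ)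
    (x0 : ∀ k l m, 0 ≤ X k l m) (x1 : ∀ k l m, X k l m ≠ 0 → k < s ∧ l < s ∧ m < P)
    (x2 : ∀ k, k < s → ∑ l ∈ range s, ∑ m ∈ range P, X k l m =
      (q : ℝ) * g (k + 1) * cs h (s - k))
    (x3 : ∀ m, m < P → ∑ k ∈ range s, ∑ l ∈ range s, X k l m =
      (be (T (m + 1)) : ℝ) - be (T m))
    (x4 : ∀ a b, a ≤ s → b ≤ s → ∑ k ∈ range a, ∑ l ∈ range b, ∑ m ∈ range P, X k l m =
        ∑ k ∈ range a, (q : ℝ) * g (k + 1) * (min (cs h (s - k)) (cs h b) : ℕ))
    (x5 : ∀ a c, a ≤ s → c ≤ P → ∑ k ∈ range a, ∑ l ∈ range s, ∑ m ∈ range c, X k l m ≤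
        (T c : ℝ) * cs g a)
    (x6 : ∀ b c, b ≤ s → c ≤ P → ∑ k ∈ range s, ∑ l ∈ range b, ∑ m ∈ range c, X k l m ≤
        (T c : ℝ) * cs h b) :
    KB (dd q M lam S) (eb s M g) (eb s M h) T (s + 1) (s + 1) P X := by
  have zk : ∀ k l m, s ≤ k → X k l m = 0 := by
    intro k l m hk
    by_contra hne
    have := (x1 k l m hne).1
    omega
  have zl : ∀ k l m, s ≤ l → X k l m = 0 := by
    intro k l m hl
    by_contra hne
    have := (x1 k l m hne).2.1
    omega
  have ebs : ∀ (g : ℕ → ℕ) (k : ℕ), k ≤ s → eb s M g k = cs g k := by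
    intro g k hk
    unfold eb
    rw [if_pos hk]
  -- cutting the ranges
  have cutl : ∀ (b : ℕ) (f : ℕ → ℝ), (∀ l, s ≤ l → f l = 0) →
      ∑ l ∈ range b, f l = ∑ l ∈ range (min b s), f l := fun b f hf => sum_cut f s b hf
  have eble : ∀ (g : ℕ → ℕ), cs g s < M → ∀ a, a ≤ s + 1 → cs g (min a s) ≤ eb s M g a := by
    intro g hgM a ha
    by_cases h1 : a ≤ s
    · rw [ebs g a h1, min_eq_left h1]
    · unfold eb
      rw [if_neg h1, min_eq_right (by omega)]
      exact hgM.le
  refine ⟨x0, ?_, ?_, ?_, ?_, ?_, ?_⟩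
  · intro k hk
    rw [cutl (s + 1) _ (fun l hl => sum_eq_zero fun m _ => zl k l m hl),
      min_eq_right (Nat.le_succ s)]
    by_cases h1 : k < s
    · rw [x2 k h1, ebs g k h1.le, ebs g (k + 1) h1]
      simp only [dd]
      rw [hS.blk k (cs g k) h1 le_rfl (L17.cs_lt s g hg h1), cs_succ]
      push_cast
      ring
    · have h2 : k = s := by omega
      subst h2
      rw [sum_eq_zero fun l _ => sum_eq_zero fun m _ => zk k l m le_rfl, ebs g k le_rfl]
      simp only [dd]
      rw [hS.out _ le_rfl]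
      simp
  · intro l hl
    rw [cutl (s + 1) _ (fun k hk => sum_eq_zero fun m _ => zk k l m hk),
      min_eq_right (Nat.le_succ s)]
    simp only [dd]
    have hcol : ∑ i ∈ range M, (if eb s M h l < lam i then (1 : ℝ) else 0) =
        ∑ k ∈ range s, (g (k + 1) : ℝ) *
          (if eb s M h l < cs h (s - k) then (1 : ℝ) else 0) := by
      rw [← sum_rows s g h lam hS hg (fun x => if eb s M h l < x then (1 : ℝ) else 0) le_rfl]
      symm
      apply sum_subset (range_mono hM1.le)
      intro i _ hi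
      rw [mem_range] at hi
      rw [hS.out i (by omega), if_neg (by omega)]
    rw [hcol]
    by_cases h1 : l < s
    · rw [ebs h l h1.le, ebs h (l + 1) h1]
      have e1 := x4 s (l + 1) le_rfl h1
      have e2 := x4 s l le_rfl h1.le
      have e3 : ∑ k ∈ range s, ∑ m ∈ range P, X k l m =
          ∑ k ∈ range s, ∑ l ∈ range (l + 1), ∑ m ∈ range P, X k l m -
            ∑ k ∈ range s, ∑ l ∈ range l, ∑ m ∈ range P, X k l m := by
        rw [← sum_sub_distrib]
        apply sum_congr rfl
        intro k _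
        rw [sum_range_succ]
        ring
      rw [e3, e1, e2, ← sum_sub_distrib, mul_sum, mul_sum]
      apply sum_congr rfl
      intro k hk
      rw [mem_range] at hk
      rw [cs_succ]
      by_cases h2 : l < s - k
      · have h3 : cs h (l + 1) ≤ cs h (s - k) := L17.cs_mono' h (by omega)
        have h4 := L17.cs_lt s h hh h1
        rw [cs_succ] at h3 h4
        rw [min_eq_right h3, min_eq_right (by omega), if_pos (by omega)]
        push_cast
        ring
      · have h3 : cs h (s - k) ≤ cs h l := L17.cs_mono' h (by omega)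
        rw [min_eq_left (by omega), min_eq_left h3, if_neg (by omega)]
        ring
    · have h2 : l = s := by omega
      subst h2
      rw [sum_eq_zero fun k _ => sum_eq_zero fun m _ => zl k l m le_rfl, ebs h l le_rfl]
      have h3 : ∑ k ∈ range l, (g (k + 1) : ℝ) *
          (if cs h l < cs h (l - k) then (1 : ℝ) else 0) = 0 := by
        apply sum_eq_zero
        intro k _
        have := L17.cs_mono' h (show l - k ≤ l by omega)
        rw [if_neg (by omega), mul_zero]
      rw [h3]
      simp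
  · intro m hm
    rw [cutl (s + 1) _ (fun k hk => sum_eq_zero fun l _ => zk k l m hk),
      min_eq_right (Nat.le_succ s)]
    have e : ∀ k ∈ range s, ∑ l ∈ range (s + 1), X k l m = ∑ l ∈ range s, X k l m := by
      intro k _
      rw [cutl (s + 1) _ (fun l hl => zl k l m hl), min_eq_right (Nat.le_succ s)]
    rw [sum_congr rfl e, x3 m hm]
    simp only [dd]
    have hle : T m ≤ T (m + 1) := (hT.step m hm).le
    have h1 : be (T (m + 1)) = be (T m) + (T (m + 1) - T m) * S (T m) := by
      rw [← hbe, ← hbe, range_eq_Ico, ← Finset.sum_Ico_consecutive _ (Nat.zero_le _) hle,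
        ← range_eq_Ico]
      congr 1
      have h2 : ∀ t ∈ Ico (T m) (T (m + 1)), S t = S (T m) := by
        intro t ht
        rw [mem_Ico] at ht
        exact hTS m t hm ht.1 ht.2
      rw [sum_congr rfl h2, sum_const, Nat.card_Ico, smul_eq_mul]
    rw [h1]
    push_cast
    rw [Nat.cast_sub hle]
    ring
  · intro a b ha hb
    have e : ∑ k ∈ range a, ∑ l ∈ range b, ∑ m ∈ range P, X k l m =
        ∑ k ∈ range (min a s), ∑ l ∈ range (min b s), ∑ m ∈ range P, X k l m := by
      rw [cutl a _ (fun k hk => sum_eq_zero fun l _ => sum_eq_zero fun m _ => zk k l m hk)]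
      apply sum_congr rfl
      intro k _
      exact cutl b _ (fun l hl => sum_eq_zero fun m _ => zl k l m hl)
    rw [e, x4 _ _ (min_le_right _ _) (min_le_right _ _)]
    simp only [dd]
    have hrow : ∑ i ∈ range (cs g (min a s)), ∑ x ∈ range (cs h (min b s)),
        (if x < lam i then (1 : ℝ) else 0) =
        ∑ k ∈ range (min a s), (g (k + 1) : ℝ) *
          (min (cs h (s - k)) (cs h (min b s)) : ℕ) := by
      have h1 := sum_rows s g h lam hS hg
        (fun x => ((min x (cs h (min b s)) : ℕ) : ℝ)) (min_le_right a s)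
      rw [← h1]
      apply sum_congr rfl
      intro i _
      rw [sum_ind]
    have hle : ∑ i ∈ range (cs g (min a s)), ∑ x ∈ range (cs h (min b s)),
        (if x < lam i then (1 : ℝ) else 0) ≤
        ∑ i ∈ range (eb s M g a), ∑ x ∈ range (eb s M h b),
          (if x < lam i then (1 : ℝ) else 0) := by
      refine (sum_le_sum fun i _ => ?_).trans
        (sum_le_sum_of_subset_of_nonneg (range_mono (eble g hM1 a ha)) fun i _ _ => ?_)
      · refine sum_le_sum_of_subset_of_nonneg (range_mono (eble h hM2 b hb)) fun x _ _ => ?_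
        split_ifs <;> norm_num
      · refine sum_nonneg fun x _ => ?_
        split_ifs <;> norm_num
    have h2 := mul_le_mul_of_nonneg_left hle (Nat.cast_nonneg (α := ℝ) q)
    refine le_trans (le_of_eq ?_) h2
    rw [hrow, mul_sum]
    apply sum_congr rfl
    intro k _
    ring
  · intro a c ha hc
    have e : ∑ k ∈ range a, ∑ l ∈ range (s + 1), ∑ m ∈ range c, X k l m =
        ∑ k ∈ range (min a s), ∑ l ∈ range s, ∑ m ∈ range c, X k l m := by
      rw [cutl a _ (fun k hk => sum_eq_zero fun l _ => sum_eq_zero fun m _ => zk k l m hk)]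
      apply sum_congr rfl
      intro k _
      rw [cutl (s + 1) _ (fun l hl => sum_eq_zero fun m _ => zl k l m hl),
        min_eq_right (Nat.le_succ s)]
    rw [e]
    refine (x5 _ c (min_le_right _ _) hc).trans ?_
    simp only [dd]
    rw [mul_comm]
    have h1 : (cs g (min a s) : ℝ) ≤ eb s M g a := by exact_mod_cast eble g hM1 a ha
    exact mul_le_mul_of_nonneg_right h1 (Nat.cast_nonneg _)
  · intro b c hb hc
    have e : ∑ k ∈ range (s + 1), ∑ l ∈ range b, ∑ m ∈ range c, X k l m =
        ∑ k ∈ range s, ∑ l ∈ range (min b s), ∑ m ∈ range c, X k l m := by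
      rw [cutl (s + 1) _
        (fun k hk => sum_eq_zero fun l _ => sum_eq_zero fun m _ => zk k l m hk),
        min_eq_right (Nat.le_succ s)]
      apply sum_congr rfl
      intro k _
      exact cutl b _ (fun l hl => sum_eq_zero fun m _ => zl k l m hl)
    rw [e]
    refine (x6 _ c (min_le_right _ _) hc).trans ?_
    simp only [dd]
    rw [mul_comm]
    have h1 : (cs h (min b s) : ℝ) ≤ eb s M h b := by exact_mod_cast eble h hM2 b hb
    exact mul_le_mul_of_nonneg_right h1 (Nat.cast_nonneg _)

end Pool.MP_d56194_co
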