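import Mathlib
import Pool.Agent.Lib.MP_d56194_co.L.L0c
import Pool.Agent.Lib.MP_d56194_co.L.L5
import Pool.Agent.Lib.MP_d56194_co.L.L13
import Pool.Agent.Lib.MP_d56194_co.L.L14

set_option autoImplicit false

namespace Pool.MP_d56194_co

open Finset Real

namespace L22

/-- the cells behind the cut `(a, b)` -/
lemma fb_eq (s q : ℕ) (g h : ℕ → ℕ) (a b : ℕ) :
    (q : ℝ) * (Fb s g h a b : ℝ) =
      ∑ i ∈ Ico a s, (g (i + 1) : ℝ) * (q * ((cs h (s - i) - cs h b : ℕ) : ℝ)) := by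
  have h1 : Ioc a s = (Ico a s).image (fun i => i + 1) := by
    ext i
    simp only [mem_Ioc, mem_image, mem_Ico]
    constructor
    · intro hi
      exact ⟨i - 1, by omega, by omega⟩
    · rintro ⟨j, hj, rfl⟩
      omega
  unfold Fb
  rw [h1, sum_image (fun x _ y _ hxy => by omega)]
  push_cast
  rw [mul_sum]
  apply sum_congr rfl
  intro i hi
  rw [mem_Ico] at hi
  ring

lemma cs_cast (g : ℕ → ℕ) (a : ℕ) (z : ℝ) :
    z * (cs g a : ℝ) = ∑ i ∈ range a, (g (i + 1) : ℝ) * z := by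
  unfold cs
  push_cast
  rw [mul_sum]
  exact sum_congr rfl fun i _ => mul_comm _ _

lemma be_mono {S be : ℕ → ℕ} (h : ∀ c, ∑ t ∈ range c, S t = be c) : Monotone be := by
  apply monotone_nat_of_le_succ
  intro c
  rw [← h, ← h, sum_range_succ]
  omega

lemma piece {M P : ℕ} {T : ℕ → ℕ} (hT : Bnd M T P) {c : ℕ} (hc : c < M) :
    ∃ t0, t0 < P ∧ T t0 ≤ c ∧ c < T (t0 + 1) := by
  classical
  have h1 : ∃ k, c < T k := ⟨P, by rw [hT.last]; exact hc⟩
  have h2 := Nat.find_spec h1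
  have h3 : Nat.find h1 ≤ P := Nat.find_min' h1 (by rw [hT.last]; exact hc)
  have h4 : Nat.find h1 ≠ 0 := by
    intro h5
    rw [h5, hT.zero] at h2
    omega
  refine ⟨Nat.find h1 - 1, by omega, ?_, ?_⟩
  · have h5 := Nat.find_min h1 (show Nat.find h1 - 1 < Nat.find h1 by omega)
    omega
  · rw [Nat.sub_add_cancel (by omega)]
    exact h2

end L22

open L22 in
/-- M22 (file L22): the competitor for a regular entry of the support -/
theorem comp_exists (s R : ℕ) (hs : 0 < s) (hR : 0 < R) (g h al : ℕ → ℕ) (N : ℕ) (η ψ : ℝ)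
    (K0 p : ℕ) (lo hi sig : ℕ → ℕ) (hN : 0 < N) (hg : Comp s R N g) (hh : Comp s R N h)
    (hal : IsAl s g h al) (hK0 : K0 = max (cs g s) (cs h s)) (hη : 0 < η) (hη1 : η ≤ 1)
    (hψ : 0 ≤ ψ) (hψη : 4 * ((s : ℝ) * R + 1) * ψ < η) (hηN : 2 ≤ η * N)
    (hTD : TD s g h al N η ψ K0 p lo hi sig) (q M : ℕ) (hq : 0 < q) (hM : q * K0 ≤ M)
    (S be : ℕ → ℕ) (hF : FL s g h al q S be) (P : ℕ) (T : ℕ → ℕ) (hT : Bnd M T P)
    (hT1 : ∀ φ, P ≤ φ → T φ = M)
    (hT2 : ∀ φ t, φ < P → T φ ≤ t → t < T (φ + 1) → S t = S (T φ))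
    (hT3 : ∀ φ, 0 < φ → φ < P → S (T φ - 1) ≠ S (T φ))
    (hslope : ∀ j, j < p → ∀ t, q * lo j ≤ t → t < q * hi j → S t = sig j)
    (hdef : ∀ i0 x0 j0, 1 ≤ i0 → 1 ≤ x0 → LS s p (ZD s g h al N ψ p hi) (i0, x0, j0) →
      ∀ c : ℕ, (∀ j, j < p → ¬ (q * lo j < c ∧ c < q * hi j)) →
        (q * hi j0 ≤ c → ∀ a b, i0 ≤ a → a ≤ s → x0 ≤ b → b ≤ s →
          (be c : ℝ) + q * (η / 2) * (N : ℝ) ^ 2 ≤ c * ((cs g a : ℝ) + cs h b) +
            q * (Fb s g h a b : ℝ)) ∧
        (c ≤ q * lo j0 → ∀ a b, a < i0 → b < x0 →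
          (be c : ℝ) + q * (η / 2) * (N : ℝ) ^ 2 ≤ c * ((cs g a : ℝ) + cs h b) +
            q * (Fb s g h a b : ℝ)))
    (i0 x0 j0 : ℕ) (hi0 : 1 ≤ i0) (hx0 : 1 ≤ x0)
    (hv : LS s p (ZD s g h al N ψ p hi) (i0, x0, j0)) :
    ∃ t0, t0 < P ∧ T t0 ≤ q * lo j0 ∧ q * hi j0 ≤ T (t0 + 1) ∧ ∃ X : ℕ → ℕ → ℕ → ℝ,
      (∀ k l m, 0 ≤ X k l m) ∧ (∀ k l m, X k l m ≠ 0 → k < s ∧ l < s ∧ m < P) ∧
      q * η * (N : ℝ) ^ 2 / (2 * (s * R)) ≤ X (i0 - 1) (x0 - 1) t0 ∧
      (∀ k, k < s → ∑ l ∈ range s, ∑ m ∈ range P, X k l m =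
        (q : ℝ) * g (k + 1) * cs h (s - k)) ∧
      (∀ m, m < P → ∑ k ∈ range s, ∑ l ∈ range s, X k l m =
        (be (T (m + 1)) : ℝ) - be (T m)) ∧
      (∀ a b, a ≤ s → b ≤ s → ∑ k ∈ range a, ∑ l ∈ range b, ∑ m ∈ range P, X k l m =
        ∑ k ∈ range a, (q : ℝ) * g (k + 1) * (min (cs h (s - k)) (cs h b) : ℕ)) ∧
      (∀ a c, a ≤ s → c ≤ P → ∑ k ∈ range a, ∑ l ∈ range s, ∑ m ∈ range c, X k l m ≤
        (T c : ℝ) * cs g a) ∧
      (∀ b c, b ≤ s → c ≤ P → ∑ k ∈ range s, ∑ l ∈ range b, ∑ m ∈ range c, X k l m ≤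
        (T c : ℝ) * cs h b) := by
  obtain ⟨hLE, -⟩ := id hv
  have hj0 : j0 < p := hLE.2.2.1
  have hi0s : i0 ≤ s := hLE.1
  have hx0s : x0 ≤ s := hLE.2.1
  have hix : i0 + x0 ≤ s + 1 := by
    rcases hLE.2.2.2.2 with h1 | h1 | h1
    · exact absurd h1 (by simp only; omega)
    · exact absurd h1 (by simp only; omega)
    · exact h1
  have hbm : Monotone be := be_mono hF.sum
  have hTm : Monotone T := by
    apply monotone_nat_of_le_succ
    intro φ
    rcases lt_or_ge φ P with h1 | h1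
    · exact (hT.step φ h1).le
    · rw [hT1 φ h1, hT1 (φ + 1) (by omega)]
  have hhiM : ∀ j, j < p → q * hi j ≤ M := by
    intro j hj
    have h1 := L5.hi_mono hTD (show j ≤ p - 1 by omega) (by omega)
    exact (Nat.mul_le_mul_left q (h1.trans hTD.last)).trans hM
  -- no boundary in a thick interval
  have hno : ∀ φ j, j < p → ¬ (q * lo j < T φ ∧ T φ < q * hi j) := by
    intro φ j hj ⟨h1, h2⟩
    have h3 := hhiM j hj
    rcases Nat.eq_zero_or_pos φ with rfl | h4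
    · rw [hT.zero] at h1
      exact absurd h1 (Nat.not_lt_zero _)
    · rcases lt_or_ge φ P with h5 | h5
      · have h6 := hslope j hj (T φ - 1) (by omega) (by omega)
        have h7 := hslope j hj (T φ) (by omega) (by omega)
        exact hT3 φ h4 h5 (h6.trans h7.symm)
      · rw [hT1 φ h5] at h2
        omega
  have hlohi : q * lo j0 < q * hi j0 := Nat.mul_lt_mul_of_pos_left (hTD.lohi j0 hj0) hq
  obtain ⟨t0, ht0, ht1, ht2⟩ := piece hT (c := q * lo j0) (by have := hhiM j0 hj0; omega)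
  have ht3 : q * hi j0 ≤ T (t0 + 1) := by
    by_contra h1
    exact hno (t0 + 1) j0 hj0 ⟨ht2, by omega⟩
  refine ⟨t0, ht0, ht1, ht3, ?_⟩
  -- numbers
  have hNr : (1 : ℝ) ≤ N := by exact_mod_cast hN
  have hqr : (1 : ℝ) ≤ q := by exact_mod_cast hq
  have hsR : (1 : ℝ) ≤ (s : ℝ) * R := by
    have : 1 ≤ s * R := Nat.mul_pos hs hR
    exact_mod_cast this
  have hsR0 : (0 : ℝ) < (s : ℝ) * R := by linarith
  have hδ0 : (0 : ℝ) ≤ q * η * (N : ℝ) ^ 2 / (2 * (s * R)) := by positivity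
  have hδ1 : q * η * (N : ℝ) ^ 2 / (2 * (s * R)) ≤ q * η * (N : ℝ) ^ 2 := by
    apply div_le_self (by positivity)
    linarith
  have hthick : (q : ℝ) * (η * N) ≤ T (t0 + 1) - T t0 := by
    have h1 := hTD.thick j0 hj0
    have h2 : ((q * hi j0 : ℕ) : ℝ) ≤ T (t0 + 1) := by exact_mod_cast ht3
    have h3 : (T t0 : ℝ) ≤ ((q * lo j0 : ℕ) : ℝ) := by exact_mod_cast ht1
    push_cast at h2 h3
    have h4 : (q : ℝ) * (η * N) ≤ q * (hi j0 - lo j0) :=
      mul_le_mul_of_nonneg_left (by linarith) (by linarith)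
    linarith
  have hgl : ∀ i, 1 ≤ i → i ≤ s → (N : ℝ) ≤ g i := fun i h1 h2 => L5.Comp.low hg h1 h2
  have hhl : ∀ i, 1 ≤ i → i ≤ s → (N : ℝ) ≤ h i := fun i h1 h2 => L5.Comp.low hh h1 h2
  have hTC : ∀ x : ℝ, (N : ℝ) ≤ x → q * η * (N : ℝ) ^ 2 / (2 * (s * R)) ≤
      x * ((T (t0 + 1) : ℝ) - T t0) := by
    intro x hx
    refine hδ1.trans ?_
    calc (q : ℝ) * η * (N : ℝ) ^ 2 = N * (q * (η * N)) := by ring
      _ ≤ x * ((T (t0 + 1) : ℝ) - T t0) :=
        mul_le_mul hx hthick (by positivity) (by linarith)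
  -- the level
  have hlev : (q : ℝ) * η * (N : ℝ) ^ 2 ≤ (be (T (t0 + 1)) : ℝ) - be (T t0) := by
    have h1 : be (q * hi j0) ≤ be (T (t0 + 1)) := hbm ht3
    have h2 : be (T t0) ≤ be (q * lo j0) := hbm ht1
    rw [hF.lev] at h1 h2
    have h3 := hTD.lin j0 hj0 (hi j0) (hTD.lohi j0 hj0).le le_rfl
    rw [h3] at h1
    have h4 : ((q * (al (lo j0) + sig j0 * (hi j0 - lo j0)) : ℕ) : ℝ) ≤ be (T (t0 + 1)) := by
      exact_mod_cast h1
    have h5 : (be (T t0) : ℝ) ≤ ((q * al (lo j0) : ℕ) : ℝ) := by exact_mod_cast h2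
    push_cast [Nat.cast_sub (hTD.lohi j0 hj0).le] at h4 h5
    have h6 : (N : ℝ) ≤ sig j0 := by exact_mod_cast hTD.siglow j0 hj0
    have h7 := hTD.thick j0 hj0
    have h8 : (N : ℝ) * (η * N) ≤ sig j0 * ((hi j0 : ℝ) - lo j0) :=
      mul_le_mul h6 (by linarith) (by positivity) (by linarith)
    have h9 : (q : ℝ) * (N * (η * N)) ≤ q * (sig j0 * ((hi j0 : ℝ) - lo j0)) :=
      mul_le_mul_of_nonneg_left h8 (by linarith)
    nlinarith
  obtain ⟨X, c1, c2, c3, c4, c5, c6, c7, c8⟩ := competitor s P g h (q : ℝ) (fun φ => (T φ : ℝ))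
    (fun φ => (be (T φ) : ℝ)) (i0 - 1) (x0 - 1) t0 (q * η * (N : ℝ) ^ 2 / (2 * (s * R)))
    (by linarith) hδ0 (by omega) ht0 (by simp [hT.zero])
    (fun φ => by exact_mod_cast hTm (Nat.le_succ φ))
    (by
      have : be 0 = 0 := by rw [← hF.sum 0]; simp
      simp [hT.zero, this])
    (fun φ => by exact_mod_cast hbm (hTm (Nat.le_succ φ)))
    (by
      rw [Nat.sub_add_cancel hi0]
      exact hTC _ (hgl i0 hi0 hi0s))
    (by
      rw [Nat.sub_add_cancel hx0]
      exact hTC _ (hhl x0 hx0 hx0s))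
    (hδ1.trans hlev)
    (by
      rw [Nat.sub_add_cancel hi0, Nat.sub_add_cancel hx0]
      refine hδ1.trans ?_
      have h1 : (N : ℝ) * N ≤ g i0 * h x0 :=
        mul_le_mul (hgl i0 hi0 hi0s) (hhl x0 hx0 hx0s) (by linarith) (by positivity)
      have h2 : (q : ℝ) * (N * N) ≤ q * (g i0 * h x0) :=
        mul_le_mul_of_nonneg_left h1 (by linarith)
      have h3 : (q : ℝ) * η * (N : ℝ) ^ 2 ≤ q * (N * N) := by
        have : (0 : ℝ) ≤ q * (N * N) := by positivity
        nlinarith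
      linarith)
    (by
      intro φ b hφ hb I hI
      obtain ⟨s1, s2, s3⟩ := set_cut s (fun i => (g (i + 1) : ℝ))
        (fun i => q * ((cs h (s - i) - cs h b : ℕ) : ℝ)) (T φ)
        ((be (T φ) : ℝ) - T φ * cs h b) (q * (η / 2) * (N : ℝ) ^ 2) (s * R) (i0 - 1) (by omega)
        (fun i hi => by
          have := hgl (i + 1) (by omega) (by omega)
          show (0 : ℝ) < g (i + 1)
          linarith)
        (by
          have h1 := L5.cs_top hg (le_refl s)
          have h2 : (cs g s : ℝ) = ∑ i ∈ range s, (g (i + 1) : ℝ) := by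
            unfold cs
            push_cast
            rfl
          rw [h2] at h1
          refine h1.trans ?_
          show (s : ℝ) * R * N ≤ s * R * g (i0 - 1 + 1)
          rw [Nat.sub_add_cancel hi0]
          exact mul_le_mul_of_nonneg_left (hgl i0 hi0 hi0s) hsR0.le)
        hsR
        (fun i hi => by
          show (q : ℝ) * _ ≤ q * _
          apply mul_le_mul_of_nonneg_left _ (by linarith)
          have := L5.cs_mono h (show s - (i + 1) ≤ s - i by omega)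
          have : cs h (s - (i + 1)) - cs h b ≤ cs h (s - i) - cs h b := by omega
          exact_mod_cast this)
        (by positivity)
        (fun a ha => by
          have h1 := hF.le (T φ) a b ha hb
          have h2 : (be (T φ) : ℝ) ≤ T φ * (cs g a + cs h b) + q * Fb s g h a b := by
            exact_mod_cast h1
          rw [← cs_cast, ← fb_eq]
          linarith)
      have hfin : ∀ A B : ℝ, A - (T φ : ℝ) * cs h b ≤ ∑ i ∈ I, (g (i + 1) : ℝ) * (T φ : ℝ) + B →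
          A ≤ (T φ : ℝ) * (∑ i ∈ I, (g (i + 1) : ℝ) + cs h b) + B := by
        intro A B hAB
        rw [← sum_mul] at hAB
        linarith
      have hB : ∑ i ∈ range s \ I, (q : ℝ) * g (i + 1) * ((cs h (s - i) - cs h b : ℕ) : ℝ) =
          ∑ i ∈ range s \ I, (g (i + 1) : ℝ) * (q * ((cs h (s - i) - cs h b : ℕ) : ℝ)) :=
        sum_congr rfl fun i _ => by ring
      have hδη : (q : ℝ) * (η / 2) * (N : ℝ) ^ 2 / (s * R) =
          q * η * (N : ℝ) ^ 2 / (2 * (s * R)) := by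
        field_simp
      rw [hδη] at s2 s3
      rw [hB]
      split_ifs with hcase
      · rcases hcase with ⟨k1, k2, k3⟩ | ⟨k1, k2, k3⟩
        · have h1 := s2 (fun a ha1 ha2 => by
            have h1 := (hdef i0 x0 j0 hi0 hx0 hv (T φ) (hno φ)).1
              (ht3.trans (hTm (by omega))) a b (by omega) ha2 (by omega) hb
            rw [← cs_cast, ← fb_eq]
            linarith) I hI k1
          exact hfin _ _ (by linarith)
        · have h1 := s3 (fun a ha1 => by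
            have h1 := (hdef i0 x0 j0 hi0 hx0 hv (T φ) (hno φ)).2
              ((hTm k3).trans ht1) a b (by omega) (by omega)
            rw [← cs_cast, ← fb_eq]
            linarith) I hI k1
          exact hfin _ _ (by linarith)
      · rw [add_zero]
        exact hfin _ _ (s1 I hI))
    (by
      have h1 : be (T P) = q * Fb s g h 0 0 := by
        rw [hT.last]
        apply le_antisymm
        · have := hF.le M 0 0 (by omega) (by omega)
          rw [L5.cs_zero, L5.cs_zero] at this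
          omega
        · have h2 := L5.al_top hal hK0
          have h3 := hbm hM
          rw [hF.lev] at h3
          exact (Nat.mul_le_mul_left q h2).trans h3
      have h2 := fb_eq s q g h 0 0
      have h3 : ((be (T P) : ℕ) : ℝ) = (q : ℝ) * (Fb s g h 0 0 : ℝ) := by
        rw [h1]
        push_cast
        rfl
      show ((be (T P) : ℕ) : ℝ) = _
      rw [h3, h2, Nat.Ico_zero_eq_range]
      apply sum_congr rfl
      intro i _
      rw [L5.cs_zero, Nat.sub_zero]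
      ring)
  exact ⟨X, c1, c2, c3, c4, c5, c6, c7, c8⟩

end Pool.MP_d56194_co
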