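import Mathlib
import Pool.Agent.Lib.MP_d56194_co.L.L0

set_option autoImplicit false

namespace Pool.MP_d56194_co

open Finset

/-- tangent inequality for `negMulLog` -/
theorem negMulLog_tangent74 (x z : ℝ) (hx : 0 ≤ x) (hz : 0 < z) :
    Real.negMulLog x ≤ Real.negMulLog z + (-Real.log z - 1) * (x - z) := by
  unfold Real.negMulLog
  rcases hx.eq_or_lt with h | h
  · rw [← h]
    simp only [neg_zero, Real.log_zero, mul_zero, zero_sub]
    nlinarith
  · have h1 := Real.log_le_sub_one_of_pos (div_pos hz h)
    rw [Real.log_div hz.ne' h.ne'] at h1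
    have h2 : x * (Real.log z - Real.log x) ≤ x * (z / x - 1) :=
      mul_le_mul_of_nonneg_left h1 h.le
    have h3 : x * (z / x - 1) = z - x := by field_simp
    nlinarith

/-- M9: quantitative positivity of a maximiser of the entropy -/
theorem entropy_lower {ι : Type} (U : Finset ι) (r a b : ι → ℝ) (κ V Mass : ℝ) (v : ι)
    (hv : v ∈ U) (hr : ∀ u ∈ U, 0 < r u) (ha : ∀ u ∈ U, 0 ≤ a u) (hb : ∀ u ∈ U, 0 ≤ b u)
    (hκ : 0 < κ) (haκ : ∀ u ∈ U, a u ≤ κ * r u) (hbκ : ∀ u ∈ U, b u ≤ κ * r u)
    (hMa : ∑ u ∈ U, a u = Mass) (hMb : ∑ u ∈ U, b u = Mass) (hbv : 0 < b v)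
    (hV : ∀ W : Finset ι, W ⊆ U → (∀ u ∈ W, 0 < a u) → ∑ u ∈ W, r u ≤ V)
    (hmax : ∀ ε : ℝ, 0 < ε → ε < 1 →
      ∑ u ∈ U, r u * Real.negMulLog (((1 - ε) * a u + ε * b u) / r u) ≤
        ∑ u ∈ U, r u * Real.negMulLog (a u / r u)) :
    κ / 2 * Real.exp (-(Mass / b v) * Real.log (2 * κ * V / Mass)) ≤ a v / r v := by
  classical
  have hM : 0 < Mass := by
    rw [← hMb]
    exact lt_of_lt_of_le hbv (Finset.single_le_sum hb hv)
  set E : ℝ := Real.exp (-(Mass / b v) * Real.log (2 * κ * V / Mass)) with hE
  have hE0 : 0 < E := Real.exp_pos _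
  set e : ℝ := min (1 / 2) (E / 2) with he
  have he0 : 0 < e := lt_min (by norm_num) (by positivity)
  have he1 : e ≤ 1 / 2 := min_le_left _ _
  have he2 : e ≤ E / 2 := min_le_right _ _
  set z : ι → ℝ := fun u => ((1 - e) * a u + e * b u) / r u with hz
  have hz0 : ∀ u ∈ U, 0 < a u ∨ 0 < b u → 0 < z u := by
    intro u hu h
    apply div_pos _ (hr u hu)
    have h1 := ha u hu
    have h2 := hb u hu
    rcases h with h | h
    · have : 0 < (1 - e) * a u := mul_pos (by linarith) h
      have : 0 ≤ e * b u := mul_nonneg he0.le h2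
      linarith
    · have : 0 < e * b u := mul_pos he0 h
      have : 0 ≤ (1 - e) * a u := mul_nonneg (by linarith) h1
      linarith
  have hzκ : ∀ u ∈ U, z u ≤ κ := by
    intro u hu
    rw [hz]
    simp only
    rw [div_le_iff₀ (hr u hu)]
    have h1 := haκ u hu
    have h2 := hbκ u hu
    nlinarith
  -- the support of a
  set W := U.filter (fun u => 0 < a u) with hW
  have hWsub : W ⊆ U := Finset.filter_subset _ _
  have hWa : ∀ u ∈ W, 0 < a u := fun u hu => (Finset.mem_filter.mp hu).2
  have haW : ∑ u ∈ W, a u = Mass := by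
    rw [← hMa]
    apply Finset.sum_subset hWsub
    intro u hu hu'
    have : ¬ 0 < a u := fun h => hu' (Finset.mem_filter.mpr ⟨hu, h⟩)
    exact le_antisymm (not_lt.mp this) (ha u hu)
  have hWne : W.Nonempty := by
    rw [Finset.nonempty_iff_ne_empty]
    intro h
    rw [h, Finset.sum_empty] at haW
    linarith
  have hVW := hV W hWsub hWa
  have hrW : 0 < ∑ u ∈ W, r u := Finset.sum_pos (fun u hu => hr u (hWsub hu)) hWne
  have hV0 : 0 < V := lt_of_lt_of_le hrW hVW
  -- first order condition
  have step1 : ∑ u ∈ U, b u * (-Real.log (z u)) ≤ ∑ u ∈ U, a u * (-Real.log (z u)) := by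
    have h1 : ∀ u ∈ U, r u * Real.negMulLog (a u / r u) ≤ r u * Real.negMulLog (z u) +
        e * ((-Real.log (z u) - 1) * (a u - b u)) := by
      intro u hu
      by_cases h : 0 < a u ∨ 0 < b u
      · have h2 := negMulLog_tangent74 (a u / r u) (z u) (div_nonneg (ha u hu) (hr u hu).le)
          (hz0 u hu h)
        have h3 := mul_le_mul_of_nonneg_left h2 (hr u hu).le
        have h4 : r u * (a u / r u - z u) = e * (a u - b u) := by
          rw [hz]
          simp only
          have := (hr u hu).ne'
          field_simp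
          ring
        calc r u * Real.negMulLog (a u / r u) ≤
            r u * (Real.negMulLog (z u) + (-Real.log (z u) - 1) * (a u / r u - z u)) := h3
          _ = r u * Real.negMulLog (z u) + (-Real.log (z u) - 1) *
              (r u * (a u / r u - z u)) := by ring
          _ = _ := by rw [h4]; ring
      · push Not at h
        have h2 : a u = 0 := le_antisymm h.1 (ha u hu)
        have h3 : b u = 0 := le_antisymm h.2 (hb u hu)
        rw [hz]
        simp [h2, h3]
    have h2 := Finset.sum_le_sum h1
    rw [Finset.sum_add_distrib, ← Finset.mul_sum] at h2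
    have h3 := hmax e he0 (by linarith)
    have h4 : 0 ≤ e * ∑ u ∈ U, (-Real.log (z u) - 1) * (a u - b u) := by linarith
    have h5 : 0 ≤ ∑ u ∈ U, (-Real.log (z u) - 1) * (a u - b u) :=
      nonneg_of_mul_nonneg_right h4 he0
    have h6 : ∑ u ∈ U, (-Real.log (z u) - 1) * (a u - b u) =
        ∑ u ∈ U, a u * (-Real.log (z u)) - ∑ u ∈ U, b u * (-Real.log (z u)) -
          (∑ u ∈ U, a u - ∑ u ∈ U, b u) := by
      rw [← Finset.sum_sub_distrib, ← Finset.sum_sub_distrib, ← Finset.sum_sub_distrib]
      apply Finset.sum_congr rfl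
      intro u _
      ring
    rw [h6, hMa, hMb] at h5
    linarith
  -- upper bound
  have step2 : ∑ u ∈ U, a u * (-Real.log (z u)) ≤
      Mass * Real.log (V / Mass) + Mass * Real.log 2 := by
    have h1 : ∑ u ∈ U, a u * (-Real.log (z u)) = ∑ u ∈ W, a u * (-Real.log (z u)) := by
      symm
      apply Finset.sum_subset hWsub
      intro u hu hu'
      have : ¬ 0 < a u := fun h => hu' (Finset.mem_filter.mpr ⟨hu, h⟩)
      rw [le_antisymm (not_lt.mp this) (ha u hu), zero_mul]
    rw [h1]
    -- a u * log (r u * Mass / (a u * V)) ≤ r u * Mass / V - a u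
    have h2 : ∀ u ∈ W, a u * (-Real.log (z u)) ≤
        a u * (Real.log (V / Mass) + Real.log 2) + (r u * Mass / V - a u) := by
      intro u hu
      have hau := hWa u hu
      have hru := hr u (hWsub hu)
      have h3 : a u / r u / 2 ≤ z u := by
        rw [hz]
        simp only
        rw [div_div, mul_comm, ← div_div]
        apply div_le_div_of_nonneg_right _ hru.le
        have : 0 ≤ e * b u := mul_nonneg he0.le (hb u (hWsub hu))
        nlinarith
      have h4 : Real.log (a u / r u / 2) ≤ Real.log (z u) :=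
        Real.log_le_log (by positivity) h3
      have h5 : Real.log (a u / r u / 2) = Real.log (a u) - Real.log (r u) - Real.log 2 := by
        rw [Real.log_div (by positivity) (by norm_num), Real.log_div hau.ne' hru.ne']
      have h6 := Real.log_le_sub_one_of_pos (show 0 < r u * Mass / (a u * V) by positivity)
      rw [Real.log_div (by positivity) (by positivity), Real.log_mul hru.ne' hM.ne',
        Real.log_mul hau.ne' hV0.ne'] at h6
      have h7 : Real.log (V / Mass) = Real.log V - Real.log Mass := Real.log_div hV0.ne' hM.ne'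
      have h8 : a u * (r u * Mass / (a u * V) - 1) = r u * Mass / V - a u := by
        field_simp
      have h9 := mul_le_mul_of_nonneg_left h6 hau.le
      rw [h8] at h9
      have h10 : a u * (-Real.log (z u)) ≤ a u * (-(Real.log (a u) - Real.log (r u) -
          Real.log 2)) := by
        apply mul_le_mul_of_nonneg_left _ hau.le
        linarith
      rw [h7]
      nlinarith
    have h3 := Finset.sum_le_sum h2
    rw [Finset.sum_add_distrib, ← Finset.sum_mul, haW, Finset.sum_sub_distrib, haW,
      ← Finset.sum_div, ← Finset.sum_mul] at h3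
    have h4 : (∑ u ∈ W, r u) * Mass / V ≤ Mass := by
      rw [div_le_iff₀ hV0, mul_comm]
      exact mul_le_mul_of_nonneg_left hVW hM.le
    linarith
  -- lower bound
  have step3 : b v * (-Real.log (z v) + Real.log κ) - Mass * Real.log κ ≤
      ∑ u ∈ U, b u * (-Real.log (z u)) := by
    have h1 : ∀ u ∈ U, 0 ≤ b u * (-Real.log (z u) + Real.log κ) := by
      intro u hu
      rcases (hb u hu).eq_or_lt with h | h
      · rw [← h, zero_mul]
      · apply mul_nonneg h.le
        have := Real.log_le_log (hz0 u hu (Or.inr h)) (hzκ u hu)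
        linarith
    have h2 := Finset.single_le_sum h1 hv
    have h3 : ∑ u ∈ U, b u * (-Real.log (z u) + Real.log κ) =
        ∑ u ∈ U, b u * (-Real.log (z u)) + Mass * Real.log κ := by
      rw [← hMb, Finset.sum_mul, ← Finset.sum_add_distrib]
      apply Finset.sum_congr rfl
      intro u _
      ring
    rw [h3] at h2
    linarith
  have step4 : b v * (-Real.log (z v) + Real.log κ) ≤ Mass * Real.log (2 * κ * V / Mass) := by
    have h1 : Real.log (2 * κ * V / Mass) = Real.log 2 + Real.log κ + Real.log (V / Mass) := by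
      rw [Real.log_div (by positivity) hM.ne', Real.log_mul (by positivity) hV0.ne',
        Real.log_mul (by norm_num) hκ.ne', Real.log_div hV0.ne' hM.ne']
      ring
    rw [h1]
    nlinarith
  have hzv := hz0 v hv (Or.inr hbv)
  have step5 : κ * E ≤ z v := by
    have h1 : -(Mass / b v) * Real.log (2 * κ * V / Mass) ≤ Real.log (z v) - Real.log κ := by
      have h2 : -Real.log (z v) + Real.log κ ≤ Mass * Real.log (2 * κ * V / Mass) / b v := by
        rw [le_div_iff₀ hbv, mul_comm]
        exact step4
      have h3 : Mass * Real.log (2 * κ * V / Mass) / b v =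
          Mass / b v * Real.log (2 * κ * V / Mass) := by ring
      linarith
    have h2 : E ≤ Real.exp (Real.log (z v) - Real.log κ) := Real.exp_le_exp.mpr h1
    rw [Real.exp_sub, Real.exp_log hzv, Real.exp_log hκ, le_div_iff₀ hκ] at h2
    linarith
  have step6 : z v ≤ a v / r v + κ * (E / 2) := by
    have h1 : z v = (1 - e) * (a v / r v) + e * (b v / r v) := by
      rw [hz]
      simp only
      ring
    have h2 : b v / r v ≤ κ := by
      rw [div_le_iff₀ (hr v hv)]
      exact hbκ v hv
    have h3 : 0 ≤ a v / r v := div_nonneg (ha v hv) (hr v hv).le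
    have h4 : e * (b v / r v) ≤ e * κ := mul_le_mul_of_nonneg_left h2 he0.le
    have h5 : e * κ ≤ E / 2 * κ := mul_le_mul_of_nonneg_right he2 hκ.le
    rw [h1]
    nlinarith
  linarith

end Pool.MP_d56194_co
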