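import Mathlib
import Pool.Agent.Lib.MP_d56194_co.L.L0c
import Pool.Agent.Lib.MP_d56194_co.L.L9

set_option autoImplicit false

namespace Pool.MP_d56194_co

open Finset Real

section L23

lemma cs_succ7 (g : ℕ → ℕ) (k : ℕ) : cs g (k + 1) = cs g k + g (k + 1) := by
  unfold cs
  rw [Finset.sum_range_succ]

lemma cs_mono7 (g : ℕ → ℕ) : Monotone (cs g) :=
  monotone_nat_of_le_succ fun k => by rw [cs_succ7]; exact Nat.le_add_right _ _

lemma cs_le7 {s R N : ℕ} {g : ℕ → ℕ} (hg : Comp s R N g) :
    ∀ k, k ≤ s → cs g k ≤ k * (R * N) := by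
  intro k
  induction k with
  | zero => intro _; simp [cs]
  | succ k ih =>
    intro hk
    rw [cs_succ7]
    have h1 := ih (by omega)
    have h2 := (hg (k + 1) (by omega) hk).2
    calc cs g k + g (k + 1) ≤ k * (R * N) + R * N := Nat.add_le_add h1 h2
      _ = (k + 1) * (R * N) := by ring

lemma eb_le7 {s M : ℕ} {g : ℕ → ℕ} {k : ℕ} (hk : k ≤ s) : eb s M g k = cs g k := by
  unfold eb
  rw [if_pos hk]

lemma eb_succ7 {s M : ℕ} {g : ℕ → ℕ} : eb s M g (s + 1) = M := by
  unfold eb
  rw [if_neg (by omega)]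

lemma eb_step7 {s R N M : ℕ} {g : ℕ → ℕ} (hN : 0 < N) (hg : Comp s R N g) (hM : cs g s < M)
    (k : ℕ) (hk : k < s + 1) : eb s M g k < eb s M g (k + 1) := by
  by_cases h : k < s
  · rw [eb_le7 h.le, eb_le7 (show k + 1 ≤ s from h), cs_succ7]
    have := (hg (k + 1) (by omega) (by omega)).1
    omega
  · have : k = s := by omega
    subst this
    rw [eb_le7 le_rfl, eb_succ7]
    exact hM

lemma eb_gap7 {s R N M : ℕ} {g : ℕ → ℕ} (hg : Comp s R N g) (k : ℕ) (hk : k < s) :
    (N : ℝ) ≤ (eb s M g (k + 1) : ℝ) - eb s M g k := by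
  rw [eb_le7 hk.le, eb_le7 (show k + 1 ≤ s from hk), cs_succ7]
  have := (hg (k + 1) (by omega) (by omega)).1
  push_cast
  have h2 : (N : ℝ) ≤ g (k + 1) := by exact_mod_cast this
  linarith

lemma tele7 (e : ℕ → ℕ) (n : ℕ) :
    ∑ k ∈ range n, ((e (k + 1) : ℝ) - e k) = (e n : ℝ) - e 0 :=
  Finset.sum_range_sub (fun k => (e k : ℝ)) n

/-- M23 (file L23): the bound from the entropy -/
theorem entropy_block (s R : ℕ) (hs : 0 < s) (hR : 0 < R) (g h lam S T be : ℕ → ℕ)
    (N q M P : ℕ) (η : ℝ) (hη : 0 < η) (hη1 : η ≤ 1) (hN : 0 < N) (hg : Comp s R N g)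
    (hh : Comp s R N h) (hS : Shp s g h lam) (hq : 0 < q) (hM : M = q * (cs g s + cs h s + 1))
    (hT : Bnd M T P) (hTS : ∀ φ t, φ < P → T φ ≤ t → t < T (φ + 1) → S t = S (T φ))
    (hSt : ∀ t, S t ≤ cs g s) (X X' : ℕ → ℕ → ℕ → ℝ)
    (hX : KB (dd q M lam S) (eb s M g) (eb s M h) T (s + 1) (s + 1) P X)
    (hX' : KB (dd q M lam S) (eb s M g) (eb s M h) T (s + 1) (s + 1) P X')
    (hmax : ∀ ε : ℝ, 0 < ε → ε < 1 →
      ∑ k ∈ range (s + 1), ∑ l ∈ range (s + 1), ∑ m ∈ range P,
          vol (eb s M g) (eb s M h) T k l m *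
            negMulLog (((1 - ε) * X k l m + ε * X' k l m) / vol (eb s M g) (eb s M h) T k l m) ≤
        ∑ k ∈ range (s + 1), ∑ l ∈ range (s + 1), ∑ m ∈ range P,
          vol (eb s M g) (eb s M h) T k l m *
            negMulLog (X k l m / vol (eb s M g) (eb s M h) T k l m))
    (k l m : ℕ) (hk : k < s) (hl : l < s) (hm : m < P)
    (hδ : q * η * (N : ℝ) ^ 2 / (2 * (s * R)) ≤ X' k l m) :
    (s : ℝ) * R / 2 * exp (-(2 * ((s : ℝ) * R) ^ 3 / η) *
        log (2 * ((s : ℝ) * R) ^ 3 * (2 * (s * R) + 1))) / N ≤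
      X k l m / vol (eb s M g) (eb s M h) T k l m := by
  classical
  have hsR : (1 : ℝ) ≤ (s : ℝ) * R := by
    have : 1 ≤ s * R := Nat.mul_pos hs hR
    exact_mod_cast this
  have hN' : (1 : ℝ) ≤ N := by exact_mod_cast hN
  have hq' : (1 : ℝ) ≤ q := by exact_mod_cast hq
  have hgM : cs g s < M := by
    rw [hM]
    calc cs g s < cs g s + cs h s + 1 := by omega
      _ = 1 * (cs g s + cs h s + 1) := (one_mul _).symm
      _ ≤ q * (cs g s + cs h s + 1) := Nat.mul_le_mul_right _ hq
  have hhM : cs h s < M := by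
    rw [hM]
    calc cs h s < cs g s + cs h s + 1 := by omega
      _ = 1 * (cs g s + cs h s + 1) := (one_mul _).symm
      _ ≤ q * (cs g s + cs h s + 1) := Nat.mul_le_mul_right _ hq
  have hcg : (cs g s : ℝ) ≤ s * R * N := by
    have := cs_le7 hg s le_rfl
    have h2 : (cs g s : ℝ) ≤ ((s * (R * N) : ℕ) : ℝ) := by exact_mod_cast this
    push_cast at h2
    linarith
  have hch : (cs h s : ℝ) ≤ s * R * N := by
    have := cs_le7 hh s le_rfl
    have h2 : (cs h s : ℝ) ≤ ((s * (R * N) : ℕ) : ℝ) := by exact_mod_cast this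
    push_cast at h2
    linarith
  -- gaps
  have g1 : ∀ k, k < s + 1 → (0 : ℝ) < (eb s M g (k + 1) : ℝ) - eb s M g k := fun k hk => by
    have := eb_step7 hN hg hgM k hk
    have h2 : (eb s M g k : ℝ) < eb s M g (k + 1) := by exact_mod_cast this
    linarith
  have g2 : ∀ k, k < s + 1 → (0 : ℝ) < (eb s M h (k + 1) : ℝ) - eb s M h k := fun k hk => by
    have := eb_step7 hN hh hhM k hk
    have h2 : (eb s M h k : ℝ) < eb s M h (k + 1) := by exact_mod_cast this
    linarith
  have g3 : ∀ m, m < P → (0 : ℝ) < (T (m + 1) : ℝ) - T m := fun m hm => by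
    have := hT.step m hm
    have h2 : (T m : ℝ) < T (m + 1) := by exact_mod_cast this
    linarith
  -- the last row block and the last column block are empty
  have hlam : ∀ r, lam r ≤ cs h s := by
    intro r
    by_cases hr : cs g s ≤ r
    · rw [hS.out r hr]; exact Nat.zero_le _
    · obtain ⟨k, hk1, hk2, hk3⟩ : ∃ k, k < s ∧ cs g k ≤ r ∧ r < cs g (k + 1) := by
        have hex : ∃ k, r < cs g k := ⟨s, by omega⟩
        have h0 := Nat.find_spec hex
        have hpos : Nat.find hex ≠ 0 := by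
          intro h
          rw [h] at h0
          simp [cs] at h0
        have hle : Nat.find hex ≤ s := Nat.find_min' hex (by omega)
        have hmin := Nat.find_min hex (m := Nat.find hex - 1) (by omega)
        refine ⟨Nat.find hex - 1, by omega, by omega, ?_⟩
        rw [Nat.sub_add_cancel (by omega)]
        exact h0
      rw [hS.blk k r hk1 hk2 hk3]
      exact cs_mono7 h (by omega)
  have zero1 : ∀ Y, KB (dd q M lam S) (eb s M g) (eb s M h) T (s + 1) (s + 1) P Y →
      ∀ l m, l < s + 1 → m < P → Y s l m = 0 := by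
    intro Y hY l m hl hm
    have h1 := hY.m1 s (by omega)
    have h2 : (dd q M lam S).S1 (eb s M g s) = 0 := by
      rw [eb_le7 le_rfl]
      show (q : ℝ) * (lam (cs g s) : ℝ) = 0
      rw [hS.out _ le_rfl]
      simp
    rw [h2, mul_zero] at h1
    rw [Finset.sum_eq_zero_iff_of_nonneg (fun l _ => Finset.sum_nonneg fun m _ => hY.nonneg _ _ _)]
      at h1
    have h3 := h1 l (mem_range.mpr hl)
    rw [Finset.sum_eq_zero_iff_of_nonneg (fun m _ => hY.nonneg _ _ _)] at h3
    exact h3 m (mem_range.mpr hm)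
  have zero2 : ∀ Y, KB (dd q M lam S) (eb s M g) (eb s M h) T (s + 1) (s + 1) P Y →
      ∀ k m, k < s + 1 → m < P → Y k s m = 0 := by
    intro Y hY k m hk hm
    have h1 := hY.m2 s (by omega)
    have h2 : (dd q M lam S).S2 (eb s M h s) = 0 := by
      rw [eb_le7 le_rfl]
      show (q : ℝ) * ∑ i ∈ range M, (if cs h s < lam i then (1 : ℝ) else 0) = 0
      rw [Finset.sum_eq_zero, mul_zero]
      intro i _
      rw [if_neg (by have := hlam i; omega)]
    rw [h2, mul_zero] at h1
    rw [Finset.sum_eq_zero_iff_of_nonneg (fun l _ => Finset.sum_nonneg fun m _ => hY.nonneg _ _ _)]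
      at h1
    have h3 := h1 k (mem_range.mpr hk)
    rw [Finset.sum_eq_zero_iff_of_nonneg (fun m _ => hY.nonneg _ _ _)] at h3
    exact h3 m (mem_range.mpr hm)
  -- volumes
  have hvol : ∀ k l m, k < s + 1 → l < s + 1 → m < P →
      0 < vol (eb s M g) (eb s M h) T k l m := by
    intro k l m hk hl hm
    unfold vol
    exact mul_pos (mul_pos (g1 k hk) (g2 l hl)) (g3 m hm)
  -- bound for the density
  have hdens : ∀ Y, KB (dd q M lam S) (eb s M g) (eb s M h) T (s + 1) (s + 1) P Y →
      ∀ k l m, k < s + 1 → l < s + 1 → m < P →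
      Y k l m ≤ (s : ℝ) * R / N * vol (eb s M g) (eb s M h) T k l m := by
    intro Y hY k l m hk hl hm
    have hv0 := hvol k l m hk hl hm
    have hκ0 : 0 ≤ (s : ℝ) * R / N := by positivity
    by_cases hk' : k = s
    · have h0 : Y k l m = 0 := by rw [hk']; exact zero1 Y hY l m hl hm
      rw [h0]
      exact mul_nonneg hκ0 hv0.le
    by_cases hl' : l = s
    · have h0 : Y k l m = 0 := by rw [hl']; exact zero2 Y hY k m hk hm
      rw [h0]
      exact mul_nonneg hκ0 hv0.le
    have hk2 : k < s := by omega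
    have hl2 : l < s := by omega
    have h1 := hY.m3 m hm
    have h2 : Y k l m ≤ ∑ k ∈ range (s + 1), ∑ l ∈ range (s + 1), Y k l m := by
      calc Y k l m ≤ ∑ l ∈ range (s + 1), Y k l m :=
            Finset.single_le_sum (f := fun l => Y k l m) (fun l _ => hY.nonneg _ _ _)
              (mem_range.mpr hl)
        _ ≤ _ := Finset.single_le_sum (f := fun k => ∑ l ∈ range (s + 1), Y k l m)
              (fun k _ => Finset.sum_nonneg fun l _ => hY.nonneg _ _ _) (mem_range.mpr hk)
    rw [h1] at h2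
    have h3 : (dd q M lam S).S3 (T m) ≤ s * R * N := by
      show ((S (T m) : ℕ) : ℝ) ≤ _
      have : (S (T m) : ℝ) ≤ cs g s := by exact_mod_cast hSt (T m)
      linarith
    have h4 := g3 m hm
    have h5 : Y k l m ≤ ((T (m + 1) : ℝ) - T m) * (s * R * N) :=
      h2.trans (mul_le_mul_of_nonneg_left h3 h4.le)
    refine h5.trans ?_
    unfold vol
    have h6 := eb_gap7 (M := M) hg k hk2
    have h7 := eb_gap7 (M := M) hh l hl2
    have h8 : (N : ℝ) * N ≤ ((eb s M g (k + 1) : ℝ) - eb s M g k) *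
        ((eb s M h (l + 1) : ℝ) - eb s M h l) :=
      mul_le_mul h6 h7 (by positivity) (by linarith)
    calc ((T (m + 1) : ℝ) - T m) * (s * R * N) =
          (s : ℝ) * R / N * (N * N * ((T (m + 1) : ℝ) - T m)) := by
          field_simp
      _ ≤ _ := by
          apply mul_le_mul_of_nonneg_left _ hκ0
          exact mul_le_mul_of_nonneg_right h8 h4.le
  -- the mass
  set Mass : ℝ := ∑ k ∈ range (s + 1), ((eb s M g (k + 1) : ℝ) - eb s M g k) *
    (dd q M lam S).S1 (eb s M g k) with hMass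
  have hMass2 : Mass = ∑ k ∈ range s, (q : ℝ) * (g (k + 1) * cs h (s - k)) := by
    rw [hMass, Finset.sum_range_succ]
    have h2 : (dd q M lam S).S1 (eb s M g s) = 0 := by
      rw [eb_le7 le_rfl]
      show (q : ℝ) * (lam (cs g s) : ℝ) = 0
      rw [hS.out _ le_rfl]
      simp
    rw [h2, mul_zero, add_zero]
    refine Finset.sum_congr rfl fun k hk => ?_
    have hk := mem_range.mp hk
    rw [eb_le7 hk.le, eb_le7 (show k + 1 ≤ s from hk)]
    show _ * ((q : ℝ) * (lam (cs g k) : ℝ)) = _
    have h3 : cs g k < cs g (k + 1) := by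
      rw [cs_succ7]
      have := (hg (k + 1) (by omega) (by omega)).1
      omega
    rw [hS.blk k (cs g k) hk le_rfl h3, cs_succ7]
    push_cast
    ring
  have hMlow : (q : ℝ) * (N : ℝ) ^ 2 ≤ Mass := by
    rw [hMass2]
    have h1 : (q : ℝ) * (N : ℝ) ^ 2 ≤ (q : ℝ) * (g (0 + 1) * cs h (s - 0)) := by
      apply mul_le_mul_of_nonneg_left _ (by positivity)
      have h2 : (N : ℝ) ≤ g (0 + 1) := by exact_mod_cast (hg (0 + 1) (by omega) (by omega)).1
      have h3 : (N : ℝ) ≤ cs h (s - 0) := by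
        have h4 : cs h 1 ≤ cs h (s - 0) := cs_mono7 h (by omega)
        have h5 : cs h 1 = h 1 := by simp [cs]
        have h6 := (hh 1 le_rfl hs).1
        have : N ≤ cs h (s - 0) := by omega
        exact_mod_cast this
      rw [pow_two]
      exact mul_le_mul h2 h3 (by positivity) (by positivity)
    exact h1.trans (Finset.single_le_sum
      (f := fun k => (q : ℝ) * ((g (k + 1) : ℝ) * cs h (s - k)))
      (fun k _ => by positivity) (mem_range.mpr hs))
  have hMup : Mass ≤ q * ((s * R) ^ 2 * (N : ℝ) ^ 2) := by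
    rw [hMass2, ← Finset.mul_sum]
    apply mul_le_mul_of_nonneg_left _ (by positivity)
    have h1 : ∑ k ∈ range s, ((g (k + 1) : ℝ) * cs h (s - k)) ≤
        ∑ k ∈ range s, ((g (k + 1) : ℝ) * cs h s) := by
      apply Finset.sum_le_sum
      intro k _
      apply mul_le_mul_of_nonneg_left _ (by positivity)
      exact_mod_cast cs_mono7 h (Nat.sub_le s k)
    rw [← Finset.sum_mul] at h1
    have h2 : ∑ k ∈ range s, (g (k + 1) : ℝ) = cs g s := by
      unfold cs
      push_cast
      rfl
    rw [h2] at h1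
    refine h1.trans ?_
    calc (cs g s : ℝ) * cs h s ≤ (s * R * N) * (s * R * N) :=
          mul_le_mul hcg hch (by positivity) (by positivity)
      _ = _ := by ring
  have hMpos : 0 < Mass := lt_of_lt_of_le (by positivity) hMlow
  -- the application
  have hδ0 : 0 < q * η * (N : ℝ) ^ 2 / (2 * (s * R)) := by positivity
  have hXv : 0 < X' k l m := lt_of_lt_of_le hδ0 hδ
  set U : Finset (ℕ × ℕ × ℕ) := range (s + 1) ×ˢ range (s + 1) ×ˢ range P with hU
  have memU : ∀ u ∈ U, u.1 < s + 1 ∧ u.2.1 < s + 1 ∧ u.2.2 < P := by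
    intro u hu
    rw [hU, mem_product, mem_product, mem_range, mem_range, mem_range] at hu
    exact hu
  have sumU : ∀ f : ℕ → ℕ → ℕ → ℝ, ∑ u ∈ U, f u.1 u.2.1 u.2.2 =
      ∑ k ∈ range (s + 1), ∑ l ∈ range (s + 1), ∑ m ∈ range P, f k l m := by
    intro f
    rw [hU, Finset.sum_product]
    refine Finset.sum_congr rfl fun k _ => ?_
    rw [Finset.sum_product]
  have hmassY : ∀ Y, KB (dd q M lam S) (eb s M g) (eb s M h) T (s + 1) (s + 1) P Y →
      ∑ u ∈ U, Y u.1 u.2.1 u.2.2 = Mass := by
    intro Y hY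
    rw [sumU Y, hMass]
    exact Finset.sum_congr rfl fun k hk => hY.m1 k (mem_range.mp hk)
  set V : ℝ := (cs g s : ℝ) * cs h s * M with hV
  have key := entropy_lower U (fun u => vol (eb s M g) (eb s M h) T u.1 u.2.1 u.2.2)
    (fun u => X u.1 u.2.1 u.2.2) (fun u => X' u.1 u.2.1 u.2.2) ((s : ℝ) * R / N) V Mass
    (k, l, m) (by
      rw [hU, mem_product, mem_product, mem_range, mem_range, mem_range]
      exact ⟨Nat.lt_succ_of_lt hk, Nat.lt_succ_of_lt hl, hm⟩)
    (fun u hu => hvol _ _ _ (memU u hu).1 (memU u hu).2.1 (memU u hu).2.2)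
    (fun u _ => hX.nonneg _ _ _) (fun u _ => hX'.nonneg _ _ _) (by positivity)
    (fun u hu => hdens X hX _ _ _ (memU u hu).1 (memU u hu).2.1 (memU u hu).2.2)
    (fun u hu => hdens X' hX' _ _ _ (memU u hu).1 (memU u hu).2.1 (memU u hu).2.2)
    (hmassY X hX) (hmassY X' hX') hXv ?_ ?_
  · simp only at key
    refine le_trans ?_ key
    have hy0 : 0 < 2 * ((s : ℝ) * R / N) * V / Mass := by
      have hc1 : (0 : ℝ) < cs g s := by
        have h5 : cs g 1 = g 1 := by simp [cs]
        have h4 : cs g 1 ≤ cs g s := cs_mono7 g hs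
        have h6 := (hg 1 le_rfl hs).1
        have : 0 < cs g s := by omega
        exact_mod_cast this
      have hc2 : (0 : ℝ) < cs h s := by
        have h5 : cs h 1 = h 1 := by simp [cs]
        have h4 : cs h 1 ≤ cs h s := cs_mono7 h hs
        have h6 := (hh 1 le_rfl hs).1
        have : 0 < cs h s := by omega
        exact_mod_cast this
      have hc3 : (0 : ℝ) < M := by
        have : 0 < M := by omega
        exact_mod_cast this
      rw [hV]
      positivity
    have hyB : 2 * ((s : ℝ) * R / N) * V / Mass ≤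
        2 * ((s : ℝ) * R) ^ 3 * (2 * (s * R) + 1) := by
      rw [div_le_iff₀ hMpos]
      have hM' : (M : ℝ) ≤ q * N * (2 * (s * R) + 1) := by
        rw [hM]
        push_cast
        have h1 : (cs g s : ℝ) + cs h s + 1 ≤ N * (2 * (s * R) + 1) := by
          nlinarith
        calc (q : ℝ) * (cs g s + cs h s + 1) ≤ q * (N * (2 * (s * R) + 1)) :=
              mul_le_mul_of_nonneg_left h1 (by positivity)
          _ = _ := by ring
      have h2 : V ≤ (s * R * N) * (s * R * N) * (q * N * (2 * (s * R) + 1)) := by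
        rw [hV]
        exact mul_le_mul (mul_le_mul hcg hch (by positivity) (by positivity)) hM'
          (by positivity) (by positivity)
      calc 2 * ((s : ℝ) * R / N) * V ≤ 2 * ((s : ℝ) * R / N) *
            ((s * R * N) * (s * R * N) * (q * N * (2 * (s * R) + 1))) :=
            mul_le_mul_of_nonneg_left h2 (by positivity)
        _ = 2 * ((s : ℝ) * R) ^ 3 * (2 * (s * R) + 1) * (q * (N : ℝ) ^ 2) := by
            field_simp
        _ ≤ _ := mul_le_mul_of_nonneg_left hMlow (by positivity)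
    have hlogB : 0 ≤ log (2 * ((s : ℝ) * R) ^ 3 * (2 * (s * R) + 1)) := by
      apply log_nonneg
      have h1 : (1 : ℝ) ≤ ((s : ℝ) * R) ^ 3 := one_le_pow₀ hsR
      nlinarith
    have hA : Mass / X' k l m ≤ 2 * ((s : ℝ) * R) ^ 3 / η := by
      rw [div_le_div_iff₀ hXv hη]
      calc Mass * η ≤ q * ((s * R) ^ 2 * (N : ℝ) ^ 2) * η :=
            mul_le_mul_of_nonneg_right hMup hη.le
        _ = 2 * ((s : ℝ) * R) ^ 3 * (q * η * (N : ℝ) ^ 2 / (2 * (s * R))) := by
            field_simp
        _ ≤ _ := mul_le_mul_of_nonneg_left hδ (by positivity)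
    have hfin : Mass / X' k l m * log (2 * ((s : ℝ) * R / N) * V / Mass) ≤
        2 * ((s : ℝ) * R) ^ 3 / η * log (2 * ((s : ℝ) * R) ^ 3 * (2 * (s * R) + 1)) := by
      calc _ ≤ Mass / X' k l m * log (2 * ((s : ℝ) * R) ^ 3 * (2 * (s * R) + 1)) :=
            mul_le_mul_of_nonneg_left (log_le_log hy0 hyB) (by positivity)
        _ ≤ _ := mul_le_mul_of_nonneg_right hA hlogB
    have hexp : exp (-(2 * ((s : ℝ) * R) ^ 3 / η) *
        log (2 * ((s : ℝ) * R) ^ 3 * (2 * (s * R) + 1))) ≤
        exp (-(Mass / X' k l m) * log (2 * ((s : ℝ) * R / N) * V / Mass)) := by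
      apply exp_le_exp.mpr
      rw [neg_mul, neg_mul]
      exact neg_le_neg hfin
    calc (s : ℝ) * R / 2 * exp (-(2 * ((s : ℝ) * R) ^ 3 / η) *
          log (2 * ((s : ℝ) * R) ^ 3 * (2 * (s * R) + 1))) / N =
          (s : ℝ) * R / N / 2 * exp (-(2 * ((s : ℝ) * R) ^ 3 / η) *
          log (2 * ((s : ℝ) * R) ^ 3 * (2 * (s * R) + 1))) := by ring
      _ ≤ _ := mul_le_mul_of_nonneg_left hexp (by positivity)
  · intro W hW hWa
    have hsub : W ⊆ range s ×ˢ range s ×ˢ range P := by
      intro u hu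
      obtain ⟨h1, h2, h3⟩ := memU u (hW hu)
      have h4 := hWa u hu
      rw [mem_product, mem_product, mem_range, mem_range, mem_range]
      refine ⟨?_, ?_, h3⟩
      · by_contra hcon
        have h5 : u.1 = s := by omega
        rw [h5, zero1 X hX u.2.1 u.2.2 h2 h3] at h4
        exact lt_irrefl _ h4
      · by_contra hcon
        have h5 : u.2.1 = s := by omega
        rw [h5, zero2 X hX u.1 u.2.2 h1 h3] at h4
        exact lt_irrefl _ h4
    calc ∑ u ∈ W, vol (eb s M g) (eb s M h) T u.1 u.2.1 u.2.2 ≤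
          ∑ u ∈ range s ×ˢ range s ×ˢ range P,
            vol (eb s M g) (eb s M h) T u.1 u.2.1 u.2.2 := by
          refine Finset.sum_le_sum_of_subset_of_nonneg hsub fun u hu _ => ?_
          rw [mem_product, mem_product, mem_range, mem_range, mem_range] at hu
          exact (hvol _ _ _ (by omega) (by omega) hu.2.2).le
      _ = V := by
          rw [Finset.sum_product]
          have e1 : ∀ k ∈ range s, ∑ y ∈ range s ×ˢ range P,
              vol (eb s M g) (eb s M h) T k y.1 y.2 =
              ((eb s M g (k + 1) : ℝ) - eb s M g k) * (cs h s * M) := by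
            intro k _
            rw [Finset.sum_product]
            have e2 : ∀ l ∈ range s, ∑ m ∈ range P, vol (eb s M g) (eb s M h) T k l m =
                ((eb s M g (k + 1) : ℝ) - eb s M g k) *
                  (((eb s M h (l + 1) : ℝ) - eb s M h l) * M) := by
              intro l _
              unfold vol
              rw [← Finset.mul_sum, tele7, hT.last, hT.zero]
              push_cast
              ring
            rw [Finset.sum_congr rfl e2, ← Finset.mul_sum, ← Finset.sum_mul, tele7,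
              eb_le7 le_rfl, eb_le7 (Nat.zero_le _)]
            simp [cs]
          rw [Finset.sum_congr rfl e1, ← Finset.sum_mul, tele7,
            eb_le7 le_rfl, eb_le7 (Nat.zero_le _), hV]
          simp [cs]
          ring
  · intro ε h0 h1
    have e1 := hmax ε h0 h1
    rw [← sumU (fun k l m => vol (eb s M g) (eb s M h) T k l m *
      negMulLog (((1 - ε) * X k l m + ε * X' k l m) / vol (eb s M g) (eb s M h) T k l m)),
      ← sumU (fun k l m => vol (eb s M g) (eb s M h) T k l m *
      negMulLog (X k l m / vol (eb s M g) (eb s M h) T k l m))] at e1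
    exact e1

end L23

end Pool.MP_d56194_co
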