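import Mathlib
import Pool.Agent.Lib.MP_d56194_co.L.L0c
import Pool.Agent.Lib.MP_d56194_co.L.L8
import Pool.Agent.Lib.MP_d56194_co.L.L16d
import Pool.Agent.Lib.MP_d56194_co.L.L17
import Pool.Agent.Lib.MP_d56194_co.L.L16
import Pool.Agent.Lib.MP_d56194_co.L.L21
import Pool.Agent.Lib.MP_d56194_co.L.L22
import Pool.Agent.Lib.MP_d56194_co.L.L23

set_option autoImplicit false

namespace Pool.MP_d56194_co

open Finset Real

theorem bnd_eb (s M : ℕ) (g : ℕ → ℕ) (hg : ∀ i, 1 ≤ i → i ≤ s → 0 < g i) (hM : cs g s < M) :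
    Bnd M (eb s M g) (s + 1) where
  zero := by
    unfold eb
    rw [if_pos (Nat.zero_le _)]
    rfl
  step := by
    intro k hk
    unfold eb
    rw [if_pos (by omega)]
    by_cases h : k + 1 ≤ s
    · rw [if_pos h, L5.cs_succ]
      have := hg (k + 1) (by omega) h
      omega
    · rw [if_neg h]
      have h2 : k = s := by omega
      rw [h2]
      exact hM
  last := by
    unfold eb
    rw [if_neg (by omega)]

/-- The constant of the density bound. -/
noncomputable def den (s R : ℕ) (η : ℝ) : ℝ :=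
  (s : ℝ) * R / 2 * exp (-(2 * ((s : ℝ) * R) ^ 3 / η) *
    log (2 * ((s : ℝ) * R) ^ 3 * (2 * (s * R) + 1)))

theorem den_pos (s R : ℕ) (hs : 0 < s) (hR : 0 < R) (η : ℝ) : 0 < den s R η := by
  unfold den
  have h1 : (0 : ℝ) < s := by exact_mod_cast hs
  have h2 : (0 : ℝ) < R := by exact_mod_cast hR
  positivity

/-- M20: a real solution whose regular entries on the support are large. -/
theorem real_raw (s R : ℕ) (hs : 0 < s) (hR : 0 < R) (g h al lam : ℕ → ℕ) (N : ℕ) (η ψ : ℝ)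
    (K0 p : ℕ) (lo hi sig : ℕ → ℕ) (hN : 0 < N) (hg : Comp s R N g) (hh : Comp s R N h)
    (hal : IsAl s g h al) (hK0 : K0 = max (cs g s) (cs h s)) (hS : Shp s g h lam)
    (hanti : Antitone lam) (hlam : ∀ i, lam i ≤ cs h s)
    (hη : 0 < η) (hη1 : η ≤ 1) (hψ : 0 ≤ ψ) (hψη : 4 * ((s : ℝ) * R + 1) * ψ < η)
    (hηN : 2 ≤ η * N) (hTD : TD s g h al N η ψ K0 p lo hi sig) :
    ∃ (q M : ℕ) (S be : ℕ → ℕ) (L : ℕ → ℕ → ℕ → ℝ), 0 < q ∧ q * K0 ≤ M ∧
      FL s g h al q S be ∧ Sol (cs g s) (cs h s) M q (fun i x => x < lam i) S L ∧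
      ∀ i x j, 1 ≤ i → 1 ≤ x → LS s p (ZD s g h al N ψ p hi) (i, x, j) →
        η * den s R η * (N : ℝ) ^ 2 ≤ XS s q p g h lo hi L (i, x, j) := by
  classical
  obtain ⟨q, M, A, B, hq, hM, hA, hB, h1, h2, h3, hgood, ⟨L0, hL0⟩, hsol⟩ :=
    fine_max (cs g s) (cs h s) lam hanti hS.out hlam
  set S : ℕ → ℕ := fun t => A t + B t with hSdef
  set be : ℕ → ℕ := fun c => ct (cs g s) lam q c (A c) (B c) with hbe
  have hF : FL s g h al q S be := fl_of_cut s g h lam al hS hal q hq A B hA hB h1 h2 h3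
  have hgpos : ∀ i, 1 ≤ i → i ≤ s → 0 < g i := fun i h1 h2 => lt_of_lt_of_le hN (hg i h1 h2).1
  have hhpos : ∀ i, 1 ≤ i → i ≤ s → 0 < h i := fun i h1 h2 => lt_of_lt_of_le hN (hh i h1 h2).1
  have hM1 : cs g s < M := by
    rw [hM]
    have : 1 * (cs g s + cs h s + 1) ≤ q * (cs g s + cs h s + 1) := Nat.mul_le_mul_right _ hq
    omega
  have hM2 : cs h s < M := by
    rw [hM]
    have : 1 * (cs g s + cs h s + 1) ≤ q * (cs g s + cs h s + 1) := Nat.mul_le_mul_right _ hq
    omega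
  have hM0 : 0 < M := by omega
  have hqK : q * K0 < M := by
    rw [hM]
    exact Nat.mul_lt_mul_of_pos_left (by omega) hq
  obtain ⟨P, T, hT, hT1, hT2, hT3⟩ := pieces M hM0 S
  have haff : Aff M (dd q M lam S) (eb s M g) (eb s M h) T (s + 1) (s + 1) P :=
    aff_dd s M P q g h lam S T hS hgpos hhpos hM1 hM2 hT hT2
  obtain ⟨X, hX, hmax, hent⟩ := block_max M (dd q M lam S) (eb s M g) (eb s M h) T (s + 1)
    (s + 1) P hgood haff L0 hL0
  have hslope : ∀ j, j < p → ∀ t, q * lo j ≤ t → t < q * hi j → S t = sig j := by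
    intro j hj
    apply fine_slope s g h al q hq S be hF (lo j) (hi j) (sig j) (hTD.lin j hj)
    have := hTD.thick j hj
    have h4 : (2 : ℝ) + lo j ≤ hi j := by linarith
    have h5 : 2 + lo j ≤ hi j := by exact_mod_cast h4
    omega
  have hSt : ∀ t, S t ≤ cs g s := by
    intro t
    have e1 := hF.anti (Nat.zero_le t)
    have e2 : S 0 = be 1 := by
      rw [← hF.sum 1]
      simp
    have e3 := hF.le 1 s 0 le_rfl (Nat.zero_le _)
    have e4 : Fb s g h s 0 = 0 := L5.Fb_zero s g h s 0 (by omega)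
    rw [e4, L5.cs_zero] at e3
    omega
  refine ⟨q, M, S, be, fun i x t => spr M (eb s M g) (eb s M h) T (s + 1) (s + 1) P X (i, x, t),
    hq, hqK.le, hF, hsol _ hmax, ?_⟩
  intro i x j hi1 hx1 hv
  have hix : i + x ≤ s + 1 := by
    have h4 := hv.1.2.2.2.2
    simp only at h4
    omega
  have hj : j < p := hv.1.2.2.1
  obtain ⟨t0, ht0, k1, k2, X', y0, y1, y2, y3, y4, y5, y6, y7⟩ :=
    comp_exists s R hs hR g h al N η ψ K0 p lo hi sig hN hg hh hal hK0 hη hη1 hψ hψη hηN hTD q M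
      hq hqK.le S be hF P T hT hT1 hT2 hT3 hslope
      (fun i0 x0 j0 a1 a2 a3 c a4 => fine_defect s R hs g h al N η ψ K0 p lo hi sig hN hg hh hal
        hK0 hη hη1 hψ hψη hTD q hq S be hF i0 x0 j0 a1 a2 a3 c a4) i x j hi1 hx1 hv
  have hX' : KB (dd q M lam S) (eb s M g) (eb s M h) T (s + 1) (s + 1) P X' :=
    kb_of s M P q g h lam S T be hS hgpos hhpos hM1 hM2 hT hT2 hF.sum X' y0 y1 y3 y4 y5 y6 y7
  have hden := entropy_block s R hs hR g h lam S T be N q M P η hη hη1 hN hg hh hS hq hM hT hT2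
    hSt X X' hX hX' (hent X' hX') (i - 1) (x - 1) t0 (by omega) (by omega) ht0 y2
  -- the sum
  have hbg := bnd_eb s M g hgpos hM1
  have hbh := bnd_eb s M h hhpos hM2
  have e1 : eb s M g (i - 1) = cs g (i - 1) := by unfold eb; rw [if_pos (by omega)]
  have e1' : eb s M g (i - 1 + 1) = cs g i := by
    unfold eb; rw [if_pos (by omega)]; congr 1; omega
  have e2 : eb s M h (x - 1) = cs h (x - 1) := by unfold eb; rw [if_pos (by omega)]
  have e2' : eb s M h (x - 1 + 1) = cs h x := by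
    unfold eb; rw [if_pos (by omega)]; congr 1; omega
  have hival : ∀ t ∈ Ico (q * lo j) (q * hi j), ∀ r ∈ Ico (cs g (i - 1)) (cs g i),
      ∀ c ∈ Ico (cs h (x - 1)) (cs h x),
      spr M (eb s M g) (eb s M h) T (s + 1) (s + 1) P X (r, c, t) =
        X (i - 1) (x - 1) t0 / vol (eb s M g) (eb s M h) T (i - 1) (x - 1) t0 := by
    intro t ht r hr c hc
    rw [Finset.mem_Ico] at ht hr hc
    have f1 : bk (eb s M g) (s + 1) r = i - 1 :=
      L8.bk_eq hbg (by omega) (by rw [e1]; exact hr.1) (by rw [e1']; exact hr.2)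
    have f2 : bk (eb s M h) (s + 1) c = x - 1 :=
      L8.bk_eq hbh (by omega) (by rw [e2]; exact hc.1) (by rw [e2']; exact hc.2)
    have f3 : bk T P t = t0 := L8.bk_eq hT ht0 (by omega) (by omega)
    have m1 := L5.cs_mono g (show i ≤ s by omega)
    have m2 := L5.cs_mono h (show x ≤ s by omega)
    have m3 : q * hi j ≤ q * K0 := by
      apply Nat.mul_le_mul_left
      exact (L5.hi_mono hTD (show j ≤ p - 1 by omega) (by omega)).trans hTD.last
    have hmem : ((r, c, t) : V3) ∈ Box M := by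
      rw [mem_Box]
      refine ⟨?_, ?_, ?_⟩ <;> simp only <;> omega
    unfold spr
    rw [if_pos hmem]
    simp only
    rw [f1, f2, f3]
  have hLE : LE s 1 (i, x, 0) := by
    refine ⟨?_, ?_, ?_, ?_, ?_⟩ <;> simp only <;> omega
  have hval : XS s q p g h lo hi
      (fun i x t => spr M (eb s M g) (eb s M h) T (s + 1) (s + 1) P X (i, x, t)) (i, x, j) =
      ((q * hi j - q * lo j : ℕ) : ℝ) * ((g i : ℝ) * ((h x : ℝ) *
        (X (i - 1) (x - 1) t0 / vol (eb s M g) (eb s M h) T (i - 1) (x - 1) t0))) / q := by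
    unfold XS ftab
    simp only
    rw [if_pos hj, if_pos hLE, if_neg (by omega), if_neg (by omega)]
    congr 1
    unfold fsum
    rw [Finset.sum_congr rfl (fun t ht => Finset.sum_congr rfl (fun r hr =>
      Finset.sum_congr rfl (fun c hc => hival t ht r hr c hc)))]
    simp only [Finset.sum_const, Nat.card_Ico, nsmul_eq_mul]
    have c1 : cs g i - cs g (i - 1) = g i := by
      have := L5.cs_succ g (i - 1)
      rw [show i - 1 + 1 = i by omega] at this
      omega
    have c2 : cs h x - cs h (x - 1) = h x := by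
      have := L5.cs_succ h (x - 1)
      rw [show x - 1 + 1 = x by omega] at this
      omega
    rw [c1, c2]
  rw [hval]
  have hqR : (0 : ℝ) < q := by exact_mod_cast hq
  have hNR : (0 : ℝ) < N := by exact_mod_cast hN
  have hgi : (N : ℝ) ≤ g i := by exact_mod_cast (hg i hi1 (by omega)).1
  have hhx : (N : ℝ) ≤ h x := by exact_mod_cast (hh x hx1 (by omega)).1
  have hthick := hTD.thick j hj
  have hcast : ((q * hi j - q * lo j : ℕ) : ℝ) = q * ((hi j : ℝ) - lo j) := by
    rw [← Nat.mul_sub, Nat.cast_mul, Nat.cast_sub (hTD.lohi j hj).le]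
  rw [hcast]
  have hD0 := den_pos s R hs hR η
  have hden' : den s R η / N ≤
      X (i - 1) (x - 1) t0 / vol (eb s M g) (eb s M h) T (i - 1) (x - 1) t0 := hden
  set ρ := X (i - 1) (x - 1) t0 / vol (eb s M g) (eb s M h) T (i - 1) (x - 1) t0 with hρ
  have g1 : (q : ℝ) * ((hi j : ℝ) - lo j) * ((g i : ℝ) * ((h x : ℝ) * ρ)) / q =
      ((hi j : ℝ) - lo j) * ((g i : ℝ) * ((h x : ℝ) * ρ)) := by
    field_simp
  rw [g1]
  have g2 : η * den s R η * (N : ℝ) ^ 2 = (η * N) * ((N : ℝ) * ((N : ℝ) * (den s R η / N))) := by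
    field_simp
  rw [g2]
  apply mul_le_mul (by linarith) _ (by positivity) (by linarith [mul_pos hη hNR])
  apply mul_le_mul hgi _ (by positivity) (by linarith)
  exact mul_le_mul hhx hden' (by positivity) (by linarith)

end Pool.MP_d56194_co
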