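import Mathlib
import Pool.Agent.Lib.MP_d56194_co.J.J6

set_option autoImplicit false

namespace Pool.MP_d56194_co

open Finset

/-- M24: from integral tables to a colouring -/
theorem cds_of_tables (ν : YoungDiagram) (s T : ℕ) (κ : ℕ → ℕ) (la lb : ℕ → ℕ)
    (Z : ℕ → ℕ → ℕ → ℕ) (hκ0 : κ 0 = 0) (hκ : ∀ j, κ j ≤ κ (j + 1))
    (hla : ∀ i, i < ν.colLen 0 → la i < s) (hlb : ∀ x, x < ν.rowLen 0 → lb x < s)
    (hla' : ∀ i i', i < ν.colLen 0 → i' < ν.colLen 0 → la i = la i' → ν.rowLen i = ν.rowLen i')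
    (hlb' : ∀ x x', x < ν.rowLen 0 → x' < ν.rowLen 0 → lb x = lb x' → ν.colLen x = ν.colLen x')
    (hcell : ∀ a b, ∑ j ∈ range T, Z a b j =
      (univ.filter (fun e : ν.cells => la e.1.1 = a ∧ lb e.1.2 = b)).card)
    (hrow : ∀ a j, j < T → ∑ b ∈ range s, Z a b j ≤ (rowsL ν la a).card * (κ (j + 1) - κ j))
    (hcol : ∀ b j, j < T → ∑ a ∈ range s, Z a b j ≤ (colsL ν lb b).card * (κ (j + 1) - κ j))
    (htot : ∀ j, j < T → gcut (ν.colLen 0) ν.rowLen (κ (j + 1)) =
      gcut (ν.colLen 0) ν.rowLen (κ j) + ∑ a ∈ range s, ∑ b ∈ range s, Z a b j)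
    (hlin : ∀ k, k < κ T → ∃ φ1 φ2 σ d : ℕ, φ1 ≤ T ∧ φ2 ≤ T ∧ κ φ1 ≤ k ∧ k ≤ κ φ2 ∧
      gcut (ν.colLen 0) ν.rowLen (κ φ1) = κ φ1 * σ + d ∧
      gcut (ν.colLen 0) ν.rowLen k = k * σ + d ∧
      gcut (ν.colLen 0) ν.rowLen (κ φ2) = κ φ2 * σ + d) : CDSColorable ν := by
  classical
  have hlas : ∀ v : ν.cells, la v.1.1 < s := fun v => hla _ (cell_lt ν v.1 v.2).1
  have hlbs : ∀ v : ν.cells, lb v.1.2 < s := fun v => hlb _ (cell_lt ν v.1 v.2).2.1
  have hblock : ∀ a : ℕ × ℕ, ∑ j ∈ range T, Z a.1 a.2 j =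
      (univ.filter (fun e : ν.cells => ((la e.1.1, lb e.1.2) : ℕ × ℕ) = a)).card := by
    rintro ⟨a, b⟩
    rw [hcell a b]
    congr 1
    ext e
    simp only [Finset.mem_filter, Finset.mem_univ, true_and, Prod.mk.injEq]
  obtain ⟨ψ0, hψ0, hψW⟩ := assign (fun e : ν.cells => ((la e.1.1, lb e.1.2) : ℕ × ℕ)) T
    (fun a j => Z a.1 a.2 j) hblock
  -- counts
  have hcnt : ∀ (p : ν.cells → Prop) [DecidablePred p] (S : Finset (ℕ × ℕ)) (φ : ℕ), φ ≤ T →
      (∀ e, p e → ((la e.1.1, lb e.1.2) : ℕ × ℕ) ∈ S) →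
      (∀ e : ν.cells, ((la e.1.1, lb e.1.2) : ℕ × ℕ) ∈ S → p e) →
      (univ.filter (fun e : ν.cells => p e ∧ ψ0 e < φ)).card =
        ∑ j ∈ range φ, ∑ a ∈ S, Z a.1 a.2 j := by
    intro p _ S φ hφ hp hp'
    rw [Finset.card_eq_sum_card_fiberwise (f := fun e : ν.cells => ψ0 e) (t := range φ)]
    · apply Finset.sum_congr rfl
      intro j hj
      rw [Finset.mem_range] at hj
      rw [Finset.card_eq_sum_card_fiberwise
        (f := fun e : ν.cells => ((la e.1.1, lb e.1.2) : ℕ × ℕ)) (t := S)]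
      · apply Finset.sum_congr rfl
        intro a ha
        rw [← hψW a j (by omega)]
        congr 1
        ext e
        simp only [Finset.mem_filter, Finset.mem_univ, true_and]
        constructor
        · rintro ⟨⟨⟨_, _⟩, h3⟩, h4⟩
          exact ⟨h4, h3⟩
        · rintro ⟨h3, h4⟩
          exact ⟨⟨⟨hp' e (by rw [h3]; exact ha), by omega⟩, h4⟩, h3⟩
      · intro e he
        simp only [Finset.coe_filter, Set.mem_ofPred_eq, Finset.mem_filter, Finset.mem_univ,
          true_and] at he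
        exact hp e he.1.1
    · intro e he
      simp only [Finset.coe_filter, Set.mem_ofPred_eq, Finset.mem_univ, true_and] at he
      exact Finset.mem_coe.mpr (Finset.mem_range.mpr he.2)
  have htele : ∀ (c φ : ℕ), φ ≤ T → ∑ j ∈ range φ, c * (κ (j + 1) - κ j) = c * κ φ := by
    intro c φ hφ
    induction φ with
    | zero => rw [hκ0]; simp
    | succ φ ih =>
      rw [Finset.sum_range_succ, ih (by omega), ← Nat.mul_add, Nat.add_sub_of_le (hκ φ)]
  have hrowc : ∀ a φ, φ ≤ T →
      (univ.filter (fun e : ν.cells => la e.1.1 = a ∧ ψ0 e < φ)).card ≤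
        (rowsL ν la a).card * κ φ := by
    intro a φ hφ
    rw [hcnt (fun e => la e.1.1 = a) ((range s).image (fun b => (a, b))) φ hφ
      (by
        intro e he
        rw [Finset.mem_image]
        exact ⟨lb e.1.2, Finset.mem_range.mpr (hlbs e), by rw [he]⟩)
      (by
        intro e he
        rw [Finset.mem_image] at he
        obtain ⟨x, _, hx⟩ := he
        rw [Prod.mk.injEq] at hx
        exact hx.1.symm), ← htele _ φ hφ]
    apply Finset.sum_le_sum
    intro j hj
    rw [Finset.mem_range] at hj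
    rw [Finset.sum_image (by
      intro x _ y _ h
      exact (Prod.mk.injEq _ _ _ _ ▸ h).2)]
    exact hrow a j (by omega)
  have hcolc : ∀ b φ, φ ≤ T →
      (univ.filter (fun e : ν.cells => lb e.1.2 = b ∧ ψ0 e < φ)).card ≤
        (colsL ν lb b).card * κ φ := by
    intro b φ hφ
    rw [hcnt (fun e => lb e.1.2 = b) ((range s).image (fun a => (a, b))) φ hφ
      (by
        intro e he
        rw [Finset.mem_image]
        exact ⟨la e.1.1, Finset.mem_range.mpr (hlas e), by rw [he]⟩)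
      (by
        intro e he
        rw [Finset.mem_image] at he
        obtain ⟨x, _, hx⟩ := he
        rw [Prod.mk.injEq] at hx
        exact hx.2.symm), ← htele _ φ hφ]
    apply Finset.sum_le_sum
    intro j hj
    rw [Finset.mem_range] at hj
    rw [Finset.sum_image (by
      intro x _ y _ h
      exact (Prod.mk.injEq _ _ _ _ ▸ h).1)]
    exact hcol b j (by omega)
  have htotc : ∀ φ, φ ≤ T →
      (univ.filter (fun e : ν.cells => ψ0 e < φ)).card =
        gcut (ν.colLen 0) ν.rowLen (κ φ) := by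
    intro φ hφ
    have h1 := hcnt (fun _ => True) (range s ×ˢ range s) φ hφ
      (by
        intro e _
        rw [Finset.mem_product]
        exact ⟨Finset.mem_range.mpr (hlas e), Finset.mem_range.mpr (hlbs e)⟩)
      (fun _ _ => trivial)
    simp only [true_and] at h1
    rw [h1]
    have h2 : ∀ j ∈ range φ, ∑ a ∈ range s ×ˢ range s, Z a.1 a.2 j =
        ∑ a ∈ range s, ∑ b ∈ range s, Z a b j := by
      intro j _
      rw [Finset.sum_product]
    rw [Finset.sum_congr rfl h2]
    clear h1 h2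
    induction φ with
    | zero => rw [hκ0, gcut_zero]; simp
    | succ φ ih =>
      rw [Finset.sum_range_succ, ih (by omega)]
      exact (htot φ (by omega)).symm
  obtain ⟨ψ, hψr, hψc, hψt⟩ := detach_lab ν la lb hla' hlb' ψ0
  have hψΦ : ∀ v, ψ v < T := by
    intro v
    have h1 := hψt T
    rw [Finset.filter_true_of_mem (fun e _ => hψ0 e)] at h1
    have h2 := Finset.eq_of_subset_of_card_le (Finset.filter_subset (fun v : ν.cells => ψ v < T)
      univ) (by rw [h1])
    have h3 : v ∈ univ.filter (fun v : ν.cells => ψ v < T) := by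
      rw [h2]; exact Finset.mem_univ v
    exact (Finset.mem_filter.mp h3).2
  have harith : ∀ x c K : ℕ, 0 < c → x * c ≤ c * K + (c - 1) → x ≤ K := by
    intro x c K hc h
    by_contra hcon
    have h1 : (K + 1) * c ≤ x * c := Nat.mul_le_mul_right c (by omega)
    rw [Nat.add_mul, Nat.one_mul, Nat.mul_comm K c] at h1
    omega
  obtain ⟨c, c1, c2, c3⟩ := phases_col ν T κ (gcut (ν.colLen 0) ν.rowLen) hκ0 hκ ψ hψΦ
    (by
      intro R φ hφ
      by_cases hR : R < ν.colLen 0
      · have hpos : 0 < (rowsL ν la (la R)).card :=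
          Finset.card_pos.mpr ⟨R, (mem_rowsL ν la _ _).mpr ⟨hR, rfl⟩⟩
        apply harith _ _ _ hpos
        exact (hψr R φ hR).trans (Nat.add_le_add_right (hrowc (la R) φ hφ) _)
      · rw [Finset.filter_eq_empty_iff.mpr, Finset.card_empty]
        · exact Nat.zero_le _
        · intro e _ he
          apply hR
          rw [← he.1]
          exact (cell_lt ν e.1 e.2).1)
    (by
      intro X φ hφ
      by_cases hX : X < ν.rowLen 0
      · have hpos : 0 < (colsL ν lb (lb X)).card :=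
          Finset.card_pos.mpr ⟨X, (mem_colsL ν lb _ _).mpr ⟨hX, rfl⟩⟩
        apply harith _ _ _ hpos
        exact (hψc X φ hX).trans (Nat.add_le_add_right (hcolc (lb X) φ hφ) _)
      · rw [Finset.filter_eq_empty_iff.mpr, Finset.card_empty]
        · exact Nat.zero_le _
        · intro e _ he
          apply hX
          rw [← he.1]
          exact (cell_lt ν e.1 e.2).2.1)
    (by
      intro φ hφ
      rw [hψt φ, htotc φ hφ])
    (by
      intro k hk
      obtain ⟨φ1, φ2, σ, d, f1, f2, e1, e2, e3, e4, e5⟩ := hlin k hk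
      exact ⟨φ1, φ2, σ, d, f1, f2, e1, e2, e3, e4, e5⟩)
  apply cds_of_proper ν (fun R X => c (R, X))
  · intro R X X' h1 h2 h3
    by_contra hne
    exact c1 (R, X) ((YoungDiagram.mem_cells _).mpr h1) (R, X')
      ((YoungDiagram.mem_cells _).mpr h2) (fun h => hne (Prod.mk.injEq _ _ _ _ ▸ h).2)
      (Or.inl rfl) h3
  · intro R R' X h1 h2 h3
    by_contra hne
    exact c1 (R, X) ((YoungDiagram.mem_cells _).mpr h1) (R', X)
      ((YoungDiagram.mem_cells _).mpr h2) (fun h => hne (Prod.mk.injEq _ _ _ _ ▸ h).1)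
      (Or.inr rfl) h3
  · intro k _
    by_cases hk : κ T ≤ k
    · left
      intro v hv
      exact lt_of_lt_of_le (c2 v hv) hk
    · right
      obtain ⟨a, b, hab⟩ := gcut_attained (ν.colLen 0) ν.rowLen k
      refine ⟨a, b, ?_⟩
      have h1 := c3 k (by omega)
      rw [hab] at h1
      unfold ct at h1
      rw [outside_card, ← Nat.mul_add]
      exact h1

end Pool.MP_d56194_co
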