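import Mathlib
import Pool.Agent.Lib.MP_d56194_co.L.L0c
import Pool.Agent.Lib.MP_d56194_co.L.L5
import Pool.Agent.Lib.MP_d56194_co.J.J5

set_option autoImplicit false

namespace Pool.MP_d56194_co

open Finset

namespace L25

/-- the block sizes of an antitone function -/
noncomputable def gg (f : ℕ → ℕ) (m i : ℕ) : ℕ :=
  ((range m).filter (fun r => lab f m r + 1 = i)).card

theorem cs_gg (f : ℕ → ℕ) (m k : ℕ) :
    cs (gg f m) k = ((range m).filter (fun r => lab f m r < k)).card := by
  induction k with
  | zero =>
    rw [L5.cs_zero]
    symm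
    rw [card_eq_zero, filter_eq_empty_iff]
    intro r _
    omega
  | succ k ih =>
    rw [L5.cs_succ, ih, gg, ← card_union_of_disjoint]
    · congr 1
      ext r
      simp only [mem_union, mem_filter, mem_range]
      omega
    · rw [disjoint_left]
      intro r h1 h2
      rw [mem_filter] at h1 h2
      omega

theorem lt_cs_iff (f : ℕ → ℕ) (m : ℕ) (hf : Antitone f) (k r : ℕ) (hr : r < m) :
    r < cs (gg f m) k ↔ lab f m r < k := by
  rw [cs_gg]
  constructor
  · intro h
    by_contra hc
    have : (range m).filter (fun r => lab f m r < k) ⊆ range r := by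
      intro x hx
      rw [mem_filter] at hx
      rw [mem_range]
      by_contra hx'
      have := lab_mono f m hf r x (by omega)
      omega
    have := card_le_card this
    rw [card_range] at this
    omega
  · intro h
    have : range (r + 1) ⊆ (range m).filter (fun r => lab f m r < k) := by
      intro x hx
      rw [mem_range] at hx
      rw [mem_filter, mem_range]
      have := lab_mono f m hf x r (by omega)
      omega
    have := card_le_card this
    rw [card_range] at this
    omega

theorem cs_le (f : ℕ → ℕ) (m k : ℕ) : cs (gg f m) k ≤ m := by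
  rw [cs_gg]
  refine (card_filter_le _ _).trans ?_
  rw [card_range]

theorem cs_top (f : ℕ → ℕ) (m s : ℕ) (hs : ((range m).image f).card = s) :
    cs (gg f m) s = m := by
  rw [cs_gg, filter_true_of_mem, card_range]
  intro r hr
  exact lab_lt f m s hs.le r (mem_range.1 hr)

theorem lab_surj (f : ℕ → ℕ) (m s : ℕ) (hs : ((range m).image f).card = s)
    (k : ℕ) (hk : k < s) : ∃ r, r < m ∧ lab f m r = k := by
  have h1 : (range m).image (lab f m) =
      ((range m).image f).image (fun l => (((range m).image f).filter (fun l' => l < l')).card) := by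
    rw [image_image]
    rfl
  have h2 : ((range m).image (lab f m)).card = s := by
    rw [h1, card_image_of_injOn, hs]
    intro a ha b hb hab
    by_contra hne
    rcases lt_or_gt_of_ne hne with h | h
    · have : ((range m).image f).filter (fun l' => b < l') ⊂
          ((range m).image f).filter (fun l' => a < l') := by
        refine ⟨fun x hx => ?_, fun hsub => ?_⟩
        · rw [mem_filter] at hx ⊢
          exact ⟨hx.1, h.trans hx.2⟩
        · have := hsub (mem_filter.2 ⟨hb, h⟩)
          rw [mem_filter] at this
          exact lt_irrefl _ this.2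
      have := card_lt_card this
      simp only at hab
      omega
    · have : ((range m).image f).filter (fun l' => a < l') ⊂
          ((range m).image f).filter (fun l' => b < l') := by
        refine ⟨fun x hx => ?_, fun hsub => ?_⟩
        · rw [mem_filter] at hx ⊢
          exact ⟨hx.1, h.trans hx.2⟩
        · have := hsub (mem_filter.2 ⟨ha, h⟩)
          rw [mem_filter] at this
          exact lt_irrefl _ this.2
      have := card_lt_card this
      simp only at hab
      omega
  have h3 : (range m).image (lab f m) = range s := by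
    refine eq_of_subset_of_card_le ?_ ?_
    · intro x hx
      obtain ⟨r, hr, rfl⟩ := mem_image.1 hx
      exact mem_range.2 (lab_lt f m s hs.le r (mem_range.1 hr))
    · rw [h2, card_range]
  have h4 : k ∈ (range m).image (lab f m) := by rw [h3]; exact mem_range.2 hk
  obtain ⟨r, hr, hrk⟩ := mem_image.1 h4
  exact ⟨r, mem_range.1 hr, hrk⟩

theorem gg_eq (f : ℕ → ℕ) (m s : ℕ) (hf : Antitone f) (hs : ((range m).image f).card = s)
    (i : ℕ) (hi : 1 ≤ i) (his : i ≤ s) :
    ∃ r, r < m ∧ gg f m i = ((range m).filter (fun r' => f r' = f r)).card := by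
  obtain ⟨r, hr, hri⟩ := lab_surj f m s hs (i - 1) (by omega)
  refine ⟨r, hr, ?_⟩
  rw [gg]
  congr 1
  refine filter_congr fun r' hr' => ?_
  rw [mem_range] at hr'
  constructor
  · intro h
    exact lab_eq f m hf r' r hr' hr (by omega)
  · intro h
    have : lab f m r' = lab f m r := by unfold lab; rw [h]
    omega

/-- the labels of the rows and the columns determine the cells -/
theorem cell_iff (μ : YoungDiagram) (s : ℕ)
    (hs : ((range (μ.colLen 0)).image μ.rowLen).card = s) (r c : ℕ) (hr : r < μ.colLen 0)
    (hc : c < μ.rowLen 0) :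
    c < μ.rowLen r ↔ lab μ.rowLen (μ.colLen 0) r + lab μ.colLen (μ.rowLen 0) c < s := by
  have key : ∀ c, c < μ.rowLen 0 →
      (((range (μ.colLen 0)).image μ.rowLen).filter (fun l => c < l)).card +
        lab μ.colLen (μ.rowLen 0) c = s := by
    intro c
    induction c with
    | zero =>
      intro _
      have h1 : ((range (μ.colLen 0)).image μ.rowLen).filter (fun l => 0 < l) =
          (range (μ.colLen 0)).image μ.rowLen := by
        refine filter_true_of_mem ?_
        intro l hl
        obtain ⟨r, hr, rfl⟩ := mem_image.1 hl
        rw [mem_range] at hr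
        exact YoungDiagram.mem_iff_lt_rowLen.1 (YoungDiagram.mem_iff_lt_colLen.2 hr)
      have h2 : lab μ.colLen (μ.rowLen 0) 0 = 0 := by
        unfold lab
        rw [card_eq_zero, filter_eq_empty_iff]
        intro l hl
        obtain ⟨x, hx, rfl⟩ := mem_image.1 hl
        exact not_lt.2 (μ.colLen_anti 0 x (Nat.zero_le _))
      rw [h1, h2, hs]
      rfl
    | succ c ih =>
      intro hc
      have ih' := ih (by omega)
      have hanti := μ.colLen_anti c (c + 1) (Nat.le_succ c)
      rcases hanti.eq_or_lt with he | hlt
      · -- no row of length c + 1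
        have h1 : ((range (μ.colLen 0)).image μ.rowLen).filter (fun l => c + 1 < l) =
            ((range (μ.colLen 0)).image μ.rowLen).filter (fun l => c < l) := by
          refine filter_congr fun l hl => ?_
          obtain ⟨r, hr, rfl⟩ := mem_image.1 hl
          constructor
          · intro h; omega
          · intro h
            by_contra hcon
            have h3 : μ.rowLen r = c + 1 := by omega
            have h4 : (r, c) ∈ μ := YoungDiagram.mem_iff_lt_rowLen.2 (by omega)
            have h5 := YoungDiagram.mem_iff_lt_colLen.1 h4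
            rw [← he] at h5
            have h6 := YoungDiagram.mem_iff_lt_rowLen.1 (YoungDiagram.mem_iff_lt_colLen.2 h5)
            omega
        have h2 : lab μ.colLen (μ.rowLen 0) (c + 1) = lab μ.colLen (μ.rowLen 0) c := by
          unfold lab
          rw [he]
        rw [h1, h2]
        exact ih'
      · have hrow : μ.rowLen (μ.colLen (c + 1)) = c + 1 := by
          have h4 : (μ.colLen (c + 1), c) ∈ μ := YoungDiagram.mem_iff_lt_colLen.2 hlt
          have h5 := YoungDiagram.mem_iff_lt_rowLen.1 h4
          by_contra hne
          have h6 : (μ.colLen (c + 1), c + 1) ∈ μ := YoungDiagram.mem_iff_lt_rowLen.2 (by omega)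
          have h7 := YoungDiagram.mem_iff_lt_colLen.1 h6
          omega
        have hmem : c + 1 ∈ (range (μ.colLen 0)).image μ.rowLen := by
          refine mem_image.2 ⟨μ.colLen (c + 1), ?_, hrow⟩
          rw [mem_range]
          exact lt_of_lt_of_le hlt (μ.colLen_anti 0 c (Nat.zero_le _))
        have h1 : ((range (μ.colLen 0)).image μ.rowLen).filter (fun l => c < l) =
            insert (c + 1) (((range (μ.colLen 0)).image μ.rowLen).filter
              (fun l => c + 1 < l)) := by
          ext l
          simp only [mem_filter, mem_insert]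
          constructor
          · rintro ⟨h1, h2⟩
            rcases (show c + 1 ≤ l from h2).eq_or_lt with h3 | h3
            · left; exact h3.symm
            · right; exact ⟨h1, h3⟩
          · rintro (rfl | ⟨h1, h2⟩)
            · exact ⟨hmem, Nat.lt_succ_self c⟩
            · exact ⟨h1, by omega⟩
        have h2 : ((range (μ.rowLen 0)).image μ.colLen).filter (fun l => μ.colLen (c + 1) < l) =
            insert (μ.colLen c) (((range (μ.rowLen 0)).image μ.colLen).filter
              (fun l => μ.colLen c < l)) := by
          ext l
          simp only [mem_filter, mem_insert]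
          constructor
          · rintro ⟨h1, h2⟩
            obtain ⟨x, hx, rfl⟩ := mem_image.1 h1
            have hxc : x ≤ c := by
              by_contra hcon
              have := μ.colLen_anti (c + 1) x (by omega)
              omega
            have := μ.colLen_anti x c hxc
            rcases this.eq_or_lt with h3 | h3
            · left; exact h3.symm
            · right; exact ⟨h1, h3⟩
          · rintro (rfl | ⟨h1, h2⟩)
            · exact ⟨mem_image.2 ⟨c, mem_range.2 (by omega), rfl⟩, hlt⟩
            · exact ⟨h1, by omega⟩
        have h3 : lab μ.colLen (μ.rowLen 0) (c + 1) = lab μ.colLen (μ.rowLen 0) c + 1 := by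
          unfold lab
          rw [h2, card_insert_of_notMem]
          rw [mem_filter]
          exact fun h => lt_irrefl _ h.2
        rw [h1, card_insert_of_notMem (by
          rw [mem_filter]
          exact fun h => lt_irrefl _ h.2)] at ih'
        omega
  have hk := key c hc
  constructor
  · intro h
    have : lab μ.rowLen (μ.colLen 0) r <
        (((range (μ.colLen 0)).image μ.rowLen).filter (fun l => c < l)).card := by
      unfold lab
      refine card_lt_card ⟨fun x hx => ?_, fun hsub => ?_⟩
      · rw [mem_filter] at hx ⊢
        exact ⟨hx.1, h.trans hx.2⟩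
      · have := hsub (mem_filter.2 ⟨mem_image_of_mem _ (mem_range.2 hr), h⟩)
        rw [mem_filter] at this
        exact lt_irrefl _ this.2
    omega
  · intro h
    by_contra hcon
    have : (((range (μ.colLen 0)).image μ.rowLen).filter (fun l => c < l)).card ≤
        lab μ.rowLen (μ.colLen 0) r := by
      unfold lab
      refine card_le_card fun x hx => ?_
      rw [mem_filter] at hx ⊢
      exact ⟨hx.1, by omega⟩
    omega

theorem card_cols (μ : YoungDiagram) :
    ((range (μ.rowLen 0)).image μ.colLen).card = ((range (μ.colLen 0)).image μ.rowLen).card := by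
  refine le_antisymm (card_heights μ) ?_
  have h := card_heights μ.transpose
  have e1 : μ.transpose.rowLen = μ.colLen := by
    funext i; exact YoungDiagram.rowLen_transpose μ i
  have e2 : μ.transpose.colLen = μ.rowLen := by
    funext i; exact YoungDiagram.colLen_transpose μ i
  rw [e1, e2] at h
  exact h

end L25

open L25

/-- M25: the block data of a diagram -/
theorem shape_data (μ : YoungDiagram) (s : ℕ)
    (hs : ((range (μ.colLen 0)).image μ.rowLen).card = s) :
    ∃ g h : ℕ → ℕ, Shp s g h μ.rowLen ∧ Shp s h g μ.colLen ∧ cs g s = μ.colLen 0 ∧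
      cs h s = μ.rowLen 0 ∧
      (∀ i, 1 ≤ i → i ≤ s → ∃ r, r < μ.colLen 0 ∧
        g i = ((range (μ.colLen 0)).filter (fun r' => μ.rowLen r' = μ.rowLen r)).card) ∧
      (∀ x, 1 ≤ x → x ≤ s → ∃ c, c < μ.rowLen 0 ∧
        h x = ((range (μ.rowLen 0)).filter (fun c' => μ.colLen c' = μ.colLen c)).card) := by
  have hs' : ((range (μ.rowLen 0)).image μ.colLen).card = s := by rw [card_cols, hs]
  have hr : Antitone μ.rowLen := fun i j hij => μ.rowLen_anti i j hij
  have hc : Antitone μ.colLen := fun i j hij => μ.colLen_anti i j hij
  have hg := cs_top μ.rowLen (μ.colLen 0) s hs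
  have hh := cs_top μ.colLen (μ.rowLen 0) s hs'
  refine ⟨gg μ.rowLen (μ.colLen 0), gg μ.colLen (μ.rowLen 0), ⟨?_, ?_⟩, ⟨?_, ?_⟩, hg, hh,
    fun i h1 h2 => gg_eq _ _ s hr hs i h1 h2, fun i h1 h2 => gg_eq _ _ s hc hs' i h1 h2⟩
  · intro k r hk h1 h2
    have hrm : r < μ.colLen 0 := lt_of_lt_of_le h2 (cs_le _ _ _)
    have a1 : lab μ.rowLen (μ.colLen 0) r = k := by
      have b1 := (lt_cs_iff μ.rowLen (μ.colLen 0) hr (k + 1) r hrm).1 h2
      have b2 : ¬ lab μ.rowLen (μ.colLen 0) r < k := by
        intro h
        have := (lt_cs_iff μ.rowLen (μ.colLen 0) hr k r hrm).2 h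
        omega
      omega
    have hle : μ.rowLen r ≤ μ.rowLen 0 := hr (Nat.zero_le r)
    have key : ∀ c, c < μ.rowLen 0 → (c < μ.rowLen r ↔
        c < cs (gg μ.colLen (μ.rowLen 0)) (s - k)) := by
      intro c hcn
      rw [cell_iff μ s hs r c hrm hcn, lt_cs_iff _ _ hc _ _ hcn, a1]
      omega
    have hle2 := cs_le μ.colLen (μ.rowLen 0) (s - k)
    rcases lt_trichotomy (μ.rowLen r) (cs (gg μ.colLen (μ.rowLen 0)) (s - k)) with h | h | h
    · have := (key (μ.rowLen r) (by omega)).2 h
      omega
    · exact h
    · have := (key (cs (gg μ.colLen (μ.rowLen 0)) (s - k)) (by omega)).1 h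
      omega
  · intro r h1
    rw [hg] at h1
    by_contra hne
    have h2 : (r, 0) ∈ μ := YoungDiagram.mem_iff_lt_rowLen.2 (by omega)
    have := YoungDiagram.mem_iff_lt_colLen.1 h2
    omega
  · intro k c hk h1 h2
    have hcm : c < μ.rowLen 0 := lt_of_lt_of_le h2 (cs_le _ _ _)
    have a1 : lab μ.colLen (μ.rowLen 0) c = k := by
      have b1 := (lt_cs_iff μ.colLen (μ.rowLen 0) hc (k + 1) c hcm).1 h2
      have b2 : ¬ lab μ.colLen (μ.rowLen 0) c < k := by
        intro h
        have := (lt_cs_iff μ.colLen (μ.rowLen 0) hc k c hcm).2 h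
        omega
      omega
    have hle : μ.colLen c ≤ μ.colLen 0 := hc (Nat.zero_le c)
    have key : ∀ r, r < μ.colLen 0 → (r < μ.colLen c ↔
        r < cs (gg μ.rowLen (μ.colLen 0)) (s - k)) := by
      intro r hrm
      rw [← YoungDiagram.mem_iff_lt_colLen, YoungDiagram.mem_iff_lt_rowLen,
        cell_iff μ s hs r c hrm hcm, lt_cs_iff _ _ hr _ _ hrm, a1]
      omega
    have hle2 := cs_le μ.rowLen (μ.colLen 0) (s - k)
    rcases lt_trichotomy (μ.colLen c) (cs (gg μ.rowLen (μ.colLen 0)) (s - k)) with h | h | h
    · have := (key (μ.colLen c) (by omega)).2 h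
      omega
    · exact h
    · have := (key (cs (gg μ.rowLen (μ.colLen 0)) (s - k)) (by omega)).1 h
      omega
  · intro c h1
    rw [hh] at h1
    by_contra hne
    have h2 : (0, c) ∈ μ := YoungDiagram.mem_iff_lt_colLen.2 (by omega)
    have := YoungDiagram.mem_iff_lt_rowLen.1 h2
    omega

end Pool.MP_d56194_co
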