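import Mathlib
import Pool.Agent.Lib.MP_d56194_co.L.L0
import Pool.Agent.Lib.MP_d56194_co.L.L5

set_option autoImplicit false

namespace Pool.MP_d56194_co

open Finset

namespace L26

variable {s : ℕ} {g h al : ℕ → ℕ} {N : ℕ} {η ψ : ℝ} {K0 p : ℕ} {lo hi sig : ℕ → ℕ}

lemma hi_lo (hTD : TD s g h al N η ψ K0 p lo hi sig) {j l : ℕ} (hjl : j < l) (hl : l < p) :
    hi j ≤ lo l := by
  obtain ⟨l', rfl⟩ : ∃ l', l = l' + 1 := ⟨l - 1, by omega⟩
  exact (L5.hi_mono hTD (show j ≤ l' by omega) (by omega)).trans (hTD.ord l' hl)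

/-- the phases up to the level `c` -/
def Ph (K0 p : ℕ) (lo hi : ℕ → ℕ) (c : ℕ) : Prop :=
  ∃ (T : ℕ) (κ jj : ℕ → ℕ), κ 0 = 0 ∧ (∀ φ, κ φ ≤ κ (φ + 1)) ∧ κ T = c ∧
      (∀ φ, φ < T → (jj φ < p ∧ κ φ = lo (jj φ) ∧ κ (φ + 1) = hi (jj φ)) ∨
        (p ≤ jj φ ∧ κ (φ + 1) = κ φ + 1 ∧ κ φ + 1 ∈ Thin K0 p lo hi)) ∧
      ∀ F G : ℕ → ℕ, ∑ φ ∈ range T, (if jj φ < p then F (jj φ) else G (κ φ + 1)) =
        ∑ j ∈ (range p).filter (fun j => hi j ≤ c), F j +
          ∑ k ∈ (Thin K0 p lo hi).filter (fun k => k ≤ c), G k

/-- one more phase -/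
lemma Ph.step {c c' : ℕ} (h : Ph K0 p lo hi c') (hcc : c' ≤ c) (j : ℕ)
    (hj : (j < p ∧ c' = lo j ∧ c = hi j) ∨ (p ≤ j ∧ c = c' + 1 ∧ c' + 1 ∈ Thin K0 p lo hi))
    (hsum : ∀ F G : ℕ → ℕ, ∑ j ∈ (range p).filter (fun j => hi j ≤ c), F j +
          ∑ k ∈ (Thin K0 p lo hi).filter (fun k => k ≤ c), G k =
        ∑ j ∈ (range p).filter (fun j => hi j ≤ c'), F j +
          ∑ k ∈ (Thin K0 p lo hi).filter (fun k => k ≤ c'), G k +
          (if j < p then F j else G (c' + 1))) : Ph K0 p lo hi c := by
  obtain ⟨T, κ, jj, h0, h1, h2, h3, h4⟩ := h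
  refine ⟨T + 1, fun φ => if φ ≤ T then κ φ else c, fun φ => if φ < T then jj φ else j,
    ?_, ?_, ?_, ?_, ?_⟩
  · simp [h0]
  · intro φ
    simp only
    by_cases e1 : φ + 1 ≤ T
    · rw [if_pos (by omega), if_pos e1]
      exact h1 φ
    · by_cases e2 : φ ≤ T
      · have e3 : φ = T := by omega
        subst e3
        rw [if_pos le_rfl, if_neg e1, h2]
        exact hcc
      · rw [if_neg e2, if_neg e1]
  · simp
  · intro φ hφ
    simp only
    by_cases e1 : φ < T
    · rw [if_pos e1, if_pos (by omega), if_pos (by omega)]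
      exact h3 φ e1
    · have e3 : φ = T := by omega
      subst e3
      rw [if_neg e1, if_pos le_rfl, if_neg (by omega), h2]
      rcases hj with ⟨e4, e5, e6⟩ | ⟨e4, e5, e6⟩
      · exact Or.inl ⟨e4, e5, e6⟩
      · exact Or.inr ⟨e4, e5, e6⟩
  · intro F G
    rw [sum_range_succ, hsum F G, ← h4 F G]
    congr 1
    · apply sum_congr rfl
      intro φ hφ
      rw [mem_range] at hφ
      simp only [if_pos hφ, if_pos hφ.le]
    · simp only [lt_self_iff_false, if_false, le_refl, if_true, h2]

lemma all (hTD : TD s g h al N η ψ K0 p lo hi sig) (c : ℕ) (hc : c ≤ K0)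
    (hadm : ∀ j, j < p → ¬ (lo j < c ∧ c < hi j)) : Ph K0 p lo hi c := by
  classical
  induction c using Nat.strong_induction_on with
  | _ c ih =>
    rcases Nat.eq_zero_or_pos c with hc0 | hc0
    · subst hc0
      refine ⟨0, fun _ => 0, fun _ => 0, rfl, fun _ => le_rfl, rfl, fun φ h => by omega, ?_⟩
      intro F G
      have e1 : (range p).filter (fun j => hi j ≤ 0) = ∅ := by
        rw [filter_eq_empty_iff]
        intro j hj
        have := hTD.lohi j (mem_range.mp hj)
        omega
      have e2 : (Thin K0 p lo hi).filter (fun k => k ≤ 0) = ∅ := by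
        rw [filter_eq_empty_iff]
        intro k hk
        unfold Thin at hk
        rw [mem_filter, mem_Icc] at hk
        omega
      rw [e1, e2]
      simp
    · by_cases hex : ∃ j, j < p ∧ c = hi j
      · obtain ⟨j, hj, hcj⟩ := hex
        have hlh := hTD.lohi j hj
        have hP : Ph K0 p lo hi (lo j) := by
          apply ih (lo j) (by omega) (by omega)
          rintro j' hj' ⟨e1, e2⟩
          rcases Nat.lt_trichotomy j' j with e3 | e3 | e3
          · have := hi_lo hTD e3 hj
            omega
          · subst e3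
            omega
          · have := hi_lo hTD e3 hj'
            omega
        refine Ph.step hP (by omega) j (Or.inl ⟨hj, rfl, hcj⟩) ?_
        intro F G
        rw [if_pos hj]
        have e1 : (range p).filter (fun j' => hi j' ≤ c) =
            insert j ((range p).filter (fun j' => hi j' ≤ lo j)) := by
          ext j'
          simp only [mem_filter, mem_insert, mem_range]
          constructor
          · rintro ⟨h1, h2⟩
            rcases Nat.lt_trichotomy j' j with e3 | e3 | e3
            · exact Or.inr ⟨h1, hi_lo hTD e3 hj⟩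
            · exact Or.inl e3
            · exfalso
              have h3 := hi_lo hTD e3 h1
              have h4 := hTD.lohi j' h1
              omega
          · rintro (h1 | ⟨h1, h2⟩)
            · subst h1
              exact ⟨hj, hcj.ge⟩
            · exact ⟨h1, by omega⟩
        have e2 : (Thin K0 p lo hi).filter (fun k => k ≤ c) =
            (Thin K0 p lo hi).filter (fun k => k ≤ lo j) := by
          apply filter_congr
          intro k hk
          unfold Thin at hk
          rw [mem_filter] at hk
          have h1 := hk.2 j hj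
          constructor
          · intro h2
            by_contra h3
            exact h1 ⟨by omega, by omega⟩
          · intro h2
            omega
        rw [e1, e2, sum_insert]
        · ring
        · rw [mem_filter]
          rintro ⟨_, h2⟩
          omega
      · push Not at hex
        have hthin : c ∈ Thin K0 p lo hi := by
          unfold Thin
          rw [mem_filter, mem_Icc]
          refine ⟨⟨hc0, hc⟩, ?_⟩
          rintro j hj ⟨e1, e2⟩
          have e3 := hex j hj
          exact hadm j hj ⟨e1, by omega⟩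
        have hthin' := hthin
        unfold Thin at hthin'
        rw [mem_filter] at hthin'
        have hP : Ph K0 p lo hi (c - 1) := by
          apply ih (c - 1) (by omega) (by omega)
          rintro j' hj' ⟨e1, e2⟩
          exact hthin'.2 j' hj' ⟨by omega, by omega⟩
        refine Ph.step hP (by omega) p (Or.inr ⟨le_rfl, by omega, ?_⟩) ?_
        · have : c - 1 + 1 = c := by omega
          rw [this]
          exact hthin
        intro F G
        rw [if_neg (lt_irrefl p)]
        have e0 : c - 1 + 1 = c := by omega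
        have e1 : (range p).filter (fun j' => hi j' ≤ c) =
            (range p).filter (fun j' => hi j' ≤ c - 1) := by
          apply filter_congr
          intro j hj
          have := hex j (mem_range.mp hj)
          omega
        have e2 : (Thin K0 p lo hi).filter (fun k => k ≤ c) =
            insert c ((Thin K0 p lo hi).filter (fun k => k ≤ c - 1)) := by
          ext k
          simp only [mem_filter, mem_insert]
          constructor
          · rintro ⟨h1, h2⟩
            by_cases h3 : k = c
            · exact Or.inl h3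
            · exact Or.inr ⟨h1, by omega⟩
          · rintro (h1 | ⟨h1, h2⟩)
            · subst h1
              exact ⟨hthin, le_rfl⟩
            · exact ⟨h1, by omega⟩
        rw [e0, e1, e2, sum_insert]
        · ring
        · rw [mem_filter]
          rintro ⟨_, h2⟩
          omega

end L26

open L26 in
/-- M26: the thick intervals and the thin times in increasing order -/
theorem phase_list (s : ℕ) (g h al : ℕ → ℕ) (N : ℕ) (η ψ : ℝ) (K0 p : ℕ)
    (lo hi sig : ℕ → ℕ) (hTD : TD s g h al N η ψ K0 p lo hi sig) :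
    ∃ (T : ℕ) (κ jj : ℕ → ℕ), κ 0 = 0 ∧ (∀ φ, κ φ ≤ κ (φ + 1)) ∧ κ T = K0 ∧
      (∀ φ, φ < T → (jj φ < p ∧ κ φ = lo (jj φ) ∧ κ (φ + 1) = hi (jj φ)) ∨
        (p ≤ jj φ ∧ κ (φ + 1) = κ φ + 1 ∧ κ φ + 1 ∈ Thin K0 p lo hi)) ∧
      ∀ F G : ℕ → ℕ, ∑ φ ∈ range T, (if jj φ < p then F (jj φ) else G (κ φ + 1)) =
        ∑ j ∈ range p, F j + ∑ k ∈ Thin K0 p lo hi, G k := by
  classical
  have hhi : ∀ j, j < p → hi j ≤ K0 := fun j hj =>
    (L5.hi_mono hTD (show j ≤ p - 1 by omega) (by omega)).trans hTD.last
  obtain ⟨T, κ, jj, h0, h1, h2, h3, h4⟩ := all hTD K0 le_rfl (fun j hj h => by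
    have := hhi j hj
    omega)
  refine ⟨T, κ, jj, h0, h1, h2, h3, ?_⟩
  intro F G
  rw [h4 F G]
  congr 1
  · rw [filter_true_of_mem]
    intro j hj
    exact hhi j (mem_range.mp hj)
  · rw [filter_true_of_mem]
    intro k hk
    unfold Thin at hk
    rw [mem_filter, mem_Icc] at hk
    exact hk.1.2

end Pool.MP_d56194_co
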