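import Mathlib
import Pool.Agent.Lib.MP_d56194_co.L.L16
import Pool.Agent.Lib.MP_d56194_co.G.G2

set_option autoImplicit false

namespace Pool.MP_d56194_co

open Finset

namespace L27

theorem lam_le {s : ℕ} {g h lam : ℕ → ℕ} (hS : Shp s g h lam) (r : ℕ) : lam r ≤ cs h s := by
  by_cases hr : cs g s ≤ r
  · rw [hS.out r hr]
    exact Nat.zero_le _
  · push Not at hr
    have hs : 0 < s := by
      rcases Nat.eq_zero_or_pos s with rfl | h
      · rw [L5.cs_zero] at hr
        omega
      · exact h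
    obtain ⟨k, hk, h1, h2⟩ : ∃ k, k < s ∧ cs g k ≤ r ∧ r < cs g (k + 1) := by
      clear hS hs
      induction s with
      | zero => rw [L5.cs_zero] at hr; omega
      | succ s ih =>
        by_cases h' : r < cs g s
        · obtain ⟨k, a1, a2, a3⟩ := ih h'
          exact ⟨k, by omega, a2, a3⟩
        · exact ⟨s, by omega, by omega, hr⟩
    rw [hS.blk k r hk h1 h2]
    exact L5.cs_mono h (by omega)

theorem ct_min {s : ℕ} {g h lam : ℕ → ℕ} (hS : Shp s g h lam) (q c a b : ℕ) :
    ct (cs g s) lam q c (min a (cs g s)) (min b (cs h s)) ≤ ct (cs g s) lam q c a b := by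
  unfold ct
  refine Nat.add_le_add (Nat.mul_le_mul_left c (Nat.add_le_add (min_le_left _ _)
    (min_le_left _ _))) ?_
  have hI : Ico (min a (cs g s)) (cs g s) = Ico a (cs g s) := by
    rcases le_total a (cs g s) with h' | h'
    · rw [min_eq_left h']
    · rw [min_eq_right h', Ico_self, Ico_eq_empty (by omega)]
  rw [hI]
  refine sum_le_sum fun i _ => Nat.mul_le_mul_left q ?_
  have := lam_le hS i
  omega

end L27

/-- M27: the levels are the block levels -/
theorem gcut_isAl (μ : YoungDiagram) (s : ℕ) (g h : ℕ → ℕ) (hS : Shp s g h μ.rowLen)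
    (hm : cs g s = μ.colLen 0) (hn : cs h s = μ.rowLen 0) :
    IsAl s g h (gcut (μ.colLen 0) μ.rowLen) := by
  have hn' := hn
  clear hn'
  rw [← hm]
  have hle : ∀ k a b, a ≤ s → b ≤ s → gcut (cs g s) μ.rowLen k ≤ cutb s g h k a b := by
    intro k a b ha hb
    have h1 := gcut_le (cs g s) μ.rowLen k (cs g a) (cs h b)
    rw [L16.ct_block hS 1 k a b ha, one_mul] at h1
    exact h1
  refine ⟨hle, ?_⟩
  intro k
  obtain ⟨α, β, h1⟩ := gcut_attained (cs g s) μ.rowLen k
  obtain ⟨a, b, ha, hb, h2⟩ := L16.corner_le hS 1 k (min α (cs g s)) (min β (cs h s))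
    (min_le_right _ _) (min_le_right _ _)
  refine ⟨a, b, ha, hb, le_antisymm (hle k a b ha hb) ?_⟩
  rw [h1]
  refine le_trans ?_ (h2.trans (L27.ct_min hS 1 k α β))
  rw [L16.ct_block hS 1 k a b ha, one_mul]
  exact le_rfl

end Pool.MP_d56194_co
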