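import Mathlib
import Pool.Agent.Lib.MP_d56194_co.L.L0

set_option autoImplicit false

namespace Pool.MP_d56194_co

open Finset

namespace L3

/-- `w` is realised on `Z` by a table of natural numbers on the exceptions -/
def Good (s p : ℕ) (Z : Finset (ℕ × ℕ × ℕ)) (w : ℕ × ℕ × ℕ → ℕ) : Prop :=
  ∃ x : ℕ × ℕ × ℕ → ℕ, (∀ v, x v ≠ 0 → LE s p v ∧ ¬ LS s p Z v) ∧
    ∀ c ∈ Z, ∑ v ∈ LBox s p, (if Oct c v then x v else 0) = w c

variable {s p : ℕ} {Z : Finset (ℕ × ℕ × ℕ)}

lemma Good.congr {w w' : ℕ × ℕ × ℕ → ℕ} (h : Good s p Z w) (hw : ∀ c ∈ Z, w c = w' c) :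
    Good s p Z w' := by
  obtain ⟨x, h1, h2⟩ := h
  exact ⟨x, h1, fun c hc => by rw [h2 c hc, hw c hc]⟩

lemma good_zero : Good s p Z (fun _ => 0) :=
  ⟨fun _ => 0, fun v hv => (hv rfl).elim, fun c _ => by simp⟩

lemma Good.add {w w' : ℕ × ℕ × ℕ → ℕ} (h : Good s p Z w) (h' : Good s p Z w') :
    Good s p Z (fun c => w c + w' c) := by
  obtain ⟨x, h1, h2⟩ := h
  obtain ⟨y, g1, g2⟩ := h'
  refine ⟨fun v => x v + y v, ?_, ?_⟩
  · intro v hv
    by_cases hx : x v = 0
    · exact g1 v (by intro h0; apply hv; simp [hx, h0])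
    · exact h1 v hx
  · intro c hc
    simp only
    rw [← h2 c hc, ← g2 c hc, ← Finset.sum_add_distrib]
    apply Finset.sum_congr rfl
    intro v _
    split_ifs <;> simp

lemma good_sum {ι : Type} (I : Finset ι) (w : ι → ℕ × ℕ × ℕ → ℕ)
    (h : ∀ i ∈ I, Good s p Z (w i)) : Good s p Z (fun c => ∑ i ∈ I, w i c) := by
  classical
  induction I using Finset.induction_on with
  | empty => simpa using good_zero
  | insert a I ha ih =>
    simp only [Finset.sum_insert ha]
    exact (h a (Finset.mem_insert_self _ _)).add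
      (ih fun i hi => h i (Finset.mem_insert_of_mem hi))

lemma good_single (e : ℕ × ℕ × ℕ) (he : LE s p e) (c0 : ℕ × ℕ × ℕ) (hc0 : c0 ∈ Z)
    (ho : Oct c0 e) (m : ℕ) : Good s p Z (fun c => if Oct c e then m else 0) := by
  refine ⟨fun v => if v = e then m else 0, ?_, ?_⟩
  · intro v hv
    have : v = e := by
      by_contra hne
      exact hv (by simp [hne])
    subst this
    exact ⟨he, fun hl => hl.2 c0 hc0 ho⟩
  · intro c _
    have hm : e ∈ LBox s p := by
      obtain ⟨h1, h2, h3, -⟩ := he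
      simp only [LBox, mem_product, mem_range]
      omega
    rw [Finset.sum_eq_single e]
    · simp
    · intro v _ hv
      simp [hv]
    · intro h; exact (h hm).elim

/-- entries `(a, b, i)` -/
lemma good_up (hZ : ZP s p Z) (a b i : ℕ) (hi : (a, b, i) ∈ Z)
    (hor : a + b = s ∨ ∃ k, k < i ∧ (a, b, k) ∈ Z) (m : ℕ) :
    Good s p Z (fun c => if c.1 = a ∧ c.2.1 = b ∧ i ≤ c.2.2 then m else 0) := by
  have hbox := hZ.box _ hi
  simp only at hbox
  have hab : a + b ≤ s := by
    by_contra h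
    have := (hZ.z3 a b i hi (by omega)).1
    omega
  have h0 : ¬ (a = 0 ∧ b = 0) := by
    rintro ⟨rfl, rfl⟩
    rcases hor with h | ⟨k, hk, hkZ⟩
    · have := hZ.spos
      omega
    · have h1 := hZ.z4' _ hi
      have h2 := hZ.z4' _ hkZ
      omega
  have hLE : LE s p (a, b, i) := by
    refine ⟨by simp only; omega, by simp only; omega, by simp only; omega, ?_, ?_⟩
    · simpa using h0
    · right; right; simp only; omega
  have ho : Oct (a, b, i) (a, b, i) := Or.inl ⟨le_rfl, le_rfl, le_rfl⟩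
  refine (good_single (a, b, i) hLE (a, b, i) hi ho m).congr ?_
  rintro ⟨a', b', j'⟩ hc
  have key : Oct (a', b', j') (a, b, i) ↔ (a' = a ∧ b' = b ∧ i ≤ j') := by
    constructor
    · rintro (⟨h1, h2, h3⟩ | ⟨h1, h2, h3⟩)
      · simp only at h1 h2 h3
        rcases hor with h | ⟨k, hk, hkZ⟩
        · have := hZ.z3 a' b' j' hc (by omega)
          omega
        · have e1 := hZ.z1 _ hi _ hc h1 h2 h3
          have e2 := hZ.z1 _ hkZ _ hc h1 h2 (by simp only; omega)
          simp only at e1 e2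
          omega
      · simp only at h1 h2 h3
        have e1 := hZ.z1 _ hc _ hi (by simp only; omega) (by simp only; omega)
          (by simp only; omega)
        simp only at e1
        omega
    · rintro ⟨rfl, rfl, h3⟩
      exact Or.inl ⟨le_rfl, le_rfl, h3⟩
  simp only
  by_cases h : Oct (a', b', j') (a, b, i)
  · rw [if_pos h, if_pos (key.1 h)]
  · rw [if_neg h, if_neg (fun h' => h (key.2 h'))]

/-- entries `(a + 1, b + 1, i + 1)` -/
lemma good_down (hZ : ZP s p Z) (a b i : ℕ) (hi : (a, b, i) ∈ Z) (hi1 : (a, b, i + 1) ∈ Z)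
    (hab : a + b < s) (m : ℕ) :
    Good s p Z (fun c => if c.1 = a ∧ c.2.1 = b ∧ c.2.2 ≤ i then m else 0) := by
  have hbox := hZ.box _ hi1
  simp only at hbox
  have hLE : LE s p (a + 1, b + 1, i + 1) := by
    refine ⟨by simp only; omega, by simp only; omega, by simp only; omega, ?_, ?_⟩
    · simp
    · right; right; simp only; omega
  have ho : Oct (a, b, i) (a + 1, b + 1, i + 1) :=
    Or.inr ⟨by simp, by simp, by simp⟩
  refine (good_single (a + 1, b + 1, i + 1) hLE (a, b, i) hi ho m).congr ?_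
  rintro ⟨a', b', j'⟩ hc
  have key : Oct (a', b', j') (a + 1, b + 1, i + 1) ↔ (a' = a ∧ b' = b ∧ j' ≤ i) := by
    constructor
    · rintro (⟨h1, h2, h3⟩ | ⟨h1, h2, h3⟩)
      · simp only at h1 h2 h3
        have e1 := hZ.z1 _ hi _ hc (by simp only; omega) (by simp only; omega)
          (by simp only; omega)
        simp only at e1
        omega
      · simp only at h1 h2 h3
        have e1 := hZ.z1 _ hc _ hi (by simp only; omega) (by simp only; omega)
          (by simp only; omega)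
        have e2 := hZ.z1 _ hc _ hi1 (by simp only; omega) (by simp only; omega)
          (by simp only; omega)
        simp only at e1 e2
        omega
    · rintro ⟨rfl, rfl, h3⟩
      exact Or.inr ⟨by simp, by simp, by simp only; omega⟩
  simp only
  by_cases h : Oct (a', b', j') (a + 1, b + 1, i + 1)
  · rw [if_pos h, if_pos (key.1 h)]
  · rw [if_neg h, if_neg (fun h' => h (key.2 h'))]

/-- lines with one time only -/
lemma good_one (hZ : ZP s p Z) (a b j : ℕ) (hj : (a, b, j) ∈ Z) (hab : a + b < s)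
    (h0 : ¬ (a = 0 ∧ b = 0)) (huniq : ∀ k, (a, b, k) ∈ Z → k = j) (m : ℕ) :
    Good s p Z (fun c => if c.1 = a ∧ c.2.1 = b then m else 0) := by
  have hbox := hZ.box _ hj
  simp only at hbox
  by_cases hup : ∃ c ∈ Z, a ≤ c.1 ∧ b ≤ c.2.1 ∧ j ≤ c.2.2 ∧ ¬ (c.1 = a ∧ c.2.1 = b)
  · obtain ⟨⟨a1, b1, j1⟩, hc1, h1, h2, h3, h4⟩ := hup
    simp only at h1 h2 h3 h4
    have e1 := hZ.z1 _ hj _ hc1 h1 h2 h3
    simp only at e1
    have hjj : j1 = j := by omega
    subst hjj
    have h5 : (a1 = a + 1 ∧ b1 = b) ∨ (a1 = a ∧ b1 = b + 1) := by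
      rcases e1 with e1 | ⟨e1, -⟩ | ⟨e1, -⟩
      · omega
      · subst e1
        right
        exact ⟨rfl, hZ.z5' _ _ _ _ hj hc1 (by omega)⟩
      · subst e1
        left
        exact ⟨hZ.z5 _ _ _ _ hj hc1 (by omega), rfl⟩
    have hp : j1 + 1 < p := by
      by_contra hcon
      have hjp : j1 = p - 1 := by omega
      subst hjp
      rcases h5 with ⟨rfl, rfl⟩ | ⟨rfl, rfl⟩
      · exact h0 (hZ.z6 _ _ hj hc1)
      · exact h0 (hZ.z6' _ _ hj hc1)
    have hLE : LE s p (a + 1, b + 1, j1 + 1) := by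
      refine ⟨by simp only; omega, by simp only; omega, by simp only; omega, ?_, ?_⟩
      · simp
      · right; right; simp only; omega
    have ho : Oct (a, b, j1) (a + 1, b + 1, j1 + 1) :=
      Or.inr ⟨by simp, by simp, by simp⟩
    refine (good_single (a + 1, b + 1, j1 + 1) hLE (a, b, j1) hj ho m).congr ?_
    rintro ⟨a', b', j'⟩ hc
    have key : Oct (a', b', j') (a + 1, b + 1, j1 + 1) ↔ (a' = a ∧ b' = b) := by
      constructor
      · rintro (⟨g1, g2, g3⟩ | ⟨g1, g2, g3⟩)
        · simp only at g1 g2 g3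
          have e1 := hZ.z1 _ hj _ hc (by simp only; omega) (by simp only; omega)
            (by simp only; omega)
          simp only at e1
          omega
        · simp only at g1 g2 g3
          have e2 := hZ.z1 _ hc _ hj (by simp only; omega) (by simp only; omega)
            (by simp only; omega)
          have e3 := hZ.z1 _ hc _ hc1 (by simp only; omega) (by simp only; omega)
            (by simp only; omega)
          simp only at e2 e3
          by_contra hne
          have hj' : j' = j1 := by omega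
          subst hj'
          rcases h5 with ⟨rfl, rfl⟩ | ⟨rfl, rfl⟩
          · have hb : b' = b1 := by omega
            subst hb
            have := hZ.z5 _ _ _ _ hc hc1 (by omega)
            omega
          · have ha : a' = a1 := by omega
            subst ha
            have := hZ.z5' _ _ _ _ hc hc1 (by omega)
            omega
      · rintro ⟨rfl, rfl⟩
        have := huniq _ hc
        subst this
        exact Or.inr ⟨by simp, by simp, by simp⟩
    simp only
    by_cases h : Oct (a', b', j') (a + 1, b + 1, j1 + 1)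
    · rw [if_pos h, if_pos (key.1 h)]
    · rw [if_neg h, if_neg (fun h' => h (key.2 h'))]
  · have hLE : LE s p (a, b, j) := by
      refine ⟨by simp only; omega, by simp only; omega, by simp only; omega, ?_, ?_⟩
      · simpa using h0
      · right; right; simp only; omega
    have ho : Oct (a, b, j) (a, b, j) := Or.inl ⟨le_rfl, le_rfl, le_rfl⟩
    refine (good_single (a, b, j) hLE (a, b, j) hj ho m).congr ?_
    rintro ⟨a', b', j'⟩ hc
    have key : Oct (a', b', j') (a, b, j) ↔ (a' = a ∧ b' = b) := by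
      constructor
      · rintro (⟨g1, g2, g3⟩ | ⟨g1, g2, g3⟩)
        · simp only at g1 g2 g3
          by_contra hne
          exact hup ⟨_, hc, g1, g2, g3, hne⟩
        · simp only at g1 g2 g3
          have e2 := hZ.z1 _ hc _ hj (by simp only; omega) (by simp only; omega)
            (by simp only; omega)
          simp only at e2
          omega
      · rintro ⟨rfl, rfl⟩
        have := huniq _ hc
        subst this
        exact Or.inl ⟨le_rfl, le_rfl, le_rfl⟩
    simp only
    by_cases h : Oct (a', b', j') (a, b, j)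
    · rw [if_pos h, if_pos (key.1 h)]
    · rw [if_neg h, if_neg (fun h' => h (key.2 h'))]

/-- increasing functions on a line -/
lemma tel_up (f : ℕ → ℕ) (hf : ∀ j, f j ≤ f (j + 1)) (j1 j2 j : ℕ) (h1 : j1 ≤ j)
    (h2 : j ≤ j2) : f j1 + ∑ i ∈ Ioc j1 j2, (if i ≤ j then f i - f (i - 1) else 0) = f j := by
  have e : ∑ i ∈ Ioc j1 j2, (if i ≤ j then f i - f (i - 1) else 0) =
      ∑ i ∈ Ioc j1 j, (f i - f (i - 1)) := by
    rw [← Finset.sum_filter]
    apply Finset.sum_congr _ (fun _ _ => rfl)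
    ext i
    simp only [mem_filter, mem_Ioc]
    omega
  rw [e]
  clear e h2
  induction j, h1 using Nat.le_induction with
  | base => simp
  | succ n hn ih =>
    rw [← Finset.insert_Ioc_right_eq_Ioc_add_one (by omega), Finset.sum_insert (by simp)]
    have := hf n
    simp only [Nat.add_sub_cancel]
    omega

/-- decreasing functions on a line -/
lemma tel_down (f : ℕ → ℕ) (hf : ∀ j, f (j + 1) ≤ f j) (j1 j2 j : ℕ) (h1 : j1 ≤ j)
    (h2 : j ≤ j2) : f j2 + ∑ i ∈ Ico j1 j2, (if j ≤ i then f i - f (i + 1) else 0) = f j := by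
  have e : ∑ i ∈ Ico j1 j2, (if j ≤ i then f i - f (i + 1) else 0) =
      ∑ i ∈ Ico j j2, (f i - f (i + 1)) := by
    rw [← Finset.sum_filter]
    apply Finset.sum_congr _ (fun _ _ => rfl)
    ext i
    simp only [mem_filter, mem_Ico]
    omega
  rw [e]
  clear e h1
  induction j2, h2 using Nat.le_induction with
  | base => simp
  | succ n hn ih =>
    rw [Finset.sum_Ico_succ_top hn]
    have := hf n
    omega

lemma good_line (hZ : ZP s p Z)
    (D : ℕ × ℕ × ℕ → ℕ) (D0 : ℕ → ℕ → ℕ) (dm dp : ℕ → ℕ → ℕ → ℕ)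
    (hD : ∀ a b j, (a, b, j) ∈ Z → D (a, b, j) = D0 a b + dm a b j + dp a b j)
    (hdm : ∀ a b j, dm a b (j + 1) ≤ dm a b j) (hdp : ∀ a b j, dp a b j ≤ dp a b (j + 1))
    (hend : ∀ a b j, (a, b, j) ∈ Z → (a, b, j + 1) ∉ Z → dm a b j = 0)
    (hstart0 : ∀ a b, a + b < s → (a, b, 0) ∈ Z → dp a b 0 = 0)
    (hstart : ∀ a b j, a + b < s → (a, b, j) ∉ Z → (a, b, j + 1) ∈ Z → dp a b (j + 1) = 0)
    (hs : ∀ a b, a + b = s → D0 a b = 0 ∧ ∀ j, dm a b j = 0)
    (h00 : D (0, 0, p - 1) = 0) (a b : ℕ) :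
    Good s p Z (fun c => if c.1 = a ∧ c.2.1 = b then D c else 0) := by
  classical
  by_cases hne : ∃ j, (a, b, j) ∈ Z
  swap
  · refine good_zero.congr ?_
    rintro ⟨a', b', j'⟩ hc
    simp only
    rw [if_neg]
    rintro ⟨rfl, rfl⟩
    exact hne ⟨j', hc⟩
  by_cases h0 : a = 0 ∧ b = 0
  · obtain ⟨rfl, rfl⟩ := h0
    refine good_zero.congr ?_
    rintro ⟨a', b', j'⟩ hc
    simp only
    by_cases h : a' = 0 ∧ b' = 0
    · obtain ⟨rfl, rfl⟩ := h
      have h1 := hZ.z4' _ hc
      have : j' = p - 1 := by omega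
      subst this
      simp [h00]
    · rw [if_neg h]
  obtain ⟨j1, hj1, hmin⟩ : ∃ j1, (a, b, j1) ∈ Z ∧ ∀ k, (a, b, k) ∈ Z → j1 ≤ k :=
    ⟨Nat.find hne, Nat.find_spec hne, fun k hk => Nat.find_min' hne hk⟩
  obtain ⟨j2, hj2, hmax⟩ : ∃ j2, (a, b, j2) ∈ Z ∧ ∀ k, (a, b, k) ∈ Z → k ≤ j2 := by
    have hbox : ∀ k, (a, b, k) ∈ Z → k < p := fun k hk => (hZ.box _ hk).2.2
    have hS : ((range p).filter (fun j => (a, b, j) ∈ Z)).Nonempty :=
      ⟨j1, by simp [hj1, hbox j1 hj1]⟩
    obtain ⟨j2, h2, h3⟩ := Finset.exists_max_image _ id hS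
    simp only [mem_filter, mem_range, id_eq] at h2 h3
    exact ⟨j2, h2.2, fun k hk => h3 k ⟨hbox k hk, hk⟩⟩
  have h12 : j1 ≤ j2 := hmin _ hj2
  have hin : ∀ k, j1 ≤ k → k ≤ j2 → (a, b, k) ∈ Z := fun k h h' =>
    hZ.z2 a b j1 k j2 hj1 hj2 h h'
  have habs : a + b ≤ s := by
    by_contra h
    have := (hZ.z3 a b _ hj1 (by omega)).1
    omega
  rcases Nat.lt_or_ge (a + b) s with hab | hab
  · have hdp0 : dp a b j1 = 0 := by
      rcases Nat.eq_zero_or_pos j1 with h | h
      · rw [h] at hj1 ⊢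
        exact hstart0 a b hab hj1
      · obtain ⟨k, rfl⟩ : ∃ k, j1 = k + 1 := ⟨j1 - 1, by omega⟩
        apply hstart a b k hab _ hj1
        intro hk
        have := hmin _ hk
        omega
    have hdm0 : dm a b j2 = 0 := by
      apply hend a b j2 hj2
      intro hk
      have := hmax _ hk
      omega
    rcases Nat.lt_or_ge j1 j2 with hlt | hge
    · have g1 : Good s p Z (fun c => ∑ i ∈ Ioc j1 j2,
          (if c.1 = a ∧ c.2.1 = b ∧ i ≤ c.2.2 then dp a b i - dp a b (i - 1) else 0)) := by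
        apply good_sum
        intro i hi
        rw [mem_Ioc] at hi
        exact good_up hZ a b i (hin i (by omega) hi.2) (Or.inr ⟨j1, hi.1, hj1⟩) _
      have g2 : Good s p Z (fun c => ∑ i ∈ Ico j1 j2,
          (if c.1 = a ∧ c.2.1 = b ∧ c.2.2 ≤ i then dm a b i - dm a b (i + 1) else 0)) := by
        apply good_sum
        intro i hi
        rw [mem_Ico] at hi
        exact good_down hZ a b i (hin i hi.1 (by omega)) (hin (i + 1) (by omega) (by omega)) hab _
      have g3 := good_up hZ a b (j1 + 1) (hin _ (by omega) (by omega))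
        (Or.inr ⟨j1, by omega, hj1⟩) (D0 a b)
      have g4 := good_down hZ a b j1 hj1 (hin _ (by omega) (by omega)) hab (D0 a b)
      refine (((g1.add g2).add g3).add g4).congr ?_
      rintro ⟨a', b', j'⟩ hc
      simp only
      by_cases h : a' = a ∧ b' = b
      · obtain ⟨rfl, rfl⟩ := h
        have l1 := hmin _ hc
        have l2 := hmax _ hc
        have e1 := tel_up (dp a' b') (hdp a' b') j1 j2 j' l1 l2
        have e2 := tel_down (dm a' b') (hdm a' b') j1 j2 j' l1 l2
        simp only [true_and, and_self, if_true]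
        rw [hD _ _ _ hc]
        rw [hdp0] at e1
        rw [hdm0] at e2
        rcases Nat.lt_or_ge j1 j' with l3 | l3
        · rw [if_pos (show j1 + 1 ≤ j' from l3), if_neg (show ¬ j' ≤ j1 by omega)]
          omega
        · rw [if_neg (show ¬ j1 + 1 ≤ j' by omega), if_pos (show j' ≤ j1 from l3)]
          omega
      · have hn : ∀ q : Prop, ¬ (a' = a ∧ b' = b ∧ q) := fun q hq => h ⟨hq.1, hq.2.1⟩
        simp [hn, h]
    · have hjj : j2 = j1 := by omega
      subst hjj
      refine (good_one hZ a b j2 hj2 hab h0 (fun k hk => le_antisymm (hmax k hk) (hmin k hk))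
        (D0 a b)).congr ?_
      rintro ⟨a', b', j'⟩ hc
      simp only
      by_cases h : a' = a ∧ b' = b
      · obtain ⟨rfl, rfl⟩ := h
        have := le_antisymm (hmax _ hc) (hmin _ hc)
        subst this
        simp [hD _ _ _ hc, hdp0, hdm0]
      · rw [if_neg h, if_neg h]
  · have hs' := hs a b (by omega)
    have hz3 := (hZ.z3 a b j2 hj2 hab).2
    have g1 : Good s p Z (fun c => ∑ i ∈ Ioc 0 j2,
        (if c.1 = a ∧ c.2.1 = b ∧ i ≤ c.2.2 then dp a b i - dp a b (i - 1) else 0)) := by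
      apply good_sum
      intro i hi
      rw [mem_Ioc] at hi
      exact good_up hZ a b i (hz3 i hi.2) (Or.inl (by omega)) _
    have g2 := good_up hZ a b 0 (hz3 0 (by omega)) (Or.inl (by omega)) (dp a b 0)
    refine (g2.add g1).congr ?_
    rintro ⟨a', b', j'⟩ hc
    simp only
    by_cases h : a' = a ∧ b' = b
    · obtain ⟨rfl, rfl⟩ := h
      have l2 := hmax _ hc
      have e1 := tel_up (dp a' b') (hdp a' b') 0 j2 j' (Nat.zero_le _) l2
      simp only [true_and, and_self, if_true, Nat.zero_le]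
      rw [hD _ _ _ hc, hs'.1, hs'.2, e1]
      simp
    · have hn : ∀ q : Prop, ¬ (a' = a ∧ b' = b ∧ q) := fun q hq => h ⟨hq.1, hq.2.1⟩
      simp [hn, h]

end L3

/-- M3: small entries with prescribed sums over the exceptions -/
theorem chain_entries (s p : ℕ) (Z : Finset (ℕ × ℕ × ℕ)) (hZ : ZP s p Z)
    (D : ℕ × ℕ × ℕ → ℕ) (D0 : ℕ → ℕ → ℕ) (dm dp : ℕ → ℕ → ℕ → ℕ)
    (hD : ∀ a b j, (a, b, j) ∈ Z → D (a, b, j) = D0 a b + dm a b j + dp a b j)
    (hdm : ∀ a b j, dm a b (j + 1) ≤ dm a b j) (hdp : ∀ a b j, dp a b j ≤ dp a b (j + 1))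
    (hend : ∀ a b j, (a, b, j) ∈ Z → (a, b, j + 1) ∉ Z → dm a b j = 0)
    (hstart0 : ∀ a b, a + b < s → (a, b, 0) ∈ Z → dp a b 0 = 0)
    (hstart : ∀ a b j, a + b < s → (a, b, j) ∉ Z → (a, b, j + 1) ∈ Z → dp a b (j + 1) = 0)
    (hs : ∀ a b, a + b = s → D0 a b = 0 ∧ ∀ j, dm a b j = 0)
    (h00 : D (0, 0, p - 1) = 0) :
    ∃ x : ℕ × ℕ × ℕ → ℕ, (∀ v, x v ≠ 0 → LE s p v ∧ ¬ LS s p Z v) ∧
      ∀ c ∈ Z, ∑ v ∈ LBox s p, (if Oct c v then x v else 0) = D c := by
  have h := L3.good_sum (s := s) (p := p) (Z := Z) (range (s + 1) ×ˢ range (s + 1))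
    (fun q c => if c.1 = q.1 ∧ c.2.1 = q.2 then D c else 0)
    (fun q _ => L3.good_line hZ D D0 dm dp hD hdm hdp hend hstart0 hstart hs h00 q.1 q.2)
  refine h.congr ?_
  intro c hc
  have hbox := hZ.box c hc
  rw [Finset.sum_eq_single (c.1, c.2.1)]
  · simp
  · intro q _ hq
    rw [if_neg]
    rintro ⟨h1, h2⟩
    exact hq (Prod.ext h1.symm h2.symm)
  · intro hn
    exfalso
    apply hn
    simp only [mem_product, mem_range]
    omega

end Pool.MP_d56194_co
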