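import Mathlib
import Pool.Agent.Lib.MP_d56194_co.L.L0
import Pool.Agent.Lib.MP_d56194_co.L.L1
import Pool.Agent.Lib.MP_d56194_co.L.L2
import Pool.Agent.Lib.MP_d56194_co.L.L3
import Pool.Agent.Lib.MP_d56194_co.I.I4

/-!
LTC (MP_d56194_co), large multiplicities, module M4: integral tables from real ones.
-/

set_option autoImplicit false

namespace Pool.MP_d56194_co

open Finset

theorem L4.LS_corner {s p : ℕ} {Z : Finset (ℕ × ℕ × ℕ)} {v w u : ℕ × ℕ × ℕ}
    (hv : LS s p Z v) (hw : LS s p Z w) (h1 : v.1 ≤ u.1 ∧ u.1 ≤ w.1)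
    (h2 : v.2.1 ≤ u.2.1 ∧ u.2.1 ≤ w.2.1) (h3 : v.2.2 ≤ u.2.2 ∧ u.2.2 ≤ w.2.2)
    (hlt : v.1 < w.1) (hlt2 : v.2.1 < w.2.1) : LS s p Z u := by
  obtain ⟨hv1, hv2⟩ := hv
  obtain ⟨hw1, hw2⟩ := hw
  refine ⟨?_, ?_⟩
  · unfold LE at hv1 hw1 ⊢
    omega
  · intro c hc hO
    rcases hO with ⟨o1, o2, o3⟩ | ⟨o1, o2, o3⟩
    · exact hv2 c hc (Or.inl ⟨h1.1.trans o1, h2.1.trans o2, h3.1.trans o3⟩)
    · exact hw2 c hc (Or.inr ⟨o1.trans_le h1.2, o2.trans_le h2.2, o3.trans_le h3.2⟩)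

theorem L4.natcast_mem (n : ℕ) : (n : ℝ) ∈ ZG := (mem_ZG _).2 ⟨(n : ℤ), by push_cast; rfl⟩

/-- M4: integral tables from real ones; uses `move_table` (L2, with `lm_span` of L1),
`chain_entries` (L3) and `round3` (I.I4); file L4 -/
theorem thick_int (s p : ℕ) : ∃ C : ℝ, 0 ≤ C ∧ ∀ Z : Finset (ℕ × ℕ × ℕ), ZP s p Z →
    ∀ (D : ℕ × ℕ × ℕ → ℕ) (D0 : ℕ → ℕ → ℕ) (dm dp : ℕ → ℕ → ℕ → ℕ),
    (∀ a b j, (a, b, j) ∈ Z → D (a, b, j) = D0 a b + dm a b j + dp a b j) →
    (∀ a b j, dm a b (j + 1) ≤ dm a b j) → (∀ a b j, dp a b j ≤ dp a b (j + 1)) →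
    (∀ a b j, (a, b, j) ∈ Z → (a, b, j + 1) ∉ Z → dm a b j = 0) →
    (∀ a b, a + b < s → (a, b, 0) ∈ Z → dp a b 0 = 0) →
    (∀ a b j, a + b < s → (a, b, j) ∉ Z → (a, b, j + 1) ∈ Z → dp a b (j + 1) = 0) →
    (∀ a b, a + b = s → D0 a b = 0 ∧ ∀ j, dm a b j = 0) →
    D (0, 0, p - 1) = 0 →
    ∀ X : ℕ × ℕ × ℕ → ℝ, (∀ v, ¬ LE s p v → X v = 0) →
    (∀ a b, ∑ t ∈ range p, X (a, b, t) ∈ ZG) →
    (∀ a t, ∑ b ∈ range (s + 1), X (a, b, t) ∈ ZG) →
    (∀ b t, ∑ a ∈ range (s + 1), X (a, b, t) ∈ ZG) →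
    (∀ c ∈ Z, ∑ v ∈ LBox s p, (if Oct c v then X v else 0) = D c) →
    ∀ δ ε : ℝ, (∀ v, LE s p v → ¬ LS s p Z v → |X v| ≤ δ) → (∀ c ∈ Z, (D c : ℝ) ≤ δ) →
    (∀ v, LS s p Z v → ε ≤ X v) → C * (δ + 1) ≤ ε →
    ∃ z : ℕ × ℕ × ℕ → ℕ, (∀ v, ¬ LE s p v → z v = 0) ∧ SameLines s p (fun v => (z v : ℝ)) X := by
  classical
  obtain ⟨C2, hC2, hmove⟩ := move_table s p (fun Z hZ => lm_span s p Z hZ)
  refine ⟨2 * C2 + (LBox s p).card, by positivity, ?_⟩
  intro Z hZ D D0 dm dp hD hdm hdp hend hstart0 hstart hs h00 X hX0 m1 m2 m3 hOct δ ε hXδ hDδ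
    hXε hCε
  obtain ⟨x, hx, hxD⟩ := chain_entries s p Z hZ D D0 dm dp hD hdm hdp hend hstart0 hstart hs h00
  have hδ0 : 0 ≤ δ := (Nat.cast_nonneg _).trans (hDδ (0, 0, p - 1) hZ.z4)
  have hx0 : ∀ v, ¬ LE s p v → x v = 0 := by
    intro v hv
    by_contra h
    exact hv (hx v h).1
  have hxS : ∀ v, LS s p Z v → x v = 0 := by
    intro v hv
    by_contra h
    exact (hx v h).2 hv
  have hxδ : ∀ v, (x v : ℝ) ≤ δ := by
    intro v
    by_cases h : x v = 0
    · rw [h]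
      simpa using hδ0
    · obtain ⟨h1, h2⟩ := hx v h
      have h3 : ∃ c ∈ Z, Oct c v := by
        by_contra h3
        push Not at h3
        exact h2 ⟨h1, h3⟩
      obtain ⟨c, hc, hcv⟩ := h3
      have h4 : x v ≤ D c := by
        rw [← hxD c hc]
        have h5 := Finset.single_le_sum (f := fun v => if Oct c v then x v else 0)
          (fun _ _ => Nat.zero_le _) (L2.LE_mem h1)
        simp only [if_pos hcv] at h5
        exact h5
      exact (by exact_mod_cast h4 : (x v : ℝ) ≤ D c).trans (hDδ c hc)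
  -- the small table
  let W : ℕ × ℕ × ℕ → ℝ := fun v => if LE s p v ∧ ¬ LS s p Z v then X v - x v else 0
  have hW0 : ∀ v, ¬ LE s p v → W v = 0 := fun v hv => if_neg (fun h => hv h.1)
  have hWO : ∀ c ∈ Z, ∑ v ∈ LBox s p, (if Oct c v then W v else 0) = 0 := by
    intro c hc
    have h1 : ∀ v ∈ LBox s p, (if Oct c v then W v else 0) =
        (if Oct c v then X v else 0) - (((if Oct c v then x v else 0 : ℕ)) : ℝ) := by
      intro v _
      by_cases h2 : Oct c v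
      · rw [if_pos h2, if_pos h2, if_pos h2]
        by_cases h3 : LE s p v
        · have h4 : ¬ LS s p Z v := fun h => h.2 c hc h2
          exact if_pos ⟨h3, h4⟩
        · rw [hW0 v h3, hX0 v h3, hx0 v h3]
          simp
      · rw [if_neg h2, if_neg h2, if_neg h2]
        simp
    rw [Finset.sum_congr rfl h1, Finset.sum_sub_distrib, hOct c hc, ← Nat.cast_sum, hxD c hc,
      sub_self]
  have hWδ : ∀ v, |W v| ≤ 2 * δ := by
    intro v
    by_cases h : LE s p v ∧ ¬ LS s p Z v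
    · have h1 : W v = X v - x v := if_pos h
      rw [h1]
      have h2 := hXδ v h.1 h.2
      have h3 := hxδ v
      have h4 : (0 : ℝ) ≤ x v := Nat.cast_nonneg _
      rw [abs_le] at h2 ⊢
      constructor <;> linarith
    · have h1 : W v = 0 := if_neg h
      rw [h1, abs_zero]
      linarith
  obtain ⟨W', hW'0, hW'L, hW'δ⟩ := hmove Z hZ W hW0 hWO (2 * δ) hWδ
  -- the table on the support
  let X3 : ℕ × ℕ × ℕ → ℝ := fun v => (if LS s p Z v then X v else 0) + W' v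
  have hsplit : ∀ v, (if LS s p Z v then X v else 0) + W v = X v - x v := by
    intro v
    by_cases h1 : LS s p Z v
    · have h2 : W v = 0 := if_neg (fun h => h.2 h1)
      rw [if_pos h1, h2, hxS v h1]
      simp
    · rw [if_neg h1, zero_add]
      by_cases h3 : LE s p v
      · exact if_pos ⟨h3, h1⟩
      · rw [hW0 v h3, hX0 v h3, hx0 v h3]
        simp
  have l1 : ∀ a b, ∑ t ∈ range p, X3 (a, b, t) =
      ∑ t ∈ range p, X (a, b, t) - ∑ t ∈ range p, (x (a, b, t) : ℝ) := by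
    intro a b
    have h1 : ∑ t ∈ range p, X3 (a, b, t) =
        ∑ t ∈ range p, (if LS s p Z (a, b, t) then X (a, b, t) else 0) +
          ∑ t ∈ range p, W' (a, b, t) := Finset.sum_add_distrib
    rw [h1, hW'L.1 a b, ← Finset.sum_add_distrib, ← Finset.sum_sub_distrib]
    exact Finset.sum_congr rfl (fun t _ => hsplit (a, b, t))
  have l2 : ∀ a t, ∑ b ∈ range (s + 1), X3 (a, b, t) =
      ∑ b ∈ range (s + 1), X (a, b, t) - ∑ b ∈ range (s + 1), (x (a, b, t) : ℝ) := by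
    intro a t
    have h1 : ∑ b ∈ range (s + 1), X3 (a, b, t) =
        ∑ b ∈ range (s + 1), (if LS s p Z (a, b, t) then X (a, b, t) else 0) +
          ∑ b ∈ range (s + 1), W' (a, b, t) := Finset.sum_add_distrib
    rw [h1, hW'L.2.1 a t, ← Finset.sum_add_distrib, ← Finset.sum_sub_distrib]
    exact Finset.sum_congr rfl (fun b _ => hsplit (a, b, t))
  have l3 : ∀ b t, ∑ a ∈ range (s + 1), X3 (a, b, t) =
      ∑ a ∈ range (s + 1), X (a, b, t) - ∑ a ∈ range (s + 1), (x (a, b, t) : ℝ) := by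
    intro b t
    have h1 : ∑ a ∈ range (s + 1), X3 (a, b, t) =
        ∑ a ∈ range (s + 1), (if LS s p Z (a, b, t) then X (a, b, t) else 0) +
          ∑ a ∈ range (s + 1), W' (a, b, t) := Finset.sum_add_distrib
    rw [h1, hW'L.2.2 b t, ← Finset.sum_add_distrib, ← Finset.sum_sub_distrib]
    exact Finset.sum_congr rfl (fun a _ => hsplit (a, b, t))
  let S : Finset (ℕ × ℕ × ℕ) := (LBox s p).filter (fun v => LS s p Z v)
  have hmemS : ∀ v, v ∈ S ↔ LS s p Z v := by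
    intro v
    rw [Finset.mem_filter]
    exact ⟨fun h => h.2, fun h => ⟨L2.LE_mem h.1, h⟩⟩
  have hScard : (S.card : ℝ) ≤ (LBox s p).card := by
    exact_mod_cast Finset.card_filter_le _ _
  obtain ⟨z, hz0, z1, z2, z3⟩ := round3 (s + 1) (s + 1) p S (by
    intro v hv
    have h1 := ((hmemS v).1 hv).1
    unfold LE at h1
    omega) (by
    intro a a' b b' c c' ha hb hc h1 h2
    rw [hmemS] at h1 h2
    simp only [hmemS]
    refine ⟨?_, ?_, ?_, ?_, ?_, ?_⟩ <;>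
      exact L4.LS_corner h1 h2 (by simp only; omega) (by simp only; omega) (by simp only; omega)
        ha hb) X3 (by
    intro v hv
    rw [hmemS] at hv
    have h1 : X3 v = (if LS s p Z v then X v else 0) + W' v := rfl
    rw [h1, if_neg hv, hW'0 v hv, add_zero]) (by
    intro v hv
    rw [hmemS] at hv
    have h1 : X3 v = (if LS s p Z v then X v else 0) + W' v := rfl
    rw [h1, if_pos hv]
    have h2 := hXε v hv
    have h3 := (abs_le.1 (hW'δ v)).1
    have h4 : (0 : ℝ) ≤ (LBox s p).card := Nat.cast_nonneg _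
    nlinarith) (by
    intro a b
    rw [l1]
    exact ZG.sub_mem (m1 a b) (ZG.sum_mem (fun t _ => L4.natcast_mem _))) (by
    intro a t
    rw [l2]
    exact ZG.sub_mem (m2 a t) (ZG.sum_mem (fun b _ => L4.natcast_mem _))) (by
    intro b t
    rw [l3]
    exact ZG.sub_mem (m3 b t) (ZG.sum_mem (fun a _ => L4.natcast_mem _)))
  refine ⟨fun v => z v + x v, ?_, ?_, ?_, ?_⟩
  · intro v hv
    simp only
    rw [hx0 v hv, hz0 v (by rw [hmemS]; exact fun h => hv h.1)]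
  · intro a b
    push_cast
    rw [Finset.sum_add_distrib, z1, l1]
    ring
  · intro a t
    push_cast
    rw [Finset.sum_add_distrib, z2, l2]
    ring
  · intro b t
    push_cast
    rw [Finset.sum_add_distrib, z3, l3]
    ring

end Pool.MP_d56194_co
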