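import Mathlib
import Pool.Agent.Lib.MP_d56194_co.L.L0
import Pool.Agent.Lib.MP_d56194_co.L.L4
import Pool.Agent.Lib.MP_d56194_co.L.L5

set_option autoImplicit false

namespace Pool.MP_d56194_co

open Finset

namespace L28

lemma rng (s : ℕ) (F : ℕ → ℝ) : ∑ x ∈ range (s + 1), F x = F 0 + ∑ x ∈ Icc 1 s, F x := by
  rw [Finset.range_eq_Ico, Finset.sum_eq_sum_Ico_succ_bot (by omega)]
  congr 1

lemma icc_sub (s x : ℕ) (hx : x ∈ Icc 1 s) : x ∈ range (s + 1) := by
  rw [mem_Icc] at hx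
  rw [mem_range]
  omega

lemma sub_sub' (x y : ℕ) : ((x - y : ℕ) : ℝ) - ((y - x : ℕ) : ℝ) = (x : ℝ) - y := by
  rcases le_total x y with h | h
  · rw [Nat.cast_sub h, Nat.sub_eq_zero_of_le h]
    push_cast
    ring
  · rw [Nat.cast_sub h, Nat.sub_eq_zero_of_le h]
    push_cast
    ring

variable {s R N : ℕ} {g h al : ℕ → ℕ} {η ψ : ℝ} {K0 p : ℕ} {lo hi sig : ℕ → ℕ}

lemma al0 (hal : IsAl s g h al) : al 0 = 0 := by
  have h1 := hal.1 0 s 0 le_rfl (Nat.zero_le _)
  unfold cutb at h1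
  rw [L5.Fb_zero s g h s 0 (by omega)] at h1
  simpa using h1

lemma tk_le (hal : IsAl s g h al) (k a b : ℕ) (ha : a ≤ s) (hb : b ≤ s) (hab : s ≤ a + b) :
    al k - al (k - 1) ≤ cs g a + cs h b := by
  rcases Nat.eq_zero_or_pos k with rfl | hk
  · simp
  obtain ⟨k, rfl⟩ : ∃ k', k = k' + 1 := ⟨k - 1, by omega⟩
  rw [Nat.add_sub_cancel]
  obtain ⟨a0, b0, ha0, hb0, h0⟩ := hal.2 k
  have h1 := hal.1 (k + 1) a b ha hb
  have h2 := hal.1 (k + 1) a0 b0 ha0 hb0
  unfold cutb at h0 h1 h2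
  rw [L5.Fb_zero s g h a b hab, Nat.add_zero] at h1
  generalize cs g a + cs h b = S at *
  generalize cs g a0 + cs h b0 = S0 at *
  generalize Fb s g h a0 b0 = F0 at *
  have h3 : k * al (k + 1) ≤ (k + 1) * al k := by
    rw [h0]
    calc k * al (k + 1) ≤ k * ((k + 1) * S0 + F0) := Nat.mul_le_mul_left _ h2
      _ ≤ (k + 1) * (k * S0 + F0) := by nlinarith
  have h4 : (k + 1) * (al (k + 1) - al k) ≤ (k + 1) * S := by
    rw [Nat.mul_sub]
    have h5 : (k + 1) * al (k + 1) = k * al (k + 1) + al (k + 1) := by ring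
    omega
  exact Nat.le_of_mul_le_mul_left h4 (by omega)

lemma tk_anti1 (hal : IsAl s g h al) (k : ℕ) :
    al (k + 2) - al (k + 1) ≤ al (k + 1) - al k := by
  obtain ⟨a0, b0, ha0, hb0, h0⟩ := hal.2 (k + 1)
  have h1 := hal.1 (k + 2) a0 b0 ha0 hb0
  have h2 := hal.1 k a0 b0 ha0 hb0
  unfold cutb at h0 h1 h2
  generalize cs g a0 + cs h b0 = S0 at *
  have e1 : (k + 2) * S0 = (k + 1) * S0 + S0 := by ring
  have e2 : (k + 1) * S0 = k * S0 + S0 := by ring
  omega

lemma tk_anti (hal : IsAl s g h al) {k k' : ℕ} (hk : 1 ≤ k) (hkk : k ≤ k') :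
    al k' - al (k' - 1) ≤ al k - al (k - 1) := by
  induction k', hkk using Nat.le_induction with
  | base => exact le_rfl
  | succ n hn ih =>
    obtain ⟨m, rfl⟩ : ∃ m, n = m + 1 := ⟨n - 1, by omega⟩
    have h1 := tk_anti1 hal m
    have h2 : m + 1 + 1 - 1 = m + 1 := by omega
    have h3 : m + 1 - 1 = m := by omega
    rw [h3] at ih
    rw [h2]
    exact h1.trans ih

lemma tele (hal : IsAl s g h al) (K : ℕ) : ∑ k ∈ Icc 1 K, (al k - al (k - 1)) = al K := by
  induction K with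
  | zero => simp [al0 hal]
  | succ K ih =>
    rw [Finset.sum_Icc_succ_top (by omega), ih, Nat.add_sub_cancel]
    have := L5.al_mono hal (show K ≤ K + 1 by omega)
    omega

lemma pos_sum (hal : IsAl s g h al) (a b : ℕ) (ha : a ≤ s) (hb : b ≤ s) (K : ℕ) :
    ∑ k ∈ Icc 1 K, (al k - al (k - 1) - (cs g a + cs h b)) ≤ Fb s g h a b := by
  have h0 := fun k => hal.1 k a b ha hb
  unfold cutb at h0
  generalize cs g a + cs h b = S at *
  induction K with
  | zero => simp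
  | succ K ih =>
    by_cases hS : S < al (K + 1) - al (K + 1 - 1)
    · have h1 : ∑ k ∈ Icc 1 (K + 1), (al k - al (k - 1) - S) + (K + 1) * S = al (K + 1) := by
        rw [← tele hal (K + 1)]
        have h2 : (K + 1) * S = ∑ k ∈ Icc 1 (K + 1), S := by simp
        rw [h2, ← sum_add_distrib]
        apply sum_congr rfl
        intro k hk
        rw [mem_Icc] at hk
        have := tk_anti hal hk.1 hk.2
        omega
      have := h0 (K + 1)
      omega
    · rw [Finset.sum_Icc_succ_top (by omega)]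
      omega

lemma hi_lo (hTD : TD s g h al N η ψ K0 p lo hi sig) {i j : ℕ} (hij : i < j) (hj : j < p) :
    hi i ≤ lo j := by
  obtain ⟨j', rfl⟩ : ∃ j', j = j' + 1 := ⟨j - 1, by omega⟩
  have h1 := L5.hi_mono hTD (show i ≤ j' by omega) (by omega)
  have h2 := hTD.ord j' hj
  omega

lemma hi_le (hTD : TD s g h al N η ψ K0 p lo hi sig) {j : ℕ} (hj : j < p) : hi j ≤ K0 := by
  have h1 := L5.hi_mono hTD (show j ≤ p - 1 by omega) (by omega)
  have h2 := hTD.last
  omega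

lemma sig_anti (hTD : TD s g h al N η ψ K0 p lo hi sig) {i j : ℕ} (hij : i ≤ j) (hj : j < p) :
    sig j ≤ sig i := by
  induction j, hij using Nat.le_induction with
  | base => exact le_rfl
  | succ n hn ih =>
    have h1 := ih (by omega)
    have h2 := hTD.sigdec n hj
    omega

lemma tk_thick (hTD : TD s g h al N η ψ K0 p lo hi sig) {j k : ℕ} (hj : j < p) (h1 : lo j < k)
    (h2 : k ≤ hi j) : al k - al (k - 1) = sig j := by
  have e1 := hTD.lin j hj k (by omega) h2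
  have e2 := hTD.lin j hj (k - 1) (by omega) (by omega)
  have e3 : k - lo j = (k - 1 - lo j) + 1 := by omega
  rw [e1, e2, e3, Nat.mul_add, Nat.mul_one]
  omega

lemma split {M : Type} [AddCommMonoid M] (hTD : TD s g h al N η ψ K0 p lo hi sig) (f : ℕ → M) :
    ∑ k ∈ Icc 1 K0, f k = ∑ k ∈ Thin K0 p lo hi, f k +
      ∑ j ∈ range p, ∑ k ∈ Ioc (lo j) (hi j), f k := by
  classical
  rw [← sum_biUnion]
  · rw [← sum_union]
    · apply sum_congr _ (fun _ _ => rfl)
      ext k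
      unfold Thin
      simp only [mem_union, mem_filter, mem_biUnion, mem_range, mem_Ioc, mem_Icc]
      constructor
      · intro hk
        by_cases h1 : ∀ j, j < p → ¬ (lo j < k ∧ k ≤ hi j)
        · exact Or.inl ⟨hk, h1⟩
        · push Not at h1
          obtain ⟨j, hj, h2, h3⟩ := h1
          exact Or.inr ⟨j, hj, h2, h3⟩
      · rintro (⟨hk, _⟩ | ⟨j, hj, h2, h3⟩)
        · exact hk
        · have := hi_le hTD hj
          omega
    · rw [disjoint_left]
      intro k hk hk'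
      unfold Thin at hk
      rw [mem_filter] at hk
      simp only [mem_biUnion, mem_range, mem_Ioc] at hk'
      obtain ⟨j, hj, h2⟩ := hk'
      exact hk.2 j hj h2
  · intro i hi' j hj hij
    rw [coe_range, Set.mem_Iio] at hi' hj
    simp only [Function.onFun]
    rw [disjoint_left]
    intro k hk hk'
    rw [mem_Ioc] at hk hk'
    rcases Nat.lt_or_ge i j with h1 | h1
    · have := hi_lo hTD h1 hj
      omega
    · have := hi_lo hTD (show j < i by omega) hi'
      omega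

lemma split_hi {M : Type} [AddCommMonoid M] (hTD : TD s g h al N η ψ K0 p lo hi sig)
    (f : ℕ → M) {j : ℕ} (hj : j < p) :
    ∑ k ∈ Icc 1 (hi j), f k = ∑ k ∈ (Thin K0 p lo hi).filter (fun k => k ≤ hi j), f k +
      ∑ i ∈ range (j + 1), ∑ k ∈ Ioc (lo i) (hi i), f k := by
  classical
  have h1 := split hTD (fun k => if k ≤ hi j then f k else 0)
  have h2 : ∑ k ∈ Icc 1 K0, (if k ≤ hi j then f k else 0) = ∑ k ∈ Icc 1 (hi j), f k := by
    rw [← sum_filter]
    apply sum_congr _ (fun _ _ => rfl)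
    ext k
    have := hi_le hTD hj
    simp only [mem_filter, mem_Icc]
    omega
  rw [h2, ← sum_filter] at h1
  rw [h1]
  congr 1
  have h3 : range (j + 1) ⊆ range p := by
    intro i hi'
    rw [mem_range] at hi' ⊢
    omega
  rw [← sum_subset h3]
  · apply sum_congr rfl
    intro i hi'
    rw [mem_range] at hi'
    apply sum_congr rfl
    intro k hk
    rw [mem_Ioc] at hk
    have := L5.hi_mono hTD (show i ≤ j by omega) hj
    rw [if_pos (by omega)]
  · intro i hi' hi''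
    rw [mem_range] at hi' hi''
    apply sum_eq_zero
    intro k hk
    rw [mem_Ioc] at hk
    have := hi_lo hTD (show j < i by omega) hi'
    rw [if_neg (by omega)]

/-- the part of the defect which does not depend on the time -/
def d0 (s : ℕ) (g h al : ℕ → ℕ) (K0 a b : ℕ) : ℕ :=
  Fb s g h a b - ∑ k ∈ Icc 1 K0, (al k - al (k - 1) - (cs g a + cs h b))

/-- the decreasing part -/
def dm (g h : ℕ → ℕ) (p : ℕ) (lo hi sig : ℕ → ℕ) (a b j : ℕ) : ℕ :=
  ∑ i ∈ Ico (j + 1) p, (hi i - lo i) * (sig i - (cs g a + cs h b))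

/-- the increasing part -/
def dp (g h : ℕ → ℕ) (lo hi sig : ℕ → ℕ) (a b j : ℕ) : ℕ :=
  ∑ i ∈ range (j + 1), (hi i - lo i) * ((cs g a + cs h b) - sig i)

lemma W_eq (hal : IsAl s g h al) (hTD : TD s g h al N η ψ K0 p lo hi sig) {a b j : ℕ}
    (ha : a ≤ s) (hb : b ≤ s) (hj : j < p) :
    ((d0 s g h al K0 a b + dm g h p lo hi sig a b j + dp g h lo hi sig a b j : ℕ) : ℝ) =
      ∑ t ∈ range (j + 1), ((hi t : ℝ) - lo t) * (((cs g a : ℝ) + cs h b) - sig t) +
        Fb s g h a b -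
        ∑ k ∈ Thin K0 p lo hi, ((al k - al (k - 1) - (cs g a + cs h b) : ℕ) : ℝ) := by
  have h1 := pos_sum hal a b ha hb K0
  have h2 := split hTD (fun k => al k - al (k - 1) - (cs g a + cs h b))
  have h3 : ∀ i ∈ range p, ∑ k ∈ Ioc (lo i) (hi i), (al k - al (k - 1) - (cs g a + cs h b)) =
      (hi i - lo i) * (sig i - (cs g a + cs h b)) := by
    intro i hi'
    rw [mem_range] at hi'
    have h5 : ∀ k ∈ Ioc (lo i) (hi i), (al k - al (k - 1) - (cs g a + cs h b)) =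
        sig i - (cs g a + cs h b) := by
      intro k hk
      rw [mem_Ioc] at hk
      rw [tk_thick hTD hi' hk.1 hk.2]
    rw [sum_congr rfl h5, sum_const, Nat.card_Ioc, smul_eq_mul]
  rw [sum_congr rfl h3, ← Finset.sum_range_add_sum_Ico _ (show j + 1 ≤ p by omega)] at h2
  have h4 : ∀ i ∈ range (j + 1), (((hi i - lo i) * ((cs g a + cs h b) - sig i) : ℕ) : ℝ) -
      (((hi i - lo i) * (sig i - (cs g a + cs h b)) : ℕ) : ℝ) =
      ((hi i : ℝ) - lo i) * (((cs g a : ℝ) + cs h b) - sig i) := by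
    intro i hi'
    rw [mem_range] at hi'
    have h5 := sub_sub' (cs g a + cs h b) (sig i)
    have h6 := (hTD.lohi i (by omega)).le
    rw [Nat.cast_mul, Nat.cast_mul, ← mul_sub, h5, Nat.cast_sub h6]
    push_cast
    ring
  rw [← sum_congr rfl h4, sum_sub_distrib]
  unfold d0 dm dp
  rw [Nat.cast_add, Nat.cast_add, Nat.cast_sub h1, h2]
  push_cast
  ring

lemma Db_eq (hal : IsAl s g h al) (hTD : TD s g h al N η ψ K0 p lo hi sig) {a b j : ℕ}
    (hj : j < p) :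
    Db s g h al (hi j) a b =
      ∑ t ∈ range (j + 1), ((hi t : ℝ) - lo t) * (((cs g a : ℝ) + cs h b) - sig t) +
        Fb s g h a b +
        ∑ k ∈ (Thin K0 p lo hi).filter (fun k => k ≤ hi j),
          (((cs g a : ℝ) + cs h b) - ((al k - al (k - 1) : ℕ) : ℝ)) := by
  have h1 := split_hi hTD (fun k => ((cs g a : ℝ) + cs h b) - ((al k - al (k - 1) : ℕ) : ℝ)) hj
  have h2 : ∑ k ∈ Icc 1 (hi j), (((cs g a : ℝ) + cs h b) - ((al k - al (k - 1) : ℕ) : ℝ)) =
      (hi j : ℝ) * ((cs g a : ℝ) + cs h b) - al (hi j) := by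
    rw [sum_sub_distrib, ← Nat.cast_sum, tele hal, sum_const, Nat.card_Icc, nsmul_eq_mul]
    simp
  have h3 : ∀ i ∈ range (j + 1), ∑ k ∈ Ioc (lo i) (hi i),
      (((cs g a : ℝ) + cs h b) - ((al k - al (k - 1) : ℕ) : ℝ)) =
      ((hi i : ℝ) - lo i) * (((cs g a : ℝ) + cs h b) - sig i) := by
    intro i hi'
    rw [mem_range] at hi'
    have hi'' : i < p := by omega
    have h5 : ∀ k ∈ Ioc (lo i) (hi i),
        (((cs g a : ℝ) + cs h b) - ((al k - al (k - 1) : ℕ) : ℝ)) =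
          ((cs g a : ℝ) + cs h b) - sig i := by
      intro k hk
      rw [mem_Ioc] at hk
      rw [tk_thick hTD hi'' hk.1 hk.2]
    rw [sum_congr rfl h5, sum_const, Nat.card_Ioc, nsmul_eq_mul,
      Nat.cast_sub (hTD.lohi i hi'').le]
  rw [h2, sum_congr rfl h3] at h1
  unfold Db cutb
  push_cast
  linarith

/-- the defects of the tables without the thin part are at most the defects of the cuts -/
lemma D_le (hal : IsAl s g h al) (hTD : TD s g h al N η ψ K0 p lo hi sig) {a b j : ℕ}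
    (ha : a ≤ s) (hb : b ≤ s) (hj : j < p) :
    ((d0 s g h al K0 a b + dm g h p lo hi sig a b j + dp g h lo hi sig a b j : ℕ) : ℝ) ≤
      Db s g h al (hi j) a b := by
  rw [W_eq hal hTD ha hb hj, Db_eq hal hTD hj]
  have h1 : ∑ k ∈ (Thin K0 p lo hi).filter (fun k => k ≤ hi j),
      ((al k - al (k - 1) - (cs g a + cs h b) : ℕ) : ℝ) ≤
      ∑ k ∈ Thin K0 p lo hi, ((al k - al (k - 1) - (cs g a + cs h b) : ℕ) : ℝ) :=
    sum_le_sum_of_subset_of_nonneg (filter_subset _ _) (fun _ _ _ => Nat.cast_nonneg _)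
  have h2 : ∑ k ∈ (Thin K0 p lo hi).filter (fun k => k ≤ hi j),
      -((al k - al (k - 1) - (cs g a + cs h b) : ℕ) : ℝ) ≤
      ∑ k ∈ (Thin K0 p lo hi).filter (fun k => k ≤ hi j),
          (((cs g a : ℝ) + cs h b) - ((al k - al (k - 1) : ℕ) : ℝ)) := by
    apply sum_le_sum
    intro k _
    have h3 := sub_sub' (al k - al (k - 1)) (cs g a + cs h b)
    have h4 : (0 : ℝ) ≤ (((cs g a + cs h b) - (al k - al (k - 1)) : ℕ) : ℝ) := Nat.cast_nonneg _
    rw [Nat.cast_add] at h3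
    linarith
  rw [sum_neg_distrib] at h2
  linarith

/-- bound for the sum without the thin part -/
lemma E_le (hg : Comp s R N g) (hal : IsAl s g h al)
    (hTD : TD s g h al N η ψ K0 p lo hi sig) {a b j : ℕ} (hj : j < p) :
    ∑ t ∈ range (j + 1), ((hi t : ℝ) - lo t) * (((cs g a : ℝ) + cs h b) - sig t) +
        Fb s g h a b ≤ Db s g h al (hi j) a b + ψ * N * ((s : ℝ) * R * N) := by
  rw [Db_eq hal hTD hj]
  have h0 : ((Thin K0 p lo hi).card : ℝ) ≤ ψ * N := hTD.thin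
  have h1 : ∑ k ∈ (Thin K0 p lo hi).filter (fun k => k ≤ hi j), -((s : ℝ) * R * N) ≤
      ∑ k ∈ (Thin K0 p lo hi).filter (fun k => k ≤ hi j),
          (((cs g a : ℝ) + cs h b) - ((al k - al (k - 1) : ℕ) : ℝ)) := by
    apply sum_le_sum
    intro k _
    have h2 := tk_le hal k s 0 le_rfl (Nat.zero_le _) (by omega)
    rw [L5.cs_zero, Nat.add_zero] at h2
    have h3 := L5.cs_top hg (le_refl s)
    have h4 : ((al k - al (k - 1) : ℕ) : ℝ) ≤ cs g s := by exact_mod_cast h2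
    have h5 : (0 : ℝ) ≤ cs g a := Nat.cast_nonneg _
    have h6 : (0 : ℝ) ≤ cs h b := Nat.cast_nonneg _
    linarith
  rw [sum_const, nsmul_eq_mul] at h1
  have h2 : (((Thin K0 p lo hi).filter (fun k => k ≤ hi j)).card : ℝ) ≤ ψ * N :=
    le_trans (by exact_mod_cast card_filter_le _ _) h0
  have h3 : (((Thin K0 p lo hi).filter (fun k => k ≤ hi j)).card : ℝ) * ((s : ℝ) * R * N) ≤
      ψ * N * ((s : ℝ) * R * N) := mul_le_mul_of_nonneg_right h2 (by positivity)
  nlinarith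

lemma lo_hi_gap (hTD : TD s g h al N η ψ K0 p lo hi sig) {j : ℕ} (hj : j + 1 < p) :
    ((lo (j + 1) : ℝ) - hi j) ≤ ψ * N := by
  have h1 : (Ioc (hi j) (lo (j + 1))).card ≤
      ((Icc 1 K0).filter (fun k => ∀ j, j < p → ¬ (lo j < k ∧ k ≤ hi j))).card := by
    apply card_le_card
    intro k hk
    rw [mem_Ioc] at hk
    rw [mem_filter, mem_Icc]
    have h2 := hi_le hTD hj
    have h3 := hTD.lohi (j + 1) hj
    refine ⟨by omega, ?_⟩
    rintro i hi' ⟨h4, h5⟩
    rcases Nat.lt_or_ge i (j + 1) with h6 | h6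
    · have := L5.hi_mono hTD (show i ≤ j by omega) (by omega)
      omega
    · rcases Nat.eq_or_lt_of_le h6 with h7 | h7
      · rw [← h7] at h4
        omega
      · have := hi_lo hTD h7 hi'
        omega
  rw [Nat.card_Ioc] at h1
  have h2 := hTD.thin
  have h3 : ((lo (j + 1) - hi j : ℕ) : ℝ) ≤ ψ * N := le_trans (by exact_mod_cast h1) h2
  rwa [Nat.cast_sub (hTD.ord j hj)] at h3

lemma lo_zero (hTD : TD s g h al N η ψ K0 p lo hi sig) : (lo 0 : ℝ) ≤ ψ * N := by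
  have hp := hTD.ppos
  have h1 : (Ioc 0 (lo 0)).card ≤
      ((Icc 1 K0).filter (fun k => ∀ j, j < p → ¬ (lo j < k ∧ k ≤ hi j))).card := by
    apply card_le_card
    intro k hk
    rw [mem_Ioc] at hk
    rw [mem_filter, mem_Icc]
    have h2 := hi_le hTD hp
    have h3 := hTD.lohi 0 hp
    refine ⟨by omega, ?_⟩
    rintro i hi' ⟨h4, h5⟩
    rcases Nat.eq_zero_or_pos i with h6 | h6
    · rw [h6] at h4
      omega
    · have := hi_lo hTD h6 hi'
      omega
  rw [Nat.card_Ioc] at h1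
  have h2 := hTD.thin
  have h3 : ((lo 0 - 0 : ℕ) : ℝ) ≤ ψ * N := le_trans (by exact_mod_cast h1) h2
  simpa using h3

lemma Db_thick (hTD : TD s g h al N η ψ K0 p lo hi sig) {a b j : ℕ} (hj : j < p) :
    Db s g h al (hi j) a b = Db s g h al (lo j) a b +
      ((hi j : ℝ) - lo j) * (((cs g a : ℝ) + cs h b) - sig j) := by
  have h1 := hTD.lin j hj (hi j) (hTD.lohi j hj).le le_rfl
  unfold Db cutb
  rw [h1]
  push_cast
  rw [Nat.cast_sub (hTD.lohi j hj).le]
  ring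

lemma Db_gap (hg : Comp s R N g) (hh : Comp s R N h) (hal : IsAl s g h al) {k k' a b : ℕ}
    (ha : a ≤ s) (hb : b ≤ s) (hk : k ≤ k') (M : ℝ) (hM : (k' : ℝ) - k ≤ M) :
    Db s g h al k' a b ≤ Db s g h al k a b + M * (2 * ((s : ℝ) * R) * N) ∧
    Db s g h al k a b ≤ Db s g h al k' a b + M * (2 * ((s : ℝ) * R) * N) := by
  have hk' : (k : ℝ) ≤ k' := by exact_mod_cast hk
  have h0 : (0 : ℝ) ≤ 2 * ((s : ℝ) * R) * N := by positivity
  have h1 : ((k' : ℝ) - k) * (2 * ((s : ℝ) * R) * N) ≤ M * (2 * ((s : ℝ) * R) * N) :=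
    mul_le_mul_of_nonneg_right hM h0
  have h2 := L5.al_lip hg hh hal hk
  have h3 : (al k : ℝ) ≤ al k' := by exact_mod_cast L5.al_mono hal hk
  have h4 := L5.cs_top hg ha
  have h5 := L5.cs_top hh hb
  have h6 : (0 : ℝ) ≤ (cs g a : ℝ) + cs h b := by positivity
  have h7 : ((k' : ℝ) - k) * ((cs g a : ℝ) + cs h b) ≤
      ((k' : ℝ) - k) * (2 * ((s : ℝ) * R) * N) := by
    apply mul_le_mul_of_nonneg_left _ (by linarith)
    linarith
  have h8 : 0 ≤ ((k' : ℝ) - k) * ((cs g a : ℝ) + cs h b) := mul_nonneg (by linarith) h6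
  unfold Db cutb
  push_cast
  constructor <;> nlinarith

lemma mem_ZD {a b j : ℕ} : (a, b, j) ∈ ZD s g h al N ψ p hi ↔
    (a ≤ s ∧ b ≤ s ∧ j < p) ∧ Db s g h al (hi j) a b ≤ ψ * (N : ℝ) ^ 2 := by
  classical
  unfold ZD LBox
  simp only [mem_filter, mem_product, mem_range]
  constructor
  · rintro ⟨⟨h1, h2, h3⟩, h5⟩
    exact ⟨⟨by omega, by omega, h3⟩, h5⟩
  · rintro ⟨⟨h1, h2, h3⟩, h5⟩
    exact ⟨⟨by omega, by omega, h3⟩, h5⟩

lemma dm_zero (hTD : TD s g h al N η ψ K0 p lo hi sig) {a b j : ℕ}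
    (hS : j + 1 < p → sig (j + 1) ≤ cs g a + cs h b) : dm g h p lo hi sig a b j = 0 := by
  unfold dm
  apply sum_eq_zero
  intro i hi'
  rw [mem_Ico] at hi'
  have h1 := sig_anti hTD hi'.1 hi'.2
  have h2 := hS (by omega)
  rw [Nat.sub_eq_zero_of_le (show sig i ≤ cs g a + cs h b by omega), Nat.mul_zero]

lemma dp_zero (hTD : TD s g h al N η ψ K0 p lo hi sig) {a b j : ℕ} (hj : j < p)
    (hS : cs g a + cs h b ≤ sig j) : dp g h lo hi sig a b j = 0 := by
  unfold dp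
  apply sum_eq_zero
  intro i hi'
  rw [mem_range] at hi'
  have h1 := sig_anti hTD (show i ≤ j by omega) hj
  rw [Nat.sub_eq_zero_of_le (show cs g a + cs h b ≤ sig i by omega), Nat.mul_zero]

/-- `S` is larger than `sig` if the defect grows -/
lemma grow (hTD : TD s g h al N η ψ K0 p lo hi sig) {a b j : ℕ} (hj : j < p)
    (h1 : Db s g h al (lo j) a b < Db s g h al (hi j) a b) : sig j ≤ cs g a + cs h b := by
  rw [Db_thick hTD hj] at h1
  by_contra hc
  push Not at hc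
  have h2 : (cs g a : ℝ) + cs h b ≤ sig j := by exact_mod_cast hc.le
  have h3 : (lo j : ℝ) ≤ hi j := by exact_mod_cast (hTD.lohi j hj).le
  nlinarith

lemma shrink (hTD : TD s g h al N η ψ K0 p lo hi sig) {a b j : ℕ} (hj : j < p)
    (h1 : Db s g h al (hi j) a b < Db s g h al (lo j) a b) : cs g a + cs h b ≤ sig j := by
  rw [Db_thick hTD hj] at h1
  by_contra hc
  push Not at hc
  have h2 : (sig j : ℝ) ≤ (cs g a : ℝ) + cs h b := by exact_mod_cast hc.le
  have h3 : (lo j : ℝ) ≤ hi j := by exact_mod_cast (hTD.lohi j hj).le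
  nlinarith

lemma dm_end (hg : Comp s R N g) (hh : Comp s R N h) (hal : IsAl s g h al) (hN : 0 < N)
    (hη : 0 < η) (hψ : 0 ≤ ψ) (hψη : 4 * ((s : ℝ) * R + 1) * ψ < η)
    (hTD : TD s g h al N η ψ K0 p lo hi sig) {a b j : ℕ}
    (h1 : (a, b, j) ∈ ZD s g h al N ψ p hi) (h2 : (a, b, j + 1) ∉ ZD s g h al N ψ p hi) :
    dm g h p lo hi sig a b j = 0 := by
  apply dm_zero hTD
  intro hj
  rw [mem_ZD] at h1 h2
  obtain ⟨⟨ha, hb, hj0⟩, h3⟩ := h1
  have h4 : η * (N : ℝ) ^ 2 ≤ Db s g h al (hi (j + 1)) a b := by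
    rcases hTD.dich a b (j + 1) ha hb hj with h | h
    · exact absurd ⟨⟨ha, hb, hj⟩, h⟩ h2
    · exact h
  apply grow hTD hj
  have h5 := (Db_gap hg hh hal ha hb (hTD.ord j hj) (ψ * N) (lo_hi_gap hTD hj)).1
  have hN2 : (0 : ℝ) < (N : ℝ) ^ 2 := by positivity
  have h6 : 0 ≤ (s : ℝ) * R * ψ := by positivity
  have h7 : (4 * ((s : ℝ) * R + 1) * ψ) * (N : ℝ) ^ 2 < η * (N : ℝ) ^ 2 :=
    mul_lt_mul_of_pos_right hψη hN2
  have h8 : 0 ≤ (s : ℝ) * R * ψ * (N : ℝ) ^ 2 := by positivity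
  have h9 : 0 ≤ ψ * (N : ℝ) ^ 2 := by positivity
  nlinarith

lemma dp_start (hg : Comp s R N g) (hh : Comp s R N h) (hal : IsAl s g h al) (hN : 0 < N)
    (hη : 0 < η) (hψ : 0 ≤ ψ) (hψη : 4 * ((s : ℝ) * R + 1) * ψ < η)
    (hTD : TD s g h al N η ψ K0 p lo hi sig) {a b j : ℕ}
    (h1 : (a, b, j) ∉ ZD s g h al N ψ p hi) (h2 : (a, b, j + 1) ∈ ZD s g h al N ψ p hi) :
    dp g h lo hi sig a b (j + 1) = 0 := by
  rw [mem_ZD] at h1 h2
  obtain ⟨⟨ha, hb, hj⟩, h3⟩ := h2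
  apply dp_zero hTD hj
  have h4 : η * (N : ℝ) ^ 2 ≤ Db s g h al (hi j) a b := by
    rcases hTD.dich a b j ha hb (by omega) with h | h
    · exact absurd ⟨⟨ha, hb, by omega⟩, h⟩ h1
    · exact h
  apply shrink hTD hj
  have h5 := (Db_gap hg hh hal ha hb (hTD.ord j hj) (ψ * N) (lo_hi_gap hTD hj)).2
  have hN2 : (0 : ℝ) < (N : ℝ) ^ 2 := by positivity
  have h7 : (4 * ((s : ℝ) * R + 1) * ψ) * (N : ℝ) ^ 2 < η * (N : ℝ) ^ 2 :=
    mul_lt_mul_of_pos_right hψη hN2
  have h8 : 0 ≤ (s : ℝ) * R * ψ * (N : ℝ) ^ 2 := by positivity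
  have h9 : 0 ≤ ψ * (N : ℝ) ^ 2 := by positivity
  nlinarith

lemma dp_zero_start (hg : Comp s R N g) (hh : Comp s R N h) (hal : IsAl s g h al) (hN : 0 < N)
    (hη1 : η ≤ 1) (hψ : 0 ≤ ψ) (hψη : 4 * ((s : ℝ) * R + 1) * ψ < η)
    (hTD : TD s g h al N η ψ K0 p lo hi sig) {a b : ℕ} (hab : a + b < s)
    (h2 : (a, b, 0) ∈ ZD s g h al N ψ p hi) : dp g h lo hi sig a b 0 = 0 := by
  rw [mem_ZD] at h2
  obtain ⟨⟨ha, hb, hj⟩, h3⟩ := h2
  apply dp_zero hTD hj
  apply shrink hTD hj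
  have h4 : (N : ℝ) ^ 2 ≤ Db s g h al 0 a b := by
    have h5 : N * N ≤ Fb s g h a b := by
      rw [L5.Fb_row s g h a b (by omega)]
      have h6 := (hg (a + 1) (by omega) (by omega)).1
      have h7 := (hh (b + 1) (by omega) (by omega)).1
      have h8 : cs h (b + 1) ≤ cs h (s - a) := L5.cs_mono h (by omega)
      rw [L5.cs_succ] at h8
      have h9 : N * N ≤ g (a + 1) * (cs h (s - a) - cs h b) :=
        Nat.mul_le_mul h6 (by omega)
      omega
    unfold Db cutb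
    rw [al0 hal]
    have h6 : ((N * N : ℕ) : ℝ) ≤ Fb s g h a b := by exact_mod_cast h5
    push_cast at h6 ⊢
    nlinarith
  have h5 := (Db_gap hg hh hal ha hb (Nat.zero_le (lo 0)) (ψ * N)
    (by have := lo_zero hTD; simpa using this)).2
  have hN2 : (0 : ℝ) < (N : ℝ) ^ 2 := by positivity
  have h7 : (4 * ((s : ℝ) * R + 1) * ψ) * (N : ℝ) ^ 2 < 1 * (N : ℝ) ^ 2 :=
    mul_lt_mul_of_pos_right (by linarith) hN2
  have h8 : 0 ≤ (s : ℝ) * R * ψ * (N : ℝ) ^ 2 := by positivity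
  have h9 : 0 ≤ ψ * (N : ℝ) ^ 2 := by positivity
  nlinarith

lemma diag_zero (hal : IsAl s g h al) (hTD : TD s g h al N η ψ K0 p lo hi sig) {a b : ℕ}
    (hab : a + b = s) : d0 s g h al K0 a b = 0 ∧ ∀ j, dm g h p lo hi sig a b j = 0 := by
  constructor
  · unfold d0
    rw [L5.Fb_zero s g h a b (by omega)]
    omega
  · intro j
    apply dm_zero hTD
    intro hj
    have h1 := hTD.lohi (j + 1) hj
    have h2 := tk_thick hTD hj h1 le_rfl
    rw [← h2]
    exact tk_le hal _ a b (by omega) (by omega) (by omega)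

lemma corner_zero (hal : IsAl s g h al) (hTD : TD s g h al N η ψ K0 p lo hi sig)
    (hK0 : K0 = max (cs g s) (cs h s)) :
    d0 s g h al K0 0 0 + dm g h p lo hi sig 0 0 (p - 1) + dp g h lo hi sig 0 0 (p - 1) = 0 := by
  have hp := hTD.ppos
  have h1 : d0 s g h al K0 0 0 = 0 := by
    unfold d0
    rw [L5.cs_zero, L5.cs_zero]
    simp only [Nat.add_zero, Nat.sub_zero]
    rw [tele hal]
    have := L5.al_top hal hK0
    omega
  have h2 : dm g h p lo hi sig 0 0 (p - 1) = 0 := by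
    apply dm_zero hTD
    intro h
    omega
  have h3 : dp g h lo hi sig 0 0 (p - 1) = 0 := by
    apply dp_zero hTD (by omega)
    rw [L5.cs_zero, L5.cs_zero]
    omega
  rw [h1, h2, h3]

lemma dm_mono (a b j : ℕ) : dm g h p lo hi sig a b (j + 1) ≤ dm g h p lo hi sig a b j := by
  unfold dm
  apply sum_le_sum_of_subset
  intro i hi'
  rw [mem_Ico] at hi' ⊢
  omega

lemma dp_mono (a b j : ℕ) : dp g h lo hi sig a b j ≤ dp g h lo hi sig a b (j + 1) := by
  unfold dp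
  apply sum_le_sum_of_subset
  intro i hi'
  rw [mem_range] at hi' ⊢
  omega

end L28

end Pool.MP_d56194_co
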