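import Mathlib
import Pool.Agent.Lib.MP_d56194_co.L.L0

set_option autoImplicit false

namespace Pool.MP_d56194_co

open Finset

namespace L6

lemma cs_mono (g : ℕ → ℕ) : Monotone (cs g) := by
  apply monotone_nat_of_le_succ
  intro a
  unfold cs
  rw [sum_range_succ]
  omega

lemma cs_succ (g : ℕ → ℕ) (a : ℕ) : cs g (a + 1) = cs g a + g (a + 1) := by
  unfold cs
  rw [sum_range_succ]

lemma tele_card {α : Type} (A : Finset α) (f : α → ℕ) (H : ℕ → ℕ) (hH : Monotone H) (b s : ℕ)
    (hbs : b ≤ s) :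
    ∑ x ∈ Ioc b s, (A.filter (fun r => H (x - 1) ≤ f r ∧ f r < H x)).card =
      (A.filter (fun r => H b ≤ f r ∧ f r < H s)).card := by
  classical
  induction s, hbs using Nat.le_induction with
  | base =>
    rw [Ioc_self, sum_empty]
    symm
    rw [card_eq_zero, filter_eq_empty_iff]
    intro r _ h
    omega
  | succ s hbs ih =>
    rw [Finset.sum_Ioc_succ_top hbs, ih, Nat.add_sub_cancel, ← card_union_of_disjoint]
    · congr 1
      ext r
      simp only [mem_union, mem_filter]
      have h1 := hH hbs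
      have h2 := hH (Nat.le_succ s)
      simp only [Nat.succ_eq_add_one] at h2
      constructor
      · rintro (⟨h, h3, h4⟩ | ⟨h, h3, h4⟩)
        · exact ⟨h, h3, by omega⟩
        · exact ⟨h, by omega, h4⟩
      · rintro ⟨h, h3, h4⟩
        by_cases h5 : f r < H s
        · exact Or.inl ⟨h, h3, h5⟩
        · exact Or.inr ⟨h, by omega, h4⟩
    · rw [disjoint_left]
      intro r h3 h4
      rw [mem_filter] at h3 h4
      omega

end L6

open L6 in
/-- M6: the reverse diagonal of length `t` -/
theorem thin_table (s : ℕ) (g h : ℕ → ℕ) (t : ℕ)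
    (ht : ∀ a b, a ≤ s → b ≤ s → s ≤ a + b → t ≤ cs g a + cs h b) :
    ∃ Y : ℕ → ℕ → ℕ, (∀ i x, Y i x ≠ 0 → 1 ≤ i ∧ 1 ≤ x ∧ i + x ≤ s + 1) ∧
      (∀ i, 1 ≤ i → i ≤ s → ∑ x ∈ Icc 1 s, Y i x ≤ g i) ∧
      (∀ x, 1 ≤ x → x ≤ s → ∑ i ∈ Icc 1 s, Y i x ≤ h x) ∧
      (∑ i ∈ Icc 1 s, ∑ x ∈ Icc 1 s, Y i x = t) ∧
      ∀ a b, a ≤ s → b ≤ s → ∑ i ∈ Ioc a s, ∑ x ∈ Ioc b s, Y i x = t - (cs g a + cs h b) := by
  classical
  have hcs0 : ∀ g : ℕ → ℕ, cs g 0 = 0 := fun g => by simp [cs]
  have htg : t ≤ cs g s := by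
    have := ht s 0 le_rfl (Nat.zero_le _) (by omega)
    rwa [hcs0, add_zero] at this
  have hth : t ≤ cs h s := by
    have := ht 0 s (Nat.zero_le _) le_rfl (by omega)
    rwa [hcs0, zero_add] at this
  let Y : ℕ → ℕ → ℕ := fun i x => ((range t).filter (fun r =>
    (cs g (i - 1) ≤ r ∧ r < cs g i) ∧ (cs h (x - 1) ≤ t - 1 - r ∧ t - 1 - r < cs h x))).card
  have hY1 : ∀ i x, Y i x = (((range t).filter (fun r => cs g (i - 1) ≤ r ∧ r < cs g i)).filter
      (fun r => cs h (x - 1) ≤ t - 1 - r ∧ t - 1 - r < cs h x)).card := by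
    intro i x
    simp only [Y]
    rw [filter_filter]
  have hY2 : ∀ i x, Y i x = (((range t).filter (fun r => cs h (x - 1) ≤ t - 1 - r ∧
      t - 1 - r < cs h x)).filter (fun r => cs g (i - 1) ≤ r ∧ r < cs g i)).card := by
    intro i x
    simp only [Y]
    rw [filter_filter]
    congr 1
    apply filter_congr
    intro r _
    exact and_comm
  have hIcc : Icc 1 s = Ioc 0 s := by
    ext x
    simp only [mem_Icc, mem_Ioc]
    omega
  have hrow : ∀ i b, b ≤ s → ∑ x ∈ Ioc b s, Y i x =
      (((range t).filter (fun r => cs h b ≤ t - 1 - r ∧ t - 1 - r < cs h s)).filter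
        (fun r => cs g (i - 1) ≤ r ∧ r < cs g i)).card := by
    intro i b hb
    simp only [hY1]
    rw [tele_card _ (fun r => t - 1 - r) (cs h) (cs_mono h) b s hb, filter_filter, filter_filter]
    congr 1
    apply filter_congr
    intro r _
    exact and_comm
  have hcol : ∀ x a, a ≤ s → ∑ i ∈ Ioc a s, Y i x =
      (((range t).filter (fun r => cs h (x - 1) ≤ t - 1 - r ∧ t - 1 - r < cs h x)).filter
        (fun r => cs g a ≤ r ∧ r < cs g s)).card := by
    intro x a ha
    simp only [hY2]
    rw [tele_card _ (fun r => r) (cs g) (cs_mono g) a s ha]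
  have htot : ∀ a b, a ≤ s → b ≤ s →
      ∑ i ∈ Ioc a s, ∑ x ∈ Ioc b s, Y i x = t - (cs g a + cs h b) := by
    intro a b ha hb
    rw [sum_congr rfl (fun i _ => hrow i b hb), tele_card _ (fun r => r) (cs g) (cs_mono g) a s ha]
    have h1 : (((range t).filter (fun r => cs h b ≤ t - 1 - r ∧ t - 1 - r < cs h s)).filter
        (fun r => cs g a ≤ r ∧ r < cs g s)) = Ico (cs g a) (t - cs h b) := by
      ext r
      simp only [mem_filter, mem_range, mem_Ico]
      omega
    rw [h1, Nat.card_Ico]
    omega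
  refine ⟨Y, ?_, ?_, ?_, ?_, htot⟩
  · intro i x hne
    obtain ⟨r, hr⟩ := card_ne_zero.mp hne
    rw [mem_filter, mem_range] at hr
    obtain ⟨hrt, ⟨h1, h2⟩, h3, h4⟩ := hr
    have hi : 1 ≤ i := by
      by_contra hi
      have : i = 0 := by omega
      subst this
      rw [hcs0] at h2
      omega
    have hx : 1 ≤ x := by
      by_contra hx
      have : x = 0 := by omega
      subst this
      rw [hcs0] at h4
      omega
    refine ⟨hi, hx, ?_⟩
    by_contra hcon
    have his : i - 1 ≤ s := by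
      by_contra hcon'
      have := cs_mono g (show s ≤ i - 1 by omega)
      omega
    have hxs : x - 1 ≤ s := by
      by_contra hcon'
      have := cs_mono h (show s ≤ x - 1 by omega)
      omega
    have := ht (i - 1) (x - 1) his hxs (by omega)
    omega
  · intro i hi his
    rw [hIcc, hrow i 0 (Nat.zero_le _)]
    obtain ⟨i', rfl⟩ : ∃ i', i = i' + 1 := ⟨i - 1, by omega⟩
    calc _ ≤ (Ico (cs g i') (cs g (i' + 1))).card := by
          apply card_le_card
          intro r hr
          rw [mem_filter] at hr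
          rw [mem_Ico]
          exact hr.2
      _ = g (i' + 1) := by
          rw [Nat.card_Ico, cs_succ]
          omega
  · intro x hx hxs
    rw [hIcc, hcol x 0 (Nat.zero_le _)]
    obtain ⟨x', rfl⟩ : ∃ x', x = x' + 1 := ⟨x - 1, by omega⟩
    calc _ ≤ (Ico (cs h x') (cs h (x' + 1))).card := by
          apply card_le_card_of_injOn (fun r => t - 1 - r)
          · intro r hr
            simp only [coe_filter, Set.mem_ofPred_eq, mem_filter, mem_range] at hr
            rw [mem_coe, mem_Ico]
            exact hr.1.2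
          · intro r hr r' hr' heq
            simp only [coe_filter, Set.mem_ofPred_eq, mem_filter, mem_range] at hr hr'
            simp only at heq
            omega
      _ = h (x' + 1) := by
          rw [Nat.card_Ico, cs_succ]
          omega
  · rw [hIcc, htot 0 0 (Nat.zero_le _) (Nat.zero_le _), hcs0, hcs0]
    omega

end Pool.MP_d56194_co
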