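import Mathlib
import Pool.Agent.Lib.MP_d56194_co.L.L0
import Pool.Agent.Lib.MP_d56194_co.L.L4
import Pool.Agent.Lib.MP_d56194_co.L.L5
import Pool.Agent.Lib.MP_d56194_co.L.L6

set_option autoImplicit false

namespace Pool.MP_d56194_co

open Finset

namespace L28

/-- the extended sum of the tables of the single thin times -/
noncomputable def U (s : ℕ) (g h : ℕ → ℕ) (A : Finset ℕ) (y : ℕ → ℕ → ℕ → ℕ) (i x : ℕ) : ℝ :=
  if x = 0 then
    (if 1 ≤ i ∧ i ≤ s then (g i : ℝ) * A.card - ∑ x' ∈ Icc 1 s, ∑ k ∈ A, (y k i x' : ℝ) else 0)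
  else if i = 0 then
    (if x ≤ s then (h x : ℝ) * A.card - ∑ i' ∈ Icc 1 s, ∑ k ∈ A, (y k i' x : ℝ) else 0)
  else ∑ k ∈ A, (y k i x : ℝ)

/-- the tables corrected in the first thick interval -/
noncomputable def X1 (X : ℕ × ℕ × ℕ → ℝ) (Y V : ℕ → ℕ → ℝ) (v : ℕ × ℕ × ℕ) : ℝ :=
  X v + if v.2.2 = 0 then Y v.1 v.2.1 - V v.1 v.2.1 else 0

lemma split0 (s : ℕ) (f : ℕ → ℝ) : ∑ x ∈ range (s + 1), f x = f 0 + ∑ x ∈ Icc 1 s, f x := by
  have e : range (s + 1) = insert 0 (Icc 1 s) := by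
    ext x
    simp only [mem_range, mem_insert, mem_Icc]
    omega
  rw [e, sum_insert (by simp)]

section
variable {s : ℕ} {g h : ℕ → ℕ} {A : Finset ℕ} {y : ℕ → ℕ → ℕ → ℕ}

lemma U_pos {i x : ℕ} (hi : 1 ≤ i) (hx : 1 ≤ x) : U s g h A y i x = ∑ k ∈ A, (y k i x : ℝ) := by
  unfold U
  rw [if_neg (by omega), if_neg (by omega)]

lemma U_left {i : ℕ} (hi : 1 ≤ i) (his : i ≤ s) : U s g h A y i 0 =
    (g i : ℝ) * A.card - ∑ x' ∈ Icc 1 s, ∑ k ∈ A, (y k i x' : ℝ) := by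
  unfold U
  rw [if_pos rfl, if_pos ⟨hi, his⟩]

lemma U_top {x : ℕ} (hx : 1 ≤ x) (hxs : x ≤ s) : U s g h A y 0 x =
    (h x : ℝ) * A.card - ∑ i' ∈ Icc 1 s, ∑ k ∈ A, (y k i' x : ℝ) := by
  unfold U
  rw [if_neg (by omega), if_pos rfl, if_pos hxs]

lemma U_supp (hy1 : ∀ k i x, y k i x ≠ 0 → 1 ≤ i ∧ 1 ≤ x ∧ i + x ≤ s + 1) {i x : ℕ}
    (hv : ¬ LE s 1 (i, x, 0)) : U s g h A y i x = 0 := by
  unfold LE at hv
  simp only at hv
  unfold U
  split_ifs with h1 h2 h3 h4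
  · exfalso
    apply hv
    omega
  · rfl
  · exfalso
    apply hv
    omega
  · rfl
  · refine sum_eq_zero fun k _ => ?_
    by_contra hne
    have h5 := hy1 k i x (fun h0 => hne (by rw [h0, Nat.cast_zero]))
    apply hv
    omega

lemma U_row {i : ℕ} (hi : 1 ≤ i) (his : i ≤ s) :
    ∑ x ∈ range (s + 1), U s g h A y i x = (g i : ℝ) * A.card := by
  rw [split0, U_left hi his]
  rw [sum_congr rfl (fun x hx => U_pos hi (mem_Icc.1 hx).1)]
  ring

lemma U_col {x : ℕ} (hx : 1 ≤ x) (hxs : x ≤ s) :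
    ∑ i ∈ range (s + 1), U s g h A y i x = (h x : ℝ) * A.card := by
  rw [split0, U_top hx hxs]
  rw [sum_congr rfl (fun i hi => U_pos (mem_Icc.1 hi).1 hx)]
  ring

lemma U_nonneg (hy2 : ∀ k i, 1 ≤ i → i ≤ s → ∑ x ∈ Icc 1 s, y k i x ≤ g i)
    (hy3 : ∀ k x, 1 ≤ x → x ≤ s → ∑ i ∈ Icc 1 s, y k i x ≤ h x) (i x : ℕ) :
    0 ≤ U s g h A y i x := by
  unfold U
  split_ifs with h1 h2 h3 h4
  · rw [sum_comm, sub_nonneg]
    calc ∑ k ∈ A, ∑ x' ∈ Icc 1 s, (y k i x' : ℝ) ≤ ∑ k ∈ A, (g i : ℝ) := by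
          refine sum_le_sum fun k _ => ?_
          exact_mod_cast hy2 k i h2.1 h2.2
      _ = (g i : ℝ) * A.card := by rw [sum_const, nsmul_eq_mul, mul_comm]
  · exact le_rfl
  · rw [sum_comm, sub_nonneg]
    calc ∑ k ∈ A, ∑ i' ∈ Icc 1 s, (y k i' x : ℝ) ≤ ∑ k ∈ A, (h x : ℝ) := by
          refine sum_le_sum fun k _ => ?_
          exact_mod_cast hy3 k x (by omega) h4
      _ = (h x : ℝ) * A.card := by rw [sum_const, nsmul_eq_mul, mul_comm]
  · exact le_rfl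
  · exact sum_nonneg fun k _ => Nat.cast_nonneg _

end

/-- a nonnegative extended table for the thin times is small -/
lemma tbl_bound {s R N : ℕ} {g h : ℕ → ℕ} (hg : Comp s R N g) (hh : Comp s R N h) {ψ c : ℝ}
    (hc : c ≤ ψ * N) (hc0 : 0 ≤ c) (W : ℕ → ℕ → ℝ) (hW : ∀ i x, 0 ≤ W i x)
    (hs : ∀ i x, ¬ LE s 1 (i, x, 0) → W i x = 0)
    (hr : ∀ i, 1 ≤ i → i ≤ s → ∑ x ∈ range (s + 1), W i x = (g i : ℝ) * c)
    (hcol : ∀ x, 1 ≤ x → x ≤ s → ∑ i ∈ range (s + 1), W i x = (h x : ℝ) * c) (i x : ℕ) :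
    W i x ≤ R * ψ * (N : ℝ) ^ 2 := by
  have key : ∀ u : ℕ, u ≤ R * N → (u : ℝ) * c ≤ R * ψ * (N : ℝ) ^ 2 := by
    intro u hu
    have h1 : (u : ℝ) ≤ R * N := by exact_mod_cast hu
    calc (u : ℝ) * c ≤ (R * N) * (ψ * N) := by
          apply mul_le_mul h1 hc hc0 (by positivity)
      _ = R * ψ * (N : ℝ) ^ 2 := by ring
  by_cases hv : LE s 1 (i, x, 0)
  · unfold LE at hv
    simp only at hv
    by_cases hi : 1 ≤ i
    · refine le_trans ?_ (key (g i) (hg i hi (by omega)).2)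
      rw [← hr i hi (by omega)]
      exact single_le_sum (f := fun x => W i x) (fun x _ => hW i x) (mem_range.2 (by omega))
    · refine le_trans ?_ (key (h x) (hh x (by omega) (by omega)).2)
      rw [← hcol x (by omega) (by omega)]
      exact single_le_sum (f := fun i => W i x) (fun i _ => hW i x) (mem_range.2 (by omega))
  · rw [hs i x hv]
    have := key 0 (Nat.zero_le _)
    rwa [Nat.cast_zero, zero_mul] at this

/-- M28b (file L28b) -/
theorem X1_lines (s R N : ℕ) (g h al : ℕ → ℕ) (η ψ : ℝ) (K0 p : ℕ) (lo hi sig : ℕ → ℕ)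
    (hg : Comp s R N g) (hh : Comp s R N h) (hmono : Monotone al)
    (hTD : TD s g h al N η ψ K0 p lo hi sig)
    (X : ℕ × ℕ × ℕ → ℝ) (Y : ℕ → ℕ → ℝ) (hX : TS s g h al K0 p lo hi sig X Y)
    (y : ℕ → ℕ → ℕ → ℕ) (hy1 : ∀ k i x, y k i x ≠ 0 → 1 ≤ i ∧ 1 ≤ x ∧ i + x ≤ s + 1)
    (hy2 : ∀ k i, 1 ≤ i → i ≤ s → ∑ x ∈ Icc 1 s, y k i x ≤ g i)
    (hy3 : ∀ k x, 1 ≤ x → x ≤ s → ∑ i ∈ Icc 1 s, y k i x ≤ h x)
    (hy4 : ∀ k, ∑ i ∈ Icc 1 s, ∑ x ∈ Icc 1 s, y k i x = al k - al (k - 1)) :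
    (∀ v, ¬ LE s p v → X1 X Y (U s g h (Thin K0 p lo hi) y) v = 0) ∧
    (∀ i x, 1 ≤ i → 1 ≤ x → i + x ≤ s + 1 →
      ∑ t ∈ range p, X1 X Y (U s g h (Thin K0 p lo hi) y) (i, x, t) =
        (g i : ℝ) * h x - ∑ k ∈ Thin K0 p lo hi, (y k i x : ℝ)) ∧
    (∀ i j, 1 ≤ i → i ≤ s → j < p →
      ∑ x ∈ range (s + 1), X1 X Y (U s g h (Thin K0 p lo hi) y) (i, x, j) =
        (g i : ℝ) * ((hi j : ℝ) - lo j)) ∧
    (∀ x j, 1 ≤ x → x ≤ s → j < p →
      ∑ i ∈ range (s + 1), X1 X Y (U s g h (Thin K0 p lo hi) y) (i, x, j) =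
        (h x : ℝ) * ((hi j : ℝ) - lo j)) ∧
    (∀ j, j < p → ∑ i ∈ Icc 1 s, ∑ x ∈ Icc 1 s,
      X1 X Y (U s g h (Thin K0 p lo hi) y) (i, x, j) = (sig j : ℝ) * ((hi j : ℝ) - lo j)) ∧
    (∀ a b, ∑ t ∈ range p, X1 X Y (U s g h (Thin K0 p lo hi) y) (a, b, t) ∈ ZG) ∧
    (∀ a t, ∑ b ∈ range (s + 1), X1 X Y (U s g h (Thin K0 p lo hi) y) (a, b, t) ∈ ZG) ∧
    (∀ b t, ∑ a ∈ range (s + 1), X1 X Y (U s g h (Thin K0 p lo hi) y) (a, b, t) ∈ ZG) ∧
    (∀ i x, |Y i x - U s g h (Thin K0 p lo hi) y i x| ≤ R * ψ * (N : ℝ) ^ 2) := by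
  classical
  have hp := hTD.ppos
  set A : Finset ℕ := Thin K0 p lo hi with hA
  have hm : ∀ j, j < p → ((hi j : ℝ) - lo j) = ((hi j - lo j : ℕ) : ℝ) := by
    intro j hj
    rw [Nat.cast_sub (hTD.lohi j hj).le]
  -- (1)
  have c1 : ∀ v, ¬ LE s p v → X1 X Y (U s g h A y) v = 0 := by
    rintro ⟨i, x, t⟩ hv
    unfold X1
    rw [hX.supp _ hv, zero_add]
    simp only
    split_ifs with ht
    · subst ht
      have hv' : ¬ LE s 1 (i, x, 0) := by
        intro h1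
        apply hv
        unfold LE at h1 ⊢
        simp only at h1 ⊢
        omega
      rw [hX.tsupp i x hv', U_supp hy1 hv', sub_zero]
    · rfl
  -- (2)
  have c2 : ∀ i x, 1 ≤ i → 1 ≤ x → i + x ≤ s + 1 →
      ∑ t ∈ range p, X1 X Y (U s g h A y) (i, x, t) =
        (g i : ℝ) * h x - ∑ k ∈ A, (y k i x : ℝ) := by
    intro i x h1 h2 h3
    unfold X1
    simp only
    rw [sum_add_distrib, sum_ite_eq' (range p) 0 (fun _ => Y i x - U s g h A y i x),
      if_pos (mem_range.2 hp), U_pos h1 h2, ← hX.cell i x h1 h2 h3]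
    ring
  -- (3)
  have c3 : ∀ i j, 1 ≤ i → i ≤ s → j < p →
      ∑ x ∈ range (s + 1), X1 X Y (U s g h A y) (i, x, j) =
        (g i : ℝ) * ((hi j : ℝ) - lo j) := by
    intro i j h1 h2 h3
    unfold X1
    simp only
    rw [sum_add_distrib, hX.row i j h1 h2 h3]
    by_cases hj : j = 0
    · simp only [hj, if_true]
      rw [sum_sub_distrib, hX.trow i h1 h2, U_row h1 h2, sub_self, add_zero]
    · simp only [hj, if_false, sum_const_zero, add_zero]
  -- (4)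
  have c4 : ∀ x j, 1 ≤ x → x ≤ s → j < p →
      ∑ i ∈ range (s + 1), X1 X Y (U s g h A y) (i, x, j) =
        (h x : ℝ) * ((hi j : ℝ) - lo j) := by
    intro x j h1 h2 h3
    unfold X1
    simp only
    rw [sum_add_distrib, hX.col x j h1 h2 h3]
    by_cases hj : j = 0
    · simp only [hj, if_true]
      rw [sum_sub_distrib, hX.tcol x h1 h2, U_col h1 h2, sub_self, add_zero]
    · simp only [hj, if_false, sum_const_zero, add_zero]
  -- (5)
  have hUt : ∑ i ∈ Icc 1 s, ∑ x ∈ Icc 1 s, U s g h A y i x =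
      ∑ k ∈ A, ((al k : ℝ) - al (k - 1)) := by
    calc ∑ i ∈ Icc 1 s, ∑ x ∈ Icc 1 s, U s g h A y i x
        = ∑ i ∈ Icc 1 s, ∑ x ∈ Icc 1 s, ∑ k ∈ A, (y k i x : ℝ) := by
          refine sum_congr rfl fun i hi => sum_congr rfl fun x hx => ?_
          exact U_pos (mem_Icc.1 hi).1 (mem_Icc.1 hx).1
      _ = ∑ i ∈ Icc 1 s, ∑ k ∈ A, ∑ x ∈ Icc 1 s, (y k i x : ℝ) := by
          refine sum_congr rfl fun i _ => ?_
          rw [sum_comm]
      _ = ∑ k ∈ A, ∑ i ∈ Icc 1 s, ∑ x ∈ Icc 1 s, (y k i x : ℝ) := by rw [sum_comm]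
      _ = ∑ k ∈ A, ((al k : ℝ) - al (k - 1)) := by
          refine sum_congr rfl fun k _ => ?_
          have h1 := hy4 k
          have h2 : al (k - 1) ≤ al k := hmono (Nat.sub_le _ _)
          rw [← Nat.cast_sub h2, ← h1]
          push_cast
          rfl
  have c5 : ∀ j, j < p → ∑ i ∈ Icc 1 s, ∑ x ∈ Icc 1 s,
      X1 X Y (U s g h A y) (i, x, j) = (sig j : ℝ) * ((hi j : ℝ) - lo j) := by
    intro j h3
    unfold X1
    simp only [sum_add_distrib]
    rw [hX.tot j h3]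
    by_cases hj : j = 0
    · simp only [hj, if_true, sum_sub_distrib]
      rw [hX.ttot, hUt, sub_self, add_zero]
    · simp only [hj, if_false, sum_const_zero, add_zero]
  -- cells off the first row and column
  have d1 : ∀ i x, 1 ≤ i → 1 ≤ x → ∑ t ∈ range p, X1 X Y (U s g h A y) (i, x, t) ∈ ZG := by
    intro i x h1 h2
    by_cases h3 : i + x ≤ s + 1
    · rw [c2 i x h1 h2 h3]
      refine ZG.sub_mem ?_ (ZG.sum_mem fun k _ => L4.natcast_mem _)
      have := L4.natcast_mem (g i * h x)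
      rwa [Nat.cast_mul] at this
    · rw [sum_eq_zero (fun t _ => c1 _ (by
        unfold LE
        simp only
        omega))]
      exact ZG.zero_mem
  have gm : ∀ (u : ℕ) (j : ℕ), j < p → (u : ℝ) * ((hi j : ℝ) - lo j) ∈ ZG := by
    intro u j hj
    rw [hm j hj, ← Nat.cast_mul]
    exact L4.natcast_mem _
  have c6 : ∀ a b, ∑ t ∈ range p, X1 X Y (U s g h A y) (a, b, t) ∈ ZG := by
    intro a b
    by_cases hout : s < a ∨ s < b ∨ (a = 0 ∧ b = 0)
    · rw [sum_eq_zero (fun t _ => c1 _ (by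
        unfold LE
        simp only
        omega))]
      exact ZG.zero_mem
    · by_cases ha : a = 0
      · subst ha
        have hb1 : 1 ≤ b := by omega
        have hb2 : b ≤ s := by omega
        have e : ∑ t ∈ range p, X1 X Y (U s g h A y) (0, b, t) =
            ∑ t ∈ range p, (h b : ℝ) * ((hi t : ℝ) - lo t) -
              ∑ i ∈ Icc 1 s, ∑ t ∈ range p, X1 X Y (U s g h A y) (i, b, t) := by
          rw [sum_comm, ← sum_sub_distrib]
          refine sum_congr rfl fun t ht => ?_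
          rw [← c4 b t hb1 hb2 (mem_range.1 ht), split0]
          ring
        rw [e]
        exact ZG.sub_mem (ZG.sum_mem fun t ht => gm _ t (mem_range.1 ht))
          (ZG.sum_mem fun i hi => d1 i b (mem_Icc.1 hi).1 hb1)
      · by_cases hb : b = 0
        · subst hb
          have ha1 : 1 ≤ a := by omega
          have ha2 : a ≤ s := by omega
          have e : ∑ t ∈ range p, X1 X Y (U s g h A y) (a, 0, t) =
              ∑ t ∈ range p, (g a : ℝ) * ((hi t : ℝ) - lo t) -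
                ∑ x ∈ Icc 1 s, ∑ t ∈ range p, X1 X Y (U s g h A y) (a, x, t) := by
            rw [sum_comm, ← sum_sub_distrib]
            refine sum_congr rfl fun t ht => ?_
            rw [← c3 a t ha1 ha2 (mem_range.1 ht), split0]
            ring
          rw [e]
          exact ZG.sub_mem (ZG.sum_mem fun t ht => gm _ t (mem_range.1 ht))
            (ZG.sum_mem fun x hx => d1 a x ha1 (mem_Icc.1 hx).1)
        · exact d1 a b (by omega) (by omega)
  have c7 : ∀ a t, ∑ b ∈ range (s + 1), X1 X Y (U s g h A y) (a, b, t) ∈ ZG := by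
    intro a t
    by_cases hout : s < a ∨ p ≤ t
    · rw [sum_eq_zero (fun b _ => c1 _ (by
        unfold LE
        simp only
        omega))]
      exact ZG.zero_mem
    · have ht : t < p := by omega
      by_cases ha : a = 0
      · subst ha
        have e : ∑ b ∈ range (s + 1), X1 X Y (U s g h A y) (0, b, t) =
            ∑ b ∈ Icc 1 s, (h b : ℝ) * ((hi t : ℝ) - lo t) -
              (sig t : ℝ) * ((hi t : ℝ) - lo t) := by
          rw [split0, c1 (0, 0, t) (fun h0 => h0.2.2.2.1 ⟨rfl, rfl⟩), zero_add, ← c5 t ht, sum_comm, ← sum_sub_distrib]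
          refine sum_congr rfl fun b hb => ?_
          rw [← c4 b t (mem_Icc.1 hb).1 (mem_Icc.1 hb).2 ht, split0]
          ring
        rw [e]
        exact ZG.sub_mem (ZG.sum_mem fun b _ => gm _ t ht) (gm _ t ht)
      · rw [c3 a t (by omega) (by omega) ht]
        exact gm _ t ht
  have c8 : ∀ b t, ∑ a ∈ range (s + 1), X1 X Y (U s g h A y) (a, b, t) ∈ ZG := by
    intro b t
    by_cases hout : s < b ∨ p ≤ t
    · rw [sum_eq_zero (fun a _ => c1 _ (by
        unfold LE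
        simp only
        omega))]
      exact ZG.zero_mem
    · have ht : t < p := by omega
      by_cases hb : b = 0
      · subst hb
        have e : ∑ a ∈ range (s + 1), X1 X Y (U s g h A y) (a, 0, t) =
            ∑ a ∈ Icc 1 s, (g a : ℝ) * ((hi t : ℝ) - lo t) -
              (sig t : ℝ) * ((hi t : ℝ) - lo t) := by
          rw [split0, c1 (0, 0, t) (fun h0 => h0.2.2.2.1 ⟨rfl, rfl⟩), zero_add, ← c5 t ht, ← sum_sub_distrib]
          refine sum_congr rfl fun a ha => ?_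
          rw [← c3 a t (mem_Icc.1 ha).1 (mem_Icc.1 ha).2 ht, split0]
          ring
        rw [e]
        exact ZG.sub_mem (ZG.sum_mem fun a _ => gm _ t ht) (gm _ t ht)
      · rw [c4 b t (by omega) (by omega) ht]
        exact gm _ t ht
  have hcard : (A.card : ℝ) ≤ ψ * N := hTD.thin
  refine ⟨c1, c2, c3, c4, c5, c6, c7, c8, ?_⟩
  intro i x
  have b1 := tbl_bound hg hh hcard (Nat.cast_nonneg _) Y hX.tnonneg hX.tsupp hX.trow hX.tcol i x
  have b2 := tbl_bound hg hh hcard (Nat.cast_nonneg _) (U s g h A y) (U_nonneg hy2 hy3)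
    (fun i x => U_supp hy1) (fun i => U_row) (fun x => U_col) i x
  have b3 := hX.tnonneg i x
  have b4 := U_nonneg (A := A) hy2 hy3 i x
  rw [abs_le]
  constructor <;> linarith

end L28

end Pool.MP_d56194_co
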