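import Mathlib
import Pool.Agent.Lib.MP_d56194_co.L.L0

set_option autoImplicit false

namespace Pool.MP_d56194_co

open Finset

namespace L29

lemma icc_ind (s a : ℕ) (ha : a ≤ s) (f : ℕ → ℝ) :
    ∑ i ∈ Icc 1 a, f i = ∑ i ∈ range (s + 1), (if 1 ≤ i ∧ i ≤ a then f i else 0) := by
  rw [← sum_filter]
  congr 1
  ext i
  simp only [mem_Icc, mem_filter, mem_range]
  omega

lemma ioc_ind (s a : ℕ) (f : ℕ → ℝ) :
    ∑ i ∈ Ioc a s, f i = ∑ i ∈ range (s + 1), (if a < i then f i else 0) := by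
  rw [← sum_filter]
  congr 1
  ext i
  simp only [mem_Ioc, mem_filter, mem_range]
  omega

lemma rng_ind (j p : ℕ) (hj : j < p) (f : ℕ → ℝ) :
    ∑ t ∈ range (j + 1), f t = ∑ t ∈ range p, (if t ≤ j then f t else 0) := by
  rw [← sum_filter]
  congr 1
  ext i
  simp only [mem_filter, mem_range]
  omega

/-- for a fixed time -/
lemma key (s : ℕ) (X : ℕ × ℕ × ℕ → ℝ) (a b j t : ℕ) (h0 : X (0, 0, t) = 0)
    (ha : a ≤ s) (hb : b ≤ s) :
    ∑ i ∈ range (s + 1), ∑ x ∈ range (s + 1),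
      (if Oct (a, b, j) (i, x, t) then X (i, x, t) else 0) =
    (if t ≤ j then (∑ i ∈ Icc 1 a, ∑ x ∈ range (s + 1), X (i, x, t) +
        ∑ x ∈ Icc 1 b, ∑ i ∈ range (s + 1), X (i, x, t) -
        ∑ i ∈ Icc 1 s, ∑ x ∈ Icc 1 s, X (i, x, t)) else 0) +
      ∑ i ∈ Ioc a s, ∑ x ∈ Ioc b s, X (i, x, t) := by
  have e1 : ∑ i ∈ Icc 1 a, ∑ x ∈ range (s + 1), X (i, x, t) =
      ∑ i ∈ range (s + 1), ∑ x ∈ range (s + 1),
        (if 1 ≤ i ∧ i ≤ a then X (i, x, t) else 0) := by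
    rw [icc_ind s a ha]
    refine sum_congr rfl fun i _ => ?_
    split_ifs with h
    · rfl
    · simp
  have e2 : ∑ x ∈ Icc 1 b, ∑ i ∈ range (s + 1), X (i, x, t) =
      ∑ i ∈ range (s + 1), ∑ x ∈ range (s + 1),
        (if 1 ≤ x ∧ x ≤ b then X (i, x, t) else 0) := by
    rw [sum_comm]
    refine sum_congr rfl fun i _ => ?_
    rw [icc_ind s b hb]
  have e3 : ∑ i ∈ Icc 1 s, ∑ x ∈ Icc 1 s, X (i, x, t) =
      ∑ i ∈ range (s + 1), ∑ x ∈ range (s + 1),
        (if 1 ≤ i ∧ 1 ≤ x then X (i, x, t) else 0) := by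
    rw [icc_ind s s le_rfl]
    refine sum_congr rfl fun i hi => ?_
    rw [mem_range] at hi
    rw [icc_ind s s le_rfl]
    by_cases h : 1 ≤ i
    · rw [if_pos ⟨h, by omega⟩]
      refine sum_congr rfl fun x hx => ?_
      rw [mem_range] at hx
      by_cases hx1 : 1 ≤ x
      · rw [if_pos ⟨hx1, by omega⟩, if_pos ⟨h, hx1⟩]
      · rw [if_neg (fun hh => hx1 hh.1), if_neg (fun hh => hx1 hh.2)]
    · rw [if_neg (fun hh => h hh.1)]
      symm
      refine sum_eq_zero fun x _ => ?_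
      rw [if_neg (fun hh => h hh.1)]
  have e4 : ∑ i ∈ Ioc a s, ∑ x ∈ Ioc b s, X (i, x, t) =
      ∑ i ∈ range (s + 1), ∑ x ∈ range (s + 1),
        (if a < i ∧ b < x then X (i, x, t) else 0) := by
    rw [ioc_ind s a]
    refine sum_congr rfl fun i _ => ?_
    rw [ioc_ind s b]
    by_cases h : a < i
    · rw [if_pos h]
      refine sum_congr rfl fun x _ => ?_
      by_cases hx : b < x
      · rw [if_pos hx, if_pos ⟨h, hx⟩]
      · rw [if_neg hx, if_neg (fun hh => hx hh.2)]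
    · rw [if_neg h]
      symm
      refine sum_eq_zero fun x _ => ?_
      rw [if_neg (fun hh => h hh.1)]
  rw [e1, e2, e3, e4]
  by_cases ht : t ≤ j
  · rw [if_pos ht, ← sum_add_distrib, ← sum_sub_distrib, ← sum_add_distrib]
    refine sum_congr rfl fun i _ => ?_
    rw [← sum_add_distrib, ← sum_sub_distrib, ← sum_add_distrib]
    refine sum_congr rfl fun x _ => ?_
    by_cases hi0 : i = 0 ∧ x = 0
    · obtain ⟨rfl, rfl⟩ := hi0
      simp [h0]
    · have hO : Oct (a, b, j) (i, x, t) ↔ (i ≤ a ∧ x ≤ b) := by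
        unfold Oct
        simp only
        omega
      rw [if_congr hO rfl rfl]
      split_ifs <;> first | (exfalso; omega) | ring
  · rw [if_neg ht, zero_add]
    refine sum_congr rfl fun i _ => ?_
    refine sum_congr rfl fun x _ => ?_
    have hO : Oct (a, b, j) (i, x, t) ↔ (a < i ∧ b < x) := by
      unfold Oct
      simp only
      omega
    rw [if_congr hO rfl rfl]

end L29

open L29 in
/-- M29a: the identity for the exceptions of a cut, for arbitrary extended tables -/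
theorem oct_sum (s p : ℕ) (X : ℕ × ℕ × ℕ → ℝ) (hX : ∀ v, ¬ LE s p v → X v = 0)
    (a b j : ℕ) (ha : a ≤ s) (hb : b ≤ s) (hj : j < p) :
    ∑ v ∈ LBox s p, (if Oct (a, b, j) v then X v else 0) =
      ∑ t ∈ range (j + 1), (∑ i ∈ Icc 1 a, ∑ x ∈ range (s + 1), X (i, x, t) +
        ∑ x ∈ Icc 1 b, ∑ i ∈ range (s + 1), X (i, x, t) -
        ∑ i ∈ Icc 1 s, ∑ x ∈ Icc 1 s, X (i, x, t)) +
      ∑ i ∈ Ioc a s, ∑ x ∈ Ioc b s, ∑ t ∈ range p, X (i, x, t) := by
  have h0 : ∀ t, X (0, 0, t) = 0 := fun t => hX _ (fun h => h.2.2.2.1 ⟨rfl, rfl⟩)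
  have e : ∑ v ∈ LBox s p, (if Oct (a, b, j) v then X v else 0) =
      ∑ t ∈ range p, ∑ i ∈ range (s + 1), ∑ x ∈ range (s + 1),
        (if Oct (a, b, j) (i, x, t) then X (i, x, t) else 0) := by
    unfold LBox
    rw [sum_product]
    rw [sum_comm' (s := range p) (t := fun _ => range (s + 1)) (t' := range (s + 1))
      (s' := fun _ => range p) (by intro x y; tauto)]
    refine sum_congr rfl fun i _ => ?_
    rw [sum_product, sum_comm]
  rw [e, sum_congr rfl (fun t _ => key s X a b j t (h0 t) ha hb), sum_add_distrib,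
    ← rng_ind j p hj]
  congr 1
  rw [sum_comm]
  refine sum_congr rfl fun i _ => ?_
  rw [sum_comm]

end Pool.MP_d56194_co
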