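import Mathlib
import Pool.Agent.Lib.MP_d56194_co.L.L0
import Pool.Agent.Lib.MP_d56194_co.L.L4
import Pool.Agent.Lib.MP_d56194_co.L.L5
import Pool.Agent.Lib.MP_d56194_co.L.L6
import Pool.Agent.Lib.MP_d56194_co.L.L28a
import Pool.Agent.Lib.MP_d56194_co.L.L28b
import Pool.Agent.Lib.MP_d56194_co.L.L29

set_option autoImplicit false

namespace Pool.MP_d56194_co

open Finset

namespace L28

variable {s R N : ℕ} {g h al : ℕ → ℕ} {η ψ : ℝ} {K0 p : ℕ} {lo hi sig : ℕ → ℕ}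

lemma csum (g : ℕ → ℕ) (a : ℕ) : ∑ i ∈ Icc 1 a, (g i : ℝ) = cs g a := by
  induction a with
  | zero => simp [cs]
  | succ a ih =>
    rw [Finset.sum_Icc_succ_top (by omega), ih, L5.cs_succ]
    push_cast
    ring

lemma oct_lines (X : ℕ × ℕ × ℕ → ℝ) (hX0 : ∀ v, ¬ LE s p v → X v = 0)
    (hrow : ∀ i j, 1 ≤ i → i ≤ s → j < p →
      ∑ x ∈ range (s + 1), X (i, x, j) = (g i : ℝ) * ((hi j : ℝ) - lo j))
    (hcol : ∀ x j, 1 ≤ x → x ≤ s → j < p →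
      ∑ i ∈ range (s + 1), X (i, x, j) = (h x : ℝ) * ((hi j : ℝ) - lo j))
    (htot : ∀ j, j < p → ∑ i ∈ Icc 1 s, ∑ x ∈ Icc 1 s, X (i, x, j) =
      (sig j : ℝ) * ((hi j : ℝ) - lo j)) {a b j : ℕ} (ha : a ≤ s) (hb : b ≤ s) (hj : j < p) :
    ∑ v ∈ LBox s p, (if Oct (a, b, j) v then X v else 0) =
      ∑ t ∈ range (j + 1), ((hi t : ℝ) - lo t) * (((cs g a : ℝ) + cs h b) - sig t) +
      ∑ i ∈ Ioc a s, ∑ x ∈ Ioc b s, ∑ t ∈ range p, X (i, x, t) := by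
  rw [oct_sum s p X hX0 a b j ha hb hj]
  congr 1
  apply sum_congr rfl
  intro t ht
  rw [mem_range] at ht
  have e1 : ∀ i ∈ Icc 1 a, ∑ x ∈ range (s + 1), X (i, x, t) =
      (g i : ℝ) * ((hi t : ℝ) - lo t) := fun i hi' =>
    hrow i t (mem_Icc.1 hi').1 ((mem_Icc.1 hi').2.trans ha) (by omega)
  have e2 : ∀ x ∈ Icc 1 b, ∑ i ∈ range (s + 1), X (i, x, t) =
      (h x : ℝ) * ((hi t : ℝ) - lo t) := fun i hi' =>
    hcol i t (mem_Icc.1 hi').1 ((mem_Icc.1 hi').2.trans hb) (by omega)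
  rw [sum_congr rfl e1, sum_congr rfl e2, ← sum_mul, ← sum_mul, csum, csum, htot t (by omega)]
  ring

/-- the corner of the corrected table -/
lemma corner_eq (X : ℕ × ℕ × ℕ → ℝ) (A : Finset ℕ) (y : ℕ → ℕ → ℕ → ℕ)
    (hX0 : ∀ v, ¬ LE s p v → X v = 0)
    (hy1 : ∀ k i x, y k i x ≠ 0 → 1 ≤ i ∧ 1 ≤ x ∧ i + x ≤ s + 1)
    (hy5 : ∀ k a b, a ≤ s → b ≤ s → ∑ i ∈ Ioc a s, ∑ x ∈ Ioc b s, y k i x =
      al k - al (k - 1) - (cs g a + cs h b))
    (hcell : ∀ i x, 1 ≤ i → 1 ≤ x → i + x ≤ s + 1 → ∑ t ∈ range p, X (i, x, t) =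
      (g i : ℝ) * h x - ∑ k ∈ A, (y k i x : ℝ)) {a b : ℕ} (ha : a ≤ s) (hb : b ≤ s) :
    ∑ i ∈ Ioc a s, ∑ x ∈ Ioc b s, ∑ t ∈ range p, X (i, x, t) =
      (Fb s g h a b : ℝ) - ∑ k ∈ A, ((al k - al (k - 1) - (cs g a + cs h b) : ℕ) : ℝ) := by
  have e1 : ∑ k ∈ A, ((al k - al (k - 1) - (cs g a + cs h b) : ℕ) : ℝ) =
      ∑ i ∈ Ioc a s, ∑ x ∈ Ioc b s, ∑ k ∈ A, (y k i x : ℝ) := by
    have e2 : ∀ k ∈ A, ((al k - al (k - 1) - (cs g a + cs h b) : ℕ) : ℝ) =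
        ∑ i ∈ Ioc a s, ∑ x ∈ Ioc b s, (y k i x : ℝ) := by
      intro k _
      rw [← hy5 k a b ha hb]
      push_cast
      rfl
    rw [sum_congr rfl e2, sum_comm]
    apply sum_congr rfl
    intro i _
    rw [sum_comm]
  rw [e1, L5.Fb_eq, Nat.cast_sum, ← sum_sub_distrib]
  apply sum_congr rfl
  intro i hi'
  rw [Nat.cast_sum, ← sum_sub_distrib]
  apply sum_congr rfl
  intro x hx
  rw [mem_Ioc] at hi' hx
  by_cases hix : i + x ≤ s + 1
  · rw [hcell i x (by omega) (by omega) hix, if_pos hix]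
    push_cast
    ring
  · rw [if_neg hix]
    have e3 : ∑ t ∈ range p, X (i, x, t) = 0 := by
      apply sum_eq_zero
      intro t _
      apply hX0
      unfold LE
      simp only
      omega
    have e4 : ∑ k ∈ A, (y k i x : ℝ) = 0 := by
      apply sum_eq_zero
      intro k _
      by_contra hne
      have := hy1 k i x (fun h => hne (by rw [h]; simp))
      omega
    rw [e3, e4]
    simp

/-- the corner of the real table -/
lemma corner_le (X : ℕ × ℕ × ℕ → ℝ) (Y : ℕ → ℕ → ℝ) (hX : TS s g h al K0 p lo hi sig X Y)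
    {a b : ℕ} :
    ∑ i ∈ Ioc a s, ∑ x ∈ Ioc b s, ∑ t ∈ range p, X (i, x, t) ≤ (Fb s g h a b : ℝ) := by
  rw [L5.Fb_eq, Nat.cast_sum]
  apply sum_le_sum
  intro i hi'
  rw [Nat.cast_sum]
  apply sum_le_sum
  intro x hx
  rw [mem_Ioc] at hi' hx
  by_cases hix : i + x ≤ s + 1
  · rw [if_pos hix]
    have h1 := hX.cell i x (by omega) (by omega) hix
    have h2 := hX.tnonneg i x
    push_cast
    linarith
  · rw [if_neg hix]
    have e3 : ∑ t ∈ range p, X (i, x, t) = 0 := by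
      apply sum_eq_zero
      intro t _
      apply hX.supp
      unfold LE
      simp only
      omega
    rw [e3]
    simp

end L28

/-- M28 (file L28): from the real tables with large entries on the support to integral tables;
the hypothesis `hC` is the statement of `thick_int` for the number `p`. -/
theorem int_tables (s R : ℕ) (hs : 0 < s) (hR : 0 < R) (p : ℕ) (C : ℝ) (hC0 : 0 ≤ C)
    (hC : ∀ Z : Finset (ℕ × ℕ × ℕ), ZP s p Z →
    ∀ (D : ℕ × ℕ × ℕ → ℕ) (D0 : ℕ → ℕ → ℕ) (dm dp : ℕ → ℕ → ℕ → ℕ),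
    (∀ a b j, (a, b, j) ∈ Z → D (a, b, j) = D0 a b + dm a b j + dp a b j) →
    (∀ a b j, dm a b (j + 1) ≤ dm a b j) → (∀ a b j, dp a b j ≤ dp a b (j + 1)) →
    (∀ a b j, (a, b, j) ∈ Z → (a, b, j + 1) ∉ Z → dm a b j = 0) →
    (∀ a b, a + b < s → (a, b, 0) ∈ Z → dp a b 0 = 0) →
    (∀ a b j, a + b < s → (a, b, j) ∉ Z → (a, b, j + 1) ∈ Z → dp a b (j + 1) = 0) →
    (∀ a b, a + b = s → D0 a b = 0 ∧ ∀ j, dm a b j = 0) →
    D (0, 0, p - 1) = 0 →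
    ∀ X : ℕ × ℕ × ℕ → ℝ, (∀ v, ¬ LE s p v → X v = 0) →
    (∀ a b, ∑ t ∈ range p, X (a, b, t) ∈ ZG) →
    (∀ a t, ∑ b ∈ range (s + 1), X (a, b, t) ∈ ZG) →
    (∀ b t, ∑ a ∈ range (s + 1), X (a, b, t) ∈ ZG) →
    (∀ c ∈ Z, ∑ v ∈ LBox s p, (if Oct c v then X v else 0) = D c) →
    ∀ δ ε : ℝ, (∀ v, LE s p v → ¬ LS s p Z v → |X v| ≤ δ) → (∀ c ∈ Z, (D c : ℝ) ≤ δ) →
    (∀ v, LS s p Z v → ε ≤ X v) → C * (δ + 1) ≤ ε →
    ∃ z : ℕ × ℕ × ℕ → ℕ, (∀ v, ¬ LE s p v → z v = 0) ∧ SameLines s p (fun v => (z v : ℝ)) X)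
    (g h al : ℕ → ℕ) (N : ℕ) (η ψ : ℝ) (K0 : ℕ) (lo hi sig : ℕ → ℕ) (hN : 0 < N)
    (hg : Comp s R N g) (hh : Comp s R N h) (hal : IsAl s g h al)
    (hK0 : K0 = max (cs g s) (cs h s)) (hη : 0 < η) (hη1 : η ≤ 1) (hψ : 0 ≤ ψ)
    (hψη : 4 * ((s : ℝ) * R + 1) * ψ < η) (hTD : TD s g h al N η ψ K0 p lo hi sig)
    (X : ℕ × ℕ × ℕ → ℝ) (Y : ℕ → ℕ → ℝ) (hX : TS s g h al K0 p lo hi sig X Y) (ε : ℝ)
    (hε : ∀ v, LS s p (ZD s g h al N ψ p hi) v → ε ≤ X v)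
    (hbig : C * ((1 + 2 * ((s : ℝ) * R)) * ψ * (N : ℝ) ^ 2 + 1) + R * ψ * (N : ℝ) ^ 2 ≤ ε) :
    ∃ (z : ℕ × ℕ × ℕ → ℕ) (y : ℕ → ℕ → ℕ → ℕ),
      (∀ i x, 1 ≤ i → 1 ≤ x → s + 1 < i + x → (∀ j, z (i, x, j) = 0) ∧ ∀ k, y k i x = 0) ∧
      (∀ i x, 1 ≤ i → 1 ≤ x → i + x ≤ s + 1 →
        ∑ j ∈ range p, z (i, x, j) + ∑ k ∈ Thin K0 p lo hi, y k i x = g i * h x) ∧
      (∀ i j, 1 ≤ i → i ≤ s → j < p → ∑ x ∈ Icc 1 s, z (i, x, j) ≤ g i * (hi j - lo j)) ∧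
      (∀ x j, 1 ≤ x → x ≤ s → j < p → ∑ i ∈ Icc 1 s, z (i, x, j) ≤ h x * (hi j - lo j)) ∧
      (∀ j, j < p → ∑ i ∈ Icc 1 s, ∑ x ∈ Icc 1 s, z (i, x, j) = al (hi j) - al (lo j)) ∧
      (∀ k i, k ∈ Thin K0 p lo hi → 1 ≤ i → i ≤ s → ∑ x ∈ Icc 1 s, y k i x ≤ g i) ∧
      (∀ k x, k ∈ Thin K0 p lo hi → 1 ≤ x → x ≤ s → ∑ i ∈ Icc 1 s, y k i x ≤ h x) ∧
      (∀ k, k ∈ Thin K0 p lo hi → ∑ i ∈ Icc 1 s, ∑ x ∈ Icc 1 s, y k i x = al k - al (k - 1)) := by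
  classical
  choose y hy1 hy2 hy3 hy4 hy5 using fun k => thin_table s g h (al k - al (k - 1))
    (fun a b ha hb hab => L28.tk_le hal k a b ha hb hab)
  obtain ⟨x0, xc, xr, xk, xt, z1, z2, z3, xU⟩ := L28.X1_lines s R N g h al η ψ K0 p lo hi sig
    hg hh (L5.al_mono hal) hTD X Y hX y hy1 hy2 hy3 hy4
  have hZP := zp_of_td s R hs g h al N η ψ K0 p lo hi sig hN hg hh hal hK0 hη hη1 hψ hψη hTD
  set A := Thin K0 p lo hi with hA
  set V := L28.U s g h A y with hV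
  set X' := L28.X1 X Y V with hX'
  set Z := ZD s g h al N ψ p hi with hZ
  let D : ℕ × ℕ × ℕ → ℕ := fun v => L28.d0 s g h al K0 v.1 v.2.1 +
    L28.dm g h p lo hi sig v.1 v.2.1 v.2.2 + L28.dp g h lo hi sig v.1 v.2.1 v.2.2
  have hs1 : (1 : ℝ) ≤ s := by exact_mod_cast hs
  have hR1 : (1 : ℝ) ≤ R := by exact_mod_cast hR
  have hRs : (R : ℝ) ≤ (s : ℝ) * R := by nlinarith
  have hq : 0 ≤ ψ * (N : ℝ) ^ 2 := by positivity
  have hq2 : (R : ℝ) * (ψ * (N : ℝ) ^ 2) ≤ ((s : ℝ) * R) * (ψ * (N : ℝ) ^ 2) :=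
    mul_le_mul_of_nonneg_right hRs hq
  have hq3 : 0 ≤ ((s : ℝ) * R) * (ψ * (N : ℝ) ^ 2) := by positivity
  have hX1 : ∀ v, |X' v - X v| ≤ R * ψ * (N : ℝ) ^ 2 := by
    intro v
    have h1 : X' v - X v = if v.2.2 = 0 then Y v.1 v.2.1 - V v.1 v.2.1 else 0 := by
      rw [hX']
      unfold L28.X1
      ring
    rw [h1]
    by_cases h2 : v.2.2 = 0
    · rw [if_pos h2]
      exact xU v.1 v.2.1
    · rw [if_neg h2, abs_zero]
      positivity
  have hDδ : ∀ c ∈ Z, (D c : ℝ) ≤ (1 + 2 * ((s : ℝ) * R)) * ψ * (N : ℝ) ^ 2 := by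
    rintro ⟨a, b, j⟩ hc
    rw [hZ, L28.mem_ZD] at hc
    obtain ⟨⟨ha, hb, hj⟩, h1⟩ := hc
    have h2 := L28.D_le hal hTD ha hb hj
    have h3 : (D (a, b, j) : ℝ) = ((L28.d0 s g h al K0 a b + L28.dm g h p lo hi sig a b j +
      L28.dp g h lo hi sig a b j : ℕ) : ℝ) := rfl
    rw [h3]
    nlinarith
  have hOct : ∀ c ∈ Z, ∑ v ∈ LBox s p, (if Oct c v then X' v else 0) = D c := by
    rintro ⟨a, b, j⟩ hc
    rw [hZ, L28.mem_ZD] at hc
    obtain ⟨⟨ha, hb, hj⟩, h1⟩ := hc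
    have h3 : (D (a, b, j) : ℝ) = ((L28.d0 s g h al K0 a b + L28.dm g h p lo hi sig a b j +
      L28.dp g h lo hi sig a b j : ℕ) : ℝ) := rfl
    rw [h3, L28.W_eq hal hTD ha hb hj, L28.oct_lines X' x0 xr xk xt ha hb hj,
      L28.corner_eq X' A y x0 hy1 hy5 xc ha hb]
    ring
  have hXδ : ∀ v, LE s p v → ¬ LS s p Z v →
      |X' v| ≤ (1 + 2 * ((s : ℝ) * R)) * ψ * (N : ℝ) ^ 2 := by
    intro v hv hv'
    have h1 : ∃ c ∈ Z, Oct c v := by
      by_contra h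
      push Not at h
      exact hv' ⟨hv, h⟩
    obtain ⟨⟨a, b, j⟩, hc, hcv⟩ := h1
    rw [hZ, L28.mem_ZD] at hc
    obtain ⟨⟨ha, hb, hj⟩, h2⟩ := hc
    have h3 : X v ≤ ∑ v ∈ LBox s p, (if Oct (a, b, j) v then X v else 0) := by
      have h5 := Finset.single_le_sum (f := fun v => if Oct (a, b, j) v then X v else 0)
        (fun w _ => by
          by_cases hw : Oct (a, b, j) w
          · simp only [if_pos hw]
            exact hX.nonneg w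
          · simp only [if_neg hw]
            exact le_rfl) (L2.LE_mem hv)
      simp only [if_pos hcv] at h5
      exact h5
    rw [L28.oct_lines X hX.supp hX.row hX.col hX.tot ha hb hj] at h3
    have h4 := L28.corner_le X Y hX (a := a) (b := b)
    have h5 := L28.E_le hg hal hTD (a := a) (b := b) hj
    have h6 : X v ≤ ψ * (N : ℝ) ^ 2 + ψ * N * ((s : ℝ) * R * N) := by linarith
    have h7 := hX.nonneg v
    have h8 := abs_le.1 (hX1 v)
    rw [abs_le]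
    constructor <;> nlinarith [h8.1, h8.2]
  have hXε : ∀ v, LS s p Z v → ε - R * ψ * (N : ℝ) ^ 2 ≤ X' v := by
    intro v hv
    have h1 := hε v hv
    have h8 := (abs_le.1 (hX1 v)).1
    linarith
  obtain ⟨z, hz0, hz1, hz2, hz3⟩ := hC Z hZP D (L28.d0 s g h al K0) (L28.dm g h p lo hi sig)
    (L28.dp g h lo hi sig) (fun a b j _ => rfl) (fun a b j => L28.dm_mono a b j)
    (fun a b j => L28.dp_mono a b j)
    (fun a b j h1 h2 => L28.dm_end hg hh hal hN hη hψ hψη hTD h1 h2)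
    (fun a b hab h1 => L28.dp_zero_start hg hh hal hN hη1 hψ hψη hTD hab h1)
    (fun a b j _ h1 h2 => L28.dp_start hg hh hal hN hη hψ hψη hTD h1 h2)
    (fun a b hab => L28.diag_zero hal hTD hab)
    (L28.corner_zero hal hTD hK0) X' x0 z1 z2 z3 hOct _ _ hXδ hDδ hXε (by linarith)
  refine ⟨z, y, ?_, ?_, ?_, ?_, ?_, ?_, ?_, ?_⟩
  · intro i x hi' hx hix
    constructor
    · intro j
      apply hz0
      unfold LE
      simp only
      omega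
    · intro k
      by_contra hne
      have := hy1 k i x hne
      omega
  · intro i x hi' hx hix
    have h1 := hz1 i x
    rw [xc i x hi' hx hix] at h1
    have h2 : ((∑ j ∈ range p, z (i, x, j) + ∑ k ∈ A, y k i x : ℕ) : ℝ) =
        ((g i * h x : ℕ) : ℝ) := by
      push_cast
      linarith
    exact_mod_cast h2
  · intro i j hi' his hj
    have h1 := hz2 i j
    rw [xr i j hi' his hj] at h1
    have h2 : ∑ x ∈ range (s + 1), z (i, x, j) = g i * (hi j - lo j) := by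
      have h3 : ((∑ x ∈ range (s + 1), z (i, x, j) : ℕ) : ℝ) =
          ((g i * (hi j - lo j) : ℕ) : ℝ) := by
        push_cast
        rw [Nat.cast_sub (hTD.lohi j hj).le]
        linarith
      exact_mod_cast h3
    rw [← h2]
    exact sum_le_sum_of_subset (fun x hx => L28.icc_sub s x hx)
  · intro x j hx hxs hj
    have h1 := hz3 x j
    rw [xk x j hx hxs hj] at h1
    have h2 : ∑ i ∈ range (s + 1), z (i, x, j) = h x * (hi j - lo j) := by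
      have h3 : ((∑ i ∈ range (s + 1), z (i, x, j) : ℕ) : ℝ) =
          ((h x * (hi j - lo j) : ℕ) : ℝ) := by
        push_cast
        rw [Nat.cast_sub (hTD.lohi j hj).le]
        linarith
      exact_mod_cast h3
    rw [← h2]
    exact sum_le_sum_of_subset (fun x hx => L28.icc_sub s x hx)
  · intro j hj
    have e1 : ∑ i ∈ Icc 1 s, ∑ x ∈ Icc 1 s, (z (i, x, j) : ℝ) =
        ∑ i ∈ Icc 1 s, ∑ x ∈ Icc 1 s, X' (i, x, j) := by
      have f1 : ∀ i, ∑ x ∈ Icc 1 s, (z (i, x, j) : ℝ) =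
          ∑ x ∈ range (s + 1), (z (i, x, j) : ℝ) - z (i, 0, j) := by
        intro i
        rw [L28.rng]
        ring
      have f2 : ∀ i, ∑ x ∈ Icc 1 s, X' (i, x, j) =
          ∑ x ∈ range (s + 1), X' (i, x, j) - X' (i, 0, j) := by
        intro i
        rw [L28.rng]
        ring
      have f3 : ∑ i ∈ Icc 1 s, (z (i, 0, j) : ℝ) = ∑ i ∈ Icc 1 s, X' (i, 0, j) := by
        have h1 := hz3 0 j
        have h00 : ¬ LE s p (0, 0, j) := by
          unfold LE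
          simp
        rw [L28.rng, L28.rng s (fun i => X' (i, 0, j))] at h1
        simp only at h1
        rw [hz0 _ h00, x0 _ h00] at h1
        push_cast at h1
        linarith
      rw [sum_congr rfl (fun i _ => f1 i), sum_congr rfl (fun i _ => f2 i), sum_sub_distrib,
        sum_sub_distrib, f3]
      congr 1
      apply sum_congr rfl
      intro i _
      exact hz2 i j
    rw [xt j hj] at e1
    have h1 := hTD.lin j hj (hi j) (hTD.lohi j hj).le le_rfl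
    have h3 : ((∑ i ∈ Icc 1 s, ∑ x ∈ Icc 1 s, z (i, x, j) : ℕ) : ℝ) =
        ((sig j * (hi j - lo j) : ℕ) : ℝ) := by
      push_cast
      rw [Nat.cast_sub (hTD.lohi j hj).le]
      exact e1
    have h4 : ∑ i ∈ Icc 1 s, ∑ x ∈ Icc 1 s, z (i, x, j) = sig j * (hi j - lo j) := by
      exact_mod_cast h3
    omega
  · intro k i _ hi' his
    exact hy2 k i hi' his
  · intro k x _ hx hxs
    exact hy3 k x hx hxs
  · intro k _
    exact hy4 k

end Pool.MP_d56194_co
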