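import Mathlib
import Pool.Agent.Lib.MP_d56194_co.L.L11
import Pool.Agent.Lib.MP_d56194_co.L.L18
import Pool.Agent.Lib.MP_d56194_co.L.L20
import Pool.Agent.Lib.MP_d56194_co.L.L19

set_option autoImplicit false

namespace Pool.MP_d56194_co

open Finset Real

/-- The lower bound for the entries on the support. -/
noncomputable def eps (s R p : ℕ) (η : ℝ) : ℝ :=
  min (η * den s R η) (η ^ 2 / (4 * ((s : ℝ) * R) ^ 2)) / 2 ^ (2 * (s + 1) * p)

theorem eps_pos (s R p : ℕ) (hs : 0 < s) (hR : 0 < R) (η : ℝ) (hη : 0 < η) :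
    0 < eps s R p η := by
  unfold eps
  have h1 : (0 : ℝ) < s := by exact_mod_cast hs
  have h2 : (0 : ℝ) < R := by exact_mod_cast hR
  have h3 := den_pos s R hs hR η
  apply div_pos
  · apply lt_min
    · exact mul_pos hη h3
    · positivity
  · positivity

/-- M29: real tables which are large on the whole support. -/
theorem real_some (s R : ℕ) (hs : 0 < s) (hR : 0 < R) (g h al lam : ℕ → ℕ) (N : ℕ) (η ψ : ℝ)
    (K0 p : ℕ) (lo hi sig : ℕ → ℕ) (hN : 0 < N) (hg : Comp s R N g) (hh : Comp s R N h)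
    (hal : IsAl s g h al) (hK0 : K0 = max (cs g s) (cs h s)) (hS : Shp s g h lam)
    (hanti : Antitone lam) (hlam : ∀ i, lam i ≤ cs h s)
    (hη : 0 < η) (hη1 : η ≤ 1) (hψ : 0 ≤ ψ) (hψη : 4 * ((s : ℝ) * R + 1) * ψ < η)
    (hηN : 2 ≤ η * N) (hTD : TD s g h al N η ψ K0 p lo hi sig) :
    ∃ (X : ℕ × ℕ × ℕ → ℝ) (Y : ℕ → ℕ → ℝ), TS s g h al K0 p lo hi sig X Y ∧
      ∀ v, LS s p (ZD s g h al N ψ p hi) v → eps s R p η * (N : ℝ) ^ 2 ≤ X v := by
  classical
  obtain ⟨q, M, S, be, L, hq, hM, hF, hL, hreg⟩ := real_raw s R hs hR g h al lam N η ψ K0 p lo hi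
    sig hN hg hh hal hK0 hS hanti hlam hη hη1 hψ hψη hηN hTD
  have hTS := ts_of_sol s R hs g h al lam N η ψ K0 p lo hi sig hN hg hh hal hK0 hS hTD q M hq hM
    S be hF L hL
  obtain ⟨hrow, hcol⟩ := slack_dir s R hs g h al lam N η ψ K0 p lo hi sig hN hg hh hal hK0 hS
    hη hη1 hψ hψη hTD q M hq hM S be hF L hL
  set ε : ℝ := min (η * den s R η) (η ^ 2 / (4 * ((s : ℝ) * R) ^ 2)) * (N : ℝ) ^ 2 with hε
  have hNR : (0 : ℝ) < N := by exact_mod_cast hN
  have h1 : (0 : ℝ) < s := by exact_mod_cast hs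
  have h2 : (0 : ℝ) < R := by exact_mod_cast hR
  have h3 := den_pos s R hs hR η
  have hε0 : 0 < ε := by
    apply mul_pos _ (by positivity)
    apply lt_min
    · exact mul_pos hη h3
    · positivity
  have hle1 : ε ≤ η * den s R η * (N : ℝ) ^ 2 :=
    mul_le_mul_of_nonneg_right (min_le_left _ _) (by positivity)
  have hle2 : ε ≤ η ^ 2 / (4 * ((s : ℝ) * R) ^ 2) * (N : ℝ) ^ 2 :=
    mul_le_mul_of_nonneg_right (min_le_right _ _) (by positivity)
  obtain ⟨X', hX', hbig⟩ := slack_induction s g h al K0 p lo hi sig (ZD s g h al N ψ p hi)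
    (XS s q p g h lo hi L) (YS s q K0 p g h lo hi L) ε hε0 hs hTD.ppos
    (by
      intro c hc
      unfold ZD at hc
      have h4 := (Finset.mem_filter.mp hc).1
      unfold LBox at h4
      rw [Finset.mem_product, Finset.mem_product, Finset.mem_range, Finset.mem_range,
        Finset.mem_range] at h4
      omega)
    hTS (fun i x j hi hx hv => hle1.trans (hreg i x j hi hx hv))
    (fun i j hv hd => hle2.trans (hrow i j hv hd))
    (fun x j hv hd => hle2.trans (hcol x j hv hd))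
  refine ⟨X', _, hX', ?_⟩
  intro v hv
  have h4 := hbig v hv
  have h5 : eps s R p η * (N : ℝ) ^ 2 = ε / 2 ^ (2 * (s + 1) * p) := by
    rw [hε]
    unfold eps
    ring
  rw [h5]
  exact h4

end Pool.MP_d56194_co
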