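import Mathlib
import Pool.Agent.Lib.MP_d56194_co.J.J6
import Pool.Agent.Lib.MP_d56194_co.L.L4
import Pool.Agent.Lib.MP_d56194_co.L.L12
import Pool.Agent.Lib.MP_d56194_co.L.L26
import Pool.Agent.Lib.MP_d56194_co.L.L30

set_option autoImplicit false

namespace Pool.MP_d56194_co

open Finset Real

theorem p_bound (s : ℕ) (g h al : ℕ → ℕ) (N : ℕ) (η ψ : ℝ) (K0 p : ℕ)
    (lo hi sig : ℕ → ℕ) (hTD : TD s g h al N η ψ K0 p lo hi sig) : (p : ℝ) * (η * N) ≤ K0 := by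
  have key : ∀ j, j < p → ((j : ℝ) + 1) * (η * N) ≤ hi j := by
    intro j
    induction j with
    | zero =>
      intro hj
      have h1 := hTD.thick 0 hj
      have h2 : (0 : ℝ) ≤ lo 0 := Nat.cast_nonneg _
      push_cast
      linarith
    | succ j ih =>
      intro hj
      have h1 := ih (by omega)
      have h2 := hTD.thick (j + 1) hj
      have h3 : (hi j : ℝ) ≤ lo (j + 1) := by exact_mod_cast hTD.ord j hj
      push_cast
      linarith
  have h1 := key (p - 1) (by have := hTD.ppos; omega)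
  have h2 : (hi (p - 1) : ℝ) ≤ K0 := by exact_mod_cast hTD.last
  have h3 : (((p - 1 : ℕ) : ℝ) + 1) = p := by
    have := hTD.ppos
    have h4 : p - 1 + 1 = p := by omega
    exact_mod_cast h4
  rw [h3] at h1
  linarith

theorem eps_anti (s R p p' : ℕ) (hs : 0 < s) (hR : 0 < R) (η : ℝ) (hη : 0 < η) (hp : p ≤ p') :
    eps s R p' η ≤ eps s R p η := by
  unfold eps
  have h1 : (0 : ℝ) < s := by exact_mod_cast hs
  have h2 : (0 : ℝ) < R := by exact_mod_cast hR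
  have h3 := den_pos s R hs hR η
  apply div_le_div_of_nonneg_left
  · apply le_min
    · exact (mul_pos hη h3).le
    · positivity
  · positivity
  · apply pow_le_pow_right₀ (by norm_num)
    exact Nat.mul_le_mul_left _ hp

/-- The parameters of the construction. -/
theorem exists_params (s R : ℕ) (hs : 0 < s) (hR : 0 < R) : ∃ (C : ℕ → ℝ) (Ψ : ℝ → ℝ)
    (N1 : ℝ → ℕ), (∀ p, 0 ≤ C p) ∧
    (∀ p, ∀ Z : Finset (ℕ × ℕ × ℕ), ZP s p Z →
    ∀ (D : ℕ × ℕ × ℕ → ℕ) (D0 : ℕ → ℕ → ℕ) (dm dp : ℕ → ℕ → ℕ → ℕ),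
    (∀ a b j, (a, b, j) ∈ Z → D (a, b, j) = D0 a b + dm a b j + dp a b j) →
    (∀ a b j, dm a b (j + 1) ≤ dm a b j) → (∀ a b j, dp a b j ≤ dp a b (j + 1)) →
    (∀ a b j, (a, b, j) ∈ Z → (a, b, j + 1) ∉ Z → dm a b j = 0) →
    (∀ a b, a + b < s → (a, b, 0) ∈ Z → dp a b 0 = 0) →
    (∀ a b j, a + b < s → (a, b, j) ∉ Z → (a, b, j + 1) ∈ Z → dp a b (j + 1) = 0) →
    (∀ a b, a + b = s → D0 a b = 0 ∧ ∀ j, dm a b j = 0) →
    D (0, 0, p - 1) = 0 →
    ∀ X : ℕ × ℕ × ℕ → ℝ, (∀ v, ¬ LE s p v → X v = 0) →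
    (∀ a b, ∑ t ∈ range p, X (a, b, t) ∈ ZG) →
    (∀ a t, ∑ b ∈ range (s + 1), X (a, b, t) ∈ ZG) →
    (∀ b t, ∑ a ∈ range (s + 1), X (a, b, t) ∈ ZG) →
    (∀ c ∈ Z, ∑ v ∈ LBox s p, (if Oct c v then X v else 0) = D c) →
    ∀ δ ε : ℝ, (∀ v, LE s p v → ¬ LS s p Z v → |X v| ≤ δ) → (∀ c ∈ Z, (D c : ℝ) ≤ δ) →
    (∀ v, LS s p Z v → ε ≤ X v) → C p * (δ + 1) ≤ ε →
    ∃ z : ℕ × ℕ × ℕ → ℕ, (∀ v, ¬ LE s p v → z v = 0) ∧
      SameLines s p (fun v => (z v : ℝ)) X) ∧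
    (∀ η, 0 < η → 0 < Ψ η) ∧
    ∀ η, 0 < η → η ≤ 1 → 4 * ((s : ℝ) * R + 1) * Ψ η < η ∧
      ∀ N p : ℕ, N1 η ≤ N → (p : ℝ) * η ≤ s * R → 0 < N ∧ 2 ≤ η * N ∧
        C p * ((1 + 2 * ((s : ℝ) * R)) * Ψ η * (N : ℝ) ^ 2 + 1) + R * Ψ η * (N : ℝ) ^ 2 ≤
          eps s R p η * (N : ℝ) ^ 2 := by
  classical
  choose C hC0 hC using fun p => thick_int s p
  have h1 : (0 : ℝ) < s := by exact_mod_cast hs
  have h2 : (0 : ℝ) < R := by exact_mod_cast hR
  set pm : ℝ → ℕ := fun η => ⌊(s : ℝ) * R / η⌋₊ with hpm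
  set Cm : ℝ → ℝ := fun η => ∑ p ∈ range (pm η + 1), C p with hCm
  have hCm0 : ∀ η, 0 ≤ Cm η := fun η => Finset.sum_nonneg (fun p _ => hC0 p)
  set em : ℝ → ℝ := fun η => eps s R (pm η) η with hem
  have hem0 : ∀ η, 0 < η → 0 < em η := fun η hη => eps_pos s R (pm η) hs hR η hη
  have hden : ∀ η, 0 < 2 * (Cm η * (1 + 2 * ((s : ℝ) * R)) + R) := by
    intro η
    have := hCm0 η
    positivity
  refine ⟨C, fun η => min (η / (8 * ((s : ℝ) * R + 1)))
    (em η / (2 * (Cm η * (1 + 2 * ((s : ℝ) * R)) + R))),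
    fun η => max 1 (max ⌈2 / η⌉₊ ⌈2 * Cm η / em η⌉₊), hC0, hC, ?_, ?_⟩
  · intro η hη
    apply lt_min
    · positivity
    · exact div_pos (hem0 η hη) (hden η)
  · intro η hη hη1
    set Ψ := min (η / (8 * ((s : ℝ) * R + 1)))
      (em η / (2 * (Cm η * (1 + 2 * ((s : ℝ) * R)) + R))) with hΨ
    have hΨ0 : 0 < Ψ := by
      apply lt_min
      · positivity
      · exact div_pos (hem0 η hη) (hden η)
    constructor
    · have h3 : Ψ ≤ η / (8 * ((s : ℝ) * R + 1)) := min_le_left _ _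
      have h4 : 4 * ((s : ℝ) * R + 1) * Ψ ≤ 4 * ((s : ℝ) * R + 1) * (η / (8 * ((s : ℝ) * R + 1))) :=
        mul_le_mul_of_nonneg_left h3 (by positivity)
      have h5 : 4 * ((s : ℝ) * R + 1) * (η / (8 * ((s : ℝ) * R + 1))) = η / 2 := by
        field_simp
        ring
      linarith
    · intro N p hN hp
      have hN1 : 1 ≤ N := (le_max_left _ _).trans hN
      have hN2 : ⌈2 / η⌉₊ ≤ N := ((le_max_left _ _).trans (le_max_right _ _)).trans hN
      have hN3 : ⌈2 * Cm η / em η⌉₊ ≤ N := ((le_max_right _ _).trans (le_max_right _ _)).trans hN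
      have hNR : (1 : ℝ) ≤ N := by exact_mod_cast hN1
      have g1 : 2 / η ≤ N := (Nat.le_ceil _).trans (by exact_mod_cast hN2)
      have g2 : 2 * Cm η / em η ≤ N := (Nat.le_ceil _).trans (by exact_mod_cast hN3)
      have hp' : p ≤ pm η := by
        apply Nat.le_floor
        rw [le_div_iff₀ hη]
        exact hp
      have hCp : C p ≤ Cm η := by
        apply Finset.single_le_sum (f := C) (fun p _ => hC0 p)
        rw [Finset.mem_range]
        omega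
      have hep : em η ≤ eps s R p η := eps_anti s R p (pm η) hs hR η hη hp'
      refine ⟨hN1, ?_, ?_⟩
      · rw [div_le_iff₀ hη] at g1
        linarith
      · have g3 : 2 * Cm η ≤ N * em η := by
          rw [div_le_iff₀ (hem0 η hη)] at g2
          exact g2
        have g4 : Ψ * (2 * (Cm η * (1 + 2 * ((s : ℝ) * R)) + R)) ≤ em η := by
          rw [← le_div_iff₀ (hden η)]
          exact min_le_right _ _
        have g5 : (N : ℝ) ≤ (N : ℝ) ^ 2 := by nlinarith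
        have g6 : 2 * Cm η ≤ (N : ℝ) ^ 2 * em η :=
          g3.trans (mul_le_mul_of_nonneg_right g5 (hem0 η hη).le)
        have g7 : C p * ((1 + 2 * ((s : ℝ) * R)) * Ψ * (N : ℝ) ^ 2 + 1) ≤
            Cm η * ((1 + 2 * ((s : ℝ) * R)) * Ψ * (N : ℝ) ^ 2 + 1) := by
          apply mul_le_mul_of_nonneg_right hCp
          positivity
        have g8 : em η * (N : ℝ) ^ 2 ≤ eps s R p η * (N : ℝ) ^ 2 :=
          mul_le_mul_of_nonneg_right hep (by positivity)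
        have g9 : Ψ * (2 * (Cm η * (1 + 2 * ((s : ℝ) * R)) + R)) * (N : ℝ) ^ 2 ≤
            em η * (N : ℝ) ^ 2 := mul_le_mul_of_nonneg_right g4 (by positivity)
        have g10 : Cm η * ((1 + 2 * ((s : ℝ) * R)) * Ψ * (N : ℝ) ^ 2 + 1) +
            R * Ψ * (N : ℝ) ^ 2 = Ψ * (2 * (Cm η * (1 + 2 * ((s : ℝ) * R)) + R)) *
              (N : ℝ) ^ 2 / 2 + Cm η := by ring
        linarith
end Pool.MP_d56194_co
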