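import Mathlib
import Pool.Agent.Lib.MP_d56194_co.L.L24
import Pool.Agent.Lib.MP_d56194_co.L.L25
import Pool.Agent.Lib.MP_d56194_co.L.L27
import Pool.Agent.Lib.MP_d56194_co.L.L28
import Pool.Agent.Lib.MP_d56194_co.L.L31

set_option autoImplicit false

namespace Pool.MP_d56194_co

open Finset Real

theorem bnd_cs32 (s : ℕ) (g : ℕ → ℕ) (hg : ∀ i, 1 ≤ i → i ≤ s → 0 < g i) :
    Bnd (cs g s) (cs g) s where
  zero := L5.cs_zero g
  step := by
    intro k hk
    rw [L5.cs_succ]
    have := hg (k + 1) (by omega) (by omega)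
    omega
  last := rfl

theorem sum_range_Icc (s : ℕ) (f : ℕ → ℕ) : ∑ b ∈ range s, f (b + 1) = ∑ x ∈ Icc 1 s, f x := by
  rw [Finset.range_eq_Ico, Finset.sum_Ico_add' f 0 s 1]
  congr 1

theorem card_label (M s : ℕ) (g : ℕ → ℕ) (hg : ∀ i, 1 ≤ i → i ≤ s → 0 < g i)
    (hM : cs g s = M) (a : ℕ) (ha : a < s) :
    (range M).filter (fun r => bk (cs g) s r = a) = Ico (cs g a) (cs g (a + 1)) := by
  have hB := bnd_cs32 s g hg
  ext r
  rw [Finset.mem_filter, Finset.mem_range, Finset.mem_Ico]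
  constructor
  · rintro ⟨h1, h2⟩
    obtain ⟨k, hk, h3, h4⟩ := L8.exists_block hB (r := r) (by omega)
    rw [L8.bk_eq hB hk h3 h4] at h2
    subst h2
    exact ⟨h3, h4⟩
  · rintro ⟨h1, h2⟩
    refine ⟨?_, L8.bk_eq hB ha h1 h2⟩
    have := L5.cs_mono g (show a + 1 ≤ s by omega)
    omega

/-- the cells with given labels -/
theorem cells_label (μ : YoungDiagram) (s : ℕ) (g h : ℕ → ℕ)
    (hg : ∀ i, 1 ≤ i → i ≤ s → 0 < g i) (hh : ∀ i, 1 ≤ i → i ≤ s → 0 < h i)
    (hS : Shp s g h μ.rowLen) (hm : cs g s = μ.colLen 0) (hn : cs h s = μ.rowLen 0)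
    (a b : ℕ) (ha : a < s) (hb : b < s) :
    (univ.filter (fun e : μ.cells => bk (cs g) s e.1.1 = a ∧ bk (cs h) s e.1.2 = b)).card =
      if a + b + 1 ≤ s then g (a + 1) * h (b + 1) else 0 := by
  classical
  have hBg := bnd_cs32 s g hg
  have hBh := bnd_cs32 s h hh
  have e0 : (univ.filter (fun e : μ.cells => bk (cs g) s e.1.1 = a ∧
      bk (cs h) s e.1.2 = b)).card =
      (μ.cells.filter (fun v => bk (cs g) s v.1 = a ∧ bk (cs h) s v.2 = b)).card := by
    rw [← Finset.card_image_of_injective _ Subtype.val_injective]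
    congr 1
    ext v
    simp only [Finset.mem_image, Finset.mem_filter, Finset.mem_univ, true_and]
    constructor
    · rintro ⟨e, he, rfl⟩
      exact ⟨e.2, he⟩
    · rintro ⟨h1, h2⟩
      exact ⟨⟨v, h1⟩, h2, rfl⟩
  rw [e0]
  have hlab : ∀ v ∈ μ.cells, (bk (cs g) s v.1 = a ↔ cs g a ≤ v.1 ∧ v.1 < cs g (a + 1)) ∧
      (bk (cs h) s v.2 = b ↔ cs h b ≤ v.2 ∧ v.2 < cs h (b + 1)) := by
    intro v hv
    obtain ⟨c1, c2, _⟩ := cell_lt μ v hv
    constructor
    · have h1 : v.1 ∈ (range (μ.colLen 0)).filter (fun r => bk (cs g) s r = a) ↔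
          v.1 ∈ Ico (cs g a) (cs g (a + 1)) := by rw [card_label _ s g hg hm a ha]
      rw [Finset.mem_filter, Finset.mem_range, Finset.mem_Ico] at h1
      rw [← h1]
      tauto
    · have h1 : v.2 ∈ (range (μ.rowLen 0)).filter (fun r => bk (cs h) s r = b) ↔
          v.2 ∈ Ico (cs h b) (cs h (b + 1)) := by rw [card_label _ s h hh hn b hb]
      rw [Finset.mem_filter, Finset.mem_range, Finset.mem_Ico] at h1
      rw [← h1]
      tauto
  by_cases hab : a + b + 1 ≤ s
  · rw [if_pos hab]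
    have h1 : μ.cells.filter (fun v => bk (cs g) s v.1 = a ∧ bk (cs h) s v.2 = b) =
        Ico (cs g a) (cs g (a + 1)) ×ˢ Ico (cs h b) (cs h (b + 1)) := by
      ext v
      rw [Finset.mem_filter, Finset.mem_product, Finset.mem_Ico, Finset.mem_Ico]
      constructor
      · rintro ⟨h2, h3, h4⟩
        exact ⟨(hlab v h2).1.mp h3, (hlab v h2).2.mp h4⟩
      · rintro ⟨h2, h3⟩
        have h4 : v ∈ μ.cells := by
          obtain ⟨r, c⟩ := v
          rw [YoungDiagram.mem_cells]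
          apply YoungDiagram.mem_iff_lt_rowLen.mpr
          rw [hS.blk a r ha h2.1 h2.2]
          have := L5.cs_mono h (show b + 1 ≤ s - a by omega)
          simp only at h3
          omega
        exact ⟨h4, (hlab v h4).1.mpr h2, (hlab v h4).2.mpr h3⟩
    rw [h1, Finset.card_product, Nat.card_Ico, Nat.card_Ico, L5.cs_succ, L5.cs_succ]
    congr 1 <;> omega
  · rw [if_neg hab, Finset.card_eq_zero, Finset.filter_eq_empty_iff]
    rintro v hv ⟨h1, h2⟩
    have h3 := (hlab v hv).1.mp h1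
    have h4 := (hlab v hv).2.mp h2
    obtain ⟨_, _, c3⟩ := cell_lt μ v hv
    rw [hS.blk a v.1 ha h3.1 h3.2] at c3
    have := L5.cs_mono h (show s - a ≤ b by omega)
    omega

/-- From the integral tables to the colouring. -/
theorem cds_of_int (μ : YoungDiagram) (s R : ℕ) (hs : 0 < s) (g h : ℕ → ℕ) (N : ℕ) (hN : 0 < N)
    (hg : Comp s R N g) (hh : Comp s R N h) (hS : Shp s g h μ.rowLen) (hS' : Shp s h g μ.colLen)
    (hm : cs g s = μ.colLen 0) (hn : cs h s = μ.rowLen 0) (η ψ : ℝ) (p : ℕ)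
    (lo hi sig : ℕ → ℕ) (hηN : 2 ≤ η * N) (al : ℕ → ℕ)
    (hal : al = gcut (μ.colLen 0) μ.rowLen) (hIs : IsAl s g h al)
    (hTD : TD s g h al N η ψ (max (cs g s) (cs h s)) p lo hi sig)
    (z : ℕ × ℕ × ℕ → ℕ) (y : ℕ → ℕ → ℕ → ℕ)
    (z0 : ∀ i x, 1 ≤ i → 1 ≤ x → s + 1 < i + x → (∀ j, z (i, x, j) = 0) ∧ ∀ k, y k i x = 0)
    (z1 : ∀ i x, 1 ≤ i → 1 ≤ x → i + x ≤ s + 1 →
      ∑ j ∈ range p, z (i, x, j) + ∑ k ∈ Thin (max (cs g s) (cs h s)) p lo hi, y k i x =
        g i * h x)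
    (z2 : ∀ i j, 1 ≤ i → i ≤ s → j < p → ∑ x ∈ Icc 1 s, z (i, x, j) ≤ g i * (hi j - lo j))
    (z3 : ∀ x j, 1 ≤ x → x ≤ s → j < p → ∑ i ∈ Icc 1 s, z (i, x, j) ≤ h x * (hi j - lo j))
    (z4 : ∀ j, j < p → ∑ i ∈ Icc 1 s, ∑ x ∈ Icc 1 s, z (i, x, j) = al (hi j) - al (lo j))
    (y2 : ∀ k i, k ∈ Thin (max (cs g s) (cs h s)) p lo hi → 1 ≤ i → i ≤ s →
      ∑ x ∈ Icc 1 s, y k i x ≤ g i)
    (y3 : ∀ k x, k ∈ Thin (max (cs g s) (cs h s)) p lo hi → 1 ≤ x → x ≤ s →
      ∑ i ∈ Icc 1 s, y k i x ≤ h x)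
    (y4 : ∀ k, k ∈ Thin (max (cs g s) (cs h s)) p lo hi →
      ∑ i ∈ Icc 1 s, ∑ x ∈ Icc 1 s, y k i x = al k - al (k - 1)) : CDSColorable μ := by
  classical
  set K0 := max (cs g s) (cs h s) with hK0
  have hgpos : ∀ i, 1 ≤ i → i ≤ s → 0 < g i := fun i h1 h2 => lt_of_lt_of_le hN (hg i h1 h2).1
  have hhpos : ∀ i, 1 ≤ i → i ≤ s → 0 < h i := fun i h1 h2 => lt_of_lt_of_le hN (hh i h1 h2).1
  have hBg := bnd_cs32 s g hgpos
  have hBh := bnd_cs32 s h hhpos
  obtain ⟨T, κ, jj, k0, k1, k2, k3, k4⟩ := phase_list s g h al N η ψ K0 p lo hi sig hTD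
  set Z : ℕ → ℕ → ℕ → ℕ := fun a b φ =>
    if jj φ < p then z (a + 1, b + 1, jj φ) else y (κ φ + 1) (a + 1) (b + 1) with hZ
  have hlan : ∀ r, r < μ.colLen 0 → ∃ k, k < s ∧ cs g k ≤ r ∧ r < cs g (k + 1) ∧
      bk (cs g) s r = k := by
    intro r hr
    obtain ⟨k, hk, h3, h4⟩ := L8.exists_block hBg (r := r) (by omega)
    exact ⟨k, hk, h3, h4, L8.bk_eq hBg hk h3 h4⟩
  have hlbn : ∀ r, r < μ.rowLen 0 → ∃ k, k < s ∧ cs h k ≤ r ∧ r < cs h (k + 1) ∧
      bk (cs h) s r = k := by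
    intro r hr
    obtain ⟨k, hk, h3, h4⟩ := L8.exists_block hBh (r := r) (by omega)
    exact ⟨k, hk, h3, h4, L8.bk_eq hBh hk h3 h4⟩
  have hZ0 : ∀ a b φ, s ≤ a + b → Z a b φ = 0 := by
    intro a b φ hab
    obtain ⟨h1, h2⟩ := z0 (a + 1) (b + 1) (by omega) (by omega) (by omega)
    simp only [hZ]
    split_ifs
    · exact h1 _
    · exact h2 _
  have hcardR : ∀ a, a < s → (rowsL μ (bk (cs g) s) a).card = g (a + 1) := by
    intro a ha
    unfold rowsL
    rw [card_label _ s g hgpos hm a ha, Nat.card_Ico, L5.cs_succ]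
    omega
  have hcardC : ∀ b, b < s → (colsL μ (bk (cs h) s) b).card = h (b + 1) := by
    intro b hb
    unfold colsL
    rw [card_label _ s h hhpos hn b hb, Nat.card_Ico, L5.cs_succ]
    omega
  have hmono : Monotone al := L5.al_mono hIs
  apply cds_of_tables μ s T κ (bk (cs g) s) (bk (cs h) s) Z k0 k1
  · intro r hr
    obtain ⟨k, hk, _, _, h5⟩ := hlan r hr
    omega
  · intro r hr
    obtain ⟨k, hk, _, _, h5⟩ := hlbn r hr
    omega
  · intro i i' hi hi' heq
    obtain ⟨k, hk, h3, h4, h5⟩ := hlan i hi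
    obtain ⟨k', hk', h3', h4', h5'⟩ := hlan i' hi'
    have e : k = k' := by omega
    subst e
    rw [hS.blk k i hk h3 h4, hS.blk k i' hk h3' h4']
  · intro i i' hi hi' heq
    obtain ⟨k, hk, h3, h4, h5⟩ := hlbn i hi
    obtain ⟨k', hk', h3', h4', h5'⟩ := hlbn i' hi'
    have e : k = k' := by omega
    subst e
    rw [hS'.blk k i hk h3 h4, hS'.blk k i' hk h3' h4']
  · intro a b
    by_cases hab : a < s ∧ b < s
    · rw [cells_label μ s g h hgpos hhpos hS hm hn a b hab.1 hab.2]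
      have h1 := k4 (fun j => z (a + 1, b + 1, j)) (fun k => y k (a + 1) (b + 1))
      simp only [hZ]
      rw [h1]
      split_ifs with h2
      · exact z1 (a + 1) (b + 1) (by omega) (by omega) (by omega)
      · obtain ⟨h3, h4⟩ := z0 (a + 1) (b + 1) (by omega) (by omega) (by omega)
        rw [Finset.sum_eq_zero (fun j _ => h3 j), Finset.sum_eq_zero (fun k _ => h4 k),
          Nat.add_zero]
    · rw [Finset.sum_eq_zero (fun j _ => hZ0 a b j (by omega))]
      symm
      rw [Finset.card_eq_zero, Finset.filter_eq_empty_iff]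
      rintro e _ ⟨h1, h2⟩
      obtain ⟨c1, c2, _⟩ := cell_lt μ e.1 e.2
      obtain ⟨k, hk, _, _, h5⟩ := hlan _ c1
      obtain ⟨k', hk', _, _, h5'⟩ := hlbn _ c2
      apply hab
      omega
  · intro a φ hφ
    by_cases ha : a < s
    · rw [hcardR a ha, ]
      have h1 : ∑ b ∈ range s, Z a b φ = ∑ x ∈ Icc 1 s,
          (if jj φ < p then z (a + 1, x, jj φ) else y (κ φ + 1) (a + 1) x) :=
        sum_range_Icc s (fun x => if jj φ < p then z (a + 1, x, jj φ) else
          y (κ φ + 1) (a + 1) x)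
      rw [h1]
      rcases k3 φ hφ with ⟨f1, f2, f3⟩ | ⟨f1, f2, f3⟩
      · simp only [if_pos f1]
        rw [f2, f3]
        exact z2 (a + 1) (jj φ) (by omega) (by omega) f1
      · simp only [if_neg (not_lt.mpr f1)]
        rw [f2]
        have := y2 (κ φ + 1) (a + 1) f3 (by omega) (by omega)
        rw [show κ φ + 1 - κ φ = 1 by omega, Nat.mul_one]
        exact this
    · rw [Finset.sum_eq_zero (fun b _ => hZ0 a b φ (by omega))]
      exact Nat.zero_le _
  · intro b φ hφ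
    by_cases hb : b < s
    · rw [hcardC b hb]
      have h1 : ∑ a ∈ range s, Z a b φ = ∑ x ∈ Icc 1 s,
          (if jj φ < p then z (x, b + 1, jj φ) else y (κ φ + 1) x (b + 1)) :=
        sum_range_Icc s (fun x => if jj φ < p then z (x, b + 1, jj φ) else
          y (κ φ + 1) x (b + 1))
      rw [h1]
      rcases k3 φ hφ with ⟨f1, f2, f3⟩ | ⟨f1, f2, f3⟩
      · simp only [if_pos f1]
        rw [f2, f3]
        exact z3 (b + 1) (jj φ) (by omega) (by omega) f1
      · simp only [if_neg (not_lt.mpr f1)]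
        rw [f2]
        have := y3 (κ φ + 1) (b + 1) f3 (by omega) (by omega)
        rw [show κ φ + 1 - κ φ = 1 by omega, Nat.mul_one]
        exact this
    · rw [Finset.sum_eq_zero (fun a _ => hZ0 a b φ (by omega))]
      exact Nat.zero_le _
  · intro φ hφ
    rw [← hal]
    have h1 : ∑ a ∈ range s, ∑ b ∈ range s, Z a b φ = ∑ i ∈ Icc 1 s, ∑ x ∈ Icc 1 s,
        (if jj φ < p then z (i, x, jj φ) else y (κ φ + 1) i x) := by
      rw [← sum_range_Icc s (fun i => ∑ x ∈ Icc 1 s,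
        (if jj φ < p then z (i, x, jj φ) else y (κ φ + 1) i x))]
      apply Finset.sum_congr rfl
      intro a _
      exact sum_range_Icc s (fun x => if jj φ < p then z (a + 1, x, jj φ) else
          y (κ φ + 1) (a + 1) x)
    rw [h1]
    have h2 := hmono (k1 φ)
    rcases k3 φ hφ with ⟨f1, f2, f3⟩ | ⟨f1, f2, f3⟩
    · simp only [if_pos f1]
      rw [z4 (jj φ) f1, ← f2, ← f3]
      omega
    · simp only [if_neg (not_lt.mpr f1)]
      rw [y4 (κ φ + 1) f3, ← f2]
      rw [show κ (φ + 1) - 1 = κ φ by omega]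
      omega
  · intro k hk
    rw [← hal]
    have hκm : Monotone κ := monotone_nat_of_le_succ k1
    obtain ⟨φ, hφ, h1, h2⟩ : ∃ φ, φ < T ∧ κ φ ≤ k ∧ k < κ (φ + 1) := by
      have hex : ∃ j, k < κ j := ⟨T, hk⟩
      have g1 := Nat.find_spec hex
      have g2 : Nat.find hex ≤ T := Nat.find_min' hex hk
      have g3 : Nat.find hex ≠ 0 := by
        intro h0
        rw [h0, k0] at g1
        omega
      refine ⟨Nat.find hex - 1, by omega, ?_, ?_⟩
      · have g4 := Nat.find_min hex (show Nat.find hex - 1 < Nat.find hex by omega)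
        omega
      · rw [show Nat.find hex - 1 + 1 = Nat.find hex by omega]
        exact g1
    rcases k3 φ hφ with ⟨f1, f2, f3⟩ | ⟨f1, f2, f3⟩
    · set j := jj φ with hj
      have hlen : lo j + 2 ≤ hi j := by
        have g1 := hTD.thick j f1
        have g2 : (2 : ℝ) + lo j ≤ hi j := by linarith
        have g3 : 2 + lo j ≤ hi j := by exact_mod_cast g2
        omega
      have hlin := hTD.lin j f1
      obtain ⟨a, b, ha, hb, hab⟩ := hIs.2 (lo j + 1)
      have c1 := hIs.1 (lo j) a b ha hb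
      have c2 := hIs.1 (lo j + 2) a b ha hb
      have l1 := hlin (lo j + 1) (by omega) (by omega)
      have l2 := hlin (lo j + 2) (by omega) (by omega)
      rw [show lo j + 1 - lo j = 1 by omega] at l1
      rw [show lo j + 2 - lo j = 2 by omega] at l2
      unfold cutb at hab c1 c2
      set SS := cs g a + cs h b with hSS
      have e1 : (lo j + 1) * SS = lo j * SS + SS := by ring
      have e2 : (lo j + 2) * SS = lo j * SS + 2 * SS := by ring
      rw [e1] at hab
      rw [e2] at c2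
      have hSsig : SS = sig j := by omega
      have hlo : al (lo j) = lo j * SS + Fb s g h a b := by omega
      have hgen : ∀ c, lo j ≤ c → c ≤ hi j → al c = c * sig j + Fb s g h a b := by
        intro c hc1 hc2
        rw [hlin c hc1 hc2, hlo, hSsig]
        obtain ⟨d, rfl⟩ : ∃ d, c = lo j + d := ⟨c - lo j, by omega⟩
        rw [show lo j + d - lo j = d by omega]
        ring
      refine ⟨φ, φ + 1, sig j, Fb s g h a b, by omega, by omega, h1, by omega, ?_, ?_, ?_⟩
      · rw [f2]; exact hgen _ le_rfl (by omega)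
      · exact hgen k (by omega) (by omega)
      · rw [f3]; exact hgen _ (by omega) le_rfl
    · refine ⟨φ, φ, 0, al (κ φ), by omega, by omega, h1, by omega, by omega, ?_, by omega⟩
      have : k = κ φ := by omega
      rw [this]
      omega

/-- The Latin tableau conjecture for large multiplicities. -/
theorem large_mult (s R : ℕ) : ∃ N0 : ℕ, ∀ N, N0 ≤ N → ∀ μ : YoungDiagram,
    ((range (μ.colLen 0)).image μ.rowLen).card = s →
    (∀ r, r < μ.colLen 0 →
      N ≤ ((range (μ.colLen 0)).filter (fun r' => μ.rowLen r' = μ.rowLen r)).card ∧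
      ((range (μ.colLen 0)).filter (fun r' => μ.rowLen r' = μ.rowLen r)).card ≤ R * N) →
    (∀ c, c < μ.rowLen 0 →
      N ≤ ((range (μ.rowLen 0)).filter (fun c' => μ.colLen c' = μ.colLen c)).card ∧
      ((range (μ.rowLen 0)).filter (fun c' => μ.colLen c' = μ.colLen c)).card ≤ R * N) →
    CDSColorable μ := by
  classical
  rcases Nat.eq_zero_or_pos s with hs0 | hs
  · refine ⟨0, ?_⟩
    intro N _ μ hcard _ _
    rw [hs0, Finset.card_eq_zero, Finset.image_eq_empty, Finset.range_eq_empty_iff] at hcard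
    have hno : ∀ v ∈ μ.cells, False := by
      intro v hv
      have := (cell_lt μ v hv).1
      omega
    apply cds_of_proper μ (fun _ _ => 0)
    · intro R X X' h1 _ _
      exact (hno (R, X) ((YoungDiagram.mem_cells _).mpr h1)).elim
    · intro R R' X h1 _ _
      exact (hno (R, X) ((YoungDiagram.mem_cells _).mpr h1)).elim
    · intro k _
      left
      intro v hv
      exact (hno v hv).elim
  rcases Nat.eq_zero_or_pos R with hR0 | hR
  · refine ⟨1, ?_⟩
    intro N hN μ hcard hrow _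
    exfalso
    have hne : ((range (μ.colLen 0)).image μ.rowLen).Nonempty := by
      rw [← Finset.card_pos]
      omega
    obtain ⟨l, hl⟩ := hne
    rw [Finset.mem_image] at hl
    obtain ⟨r, hr, _⟩ := hl
    have h1 := hrow r (Finset.mem_range.mp hr)
    rw [hR0, Nat.zero_mul] at h1
    omega
  obtain ⟨C, Ψ, N1, hC0, hC, hΨ, hpar⟩ := exists_params s R hs hR
  obtain ⟨F, hF, N2, hTDex⟩ := exists_TD s R hs hR Ψ hΨ
  refine ⟨max N2 (F.sup N1), ?_⟩
  intro N hN μ hcard hrow hcol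
  obtain ⟨g, h, hS, hS', hm, hn, hgr, hhr⟩ := shape_data μ s hcard
  have hg : Comp s R N g := by
    intro i h1 h2
    obtain ⟨r, hr, he⟩ := hgr i h1 h2
    rw [he]
    exact hrow r hr
  have hh : Comp s R N h := by
    intro i h1 h2
    obtain ⟨r, hr, he⟩ := hhr i h1 h2
    rw [he]
    exact hcol r hr
  set al := gcut (μ.colLen 0) μ.rowLen with hal
  have hIs : IsAl s g h al := gcut_isAl μ s g h hS hm hn
  obtain ⟨η, hηF, p, lo, hi, sig, hTD⟩ := hTDex N ((le_max_left _ _).trans hN) g h al hg hh hIs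
  obtain ⟨hη0, hη1⟩ := hF η hηF
  obtain ⟨hψη, hpar'⟩ := hpar η hη0 hη1
  have hK0le : ((max (cs g s) (cs h s) : ℕ) : ℝ) ≤ s * R * N := by
    have h1 := L5.cs_top hg (le_refl s)
    have h2 := L5.cs_top hh (le_refl s)
    rw [Nat.cast_max]
    exact max_le h1 h2
  have hN1 : N1 η ≤ N := (Finset.le_sup hηF).trans ((le_max_right _ _).trans hN)
  have hpb : ∀ N', N' = N → 0 < N → (p : ℝ) * η ≤ s * R := by
    intro N' _ hNpos
    have h1 := p_bound s g h al N η (Ψ η) _ p lo hi sig hTD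
    have h2 : (0 : ℝ) < N := by exact_mod_cast hNpos
    have h3 : (p : ℝ) * η * N ≤ (s : ℝ) * R * N := by
      calc (p : ℝ) * η * N = p * (η * N) := by ring
        _ ≤ _ := h1.trans hK0le
    exact le_of_mul_le_mul_right h3 h2
  have hNpos : 0 < N := by
    have h1 := hpar' N 0 hN1 (by
      have h1 : (0 : ℝ) < s := by exact_mod_cast hs
      have h2 : (0 : ℝ) < R := by exact_mod_cast hR
      push_cast
      rw [zero_mul]
      positivity)
    exact h1.1
  obtain ⟨_, hηN, hbig⟩ := hpar' N p hN1 (hpb N rfl hNpos)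
  have hanti : Antitone μ.rowLen := fun i j hij => μ.rowLen_anti i j hij
  obtain ⟨X, Y, hTS, hLS⟩ := real_some s R hs hR g h al μ.rowLen N η (Ψ η) _ p lo hi sig hNpos
    hg hh hIs rfl hS hanti (fun i => by rw [hn]; exact hanti (Nat.zero_le i)) hη0 hη1
    (hΨ η hη0).le hψη hηN hTD
  obtain ⟨z, y, z0, z1, z2, z3, z4, y2, y3, y4⟩ := int_tables s R hs hR p (C p) (hC0 p) (hC p)
    g h al N η (Ψ η) _ lo hi sig hNpos hg hh hIs rfl hη0 hη1 (hΨ η hη0).le hψη hTD X Y hTS
    (eps s R p η * (N : ℝ) ^ 2) hLS hbig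
  exact cds_of_int μ s R hs g h N hNpos hg hh hS hS' hm hn η (Ψ η) p lo hi sig hηN al hal hIs hTD
    z y z0 z1 z2 z3 z4 y2 y3 y4

end Pool.MP_d56194_co
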